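import Pool.Agent.H67.ES.MsDef

/-! # ES.StSc : scaling of matrices, top coefficients (about 120 lines)

`scale c M = !![M 0 0, C c⁻¹ * M 0 1; C c * M 1 0, M 1 1]`: entrywise (`ext i j; fin_cases i <;> fin_cases j`), `det (scale c M) = det M` (`Matrix.det_fin_two`).  `st_scale`: all fields of `St` are about single entries (`eval_mul`, `natDegree_C_mul_le`).
`st_top`: `F` is infinite, so `s00` gives `(M 0 0).comp (-X) = M 1 1` (`funext`), the coefficient at `2 k` is `(-1)^(2k) (M 0 0).coeff (2k)` (`coeff_comp_neg_X`, or compare with `∑`).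
The coefficient of `X^(4k)` of `M.det = M 0 0 * M 1 1 - M 0 1 * M 1 0` is `c00 c11 - c01 c10` (`coeff_mul_degree_add_degree`-like: `Polynomial.coeff_mul_of_natDegree_le`), that of the right hand side of `St.det`
(a product over the multiset of polynomials of degree `≤ 4` with `X^4`-coefficient `c.1^3`) is `∏ c.1^3` (induction on the multiset with `coeff_mul_of_natDegree_le`, `Multiset.card s = k`). -/

namespace ES

open Polynomial H68.BB

variable {F : Type} [Field F]

private theorem ss_00 (c : F) (M : Mat F) : scale c M 0 0 = M 0 0 := rfl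
private theorem ss_01 (c : F) (M : Mat F) : scale c M 0 1 = C c⁻¹ * M 0 1 := rfl
private theorem ss_10 (c : F) (M : Mat F) : scale c M 1 0 = C c * M 1 0 := rfl
private theorem ss_11 (c : F) (M : Mat F) : scale c M 1 1 = M 1 1 := rfl

private theorem ss_ext {M N : Mat F} (h00 : M 0 0 = N 0 0) (h01 : M 0 1 = N 0 1) (h10 : M 1 0 = N 1 0)
    (h11 : M 1 1 = N 1 1) : M = N := by
  ext1 i j
  fin_cases i <;> fin_cases j
  · exact h00
  · exact h01
  · exact h10
  · exact h11

theorem scale_one (M : Mat F) : scale 1 M = M := by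
  refine ss_ext (ss_00 _ _) ?_ ?_ (ss_11 _ _)
  · rw [ss_01, inv_one, C_1, one_mul]
  · rw [ss_10, C_1, one_mul]

theorem scale_scale (c d : F) (M : Mat F) : scale c (scale d M) = scale (c * d) M := by
  refine ss_ext ?_ ?_ ?_ ?_
  · rw [ss_00, ss_00, ss_00]
  · rw [ss_01, ss_01, ss_01, ← mul_assoc, ← C_mul, mul_inv]
  · rw [ss_10, ss_10, ss_10, ← mul_assoc, ← C_mul]
  · rw [ss_11, ss_11, ss_11]

private theorem ss_det {c : F} (hc : c ≠ 0) (M : Mat F) : (scale c M).det = M.det := by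
  have h1 : (C c⁻¹ : F[X]) * C c = 1 := by rw [← C_mul, inv_mul_cancel₀ hc, C_1]
  rw [Matrix.det_fin_two, Matrix.det_fin_two, ss_00, ss_01, ss_10, ss_11]
  linear_combination -(M 0 1 * M 1 0) * h1

theorem st_scale {k : ℕ} {s : Multiset (F × F)} {M : Mat F} (h : St k s M) {c : F} (hc : c ≠ 0) : St k s (scale c M) := by
  refine ⟨h.card, ?_, ?_, ?_, ?_, ?_, ?_, ?_, ?_, ?_⟩
  · intro i j
    fin_cases i <;> fin_cases j
    · exact h.deg 0 0
    · exact (natDegree_C_mul_le _ _).trans (h.deg 0 1)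
    · exact (natDegree_C_mul_le _ _).trans (h.deg 1 0)
    · exact h.deg 1 1
  · intro x
    rw [ss_00, ss_11]; exact h.s00 x
  · intro x
    rw [ss_01, eval_mul, eval_mul, eval_C, eval_C, h.s01 x]
  · intro x
    rw [ss_10, eval_mul, eval_mul, eval_C, eval_C, h.s10 x]
  · intro x hx
    rw [ss_00]; exact h.r00 x hx
  · intro x hx
    rw [ss_01, eval_mul, eval_mul, eval_C, eval_C]
    linear_combination c⁻¹ * h.r01 x hx
  · intro x hx
    rw [ss_10, eval_mul, eval_mul, eval_C, eval_C]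
    linear_combination c * h.r10 x hx
  · rw [ss_det hc, h.det]
  · intro i hi
    rw [ss_00]; exact h.ev i hi

private theorem ss_prod (s : Multiset (F × F)) :
    (s.map (fun c => C (c.1 ^ 3) * (X ^ 2 + 1) ^ 2 - C (4 * c.2 ^ 2) * X ^ 2 : F × F → F[X])).prod.natDegree ≤ 4 * Multiset.card s ∧
    (s.map (fun c => C (c.1 ^ 3) * (X ^ 2 + 1) ^ 2 - C (4 * c.2 ^ 2) * X ^ 2 : F × F → F[X])).prod.coeff (4 * Multiset.card s) =
      (s.map Prod.fst).prod ^ 3 := by
  induction s using Multiset.induction_on with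
  | empty => simp
  | cons c s ih =>
    obtain ⟨h1, h2⟩ := ih
    have e : (C (c.1 ^ 3) * (X ^ 2 + 1) ^ 2 - C (4 * c.2 ^ 2) * X ^ 2 : F[X]) =
        C (c.1 ^ 3) * X ^ 4 + C (2 * c.1 ^ 3 - 4 * c.2 ^ 2) * X ^ 2 + C (c.1 ^ 3) := by
      simp only [C_sub, C_mul, map_ofNat]
      ring
    have hd : (C (c.1 ^ 3) * (X ^ 2 + 1) ^ 2 - C (4 * c.2 ^ 2) * X ^ 2 : F[X]).natDegree ≤ 4 := by
      rw [e]; compute_degree
    have hc : (C (c.1 ^ 3) * (X ^ 2 + 1) ^ 2 - C (4 * c.2 ^ 2) * X ^ 2 : F[X]).coeff 4 = c.1 ^ 3 := by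
      rw [e, coeff_add, coeff_add, coeff_C_mul, coeff_C_mul, coeff_X_pow, coeff_X_pow, coeff_C]
      norm_num
    have hcard : 4 * Multiset.card (c ::ₘ s) = 4 + 4 * Multiset.card s := by
      rw [Multiset.card_cons]; ring
    rw [Multiset.map_cons, Multiset.prod_cons, Multiset.map_cons, Multiset.prod_cons, hcard]
    refine ⟨(natDegree_mul_le).trans (add_le_add hd h1), ?_⟩
    rw [coeff_mul_add_eq_of_natDegree_le hd h1, hc, h2]
    ring

theorem st_top [CharZero F] {k : ℕ} {s : Multiset (F × F)} {M : Mat F} (h : St k s M) :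
    (M 1 1).coeff (2 * k) = (M 0 0).coeff (2 * k) ∧
      (M 0 1).coeff (2 * k) * (M 1 0).coeff (2 * k) = (M 0 0).coeff (2 * k) ^ 2 - (s.map Prod.fst).prod ^ 3 := by
  have e : (M 0 0).comp (C (-1) * X) = M 1 1 := by
    refine Polynomial.funext fun x => ?_
    rw [eval_comp, eval_mul, eval_C, eval_X, neg_one_mul]
    exact h.s00 x
  have h11 : (M 1 1).coeff (2 * k) = (M 0 0).coeff (2 * k) := by
    rw [← e, comp_C_mul_X_coeff, pow_mul, neg_one_sq, one_pow, mul_one]
  refine ⟨h11, ?_⟩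
  have h1 := congrArg (fun p => p.coeff (2 * k + 2 * k)) h.det
  simp only [Matrix.det_fin_two, coeff_sub] at h1
  rw [coeff_mul_add_eq_of_natDegree_le (h.deg 0 0) (h.deg 1 1),
    coeff_mul_add_eq_of_natDegree_le (h.deg 0 1) (h.deg 1 0)] at h1
  have h2 := (ss_prod s).2
  have h3 : 4 * Multiset.card s = 2 * k + 2 * k := by rw [h.card]; ring
  rw [h3] at h2
  have h4 : (M 0 0).coeff (2 * k) * (M 1 1).coeff (2 * k) - (M 0 1).coeff (2 * k) * (M 1 0).coeff (2 * k) =
      (s.map Prod.fst).prod ^ 3 := h1.trans h2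
  rw [h11] at h4
  linear_combination -h4

end ES
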