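import Pool.Agent.H67.ES.Mdef

/-! # ES.Top : the leading coefficients of `XX f` in terms of the total vertex (about 120 lines)

Let `B_u = [[p, ms],[m, ps]]` (leading coefficient of `LL u`), `B'_u = [[ps, ms],[m, p]]` (leading coefficient of `LS u`).
`B_u B_T = 2 B_(uT)` and `B'_T B'_u = 2 B'_(uT)` where `uT = (u.w T.w, u.v T.v, u.w^3 T.y + u.y T.v^3)` (polynomial identities).  Induction: the coefficients of degree `2k` of
`XX f` are the entries of `B_T B'_T / 4`, `T = tot f`: `(p ps + m ms)/4 = (w^6+v^6-y^2)/2`, `2 p ms / 4 = (w^6-(y+v^3)^2)/2`, `2 m ps / 4 = (w^6-(y-v^3)^2)/2`; all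
entries of `XX f` have `natDegree ≤ 2 k` (prove it in the same induction), so the coefficient of degree `2k+2` of `LL M LS` only sees leading coefficients.
Last statement: `tot (f ++ g)` is the product of `tot f` and `tot g`. -/

namespace ES

open Polynomial H68.BB

private def tpL {F : Type} [Field F] (u : Vtx F) : Matrix (Fin 2) (Fin 2) F :=
  !![u.p, u.ms; u.m, u.ps]

private def tpS {F : Type} [Field F] (u : Vtx F) : Matrix (Fin 2) (Fin 2) F :=
  !![u.ps, u.ms; u.m, u.p]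

private def tpe {F : Type} [Field F] : Matrix (Fin 2) (Fin 2) F := !![-1, 1; 1, -1]

private theorem tp_LL {F : Type} [Field F] (u : Vtx F) (i j : Fin 2) :
    u.LL i j = C (tpL u i j) * (X + C (tpe i j)) := by
  fin_cases i <;> fin_cases j <;>
    simp [Vtx.LL, tpL, tpe, sub_eq_add_neg]

private theorem tp_LS {F : Type} [Field F] (u : Vtx F) (i j : Fin 2) :
    u.LS i j = C (tpS u i j) * (X + C (-tpe i j)) := by
  fin_cases i <;> fin_cases j <;>
    simp [Vtx.LS, tpS, tpe, sub_eq_add_neg]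

private theorem tp_coeff {F : Type} [Field F] {P : F[X]} {n : ℕ} (hP : P.natDegree ≤ n)
    (α β e e' : F) :
    (C α * (X + C e) * P * (C β * (X + C e'))).natDegree ≤ n + 2 ∧
      (C α * (X + C e) * P * (C β * (X + C e'))).coeff (n + 2) = α * P.coeff n * β := by
  have e1 : C α * (X + C e) * P * (C β * (X + C e')) =
      C (α * β) * (X ^ 2 * P) + C (α * β * (e + e')) * (X * P) + C (α * β * (e * e')) * P := by
    simp only [C_mul, C_add]
    ring
  have h1 : P.coeff (n + 1) = 0 := coeff_eq_zero_of_natDegree_lt (by omega)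
  have h2 : P.coeff (n + 2) = 0 := coeff_eq_zero_of_natDegree_lt (by omega)
  rw [e1]
  refine ⟨?_, ?_⟩
  · refine (natDegree_add_le _ _).trans (max_le ((natDegree_add_le _ _).trans (max_le ?_ ?_)) ?_)
    · refine (natDegree_C_mul_le _ _).trans ((natDegree_mul_le).trans ?_)
      rw [natDegree_X_pow]
      omega
    · refine (natDegree_C_mul_le _ _).trans ((natDegree_mul_le).trans ?_)
      rw [natDegree_X]
      omega
    · exact (natDegree_C_mul_le _ _).trans (by omega)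
  · rw [coeff_add, coeff_add, coeff_C_mul, coeff_C_mul, coeff_C_mul, coeff_X_pow_mul,
      show n + 2 = (n + 1) + 1 from rfl, coeff_X_mul, h1, show n + 1 + 1 = n + 2 from rfl, h2]
    ring

private theorem tp_sand {F : Type} [Field F] (u : Vtx F) (M : Matrix (Fin 2) (Fin 2) F[X]) {n : ℕ}
    (hM : ∀ i j, (M i j).natDegree ≤ n) (i j : Fin 2) :
    (u.sand M i j).natDegree ≤ n + 2 ∧ (u.sand M i j).coeff (n + 2) = 4⁻¹ *
      ((tpL u i 0 * (M 0 0).coeff n + tpL u i 1 * (M 1 0).coeff n) * tpS u 0 j +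
        (tpL u i 0 * (M 0 1).coeff n + tpL u i 1 * (M 1 1).coeff n) * tpS u 1 j) := by
  have e : u.sand M i j = C 4⁻¹ * (
      C (tpL u i 0) * (X + C (tpe i 0)) * M 0 0 * (C (tpS u 0 j) * (X + C (-tpe 0 j))) +
      C (tpL u i 1) * (X + C (tpe i 1)) * M 1 0 * (C (tpS u 0 j) * (X + C (-tpe 0 j))) +
      (C (tpL u i 0) * (X + C (tpe i 0)) * M 0 1 * (C (tpS u 1 j) * (X + C (-tpe 1 j))) +
      C (tpL u i 1) * (X + C (tpe i 1)) * M 1 1 * (C (tpS u 1 j) * (X + C (-tpe 1 j))))) := by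
    unfold Vtx.sand
    rw [Matrix.smul_apply, Matrix.mul_apply, Fin.sum_univ_two, Matrix.mul_apply, Matrix.mul_apply,
      Fin.sum_univ_two, Fin.sum_univ_two, tp_LL, tp_LL, tp_LS, tp_LS, smul_eq_mul]
    ring
  rw [e]
  have a00 := tp_coeff (hM 0 0) (tpL u i 0) (tpS u 0 j) (tpe i 0) (-tpe 0 j)
  have a10 := tp_coeff (hM 1 0) (tpL u i 1) (tpS u 0 j) (tpe i 1) (-tpe 0 j)
  have a01 := tp_coeff (hM 0 1) (tpL u i 0) (tpS u 1 j) (tpe i 0) (-tpe 1 j)
  have a11 := tp_coeff (hM 1 1) (tpL u i 1) (tpS u 1 j) (tpe i 1) (-tpe 1 j)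
  refine ⟨?_, ?_⟩
  · refine (natDegree_C_mul_le _ _).trans ((natDegree_add_le _ _).trans (max_le ?_ ?_))
    · exact (natDegree_add_le _ _).trans (max_le a00.1 a10.1)
    · exact (natDegree_add_le _ _).trans (max_le a01.1 a11.1)
  · rw [coeff_C_mul, coeff_add, coeff_add, coeff_add, a00.2, a10.2, a01.2, a11.2]
    ring

private theorem tp_main {F : Type} [Field F] [CharZero F] (f : List (Vtx F)) :
    (∀ i j, (XX f i j).natDegree ≤ 2 * f.length) ∧
    (XX f 0 0).coeff (2 * f.length) = ((tot f).w ^ 6 + (tot f).v ^ 6 - (tot f).y ^ 2) / 2 ∧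
    (XX f 1 1).coeff (2 * f.length) = ((tot f).w ^ 6 + (tot f).v ^ 6 - (tot f).y ^ 2) / 2 ∧
    (XX f 0 1).coeff (2 * f.length) = ((tot f).w ^ 6 - ((tot f).y + (tot f).v ^ 3) ^ 2) / 2 ∧
    (XX f 1 0).coeff (2 * f.length) = ((tot f).w ^ 6 - ((tot f).y - (tot f).v ^ 3) ^ 2) / 2 := by
  induction f with
  | nil =>
    have h00 : (XX ([] : List (Vtx F))) 0 0 = 1 := rfl
    have h11 : (XX ([] : List (Vtx F))) 1 1 = 1 := rfl
    have h01 : (XX ([] : List (Vtx F))) 0 1 = 0 := rfl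
    have h10 : (XX ([] : List (Vtx F))) 1 0 = 0 := rfl
    refine ⟨?_, ?_, ?_, ?_, ?_⟩
    · intro i j
      fin_cases i <;> fin_cases j
      · show ((XX ([] : List (Vtx F))) 0 0).natDegree ≤ _
        rw [h00, natDegree_one]
        exact Nat.zero_le _
      · show ((XX ([] : List (Vtx F))) 0 1).natDegree ≤ _
        rw [h01, natDegree_zero]
        exact Nat.zero_le _
      · show ((XX ([] : List (Vtx F))) 1 0).natDegree ≤ _
        rw [h10, natDegree_zero]
        exact Nat.zero_le _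
      · show ((XX ([] : List (Vtx F))) 1 1).natDegree ≤ _
        rw [h11, natDegree_one]
        exact Nat.zero_le _
    · rw [h00]
      simp [tot]
    · rw [h11]
      simp [tot]
    · rw [h01]
      simp [tot]
    · rw [h10]
      simp [tot]
  | cons u f ih =>
    obtain ⟨h0, h00, h11, h01, h10⟩ := ih
    have hl : 2 * (u :: f).length = 2 * f.length + 2 := by
      rw [List.length_cons]
      ring
    have hX : XX (u :: f) = u.sand (XX f) := rfl
    have hT : tot (u :: f) = ⟨u.w * (tot f).w, u.v * (tot f).v,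
      u.w ^ 3 * (tot f).y + u.y * (tot f).v ^ 3⟩ := rfl
    have hs := fun i j => tp_sand u (XX f) h0 i j
    have c00 : ∀ v : Vtx F, tpL v 0 0 = v.p := fun _ => rfl
    have c01 : ∀ v : Vtx F, tpL v 0 1 = v.ms := fun _ => rfl
    have c10 : ∀ v : Vtx F, tpL v 1 0 = v.m := fun _ => rfl
    have c11 : ∀ v : Vtx F, tpL v 1 1 = v.ps := fun _ => rfl
    have d00 : ∀ v : Vtx F, tpS v 0 0 = v.ps := fun _ => rfl
    have d01 : ∀ v : Vtx F, tpS v 0 1 = v.ms := fun _ => rfl
    have d10 : ∀ v : Vtx F, tpS v 1 0 = v.m := fun _ => rfl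
    have d11 : ∀ v : Vtx F, tpS v 1 1 = v.p := fun _ => rfl
    rw [hl, hX, hT]
    refine ⟨fun i j => (hs i j).1, ?_, ?_, ?_, ?_⟩
    · rw [(hs 0 0).2, h00, h11, h01, h10, c00, c01, d00, d10]
      simp only [Vtx.p, Vtx.ps, Vtx.m, Vtx.ms]
      field_simp
      ring
    · rw [(hs 1 1).2, h00, h11, h01, h10, c10, c11, d01, d11]
      simp only [Vtx.p, Vtx.ps, Vtx.m, Vtx.ms]
      field_simp
      ring
    · rw [(hs 0 1).2, h00, h11, h01, h10, c00, c01, d01, d11]
      simp only [Vtx.p, Vtx.ps, Vtx.m, Vtx.ms]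
      field_simp
      ring
    · rw [(hs 1 0).2, h00, h11, h01, h10, c10, c11, d00, d10]
      simp only [Vtx.p, Vtx.ps, Vtx.m, Vtx.ms]
      field_simp
      ring

variable {F : Type} [Field F] [CharZero F]

theorem XX_top (f : List (Vtx F)) :
    (XX f 0 0).coeff (2 * f.length) = ((tot f).w ^ 6 + (tot f).v ^ 6 - (tot f).y ^ 2) / 2 ∧
    (XX f 1 1).coeff (2 * f.length) = ((tot f).w ^ 6 + (tot f).v ^ 6 - (tot f).y ^ 2) / 2 ∧
    (XX f 0 1).coeff (2 * f.length) = ((tot f).w ^ 6 - ((tot f).y + (tot f).v ^ 3) ^ 2) / 2 ∧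
    (XX f 1 0).coeff (2 * f.length) = ((tot f).w ^ 6 - ((tot f).y - (tot f).v ^ 3) ^ 2) / 2 :=
  (tp_main f).2

omit [CharZero F] in
theorem tot_append (f g : List (Vtx F)) : tot (f ++ g) =
    ⟨(tot f).w * (tot g).w, (tot f).v * (tot g).v, (tot f).w ^ 3 * (tot g).y + (tot f).y * (tot g).v ^ 3⟩ := by
  induction f with
  | nil =>
    have h : tot ([] : List (Vtx F)) = ⟨1, 1, 0⟩ := rfl
    rw [List.nil_append, h]
    ext <;> simp
  | cons u f ih =>
    have hT : ∀ l : List (Vtx F), tot (u :: l) = ⟨u.w * (tot l).w, u.v * (tot l).v,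
      u.w ^ 3 * (tot l).y + u.y * (tot l).v ^ 3⟩ := fun _ => rfl
    rw [List.cons_append, hT, hT, ih]
    ext
    · show u.w * ((tot f).w * (tot g).w) = u.w * (tot f).w * (tot g).w
      ring
    · show u.v * ((tot f).v * (tot g).v) = u.v * (tot f).v * (tot g).v
      ring
    · show u.w ^ 3 * ((tot f).w ^ 3 * (tot g).y + (tot f).y * (tot g).v ^ 3) +
        u.y * ((tot f).v * (tot g).v) ^ 3 = (u.w * (tot f).w) ^ 3 * (tot g).y +
          (u.w ^ 3 * (tot f).y + u.y * (tot f).v ^ 3) * (tot g).v ^ 3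
      ring

end ES
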