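import Pool.Agent.H67.ES.Mdef

/-! # ES.Vlem : elementary lemmas on vertices

`p ps = (w^3+v^3)^2 - y^2 = 2 (b + α)`, `m ms = (w^3-v^3)^2 - y^2 = 2 (b - α)` (definition of `ab`), `al^2 = (w v)^6 = a^3`. -/

namespace ES

open Polynomial H68.BB

variable {F : Type} [Field F] [CharZero F]

theorem p_mul_ps (u : Vtx F) : u.p * u.ps = 2 * (u.ab.2 + u.al) := by
  have h2 : (2 : F) ≠ 0 := two_ne_zero
  unfold Vtx.p Vtx.ps Vtx.ab Vtx.al
  simp only
  field_simp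
  ring

theorem m_mul_ms (u : Vtx F) : u.m * u.ms = 2 * (u.ab.2 - u.al) := by
  have h2 : (2 : F) ≠ 0 := two_ne_zero
  unfold Vtx.m Vtx.ms Vtx.ab Vtx.al
  simp only
  field_simp
  ring

theorem al_sq (u : Vtx F) : u.al ^ 2 = u.ab.1 ^ 3 := by
  unfold Vtx.ab Vtx.al
  ring

omit [CharZero F] in
private theorem c2 : (C 2 : F[X]) = 2 := map_ofNat C 2

omit [CharZero F] in
private theorem c4 : (C 4 : F[X]) = 4 := map_ofNat C 4

theorem det_LL (u : Vtx F) : u.LL.det = C 4 * (C u.al * (X ^ 2 + 1) - C (2 * u.ab.2) * X) := by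
  have h1 : (C u.p * C u.ps : F[X]) = 2 * (C u.ab.2 + C u.al) := by
    rw [← C_mul, p_mul_ps, C_mul, c2, C_add]
  have h2 : (C u.m * C u.ms : F[X]) = 2 * (C u.ab.2 - C u.al) := by
    rw [← C_mul, m_mul_ms, C_mul, c2, C_sub]
  have h4 : (C 4 : F[X]) = 4 := c4
  have h5 : (C (2 * u.ab.2) : F[X]) = 2 * C u.ab.2 := by rw [C_mul, c2]
  unfold Vtx.LL
  rw [Matrix.det_fin_two_of, h4, h5]
  linear_combination (X - 1) ^ 2 * h1 - (X + 1) ^ 2 * h2

theorem det_LS (u : Vtx F) : u.LS.det = C 4 * (C u.al * (X ^ 2 + 1) + C (2 * u.ab.2) * X) := by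
  have h1 : (C u.p * C u.ps : F[X]) = 2 * (C u.ab.2 + C u.al) := by
    rw [← C_mul, p_mul_ps, C_mul, c2, C_add]
  have h2 : (C u.m * C u.ms : F[X]) = 2 * (C u.ab.2 - C u.al) := by
    rw [← C_mul, m_mul_ms, C_mul, c2, C_sub]
  have h4 : (C 4 : F[X]) = 4 := c4
  have h5 : (C (2 * u.ab.2) : F[X]) = 2 * C u.ab.2 := by rw [C_mul, c2]
  unfold Vtx.LS
  rw [Matrix.det_fin_two_of, h4, h5]
  linear_combination (X + 1) ^ 2 * h1 - (X - 1) ^ 2 * h2

/-- the four numbers are nonzero over a nondegenerate label -/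
theorem ND.ne {u : Vtx F} (h : ND u.ab) :
    u.al ≠ 0 ∧ u.w ≠ 0 ∧ u.v ≠ 0 ∧ u.p ≠ 0 ∧ u.ps ≠ 0 ∧ u.m ≠ 0 ∧ u.ms ≠ 0 ∧ u.LL.det ≠ 0 ∧ u.LS.det ≠ 0 := by
  have ha := al_sq u
  have hal : u.al ≠ 0 := by
    intro h0
    rw [h0] at ha
    apply h.a
    have : u.ab.1 ^ 3 = 0 := by rw [← ha]; ring
    exact pow_eq_zero_iff (by norm_num) |>.1 this
  have hwv : u.w * u.v ≠ 0 := by
    intro h0
    apply hal
    unfold Vtx.al
    rw [h0]; ring
  have hd : (u.ab.2 + u.al) * (u.ab.2 - u.al) ≠ 0 := by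
    intro h0
    apply h.d
    rw [← ha]
    linear_combination h0
  have hp : u.p * u.ps ≠ 0 := by
    rw [p_mul_ps]
    exact mul_ne_zero two_ne_zero (left_ne_zero_of_mul hd)
  have hm : u.m * u.ms ≠ 0 := by
    rw [m_mul_ms]
    exact mul_ne_zero two_ne_zero (right_ne_zero_of_mul hd)
  refine ⟨hal, left_ne_zero_of_mul hwv, right_ne_zero_of_mul hwv, left_ne_zero_of_mul hp, right_ne_zero_of_mul hp,
    left_ne_zero_of_mul hm, right_ne_zero_of_mul hm, ?_, ?_⟩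
  · intro h0
    rw [det_LL] at h0
    have h1 := congrArg (fun p : F[X] => p.eval 0) h0
    simp at h1
    exact hal h1
  · intro h0
    rw [det_LS] at h0
    have h1 := congrArg (fun p : F[X] => p.eval 0) h0
    simp at h1
    exact hal h1

omit [CharZero F] in
private theorem z6_ne {z : F} (hz : z ^ 6 = 1) : z ≠ 0 := by
  rintro rfl
  norm_num at hz

omit [CharZero F] in
private theorem z6_inv {z : F} (hz : z ^ 6 = 1) : z⁻¹ ^ 3 = z ^ 3 := by
  rw [inv_pow]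
  exact inv_eq_of_mul_eq_one_left (by rw [← hz]; ring)

theorem ab_rot (u : Vtx F) {z : F} (hz : z ^ 6 = 1) : (u.rot z).ab = u.ab := by
  have h0 := z6_ne hz
  have hi : z⁻¹ ^ 3 = z ^ 3 := z6_inv hz
  have e1 : z * u.w * (z⁻¹ * u.v) = u.w * u.v := by field_simp
  have e2 : (z * u.w) ^ 6 = u.w ^ 6 := by rw [mul_pow, hz, one_mul]
  have e3 : (z⁻¹ * u.v) ^ 6 = u.v ^ 6 := by rw [mul_pow, inv_pow, hz, inv_one, one_mul]
  have e4 : (z ^ 3 * u.y) ^ 2 = u.y ^ 2 := by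
    have : (z ^ 3) ^ 2 = 1 := by rw [← hz]; ring
    rw [mul_pow, this, one_mul]
  unfold Vtx.rot Vtx.ab
  simp only
  rw [e1, e2, e3, e4]

theorem al_rot (u : Vtx F) {z : F} (hz : z ^ 6 = 1) : (u.rot z).al = u.al := by
  have h0 := z6_ne hz
  have e1 : z * u.w * (z⁻¹ * u.v) = u.w * u.v := by field_simp
  unfold Vtx.rot Vtx.al
  simp only
  rw [e1]

theorem sand_rot (u : Vtx F) {z : F} (hz : z ^ 6 = 1) (M : Mat F) : (u.rot z).sand M = u.sand M := by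
  have h0 := z6_ne hz
  have hi : z⁻¹ ^ 3 = z ^ 3 := z6_inv hz
  have hp : (u.rot z).p = z ^ 3 * u.p := by
    unfold Vtx.p Vtx.rot
    simp only
    rw [mul_pow, mul_pow, hi]; ring
  have hps : (u.rot z).ps = z ^ 3 * u.ps := by
    unfold Vtx.ps Vtx.rot
    simp only
    rw [mul_pow, mul_pow, hi]; ring
  have hm : (u.rot z).m = z ^ 3 * u.m := by
    unfold Vtx.m Vtx.rot
    simp only
    rw [mul_pow, mul_pow, hi]; ring
  have hms : (u.rot z).ms = z ^ 3 * u.ms := by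
    unfold Vtx.ms Vtx.rot
    simp only
    rw [mul_pow, mul_pow, hi]; ring
  have hL : (u.rot z).LL = (C (z ^ 3) : F[X]) • u.LL := by
    unfold Vtx.LL
    rw [hp, hps, hm, hms]
    ext1 i j
    fin_cases i <;> fin_cases j <;> simp [mul_assoc]
  have hS : (u.rot z).LS = (C (z ^ 3) : F[X]) • u.LS := by
    unfold Vtx.LS
    rw [hp, hps, hm, hms]
    ext1 i j
    fin_cases i <;> fin_cases j <;> simp [mul_assoc]
  unfold Vtx.sand
  have e : (C (z ^ 3) : F[X]) * C (z ^ 3) = 1 := by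
    have e' : z ^ 3 * z ^ 3 = 1 := by rw [← hz]; ring
    rw [← C_mul, e', C_1]
  rw [hL, hS, Matrix.smul_mul, Matrix.smul_mul, Matrix.mul_smul]
  congr 1
  rw [smul_smul, e, one_smul]

theorem ab_flip (u : Vtx F) : u.flip.ab = u.ab := by
  unfold Vtx.flip Vtx.ab
  simp only
  congr 1
  · ring
  · congr 1
    ring

theorem al_flip (u : Vtx F) : u.flip.al = -u.al := by
  unfold Vtx.flip Vtx.al
  ring

omit [CharZero F] in
private theorem mat_ext {a b c d a' b' c' d' : F[X]} (h1 : a = a') (h2 : b = b') (h3 : c = c') (h4 : d = d') :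
    !![a, b; c, d] = !![a', b'; c', d'] := by rw [h1, h2, h3, h4]

theorem sand_flip_one (u : Vtx F) : u.flip.sand 1 = u.sand 1 := by
  have hp : u.flip.p = u.ms := by unfold Vtx.flip Vtx.p Vtx.ms; ring
  have hps : u.flip.ps = u.m := by unfold Vtx.flip Vtx.ps Vtx.m; ring
  have hm : u.flip.m = u.ps := by unfold Vtx.flip Vtx.m Vtx.ps; ring
  have hms : u.flip.ms = u.p := by unfold Vtx.flip Vtx.ms Vtx.p; ring
  unfold Vtx.sand Vtx.LL Vtx.LS
  rw [hp, hps, hm, hms, Matrix.mul_one, Matrix.mul_one, Matrix.mul_fin_two, Matrix.mul_fin_two]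
  congr 1
  apply mat_ext <;> ring

theorem sand_inj {u : Vtx F} (h : ND u.ab) {M M' : Mat F} (hM : u.sand M = u.sand M') : M = M' := by
  obtain ⟨-, -, -, -, -, -, -, hL, hS⟩ := h.ne
  unfold Vtx.sand at hM
  have h4 : (C (4⁻¹ : F) : F[X]) ≠ 0 := by
    rw [Ne, C_eq_zero]
    exact inv_ne_zero (by norm_num : (4 : F) ≠ 0)
  have h1 := smul_right_injective (Mat F) h4 hM
  have h1' : u.LL * M * u.LS = u.LL * M' * u.LS := h1
  have h2 : u.LL.adjugate * (u.LL * M * u.LS) * u.LS.adjugate = u.LL.adjugate * (u.LL * M' * u.LS) * u.LS.adjugate := by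
    rw [h1']
  have e : ∀ A : Mat F, u.LL.adjugate * (u.LL * A * u.LS) * u.LS.adjugate = (u.LL.det * u.LS.det) • A := by
    intro A
    have e1 : u.LL.adjugate * (u.LL * A * u.LS) * u.LS.adjugate = (u.LL.adjugate * u.LL) * A * (u.LS * u.LS.adjugate) := by
      simp only [Matrix.mul_assoc]
    rw [e1, Matrix.adjugate_mul, Matrix.mul_adjugate, Matrix.smul_mul, Matrix.one_mul, Matrix.smul_mul, Matrix.mul_smul,
      Matrix.mul_one, smul_smul]
  rw [e, e] at h2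
  exact smul_right_injective (Mat F) (mul_ne_zero hL hS) h2

theorem det_sand (u : Vtx F) (M : Mat F) :
    (u.sand M).det = (C (u.ab.1 ^ 3) * (X ^ 2 + 1) ^ 2 - C (4 * u.ab.2 ^ 2) * X ^ 2) * M.det := by
  unfold Vtx.sand
  rw [Matrix.det_smul, Matrix.det_mul, Matrix.det_mul, det_LL, det_LS, ← al_sq]
  have h4 : (C (4⁻¹ : F) : F[X]) * C 4 = 1 := by
    rw [← C_mul, inv_mul_cancel₀ (by norm_num : (4 : F) ≠ 0), C_1]
  have h5 : (C (2 * u.ab.2) : F[X]) = 2 * C u.ab.2 := by rw [C_mul, c2]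
  have h6 : (C (4 * u.ab.2 ^ 2) : F[X]) = 4 * C u.ab.2 ^ 2 := by rw [C_mul, c4, C_pow]
  have h7 : (C (u.al ^ 2) : F[X]) = C u.al ^ 2 := C_pow
  rw [h5, h6, h7, Fintype.card_fin]
  linear_combination (C (4⁻¹ : F) * C 4 + 1) * ((C u.al * (X ^ 2 + 1) - 2 * C u.ab.2 * X) * M.det * (C u.al * (X ^ 2 + 1) + 2 * C u.ab.2 * X)) * h4

/-- `w v = α / a` -/
theorem wv_eq {u : Vtx F} (h : ND u.ab) : u.w * u.v = u.al / u.ab.1 := by
  rw [eq_div_iff h.a]
  unfold Vtx.al Vtx.ab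
  ring

/-- a vertex with a given `w` and `α`: the other coordinates -/
theorem vtx_ext {u u' : Vtx F} (h : ND u.ab) (hab : u'.ab = u.ab) (hal : u'.al = u.al) (hw : u'.w = u.w) :
    u'.v = u.v ∧ (u'.y = u.y ∨ u'.y = -u.y) := by
  have h' : ND u'.ab := by rw [hab]; exact h
  have h1 := wv_eq h
  have h2 := wv_eq h'
  rw [hab, hal, ← h1, hw] at h2
  have hv : u'.v = u.v := mul_left_cancel₀ h.ne.2.1 h2
  refine ⟨hv, ?_⟩
  have h3 : (u'.w ^ 6 + u'.v ^ 6 - u'.y ^ 2) / 2 = (u.w ^ 6 + u.v ^ 6 - u.y ^ 2) / 2 := congrArg Prod.snd hab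
  rw [hw, hv, div_left_inj' (two_ne_zero)] at h3
  apply sq_eq_sq_iff_eq_or_eq_neg.1
  linear_combination -h3

end ES
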