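import Pool.Agent.H67.ES.ExtD
import Pool.Agent.H67.ES.StSc
import Pool.Agent.H67.ES.Top
import Pool.Agent.H67.ES.Vlem
import Pool.Agent.H36.ES.Cs4

/-! # ES.ExtN : the beginning and the end of the induction (about 180 lines)

`ext_nil`: let `Swps F0 f'` (`pre = []`, `F0.drop 0 = F0`), `f = f'.map snd`: all `y` are zero, the labels are those of `F0` (`swp` does not change them), `T = tot f` has `T.y = 0` (induction: `tot` of vertices with `y = 0`), so `T.p = T.ps = w^3 + v^3`, `T.m = T.ms = w^3 - v^3` and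
`T.p T.m = w^6 - v^6 ≠ 0` (`kap`).  So the three scalars are `1`, `-1`, `-1`.  `good_diag`: `Good (XX f)` (`scale_one`); `XX_swap` and `good_diag` for `f.map Vtx.swap` (same labels): `Good (scale (-1) (XX f))`.
`ext_vg`: `F0.drop k = []`; `swpL_forall` (`H36/ES/Cs4`) gives `Swps f (swpL S f)`, hence `CG` and `y ≠ 0` (`f ≠ []` as `k > 0`); the links of `swpL S f` have base points and labels of `f`, i.e. of `F0` (`lab`, `List.take_length`), so `ok`, `ne`, `nd`, `sep` follow from `BaseL` (as lists of pairs `(g.1, g.2.ab)` they are equal).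
`base_exists`: `u0 j := (w, v, 0)` with `r = w^3`, `r' = v^3`: choose `d` with `d^2 = b^2 - a^3`; a root `R` of `R^2 - 2 b R + a^3 = 0` (`R = b + d`, not zero), `w` with `w^6 = R`; `q := al/a` (`q^2 = a`, `q^3 = al`), `v := q/w`: `(w v)^2 = a`, `w^6 + v^6 = R + a^3/R = 2 b`, `al = q^3`.
`F0 := List.ofFn (fun j => (β j, u0 j))`; `kap`: for `Swps F0 f'` the number `κ_j := w_j^6/v_j^6` of the `j`-th vertex of `f'` satisfies `Kap (lab W (β j)) κ_j` (`a^3 (κ+1)^2 = (w v)^6 (w^6+v^6)^2/v^12 = 4 b^2 κ`), and `∏ κ_j = T.w^6/T.v^6`. -/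

namespace ES

open Polynomial H68.BB

variable {K : Type} [Field K] [IsAlgClosed K] [CharZero K] {s : ℕ} {W : Wm K s}

omit [IsAlgClosed K] [CharZero K] in
private theorem exn_swp_ab (u : Vtx K) : u.swp.ab = u.ab := by
  unfold Vtx.swp Vtx.ab
  simp only [Prod.mk.injEq]
  constructor
  · ring
  · ring

omit [IsAlgClosed K] [CharZero K] in
private theorem exn_map {f f' : List (Lk s K)} (h : Swps f f') :
    f'.map (fun g => (g.1, g.2.ab)) = f.map (fun g => (g.1, g.2.ab)) := by
  unfold Swps at h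
  induction h with
  | nil => rfl
  | @cons a b l1 l2 h1 _ ih =>
    rw [List.map_cons, List.map_cons, ih]
    rcases h1 with rfl | rfl
    · rfl
    · show (a.1, a.2.swp.ab) :: _ = _
      rw [exn_swp_ab]

omit [IsAlgClosed K] [CharZero K] in
private theorem exn_tr {f f' : List (Lk s K)} (h : f'.map (fun g => (g.1, g.2.ab)) = f.map (fun g => (g.1, g.2.ab)))
    {P : (Fin s → K) × (K × K) → Prop} (hf : ∀ g ∈ f, P (g.1, g.2.ab)) : ∀ g ∈ f', P (g.1, g.2.ab) := by
  intro g hg
  have h1 : (g.1, g.2.ab) ∈ f'.map (fun g : Lk s K => (g.1, g.2.ab)) := List.mem_map.2 ⟨g, hg, rfl⟩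
  rw [h, List.mem_map] at h1
  obtain ⟨g0, hg0, e⟩ := h1
  rw [← e]
  exact hf g0 hg0

omit [IsAlgClosed K] [CharZero K] in
private theorem exn_y {f f' : List (Lk s K)} (h : Swps f f') (hf : ∀ g ∈ f, g.2.y = 0) : ∀ g ∈ f', g.2.y = 0 := by
  unfold Swps at h
  induction h with
  | nil => intro g hg; exact absurd hg List.not_mem_nil
  | @cons a b l1 l2 h1 _ ih =>
    intro g hg
    rcases List.mem_cons.1 hg with rfl | hg
    · have ha := hf a List.mem_cons_self
      rcases h1 with rfl | rfl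
      · exact ha
      · exact ha
    · exact ih (fun g hg => hf g (List.mem_cons_of_mem _ hg)) g hg

omit [IsAlgClosed K] [CharZero K] in
private theorem exn_ab_map {f f' : List (Lk s K)} (h : f'.map (fun g => (g.1, g.2.ab)) = f.map (fun g => (g.1, g.2.ab))) :
    f'.map (fun g => g.2.ab) = f.map (fun g => g.2.ab) := by
  have h1 := congrArg (List.map Prod.snd) h
  simpa [List.map_map, Function.comp_def] using h1

omit [IsAlgClosed K] [CharZero K] in
private theorem exn_toty : ∀ {L : List (Vtx K)}, (∀ u ∈ L, u.y = 0) → (tot L).y = 0 := by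
  intro L
  induction L with
  | nil => intro _; rfl
  | cons u L ih =>
    intro h
    have h1 := ih fun v hv => h v (List.mem_cons_of_mem _ hv)
    show u.w ^ 3 * (tot L).y + u.y * (tot L).v ^ 3 = 0
    rw [h1, h u List.mem_cons_self]
    ring

omit [IsAlgClosed K] [CharZero K] in
private theorem exn_totw (L : List (Vtx K)) : (tot L).w = (L.map Vtx.w).prod ∧ (tot L).v = (L.map Vtx.v).prod := by
  induction L with
  | nil => exact ⟨rfl, rfl⟩
  | cons u L ih =>
    rw [List.map_cons, List.map_cons, List.prod_cons, List.prod_cons, ← ih.1, ← ih.2]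
    exact ⟨rfl, rfl⟩

omit [IsAlgClosed K] [CharZero K] in
private theorem exn_swap_ab (u : Vtx K) : u.swap.ab = u.ab := by
  unfold Vtx.swap Vtx.ab
  simp only [Prod.mk.injEq]
  constructor
  · ring
  · ring

omit [IsAlgClosed K] in
private theorem exn_cg {L : List (Vtx K)} (hy : ∀ u ∈ L, u.y = 0) (hnd : ∀ u ∈ L, ND u.ab)
    (hsep : (L.map Vtx.ab).Pairwise Sep) (hk : (tot L).w ^ 6 ≠ (tot L).v ^ 6) : CG L := by
  have h0 := exn_toty hy
  have hps : (tot L).ps = (tot L).p := by
    unfold Vtx.ps Vtx.p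
    rw [h0]
    ring
  have hms : (tot L).ms = (tot L).m := by
    unfold Vtx.ms Vtx.m
    rw [h0]
    ring
  have hpm : (tot L).p * (tot L).m ≠ 0 := by
    intro h
    apply hk
    unfold Vtx.p Vtx.m at h
    rw [h0] at h
    linear_combination h
  have hp := left_ne_zero_of_mul hpm
  have hm := right_ne_zero_of_mul hpm
  have g1 := good_diag hy hnd hsep
  have hsw : (L.map Vtx.swap).map Vtx.ab = L.map Vtx.ab := by
    rw [List.map_map]
    exact List.map_congr_left fun u _ => exn_swap_ab u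
  have g3 : Good L.length ((L.map Vtx.ab : List (K × K)) : Multiset (K × K)) (scale (-1) (XX L)) := by
    have h := good_diag (f := L.map Vtx.swap) (fun u hu => by
        obtain ⟨v, hv, rfl⟩ := List.mem_map.1 hu
        exact hy v hv) (fun u hu => by
        obtain ⟨v, hv, rfl⟩ := List.mem_map.1 hu
        rw [exn_swap_ab]
        exact hnd v hv) (by rw [hsw]; exact hsep)
    rw [hsw, List.length_map, XX_swap hy] at h
    exact h
  refine ⟨hp, by rw [hps]; exact hp, hm, by rw [hms]; exact hm, g1, ?_, ?_, ?_⟩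
  · rw [hms, hps, mul_comm (tot L).m, div_self (mul_ne_zero hp hm), scale_one]
    exact g1
  · rw [hms, div_self hm]
    exact g3
  · rw [hps, div_self hp]
    exact g3

theorem ext_nil {F0 : List (Lk s K)} (hB : BaseL W F0) : ExtP F0 [] := by
  refine ⟨Nat.zero_le _, by simp, fun f' hf' => ?_, fun h => absurd rfl h⟩
  rw [List.length_nil, List.drop_zero, List.nil_append] at hf'
  have h1 := exn_map hf'
  refine exn_cg (L := f'.map Prod.snd) ?_ ?_ ?_ (hB.kap f' hf')
  · intro u hu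
    obtain ⟨g, hg, rfl⟩ := List.mem_map.1 hu
    exact exn_y hf' hB.y g hg
  · intro u hu
    obtain ⟨g, hg, rfl⟩ := List.mem_map.1 hu
    exact exn_tr h1 (P := fun q => ND q.2) hB.nd g hg
  · rw [List.map_map]
    have h2 := exn_ab_map h1
    have h3 : f'.map (Vtx.ab ∘ Prod.snd) = F0.map (fun g => g.2.ab) := h2
    rw [h3]
    exact hB.sep

theorem ext_vg {F0 f : List (Lk s K)} {k : ℕ} (hk : 0 < k) (hB : BaseL W F0) (hF : F0.length = k) (hf : f.length = k)
    (h : ExtP F0 f) (S : Finset (Fin k)) : VG W k (swpL S f) := by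
  have hS : Swps f (swpL S f) := swpL_forall S hf
  have hd : f ++ F0.drop f.length = f := by
    rw [List.drop_eq_nil_of_le (by omega), List.append_nil]
  have hS' : Swps (f ++ F0.drop f.length) (swpL S f) := by
    rw [hd]
    exact hS
  have h1 := exn_map hS
  have h2 := h.lab
  rw [List.take_of_length_le (by omega)] at h2
  have h3 := h1.trans h2
  have hne : f ≠ [] := by
    rintro rfl
    rw [List.length_nil] at hf
    omega
  refine ⟨swpL_length S f, hk, ?_, ?_, ?_, ?_, h.cg _ hS', h.y hne _ hS'⟩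
  · intro g hg
    have h4 := exn_tr h3 (P := fun q => (∀ p ∈ W.I, ev p q.1 = 0) ∧ q.2 = (ev W.a q.1, ev W.b q.1))
      (fun g hg => ⟨(hB.ok g hg).I, (hB.ok g hg).ab⟩) g hg
    exact ⟨h4.1, h4.2⟩
  · exact exn_tr h3 (P := fun q => q.1 ≠ 0) hB.ne
  · exact exn_tr h3 (P := fun q => ND q.2) hB.nd
  · rw [exn_ab_map h3]
    exact hB.sep

private theorem exn_vtx {a b al : K} (ha : a ≠ 0) (hal : al ^ 2 = a ^ 3) :
    ∃ u : Vtx K, u.y = 0 ∧ u.ab = (a, b) ∧ u.al = al := by
  obtain ⟨d, hd⟩ := IsAlgClosed.exists_pow_nat_eq (b ^ 2 - a ^ 3) (n := 2) (by norm_num)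
  have hR : (b + d) * (b - d) = a ^ 3 := by linear_combination -hd
  have hR0 : b + d ≠ 0 := by
    intro h
    rw [h, zero_mul] at hR
    exact pow_ne_zero 3 ha hR.symm
  obtain ⟨w, hw⟩ := IsAlgClosed.exists_pow_nat_eq (b + d) (n := 6) (by norm_num)
  have hw0 : w ≠ 0 := by
    rintro rfl
    rw [zero_pow (by norm_num)] at hw
    exact hR0 hw.symm
  set q := al / a with hq
  have hq1 : q * a = al := by rw [hq]; field_simp
  have hq2 : q ^ 2 = a := by
    have h1 : q ^ 2 * a ^ 2 = a * a ^ 2 := by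
      rw [← mul_pow, hq1, hal]
      ring
    exact mul_right_cancel₀ (pow_ne_zero 2 ha) h1
  have hwv : w * (q / w) = q := by field_simp
  have hv6 : (q / w) ^ 6 = b - d := by
    have h1 : (q / w) ^ 6 * (b + d) = (b - d) * (b + d) := by
      rw [← hw, ← mul_pow, div_mul_cancel₀ _ hw0, hw, mul_comm (b - d), hR]
      calc q ^ 6 = (q ^ 2) ^ 3 := by ring
        _ = a ^ 3 := by rw [hq2]
    exact mul_right_cancel₀ hR0 h1
  refine ⟨⟨w, q / w, 0⟩, rfl, ?_, ?_⟩
  · unfold Vtx.ab
    simp only [Prod.mk.injEq]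
    refine ⟨by rw [hwv, hq2], ?_⟩
    rw [hw, hv6]
    field_simp
    ring
  · unfold Vtx.al
    simp only
    rw [hwv]
    calc q ^ 3 = q ^ 2 * q := by ring
      _ = al := by rw [hq2, mul_comm, hq1]

omit [IsAlgClosed K] in
private theorem exn_kap {u : Vtx K} {c : K × K} (hc : ND c) (hu : u.ab = c) (hy : u.y = 0) :
    u.v ≠ 0 ∧ Kap c (u.w ^ 6 / u.v ^ 6) := by
  subst hu
  obtain ⟨-, hw, hv, -⟩ := ND.ne hc
  refine ⟨hv, div_ne_zero (pow_ne_zero 6 hw) (pow_ne_zero 6 hv), ?_⟩
  unfold Vtx.ab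
  simp only
  rw [hy]
  field_simp
  ring

theorem base_exists {k : ℕ} {β : Fin k → Fin s → K} (hI : ∀ j, ∀ f ∈ W.I, ev f (β j) = 0) (hne : ∀ j, β j ≠ 0)
    (hnd : ∀ j, ND (lab W (β j) : K × K)) (hsep : ∀ i j, i ≠ j → Sep (lab W (β i) : K × K) (lab W (β j)))
    (hkap : ∀ κ : Fin k → K, (∀ j, Kap (lab W (β j)) (κ j)) → ∏ j, κ j ≠ 1) {al : Fin k → K}
    (hal : ∀ j, al j ^ 2 = (lab W (β j) : K × K).1 ^ 3) :
    ∃ F0 : List (Lk s K), F0.length = k ∧ BaseL W F0 ∧
      ∀ j : Fin k, (nth F0 j).1 = β j ∧ (nth F0 j).2.ab = lab W (β j) ∧ (nth F0 j).2.al = al j := by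
  have hu : ∀ j, ∃ u : Vtx K, u.y = 0 ∧ u.ab = lab W (β j) ∧ u.al = al j := fun j =>
    exn_vtx (b := (lab W (β j) : K × K).2) (hnd j).a (hal j)
  choose u0 hu0 using hu
  have hmem : ∀ g ∈ List.ofFn (fun j : Fin k => (β j, u0 j)), ∃ j, g = (β j, u0 j) := by
    intro g hg
    obtain ⟨j, hj⟩ := (List.mem_ofFn' _ _).1 hg
    exact ⟨j, hj.symm⟩
  have hnth : ∀ j : Fin k, nth (List.ofFn (fun j : Fin k => (β j, u0 j))) j = (β j, u0 j) := by
    intro j
    unfold nth
    rw [List.getD_eq_getElem _ _ (by rw [List.length_ofFn]; exact j.2), List.getElem_ofFn]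
  refine ⟨List.ofFn (fun j : Fin k => (β j, u0 j)), List.length_ofFn, ⟨?_, ?_, ?_, ?_, ?_, ?_⟩, ?_⟩
  · intro g hg
    obtain ⟨j, rfl⟩ := hmem g hg
    exact ⟨hI j, (hu0 j).2.1⟩
  · intro g hg
    obtain ⟨j, rfl⟩ := hmem g hg
    exact hne j
  · intro g hg
    obtain ⟨j, rfl⟩ := hmem g hg
    show ND (u0 j).ab
    rw [(hu0 j).2.1]
    exact hnd j
  · intro g hg
    obtain ⟨j, rfl⟩ := hmem g hg
    exact (hu0 j).1
  · rw [List.map_ofFn, List.pairwise_ofFn]
    intro i j hij
    show Sep (u0 i).ab (u0 j).ab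
    rw [(hu0 i).2.1, (hu0 j).2.1]
    exact hsep i j hij.ne
  · intro f' hf' heq
    have hlen : f'.length = k := by
      rw [← hf'.length_eq, List.length_ofFn]
    have hf2 : f' = List.ofFn (fun j : Fin k => nth f' j) := by
      apply List.ext_getElem
      · rw [hlen, List.length_ofFn]
      · intro i h1 h2
        rw [List.getElem_ofFn]
        unfold nth
        rw [List.getD_eq_getElem _ _ h1]
    have hj : ∀ j : Fin k, nth f' j = (β j, u0 j) ∨ nth f' j = Lk.swp (β j, u0 j) := by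
      intro j
      have h1 := (List.forall₂_iff_get.1 hf').2 (j : ℕ) (by rw [List.length_ofFn]; exact j.2) (by rw [hlen]; exact j.2)
      have e1 : f'.get ⟨j, by rw [hlen]; exact j.2⟩ = nth f' j := by
        unfold nth
        rw [List.getD_eq_getElem _ _ (by rw [hlen]; exact j.2)]
        rfl
      have e2 : (List.ofFn (fun j : Fin k => (β j, u0 j))).get ⟨j, by rw [List.length_ofFn]; exact j.2⟩ = (β j, u0 j) := by
        rw [List.get_eq_getElem, List.getElem_ofFn]
      rw [e1, e2] at h1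
      exact h1
    have hK : ∀ j : Fin k, (nth f' j).2.v ≠ 0 ∧ Kap (lab W (β j)) ((nth f' j).2.w ^ 6 / (nth f' j).2.v ^ 6) := by
      intro j
      refine exn_kap (hnd j) ?_ ?_
      · rcases hj j with h | h
        · rw [h]
          exact (hu0 j).2.1
        · rw [h]
          show (u0 j).swp.ab = _
          rw [exn_swp_ab]
          exact (hu0 j).2.1
      · rcases hj j with h | h
        · rw [h]
          exact (hu0 j).1
        · rw [h]
          exact (hu0 j).1
    refine hkap (fun j => (nth f' j).2.w ^ 6 / (nth f' j).2.v ^ 6) (fun j => (hK j).2) ?_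
    obtain ⟨hw, hv⟩ := exn_totw (f'.map Prod.snd)
    have hw2 : (tot (f'.map Prod.snd)).w = ∏ j : Fin k, (nth f' j).2.w := by
      rw [hw, List.map_map, hf2, List.map_ofFn, List.prod_ofFn]
      rw [← hf2]
      rfl
    have hv2 : (tot (f'.map Prod.snd)).v = ∏ j : Fin k, (nth f' j).2.v := by
      rw [hv, List.map_map, hf2, List.map_ofFn, List.prod_ofFn]
      rw [← hf2]
      rfl
    rw [Finset.prod_div_distrib, Finset.prod_pow, Finset.prod_pow, ← hw2, ← hv2, heq]
    refine div_self (pow_ne_zero 6 ?_)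
    rw [hv2]
    exact Finset.prod_ne_zero_iff.2 fun j _ => (hK j).1
  · intro j
    rw [hnth]
    exact ⟨rfl, (hu0 j).2.1, (hu0 j).2.2⟩

end ES
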