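import Pool.Agent.H67.ES.PeelRd
import Pool.Agent.H34.ES.Spc

/-! # ES.FacRd : factorisations reduce to factorisations (about 100 lines)

Induction on `k`.  `f = g :: f1`, `B0 = β0 ::ₘ B0'` with `β0` the reduction of `g.1` (`Multiset.rel_cons_left`).  `lab W g.1` reduces to `lab W β0 =: c0` (`rd_ev`), `al := g.2.al` is integral (`al^2 = a^3`:
`al_sq`, `mem_of_pow`), its reduction `al0` has `al0^2 = c0.1^3`.  `Good` at `(c0, al0)`: `ND c0`, `NZ`, `u0`, `M0'` with `M0 = u0.sand M0'`, `Good k (B0'.map lab) M0'`.  `peel_rd` with `M = g.2.sand (XX f1)`: `g.2` reduces to `u0.rot z`, `XX f1` to `M0'`.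
Put `g0 := (β0, u0.rot z)` (`ab_rot`, `sand_rot`).  `k = 0`: `B0.map lab = 0`, so `B0 = 0` and `f = []`, `M0 = 1`. -/

namespace ES

open Polynomial H68.BB

variable {K : Type} [Field K] [IsAlgClosed K] [CharZero K] {s : ℕ} {W : Wm K s} {π : Place K (Om K)}

theorem fac_rd {k : ℕ} {f : List (Lk s (Om K))} {M0 : Mat K} {B0 : Multiset (Fin s → K)}
    (hB : Multiset.Rel (fun (β : Fin s → Om K) (β0 : Fin s → K) => ∀ i, Rd π.V π.φ (β i) (β0 i))
      ((f.map Prod.fst : List (Fin s → Om K)) : Multiset (Fin s → Om K)) B0)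
    (hf : ∀ g ∈ f, g.2.ab = lab W g.1) (hr : RdMt π (XX (f.map Prod.snd)) M0) (hg : Good k (B0.map (lab W)) M0) :
    ∃ f0 : List (Lk s K), List.Forall₂ (RdLk π) f f0 ∧ XX (f0.map Prod.snd) = M0 ∧ (∀ g ∈ f0, g.2.ab = lab W g.1) ∧
      ((f0.map Prod.fst : List (Fin s → K)) : Multiset (Fin s → K)) = B0 := by
  induction k generalizing f M0 B0 with
  | zero =>
    obtain ⟨h1, h2⟩ := hg
    have hB0 : B0 = 0 := Multiset.map_eq_zero.1 h1
    subst hB0
    have hf0 : f = [] := by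
      have h3 := Multiset.rel_zero_right.1 hB
      have h4 : f.map Prod.fst = [] := by simpa using h3
      exact List.map_eq_nil_iff.1 h4
    subst hf0
    exact ⟨[], List.Forall₂.nil, h2.symm, by simp, by simp⟩
  | succ k ih =>
    obtain ⟨⟨c, hc⟩, hgood⟩ := hg
    cases f with
    | nil =>
      exfalso
      have h3 : B0 = 0 := Multiset.rel_zero_left.1 hB
      rw [h3] at hc
      simp at hc
    | cons g f1 =>
      have hB' : Multiset.Rel (fun (β : Fin s → Om K) (β0 : Fin s → K) => ∀ i, Rd π.V π.φ (β i) (β0 i))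
          (g.1 ::ₘ ((f1.map Prod.fst : List (Fin s → Om K)) : Multiset (Fin s → Om K))) B0 := hB
      rw [Multiset.rel_cons_left] at hB'
      obtain ⟨β0, B0', hβ, hrel, rfl⟩ := hB'
      obtain ⟨hnd, hal⟩ := hgood (lab W β0) (B0'.map (lab W)) (Multiset.map_cons _ _ _)
      have hga : g.2.ab = lab W g.1 := hf g List.mem_cons_self
      have hra : Rd π.V π.φ (ev W.a g.1) (ev W.a β0) := rd_ev W.a hβ
      have hrb : Rd π.V π.φ (ev W.b g.1) (ev W.b β0) := rd_ev W.b hβ
      have hsq : g.2.al ^ 2 = (ev W.a g.1) ^ 3 := by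
        have h5 : g.2.al ^ 2 = g.2.ab.1 ^ 3 := by
          unfold Vtx.ab Vtx.al
          ring
        rw [h5, hga]
        rfl
      have hmem : g.2.al ∈ π.V := mem_of_pow (n := 2) (by norm_num) (by rw [hsq]; exact (hra.pow 3).mem)
      obtain ⟨al0, hal0⟩ : ∃ a, Rd π.V π.φ g.2.al a := ⟨_, Rd.of_mem hmem⟩
      have hal2 : al0 ^ 2 = (lab W β0).1 ^ 3 := by
        have h6 := hal0.pow 2
        rw [hsq] at h6
        exact h6.unique (hra.pow 3)
      obtain ⟨hnz, u0, M0', hu1, hu2, hM0, hG⟩ := hal al0 hal2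
      obtain ⟨z, hz, hv, hm⟩ := peel_rd (π := π) (M := XX ((g :: f1).map Prod.snd)) (M' := XX (f1.map Prod.snd))
        (u := g.2) (u0 := u0) (M0 := M0) (M0' := M0') rfl hM0 hr
        (by
          rw [hga, hu1]
          exact ⟨hra, hrb⟩)
        (by rw [hu2]; exact hal0) (by rw [hu1]; exact hnd) (by rw [hu1, hu2]; exact hnz)
      obtain ⟨f0, h1, h2, h3, h4⟩ := ih hrel (fun g' hg' => hf g' (List.mem_cons_of_mem _ hg')) hm hG
      refine ⟨(β0, u0.rot z) :: f0, List.Forall₂.cons ⟨hβ, hv⟩ h1, ?_, ?_, ?_⟩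
      · change (u0.rot z).sand (XX (f0.map Prod.snd)) = M0
        rw [h2, sand_rot u0 hz, hM0]
      · intro g' hg'
        rcases List.mem_cons.1 hg' with rfl | hg'
        · change (u0.rot z).ab = lab W β0
          rw [ab_rot u0 hz, hu1]
        · exact h3 g' hg'
      · rw [List.map_cons, ← Multiset.cons_coe, h4]

/-- the total vertex reduces to the total vertex -/
theorem tot_rd {f : List (Vtx (Om K))} {f0 : List (Vtx K)} (h : List.Forall₂ (RdV π) f f0) : RdV π (tot f) (tot f0) := by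
  induction h with
  | nil => exact ⟨Rd.one, Rd.one, Rd.zero⟩
  | cons h1 _ ih =>
    exact ⟨h1.w.mul ih.w, h1.v.mul ih.v, ((h1.w.pow 3).mul ih.y).add (h1.y.mul (ih.v.pow 3))⟩

end ES
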