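import Pool.Agent.H67.ES.Vlem

/-! # ES.Uniq : uniqueness of the first vertex (about 120 lines)

Let `α = u1.al`, `(a, b) = u1.ab`, `l` a root of `α (l^2+1) = 2 b l` (`F` algebraically closed, `α ≠ 0`); `l ≠ 0`, `l^2 ≠ 1` (else `α = ± b`, `b^2 = a^3`).  `M(l) = LL_1(l) (..)`
and `det LL_1(l) = 0`, `(l-1) p_1 ≠ 0`, so every column of `M(l)` is a multiple of `((l-1) p_1, (l+1) m_1)`: indeed `(l+1) m_1 (M(l))_0j = (l-1) p_1 (M(l))_1j` (the row
`(-(l+1) m, (l-1) p)` of the adjugate of `LL(l)` kills `LL(l)`: `col` below).  The same for `u2`; with a nonzero column: `p_1 m_2 = p_2 m_1`.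
`p - m = 2 v^3`, `p + m = 2 (w^3 + y)`: so `κ := (w^3 + y)/v^3` is the same for both.  From `y = κ v^3 - w^3`, `y^2 = w^6 + v^6 - 2 b`:
`(κ^2 - 1) v^6 = 2 κ α - 2 b`, and `κ^2 ≠ 1` because `p m ≠ 0`, so `v_1^6 = v_2^6`.  `z := v_1 / v_2`, `w v = α/a` (`wv_eq`).  Then `sand_rot`, `sand_inj`.
`vtx_eq` is this last part, used again elsewhere. -/

namespace ES

open Polynomial H68.BB

variable {F : Type} [Field F] [CharZero F]

omit [CharZero F] in
private theorem uq_sand_eval (u : Vtx F) (M : Mat F) (l : F) (i j : Fin 2) :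
    ((u.sand M) i j).eval l = 4⁻¹ * ((u.LL i 0).eval l * ((M * u.LS) 0 j).eval l +
      (u.LL i 1).eval l * ((M * u.LS) 1 j).eval l) := by
  have h : (u.sand M) i j = C (4⁻¹ : F) * (u.LL i 0 * (M * u.LS) 0 j + u.LL i 1 * (M * u.LS) 1 j) := by
    unfold Vtx.sand
    rw [Matrix.mul_assoc, Matrix.smul_apply, Matrix.mul_apply, Fin.sum_univ_two, smul_eq_mul]
  rw [h, eval_mul, eval_C, eval_add, eval_mul, eval_mul]

/-- the columns of `u.sand M` at a root `l` -/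
theorem col {u : Vtx F} {M : Mat F} {l : F} (hl : u.al * (l ^ 2 + 1) = 2 * u.ab.2 * l) (j : Fin 2) :
    (l - 1) * u.p * ((u.sand M) 1 j).eval l = (l + 1) * u.m * ((u.sand M) 0 j).eval l := by
  have h1 := p_mul_ps u
  have h2 := m_mul_ms u
  rw [uq_sand_eval u M l 0 j, uq_sand_eval u M l 1 j]
  generalize ((M * u.LS) 0 j).eval l = v0
  generalize ((M * u.LS) 1 j).eval l = v1
  have e00 : (u.LL 0 0).eval l = u.p * (l - 1) := by simp [Vtx.LL]
  have e01 : (u.LL 0 1).eval l = u.ms * (l + 1) := by simp [Vtx.LL]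
  have e10 : (u.LL 1 0).eval l = u.m * (l + 1) := by simp [Vtx.LL]
  have e11 : (u.LL 1 1).eval l = u.ps * (l - 1) := by simp [Vtx.LL]
  rw [e00, e01, e10, e11]
  linear_combination 4⁻¹ * v1 * ((l - 1) ^ 2 * h1 - (l + 1) ^ 2 * h2) + v1 * hl

/-- facts about a root -/
theorem root_ne {a b al l : F} (h : ND (a, b)) (hal : al ^ 2 = a ^ 3) (hl : al * (l ^ 2 + 1) = 2 * b * l) :
    l ≠ 0 ∧ l ^ 2 ≠ 1 ∧ l ^ 2 ≠ -1 := by
  have ha : a ≠ 0 := h.a
  have hb : b ≠ 0 := h.b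
  have hd : b ^ 2 ≠ a ^ 3 := h.d
  have hal0 : al ≠ 0 := by
    rintro rfl
    apply ha
    have : a ^ 3 = 0 := by rw [← hal]; ring
    exact pow_eq_zero_iff (by norm_num) |>.1 this
  have hl0 : l ≠ 0 := by
    rintro rfl
    apply hal0
    linear_combination hl
  refine ⟨hl0, fun h1 => ?_, fun h1 => ?_⟩
  · have h2 : al = b * l := by
      have h3 : (2 : F) * al = 2 * (b * l) := by linear_combination hl - al * h1
      exact mul_left_cancel₀ two_ne_zero h3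
    apply hd
    rw [← hal, h2]
    linear_combination -b ^ 2 * h1
  · have h2 : (2 : F) * (b * l) = 0 := by linear_combination al * h1 - hl
    rcases mul_eq_zero.1 h2 with h3 | h3
    · exact two_ne_zero h3
    · exact (mul_ne_zero hb hl0) h3

theorem root_exists [IsAlgClosed F] {a b al : F} (h : ND (a, b)) (hal : al ^ 2 = a ^ 3) :
    ∃ l : F, al * (l ^ 2 + 1) = 2 * b * l := by
  have ha : a ≠ 0 := h.a
  have hal0 : al ≠ 0 := by
    rintro rfl
    apply ha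
    have : a ^ 3 = 0 := by rw [← hal]; ring
    exact pow_eq_zero_iff (by norm_num) |>.1 this
  obtain ⟨r, hr⟩ := IsAlgClosed.exists_pow_nat_eq (b ^ 2 - al ^ 2) (n := 2) (by norm_num)
  refine ⟨(b + r) / al, ?_⟩
  field_simp
  linear_combination hr

/-- vertices with the same label, the same `α` and proportional `(p, m)` -/
theorem vtx_eq {u1 u2 : Vtx F} (hab : u1.ab = u2.ab) (hal : u1.al = u2.al) (hnd : ND u1.ab)
    (h : u1.p * u2.m = u2.p * u1.m) : ∃ z : F, z ^ 6 = 1 ∧ u2 = u1.rot z := by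
  have hnd2 : ND u2.ab := by rw [← hab]; exact hnd
  obtain ⟨hal0, hw1, hv1, hp1, hps1, hm1, hms1, -, -⟩ := hnd.ne
  obtain ⟨-, hw2, hv2, hp2, -, hm2, -, -, -⟩ := hnd2.ne
  have hb : (u1.w ^ 6 + u1.v ^ 6 - u1.y ^ 2) / 2 = (u2.w ^ 6 + u2.v ^ 6 - u2.y ^ 2) / 2 := congrArg Prod.snd hab
  rw [div_left_inj' (two_ne_zero)] at hb
  have hwv : u1.w * u1.v = u2.w * u2.v := by
    rw [wv_eq hnd, wv_eq hnd2, hab, hal]
  have hE : u1.v ^ 3 * (u2.w ^ 3 + u2.y) = u2.v ^ 3 * (u1.w ^ 3 + u1.y) := by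
    have h2 : (2 : F) * (u1.v ^ 3 * (u2.w ^ 3 + u2.y)) = 2 * (u2.v ^ 3 * (u1.w ^ 3 + u1.y)) := by
      unfold Vtx.p Vtx.m at h
      linear_combination h
    exact mul_left_cancel₀ two_ne_zero h2
  obtain ⟨κ, hκ⟩ : ∃ κ : F, κ = (u1.w ^ 3 + u1.y) / u1.v ^ 3 := ⟨_, rfl⟩
  have hv13 : u1.v ^ 3 ≠ 0 := pow_ne_zero 3 hv1
  have hv23 : u2.v ^ 3 ≠ 0 := pow_ne_zero 3 hv2
  have hy1 : u1.y = κ * u1.v ^ 3 - u1.w ^ 3 := by
    rw [hκ]; field_simp; ring
  have hy2 : u2.y = κ * u2.v ^ 3 - u2.w ^ 3 := by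
    have h3 : u1.v ^ 3 * u2.y = u1.v ^ 3 * (κ * u2.v ^ 3 - u2.w ^ 3) := by
      rw [hy1] at hE
      linear_combination hE
    exact mul_left_cancel₀ hv13 h3
  have hk1 : κ ^ 2 - 1 ≠ 0 := by
    intro h0
    have h1 : (κ - 1) * (κ + 1) = 0 := by linear_combination h0
    rcases mul_eq_zero.1 h1 with h2 | h2
    · apply hm1
      unfold Vtx.m
      rw [hy1]
      linear_combination u1.v ^ 3 * h2
    · apply hp1
      unfold Vtx.p
      rw [hy1]
      linear_combination u1.v ^ 3 * h2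
  have hw3 : u1.w ^ 3 * u1.v ^ 3 = u2.w ^ 3 * u2.v ^ 3 := by
    rw [← mul_pow, ← mul_pow, hwv]
  have hv6 : u1.v ^ 6 = u2.v ^ 6 := by
    have h3 : (κ ^ 2 - 1) * u1.v ^ 6 = (κ ^ 2 - 1) * u2.v ^ 6 := by
      rw [hy1, hy2] at hb
      linear_combination -hb + 2 * κ * hw3
    exact mul_left_cancel₀ hk1 h3
  have hz0 : u1.v / u2.v ≠ 0 := div_ne_zero hv1 hv2
  have hz6 : (u1.v / u2.v) ^ 6 = 1 := by
    rw [div_pow, hv6, div_self (pow_ne_zero 6 hv2)]
  refine ⟨u1.v / u2.v, hz6, ?_⟩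
  have hW : u2.w = u1.v / u2.v * u1.w := by
    field_simp
    linear_combination -hwv
  have hV : u2.v = (u1.v / u2.v)⁻¹ * u1.v := by
    field_simp
  have hz3 : u2.v ^ 3 * (u1.v / u2.v) ^ 3 = u1.v ^ 3 := by
    rw [div_pow]; field_simp
  have hv3 : u2.v ^ 3 = (u1.v / u2.v) ^ 3 * u1.v ^ 3 := by
    rw [← hz3]
    linear_combination -u2.v ^ 3 * hz6
  have hY : u2.y = (u1.v / u2.v) ^ 3 * u1.y := by
    rw [hy2, hy1, hv3, hW, mul_pow]
    ring
  apply Vtx.ext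
  · exact hW
  · exact hV
  · exact hY

theorem peel_unique [IsAlgClosed F] {M M1 M2 : Mat F} {u1 u2 : Vtx F} (h1 : M = u1.sand M1) (h2 : M = u2.sand M2)
    (hab : u1.ab = u2.ab) (hal : u1.al = u2.al) (hnd : ND u1.ab) (hnz : NZ M u1.al u1.ab.2) :
    (∃ z : F, z ^ 6 = 1 ∧ u2 = u1.rot z) ∧ M1 = M2 := by
  have hnd2 : ND u2.ab := by rw [← hab]; exact hnd
  obtain ⟨-, -, -, hp1, -, hm1, -, -, -⟩ := hnd.ne
  obtain ⟨-, -, -, hp2, -, hm2, -, -, -⟩ := hnd2.ne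
  have hnd' : ND (u1.ab.1, u1.ab.2) := hnd
  obtain ⟨l, hl⟩ := root_exists hnd' (al_sq u1)
  obtain ⟨hl0, hl1, -⟩ := root_ne hnd' (al_sq u1) hl
  obtain ⟨i, j, hij⟩ := hnz l hl
  have hl' : u2.al * (l ^ 2 + 1) = 2 * u2.ab.2 * l := by rw [← hal, ← hab]; exact hl
  have c1 := col (M := M1) hl j
  have c2 := col (M := M2) hl' j
  rw [← h1] at c1
  rw [← h2] at c2
  have hm : l - 1 ≠ 0 := by
    intro h0; apply hl1
    linear_combination (l + 1) * h0
  have hp : l + 1 ≠ 0 := by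
    intro h0; apply hl1
    linear_combination (l - 1) * h0
  have hA : (M 0 j).eval l ≠ 0 := by
    intro h0
    rw [h0, mul_zero] at c1
    have hB : (M 1 j).eval l = 0 := (mul_eq_zero.1 c1).resolve_left (mul_ne_zero hm hp1)
    fin_cases i
    · exact hij h0
    · exact hij hB
  have hB : (M 1 j).eval l ≠ 0 := by
    intro h0
    rw [h0, mul_zero] at c1
    exact hA ((mul_eq_zero.1 c1.symm).resolve_left (mul_ne_zero hp hm1))
  have hkey : u1.p * u2.m = u2.p * u1.m := by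
    have h3 : ((l - 1) * (l + 1) * ((M 0 j).eval l) * ((M 1 j).eval l)) * (u1.p * u2.m) =
        ((l - 1) * (l + 1) * ((M 0 j).eval l) * ((M 1 j).eval l)) * (u2.p * u1.m) := by
      linear_combination (l + 1) * u2.m * ((M 0 j).eval l) * c1 - (l + 1) * u1.m * ((M 0 j).eval l) * c2
    exact mul_left_cancel₀ (mul_ne_zero (mul_ne_zero (mul_ne_zero hm hp) hA) hB) h3
  obtain ⟨z, hz, hu⟩ := vtx_eq hab hal hnd hkey
  refine ⟨⟨z, hz, hu⟩, ?_⟩
  apply sand_inj hnd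
  rw [← h1, h2, hu, sand_rot u1 hz]

end ES
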