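import Pool.Agent.H67.ES.RdPl
import Pool.Agent.H67.ES.Uniq

/-! # ES.PeelRd : the first vertex is integral and reduces to the first vertex (about 150 lines)

`α := u.al`, `(a, b) := u.ab`, reductions `α0 = u0.al ≠ 0`, `(a0, b0) = u0.ab`.  Choose a root `l` over `Om K` of `α (l^2+1) = 2 b l` (`root_exists`; `ND u.ab` follows from `ND u0.ab`); `l`
is integral (`l^2 - 2 (b/α) l + 1 = 0`, `α⁻¹` integral: `mem_of_root`), let `l0` be its reduction, a root over `K`.  By `hnz` there are `i`, `j` with `(M0 i j)(l0) ≠ 0`.  `col` for `u0`: column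
`j` of `M0(l0)` is `t ((l0-1) p0, (l0+1) m0)` with `t ≠ 0`.  Put `P := (l+1) M_0j(l)`, `Q := (l-1) M_1j(l)`, reductions `P0 = t (l0^2-1) p0`, `Q0 = t (l0^2-1) m0`, so
`P0 - Q0 = t (l0^2-1) 2 v0^3 ≠ 0`.  `col` for `u`: `p Q = m P`, hence `(w^3+y)(P-Q) = v^3 (P+Q)`, `κ := (P+Q)/(P-Q)` is integral with reduction `κ0 = (w0^3+y0)/v0^3`, and
`(κ^2-1) v^6 = 2 κ α - 2 b` with `κ0^2 ≠ 1` (as `p0 m0 ≠ 0`): `v^6` is integral, so `v` is (`mem_of_pow`); its reduction `v1` has `v1^6 = v0^6 ≠ 0`.  `w = (α/a) v⁻¹`, `y = κ v^3 - w^3` are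
integral.  The reduced vertex `u1` has label `u0.ab`, `al = u0.al`, and `p1 Q0 = m1 P0`, so `p1 m0 = p0 m1`, `vtx_eq`: `u1 = u0.rot z`.
`M'`: `adj(LL) M adj(LS) = (1/4) det LL det LS M'` over `Om K`, and the same over `K` for `u1` (`M0 = u1.sand M0'` by `sand_rot`); `det LL det LS = 16 (a^3 (X^2+1)^2 - 4 b^2 X^2)` has
natDegree 4 over both fields: `RdP.div` entrywise, and cancel over `K`. -/

namespace ES

open Polynomial H68.BB

variable {K : Type} [Field K] [IsAlgClosed K] [CharZero K] {π : Place K (Om K)}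

omit [IsAlgClosed K] [CharZero K] in
private theorem prd_mem_pow {z : Om K} {n : ℕ} (hn : 0 < n) (h : z ^ n ∈ π.V) : z ∈ π.V := by
  rcases π.V.mem_or_inv_mem z with h1 | h1
  · exact h1
  · by_cases h0 : z = 0
    · rw [h0]; exact π.V.zero_mem
    obtain ⟨k, rfl⟩ : ∃ k, n = k + 1 := ⟨n - 1, by omega⟩
    have h2 : z = z ^ (k + 1) * z⁻¹ ^ k := by
      rw [pow_succ, inv_pow]
      field_simp
    rw [h2]
    exact mul_mem h (pow_mem h1 k)

omit [IsAlgClosed K] [CharZero K] in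
private theorem prd_mem_quad {l e f : Om K} (he : e ∈ π.V) (hf : f ∈ π.V) (h : l ^ 2 + e * l + f = 0) : l ∈ π.V := by
  rcases π.V.mem_or_inv_mem l with h1 | h1
  · exact h1
  · by_cases h0 : l = 0
    · rw [h0]; exact π.V.zero_mem
    have h2 : l = -e - f * l⁻¹ := by
      field_simp
      linear_combination h
    rw [h2]
    exact sub_mem (neg_mem he) (mul_mem hf h1)

private theorem prd_deg {F : Type} [Field F] [CharZero F] {u : Vtx F} (hal : u.al ≠ 0) :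
    (C (4⁻¹ : F) * (u.LL.det * u.LS.det)).natDegree = 4 := by
  have h4 : (4 : F) ≠ 0 := by norm_num
  have e1 : u.LL.det = C 4 * (C u.al * X ^ 2 + C (-(2 * u.ab.2)) * X + C u.al) := by
    rw [det_LL, C_neg]
    ring
  have e2 : u.LS.det = C 4 * (C u.al * X ^ 2 + C (2 * u.ab.2) * X + C u.al) := by
    rw [det_LS]
    ring
  have n1 : (u.LL.det).natDegree = 2 := by
    rw [e1, natDegree_C_mul h4, natDegree_quadratic hal]
  have n2 : (u.LS.det).natDegree = 2 := by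
    rw [e2, natDegree_C_mul h4, natDegree_quadratic hal]
  have z1 : u.LL.det ≠ 0 := by
    intro h
    rw [h, natDegree_zero] at n1
    omega
  have z2 : u.LS.det ≠ 0 := by
    intro h
    rw [h, natDegree_zero] at n2
    omega
  rw [natDegree_C_mul (inv_ne_zero h4), natDegree_mul z1 z2, n1, n2]

private theorem prd_adj {F : Type} [Field F] {u : Vtx F} {M M' : Mat F} (h : M = u.sand M') :
    u.LL.adjugate * M * u.LS.adjugate = (C (4⁻¹ : F) * (u.LL.det * u.LS.det)) • M' := by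
  rw [h]
  unfold Vtx.sand
  have e1 : u.LL.adjugate * (C (4⁻¹ : F) • (u.LL * M' * u.LS)) * u.LS.adjugate
      = C (4⁻¹ : F) • ((u.LL.adjugate * u.LL) * M' * (u.LS * u.LS.adjugate)) := by
    rw [Matrix.mul_smul, Matrix.smul_mul]
    simp only [Matrix.mul_assoc]
  rw [e1, Matrix.adjugate_mul, Matrix.mul_adjugate, Matrix.smul_mul, Matrix.one_mul, Matrix.smul_mul, Matrix.mul_smul,
    Matrix.mul_one, smul_smul, smul_smul, mul_assoc]

omit [IsAlgClosed K] [CharZero K] in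
private theorem prd_rdadj {A : Mat (Om K)} {A0 : Mat K} (h : RdMt π A A0) : RdMt π A.adjugate A0.adjugate := by
  intro i j
  rw [Matrix.adjugate_fin_two, Matrix.adjugate_fin_two]
  fin_cases i <;> fin_cases j
  · exact h 1 1
  · exact (h 0 1).neg
  · exact (h 1 0).neg
  · exact h 0 0

omit [IsAlgClosed K] [CharZero K] in
private theorem prd_det {A : Mat (Om K)} {A0 : Mat K} (h : RdMt π A A0) : RdP π A.det A0.det := by
  rw [Matrix.det_fin_two, Matrix.det_fin_two]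
  exact ((h 0 0).mul (h 1 1)).sub ((h 0 1).mul (h 1 0))

theorem peel_rd {M M' : Mat (Om K)} {M0 M0' : Mat K} {u : Vtx (Om K)} {u0 : Vtx K} (hM : M = u.sand M')
    (hM0 : M0 = u0.sand M0') (hr : RdMt π M M0) (hab : RdLb π u.ab u0.ab) (hal : Rd π.V π.φ u.al u0.al)
    (hnd : ND u0.ab) (hnz : NZ M0 u0.al u0.ab.2) : ∃ z : K, z ^ 6 = 1 ∧ RdV π u (u0.rot z) ∧ RdMt π M' M0' := by
  have := π.isLocal
  obtain ⟨hal0, hw0, hv0, hp0, hps0, hm0, hms0, -, -⟩ := hnd.ne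
  have ha : u.ab.1 ≠ 0 := hab.1.ne_zero hnd.a
  have hb : u.ab.2 ≠ 0 := hab.2.ne_zero hnd.b
  have hd : u.ab.2 ^ 2 ≠ u.ab.1 ^ 3 := by
    intro h
    have h1 := (hab.2.pow 2).unique (by rw [h]; exact hab.1.pow 3)
    exact hnd.d h1
  have hndu : ND u.ab := ⟨ha, hb, hd⟩
  have halu : u.al ≠ 0 := hal.ne_zero hal0
  obtain ⟨-, hw, hv, hp, hps, hm, hms, -, -⟩ := hndu.ne
  obtain ⟨l, hl⟩ := root_exists (show ND (u.ab.1, u.ab.2) from hndu) (al_sq u)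
  have hRdbα : Rd π.V π.φ (-(2 * u.ab.2 / u.al)) (-(2 * u0.ab.2 / u0.al)) := ((Rd.two.mul hab.2).div hal hal0).neg
  have hlV : l ∈ π.V := by
    refine prd_mem_quad hRdbα.mem π.V.one_mem ?_
    field_simp
    linear_combination hl
  obtain ⟨l0, hl0⟩ : ∃ l0 : K, Rd π.V π.φ l l0 := ⟨_, Rd.of_mem hlV⟩
  have hl0e : u0.al * (l0 ^ 2 + 1) = 2 * u0.ab.2 * l0 := by
    refine (hal.mul ((hl0.pow 2).add Rd.one)).unique ?_
    rw [hl]
    exact (Rd.two.mul hab.2).mul hl0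
  obtain ⟨hl00, hl01, -⟩ := root_ne (show ND (u0.ab.1, u0.ab.2) from hnd) (al_sq u0) hl0e
  have hm1 : l0 - 1 ≠ 0 := fun h => hl01 (by linear_combination (l0 + 1) * h)
  have hp1 : l0 + 1 ≠ 0 := fun h => hl01 (by linear_combination (l0 - 1) * h)
  have hlm : l0 ^ 2 - 1 ≠ 0 := fun h => hl01 (by linear_combination h)
  obtain ⟨i, j, hij⟩ := hnz l0 hl0e
  have c0 := col (M := M0') hl0e j
  rw [← hM0] at c0
  have c1 := col (M := M') hl j
  rw [← hM] at c1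
  have rA := (hr 0 j).eval hl0
  have rB := (hr 1 j).eval hl0
  have hA0 : (M0 0 j).eval l0 ≠ 0 := by
    intro h0
    rw [h0, mul_zero] at c0
    have hB0 : (M0 1 j).eval l0 = 0 := (mul_eq_zero.1 c0).resolve_left (mul_ne_zero hm1 hp0)
    apply hij
    fin_cases i
    · exact h0
    · exact hB0
  generalize hAdef : (M 0 j).eval l = A at *
  generalize hBdef : (M 1 j).eval l = B at *
  generalize hA0def : (M0 0 j).eval l0 = A0 at *
  generalize hB0def : (M0 1 j).eval l0 = B0 at *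
  obtain ⟨t, ht⟩ : ∃ t : K, A0 = t * ((l0 - 1) * u0.p) := ⟨A0 / ((l0 - 1) * u0.p), by field_simp⟩
  have ht0 : t ≠ 0 := by
    rintro rfl
    exact hA0 (by rw [ht, zero_mul])
  have hB0 : B0 = t * ((l0 + 1) * u0.m) := by
    have h1 : (l0 - 1) * u0.p * B0 = (l0 - 1) * u0.p * (t * ((l0 + 1) * u0.m)) := by
      rw [c0, ht]; ring
    exact mul_left_cancel₀ (mul_ne_zero hm1 hp0) h1
  -- the quotients
  have rP : Rd π.V π.φ ((l + 1) * A) (t * (l0 ^ 2 - 1) * u0.p) := by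
    have h1 := (hl0.add Rd.one).mul rA
    rw [ht] at h1
    convert h1 using 1
    ring
  have rQ : Rd π.V π.φ ((l - 1) * B) (t * (l0 ^ 2 - 1) * u0.m) := by
    have h1 := (hl0.sub Rd.one).mul rB
    rw [hB0] at h1
    convert h1 using 1
    ring
  have hs0 : t * (l0 ^ 2 - 1) ≠ 0 := mul_ne_zero ht0 hlm
  have hpm0 : u0.p - u0.m = 2 * u0.v ^ 3 := by
    unfold Vtx.p Vtx.m
    ring
  have hpp0 : u0.p + u0.m = 2 * (u0.w ^ 3 + u0.y) := by
    unfold Vtx.p Vtx.m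
    ring
  have hv03 : u0.v ^ 3 ≠ 0 := pow_ne_zero 3 hv0
  have hD0 : t * (l0 ^ 2 - 1) * u0.p - t * (l0 ^ 2 - 1) * u0.m ≠ 0 := by
    have : t * (l0 ^ 2 - 1) * u0.p - t * (l0 ^ 2 - 1) * u0.m = t * (l0 ^ 2 - 1) * (2 * u0.v ^ 3) := by
      rw [← hpm0]; ring
    rw [this]
    exact mul_ne_zero hs0 (mul_ne_zero two_ne_zero hv03)
  have rκ := (rP.add rQ).div (rP.sub rQ) hD0
  have hκ0 : (t * (l0 ^ 2 - 1) * u0.p + t * (l0 ^ 2 - 1) * u0.m) / (t * (l0 ^ 2 - 1) * u0.p - t * (l0 ^ 2 - 1) * u0.m)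
      = (u0.w ^ 3 + u0.y) / u0.v ^ 3 := by
    rw [div_eq_div_iff hD0 hv03]
    linear_combination t * (l0 ^ 2 - 1) * u0.v ^ 3 * hpp0 - t * (l0 ^ 2 - 1) * (u0.w ^ 3 + u0.y) * hpm0
  rw [hκ0] at rκ
  have hD : (l + 1) * A - (l - 1) * B ≠ 0 := (rP.sub rQ).ne_zero hD0
  generalize hPdef : (l + 1) * A = P at *
  generalize hQdef : (l - 1) * B = Q at *
  have hPQ : u.p * Q = u.m * P := by
    rw [← hPdef, ← hQdef]
    linear_combination c1
  obtain ⟨κ, hκ⟩ : ∃ κ : Om K, κ = (P + Q) / (P - Q) := ⟨_, rfl⟩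
  obtain ⟨κ0, hκ00⟩ : ∃ κ0 : K, κ0 = (u0.w ^ 3 + u0.y) / u0.v ^ 3 := ⟨_, rfl⟩
  rw [← hκ, ← hκ00] at rκ
  have hwy : u.w ^ 3 + u.y = κ * u.v ^ 3 := by
    rw [hκ]
    field_simp
    unfold Vtx.p Vtx.m at hPQ
    linear_combination -hPQ
  have hwy0 : u0.w ^ 3 + u0.y = κ0 * u0.v ^ 3 := by
    rw [hκ00]
    field_simp
  have hyκ : u.y = κ * u.v ^ 3 - u.w ^ 3 := by linear_combination hwy
  have hyκ0 : u0.y = κ0 * u0.v ^ 3 - u0.w ^ 3 := by linear_combination hwy0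
  have hk0 : κ0 ^ 2 - 1 ≠ 0 := by
    intro h0
    have h1 : (κ0 - 1) * (κ0 + 1) = 0 := by linear_combination h0
    rcases mul_eq_zero.1 h1 with h2 | h2
    · apply hm0
      unfold Vtx.m
      rw [hyκ0]
      linear_combination u0.v ^ 3 * h2
    · apply hp0
      unfold Vtx.p
      rw [hyκ0]
      linear_combination u0.v ^ 3 * h2
  have hk : κ ^ 2 - 1 ≠ 0 := ((rκ.pow 2).sub Rd.one).ne_zero hk0
  have hv6 : u.v ^ 6 = (2 * κ * u.al - 2 * u.ab.2) / (κ ^ 2 - 1) := by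
    rw [eq_div_iff hk]
    have h2 : 2 * u.ab.2 = u.w ^ 6 + u.v ^ 6 - u.y ^ 2 := by
      show 2 * ((u.w ^ 6 + u.v ^ 6 - u.y ^ 2) / 2) = _
      field_simp
    rw [h2, hyκ]
    unfold Vtx.al
    ring
  have hv06 : u0.v ^ 6 = (2 * κ0 * u0.al - 2 * u0.ab.2) / (κ0 ^ 2 - 1) := by
    rw [eq_div_iff hk0]
    have h2 : 2 * u0.ab.2 = u0.w ^ 6 + u0.v ^ 6 - u0.y ^ 2 := by
      show 2 * ((u0.w ^ 6 + u0.v ^ 6 - u0.y ^ 2) / 2) = _
      field_simp
    rw [h2, hyκ0]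
    unfold Vtx.al
    ring
  have rv6 : Rd π.V π.φ (u.v ^ 6) (u0.v ^ 6) := by
    rw [hv6, hv06]
    exact (((Rd.two.mul rκ).mul hal).sub (Rd.two.mul hab.2)).div ((rκ.pow 2).sub Rd.one) hk0
  have hvV : u.v ∈ π.V := prd_mem_pow (n := 6) (by norm_num) rv6.mem
  obtain ⟨v1, rv⟩ : ∃ v1 : K, Rd π.V π.φ u.v v1 := ⟨_, Rd.of_mem hvV⟩
  have hv1 : v1 ≠ 0 := by
    rintro rfl
    have h1 := (rv.pow 6).unique rv6
    rw [zero_pow (by norm_num)] at h1
    exact pow_ne_zero 6 hv0 h1.symm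
  have rw1 : Rd π.V π.φ u.w (u0.al / u0.ab.1 * v1⁻¹) := by
    have h1 : u.w = u.al / u.ab.1 * u.v⁻¹ := by
      rw [← wv_eq hndu]
      field_simp
    rw [h1]
    exact (hal.div hab.1 hnd.a).mul (rv.inv hv1)
  have ry : Rd π.V π.φ u.y (κ0 * v1 ^ 3 - (u0.al / u0.ab.1 * v1⁻¹) ^ 3) := by
    rw [hyκ]
    exact (rκ.mul (rv.pow 3)).sub (rw1.pow 3)
  obtain ⟨u1, hu1⟩ : ∃ u1 : Vtx K, RdV π u u1 := ⟨⟨_, _, _⟩, rw1, rv, ry⟩
  have hab1 : u1.ab = u0.ab := Prod.ext (hu1.ab.1.unique hab.1) (hu1.ab.2.unique hab.2)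
  have hal1 : u1.al = u0.al := hu1.ps4.2.2.2.2.unique hal
  have hcr : u0.p * u1.m = u1.p * u0.m := by
    have h1 := (hu1.ps4.1.mul rQ).unique (by rw [hPQ]; exact hu1.ps4.2.2.1.mul rP)
    have h2 : t * (l0 ^ 2 - 1) * (u0.p * u1.m) = t * (l0 ^ 2 - 1) * (u1.p * u0.m) := by
      linear_combination -h1
    exact mul_left_cancel₀ hs0 h2
  obtain ⟨z, hz, hu1z⟩ := vtx_eq hab1.symm hal1.symm hnd hcr
  refine ⟨z, hz, hu1z ▸ hu1, ?_⟩
  -- the rest of the matrix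
  have hM01 : M0 = u1.sand M0' := by rw [hM0, hu1z, sand_rot u0 hz]
  have h4 : Rd π.V π.φ (4⁻¹ : Om K) (4⁻¹ : K) := by
    have h5 : Rd π.V π.φ (algebraMap K (Om K) 4⁻¹) (4⁻¹ : K) := π.const _
    rwa [map_inv₀, map_ofNat] at h5
  have hal1' : u1.al ≠ 0 := by rw [hal1]; exact hal0
  have hDD : RdP π (C (4⁻¹ : Om K) * (u.LL.det * u.LS.det)) (C (4⁻¹ : K) * (u1.LL.det * u1.LS.det)) :=
    (RdP.C h4).mul ((prd_det (RdMt.LL hu1).1).mul (prd_det (RdMt.LL hu1).2))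
  have hYY : RdMt π (u.LL.adjugate * M * u.LS.adjugate) (u1.LL.adjugate * M0 * u1.LS.adjugate) :=
    ((prd_rdadj (RdMt.LL hu1).1).mul hr).mul (prd_rdadj (RdMt.LL hu1).2)
  have hn1 := prd_deg halu
  have hn0 := prd_deg hal1'
  have hDne : C (4⁻¹ : K) * (u1.LL.det * u1.LS.det) ≠ 0 := by
    intro h
    rw [h, natDegree_zero] at hn0
    omega
  intro i j
  have e1 := congrFun (congrFun (prd_adj hM) i) j
  have e0 := congrFun (congrFun (prd_adj hM01) i) j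
  rw [Matrix.smul_apply, smul_eq_mul] at e1 e0
  obtain ⟨Z0, hZ0, hZ0e⟩ := RdP.div hDD (hYY i j) e1.symm (by rw [hn1, hn0]) hDne
  have h6 : Z0 = M0' i j := by
    rw [e0] at hZ0e
    exact mul_left_cancel₀ hDne hZ0e
  rw [← h6]
  exact hZ0

end ES
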