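import Pool.Agent.H67.ES.PeelEx
import Pool.Agent.H67.ES.PeelRd

/-! # ES.Open : goodness is open (about 120 lines)

Induction on `k`.  `k = 0`: `st_zero` (`Om K` is algebraically closed).  Step: nonempty: `s0` has an element and `Multiset.Rel`.  Let `s = c ::ₘ s'`; `Multiset.rel_cons_left` gives
`s0 = c0 ::ₘ s0'`, `RdLb π c c0`, `Rel s' s0'`.  `ND c0` gives `ND c` (a zero reduces to zero).  `al` with `al^2 = c.1^3` is integral (`mem_of_pow`), its reduction `al0` satisfies `al0^2 = c0.1^3`.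
`Good` for `c0`, `al0` gives `NZ M0 al0 c0.2`, `u0`, `M0'`.  `NZ M al c.2`: a root `l` over `Om K` is integral (`al⁻¹` is), its reduction is a root over `K`, the value `(M0 i j)(l0) ≠ 0` is the
reduction of `(M i j)(l)`.  Existence of `u`: take a root `l`, its reduction `l0`, `i`, `j` with `(M0 i j)(l0) ≠ 0`; by `col` for `u0` column `j` of `M0(l0)` is `t ((l0-1) p0, (l0+1) m0)`, `t ≠ 0`, so
`eob_vtx` (with `t (l0^2 - 1)`) gives `eob ≠ 0` over `K`, hence over `Om K` (it reduces to it); `peel_exists` gives `u`, `M'`, `St k s' M'`; `peel_rd` gives `RdMt π M' M0'`; induction. -/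

namespace ES

open Polynomial H68.BB

variable {K : Type} [Field K] [IsAlgClosed K] [CharZero K] {π : Place K (Om K)}

omit [IsAlgClosed K] [CharZero K] in
private theorem opn_mem_pow {z : Om K} {n : ℕ} (hn : 0 < n) (h : z ^ n ∈ π.V) : z ∈ π.V := by
  rcases π.V.mem_or_inv_mem z with h1 | h1
  · exact h1
  · by_cases h0 : z = 0
    · rw [h0]; exact π.V.zero_mem
    obtain ⟨k, rfl⟩ : ∃ k, n = k + 1 := ⟨n - 1, by omega⟩
    have h2 : z = z ^ (k + 1) * z⁻¹ ^ k := by
      rw [pow_succ, inv_pow]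
      field_simp
    rw [h2]
    exact mul_mem h (pow_mem h1 k)

omit [IsAlgClosed K] [CharZero K] in
private theorem opn_mem_quad {l e f : Om K} (he : e ∈ π.V) (hf : f ∈ π.V) (h : l ^ 2 + e * l + f = 0) : l ∈ π.V := by
  rcases π.V.mem_or_inv_mem l with h1 | h1
  · exact h1
  · by_cases h0 : l = 0
    · rw [h0]; exact π.V.zero_mem
    have h2 : l = -e - f * l⁻¹ := by
      field_simp
      linear_combination h
    rw [h2]
    exact sub_mem (neg_mem he) (mul_mem hf h1)

omit [IsAlgClosed K] [CharZero K] in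
private theorem opn_nd {c : Om K × Om K} {c0 : K × K} (h : RdLb π c c0) (hnd : ND c0) : ND c := by
  refine ⟨h.1.ne_zero hnd.a, h.2.ne_zero hnd.b, fun he => ?_⟩
  have h1 := (h.2.pow 2).unique (by rw [he]; exact h.1.pow 3)
  exact hnd.d h1

theorem good_open {k : ℕ} {s : Multiset (Om K × Om K)} {s0 : Multiset (K × K)} {M : Mat (Om K)} {M0 : Mat K}
    (hst : St k s M) (hs : Multiset.Rel (RdLb π) s s0) (hr : RdMt π M M0) (hg : Good k s0 M0) : Good k s M := by
  have := π.isLocal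
  induction k generalizing s s0 M M0 with
  | zero =>
    obtain ⟨i, hi⟩ := IsAlgClosed.exists_pow_nat_eq (-1 : Om K) (n := 2) (by norm_num)
    exact st_zero hst ⟨i, hi⟩
  | succ k ih =>
    obtain ⟨⟨c00, hc00⟩, hg⟩ := hg
    refine ⟨?_, ?_⟩
    · have h1 : Multiset.card s = Multiset.card s0 := Multiset.card_eq_card_of_rel hs
      have h2 : 0 < Multiset.card s0 := Multiset.card_pos_iff_exists_mem.2 ⟨c00, hc00⟩
      exact Multiset.card_pos_iff_exists_mem.1 (by rw [h1]; exact h2)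
    rintro c s' rfl
    obtain ⟨c0, s0', hcc, hss, rfl⟩ := Multiset.rel_cons_left.1 hs
    obtain ⟨hnd0, hg0⟩ := hg c0 s0' rfl
    have hnd : ND c := opn_nd hcc hnd0
    refine ⟨hnd, fun al hal => ?_⟩
    have halV : al ∈ π.V := by
      refine opn_mem_pow (n := 2) (by norm_num) ?_
      rw [hal]
      exact (hcc.1.pow 3).mem
    obtain ⟨al0, hRal⟩ : ∃ al0 : K, Rd π.V π.φ al al0 := ⟨_, Rd.of_mem halV⟩
    have hal0 : al0 ^ 2 = c0.1 ^ 3 := (hRal.pow 2).unique (by rw [hal]; exact hcc.1.pow 3)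
    obtain ⟨hnz0, u0, M0', hu0, hu0al, hM0, hg'⟩ := hg0 al0 hal0
    have hal0ne : al0 ≠ 0 := by
      rintro rfl
      apply hnd0.a
      have : c0.1 ^ 3 = 0 := by rw [← hal0]; ring
      exact pow_eq_zero_iff (by norm_num) |>.1 this
    have halne : al ≠ 0 := hRal.ne_zero hal0ne
    -- roots are integral
    have hroot : ∀ l : Om K, al * (l ^ 2 + 1) = 2 * c.2 * l → ∃ l0 : K, Rd π.V π.φ l l0 ∧
        al0 * (l0 ^ 2 + 1) = 2 * c0.2 * l0 := by
      intro l hl
      have hb : Rd π.V π.φ (-(2 * c.2 / al)) (-(2 * c0.2 / al0)) := ((Rd.two.mul hcc.2).div hRal hal0ne).neg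
      have hlV : l ∈ π.V := by
        refine opn_mem_quad hb.mem π.V.one_mem ?_
        field_simp
        linear_combination hl
      refine ⟨_, Rd.of_mem hlV, ?_⟩
      refine (hRal.mul (((Rd.of_mem hlV).pow 2).add Rd.one)).unique ?_
      rw [hl]
      exact (Rd.two.mul hcc.2).mul (Rd.of_mem hlV)
    have hnz : NZ M al c.2 := by
      intro l hl
      obtain ⟨l0, hl0, hl0e⟩ := hroot l hl
      obtain ⟨i, j, hij⟩ := hnz0 l0 hl0e
      exact ⟨i, j, ((hr i j).eval hl0).ne_zero hij⟩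
    refine ⟨hnz, ?_⟩
    obtain ⟨l, hl⟩ := root_exists (show ND (c.1, c.2) from hnd) hal
    obtain ⟨l0, hl0, hl0e⟩ := hroot l hl
    obtain ⟨hl00, hl01, -⟩ := root_ne (show ND (c0.1, c0.2) from hnd0) hal0 hl0e
    have hm1 : l0 - 1 ≠ 0 := fun h => hl01 (by linear_combination (l0 + 1) * h)
    have hp1 : l0 + 1 ≠ 0 := fun h => hl01 (by linear_combination (l0 - 1) * h)
    have hlm : l0 ^ 2 - 1 ≠ 0 := fun h => hl01 (by linear_combination h)
    obtain ⟨i, j, hij⟩ := hnz0 l0 hl0e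
    have hndu0 : ND u0.ab := by rw [hu0]; exact hnd0
    obtain ⟨-, -, -, hp0, -, hm0, -, -, -⟩ := hndu0.ne
    have hl0u : u0.al * (l0 ^ 2 + 1) = 2 * u0.ab.2 * l0 := by rw [hu0, hu0al]; exact hl0e
    have c1 := col (M := M0') hl0u j
    rw [← hM0] at c1
    have hA0 : (M0 0 j).eval l0 ≠ 0 := by
      intro h0
      rw [h0, mul_zero] at c1
      have hB0 : (M0 1 j).eval l0 = 0 := (mul_eq_zero.1 c1).resolve_left (mul_ne_zero hm1 hp0)
      apply hij
      fin_cases i
      · exact h0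
      · exact hB0
    have rA := (hr 0 j).eval hl0
    have rB := (hr 1 j).eval hl0
    obtain ⟨t, ht⟩ : ∃ t : K, (M0 0 j).eval l0 = t * ((l0 - 1) * u0.p) := ⟨(M0 0 j).eval l0 / ((l0 - 1) * u0.p), by field_simp⟩
    have ht0 : t ≠ 0 := by
      rintro rfl
      exact hA0 (by rw [ht, zero_mul])
    have hB0 : (M0 1 j).eval l0 = t * ((l0 + 1) * u0.m) := by
      have h1 : (l0 - 1) * u0.p * (M0 1 j).eval l0 = (l0 - 1) * u0.p * (t * ((l0 + 1) * u0.m)) := by
        rw [c1, ht]; ring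
      exact mul_left_cancel₀ (mul_ne_zero hm1 hp0) h1
    have he0 : eob ((l0 + 1) * (M0 0 j).eval l0) ((l0 - 1) * (M0 1 j).eval l0) al0 c0.2 ≠ 0 := by
      have h1 := eob_vtx (u := u0) hndu0 (mul_ne_zero ht0 hlm) (P := (l0 + 1) * (M0 0 j).eval l0)
        (M := (l0 - 1) * (M0 1 j).eval l0) (by rw [ht]; ring) (by rw [hB0]; ring)
      rw [hu0, hu0al] at h1
      exact h1
    have he : eob ((l + 1) * (M 0 j).eval l) ((l - 1) * (M 1 j).eval l) al c.2 ≠ 0 := by
      have rP := (hl0.add Rd.one).mul rA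
      have rQ := (hl0.sub Rd.one).mul rB
      have r1 : Rd π.V π.φ (eob ((l + 1) * (M 0 j).eval l) ((l - 1) * (M 1 j).eval l) al c.2)
          (eob ((l0 + 1) * (M0 0 j).eval l0) ((l0 - 1) * (M0 1 j).eval l0) al0 c0.2) := by
        unfold eob
        exact ((rP.mul rQ).mul (rP.sub rQ)).mul ((hRal.mul (rP.add rQ)).sub (hcc.2.mul (rP.sub rQ)))
      exact r1.ne_zero he0
    obtain ⟨u, M', hu, hual, hM, hst'⟩ := peel_exists hst hnd hal hl he
    refine ⟨u, M', hu, hual, hM, ?_⟩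
    obtain ⟨z, hz, -, hr'⟩ := peel_rd hM hM0 hr (by rw [hu, hu0]; exact hcc) (by rw [hual, hu0al]; exact hRal) hndu0
      (by rw [hu0, hu0al]; exact hnz0)
    exact ih hst' hss hr' hg'

end ES
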