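import Pool.Agent.H67.ES.Mdef

/-! # ES.RdPl : reduction of polynomials, matrices and vertices at a place (about 180 lines)

Everything follows from the rules for `Rd` (`H68.BB.Rd.add`, `.mul`, `.neg`, `.sub`, `.pow`, `.one`, `.zero`, `.inv`, `.unique`, and `rd_cst` for constants of `K`; `(4⁻¹ : Om K)` is
`algebraMap K (Om K) 4⁻¹`).  `RdP.mul`: `coeff_mul` (a finite sum).  `RdP.eval`: `eval_eq_sum_range' ` with a common bound for the degrees, or induction.
`RdP.div`: the leading coefficient `e` of `D` reduces to the leading coefficient of `D0` (the degrees agree), which is not `0`, so `e⁻¹` is integral.  By induction on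
the number of terms of `Z` all coefficients of `Z` are integral: the leading coefficient of `Z` is that of `Y` times `e⁻¹`; subtract `C z * X ^ j * D` from `Y`.  Then let `Z0` be the polynomial of the
reductions, `D0 * Z0 = Y0` by `RdP.mul` and uniqueness. -/

namespace ES

open Polynomial H68.BB

variable {K : Type} [Field K] {π : Place K (Om K)}

private theorem rdc (π : Place K (Om K)) (c : K) : Rd π.V π.φ (algebraMap K (Om K) c) c := π.const c

private theorem rd_sum {ι : Type} (s : Finset ι) {f : ι → Om K} {g : ι → K} (h : ∀ i ∈ s, Rd π.V π.φ (f i) (g i)) :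
    Rd π.V π.φ (∑ i ∈ s, f i) (∑ i ∈ s, g i) := by
  classical
  induction s using Finset.induction_on with
  | empty =>
    rw [Finset.sum_empty, Finset.sum_empty]
    exact Rd.zero
  | insert a s ha ih =>
    rw [Finset.sum_insert ha, Finset.sum_insert ha]
    exact (h a (Finset.mem_insert_self a s)).add (ih fun i hi => h i (Finset.mem_insert_of_mem hi))

theorem RdP.C {x : Om K} {x0 : K} (h : Rd π.V π.φ x x0) : RdP π (Polynomial.C x) (Polynomial.C x0) := by
  intro n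
  rw [coeff_C, coeff_C]
  split_ifs
  · exact h
  · exact Rd.zero

theorem RdP.X : RdP π (Polynomial.X : (Om K)[X]) (Polynomial.X : K[X]) := by
  intro n
  rw [coeff_X, coeff_X]
  split_ifs
  · exact Rd.one
  · exact Rd.zero

theorem RdP.one : RdP π (1 : (Om K)[X]) (1 : K[X]) := by
  intro n
  rw [coeff_one, coeff_one]
  split_ifs
  · exact Rd.one
  · exact Rd.zero

theorem RdP.zero : RdP π (0 : (Om K)[X]) (0 : K[X]) := by
  intro n
  rw [coeff_zero, coeff_zero]
  exact Rd.zero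

theorem RdP.add {p q : (Om K)[X]} {p0 q0 : K[X]} (h : RdP π p p0) (h' : RdP π q q0) : RdP π (p + q) (p0 + q0) := by
  intro n
  rw [coeff_add, coeff_add]
  exact (h n).add (h' n)

theorem RdP.neg {p : (Om K)[X]} {p0 : K[X]} (h : RdP π p p0) : RdP π (-p) (-p0) := by
  intro n
  rw [coeff_neg, coeff_neg]
  exact (h n).neg

theorem RdP.sub {p q : (Om K)[X]} {p0 q0 : K[X]} (h : RdP π p p0) (h' : RdP π q q0) : RdP π (p - q) (p0 - q0) := by
  intro n
  rw [coeff_sub, coeff_sub]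
  exact (h n).sub (h' n)

theorem RdP.mul {p q : (Om K)[X]} {p0 q0 : K[X]} (h : RdP π p p0) (h' : RdP π q q0) : RdP π (p * q) (p0 * q0) := by
  intro n
  rw [coeff_mul, coeff_mul]
  exact rd_sum _ fun i _ => (h i.1).mul (h' i.2)

theorem RdP.eval {p : (Om K)[X]} {p0 : K[X]} (h : RdP π p p0) {x : Om K} {x0 : K} (hx : Rd π.V π.φ x x0) :
    Rd π.V π.φ (p.eval x) (p0.eval x0) := by
  rw [eval_eq_sum_range' (n := max p.natDegree p0.natDegree + 1) (by omega) x,
    eval_eq_sum_range' (n := max p.natDegree p0.natDegree + 1) (by omega) x0]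
  exact rd_sum _ fun i _ => (h i).mul (hx.pow i)

theorem RdP.unique {p : (Om K)[X]} {p0 p1 : K[X]} (h : RdP π p p0) (h' : RdP π p p1) : p0 = p1 := by
  ext n
  exact (h n).unique (h' n)

private theorem rdp_exists {Z : (Om K)[X]} (h : ∀ i, Z.coeff i ∈ π.V) : ∃ Z0 : K[X], RdP π Z Z0 := by
  have h1 : (Z.coeffs : Set (Om K)) ⊆ π.V.toSubring := by
    intro c hc
    obtain ⟨i, _, rfl⟩ := Polynomial.mem_coeffs_iff.1 (Finset.mem_coe.1 hc)
    exact h i
  refine ⟨(toSubring Z π.V.toSubring h1).map π.φ, fun n => ⟨h n, ?_⟩⟩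
  rw [coeff_map]
  congr 1
  exact Subtype.ext (coeff_toSubring Z π.V.toSubring h1).symm

private theorem int_div {D : (Om K)[X]} (hD : ∀ i, D.coeff i ∈ π.V) (he : D.leadingCoeff⁻¹ ∈ π.V) (hD0 : D ≠ 0) :
    ∀ (n : ℕ) (Z Y : (Om K)[X]), Z.support.card ≤ n → D * Z = Y → (∀ i, Y.coeff i ∈ π.V) → ∀ i, Z.coeff i ∈ π.V := by
  intro n
  induction n with
  | zero =>
    intro Z Y hZ _ _ i
    have h0 : Z = 0 := by
      rw [← Polynomial.support_eq_empty, ← Finset.card_eq_zero]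
      omega
    rw [h0, coeff_zero]
    exact π.V.zero_mem
  | succ n ih =>
    intro Z Y hZ h hY i
    by_cases h0 : Z = 0
    · rw [h0, coeff_zero]
      exact π.V.zero_mem
    have hl : D.leadingCoeff ≠ 0 := leadingCoeff_ne_zero.2 hD0
    have h1 : Z.leadingCoeff ∈ π.V := by
      have h2 : Z.leadingCoeff = D.leadingCoeff⁻¹ * Y.leadingCoeff := by
        rw [← h, leadingCoeff_mul]
        field_simp
      rw [h2]
      exact π.V.mul_mem _ _ he (hY _)
    have h3 : Z.eraseLead + monomial Z.natDegree Z.leadingCoeff = Z := eraseLead_add_monomial_natDegree_leadingCoeff Z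
    have hmon : ∀ i, (monomial Z.natDegree Z.leadingCoeff : (Om K)[X]).coeff i ∈ π.V := by
      intro i
      rw [coeff_monomial]
      split_ifs
      · exact h1
      · exact π.V.zero_mem
    have h4 := ih Z.eraseLead (Y - D * monomial Z.natDegree Z.leadingCoeff)
      (by have := eraseLead_support_card_lt h0; omega)
      (by rw [← h]; linear_combination D * h3) (by
        intro i
        rw [coeff_sub, coeff_mul]
        refine sub_mem (hY i) (sum_mem fun x _ => π.V.mul_mem _ _ (hD x.1) (hmon x.2))) i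
    rw [← h3, coeff_add]
    exact π.V.add_mem _ _ h4 (hmon i)

theorem RdP.div {D Y Z : (Om K)[X]} {D0 Y0 : K[X]} (hD : RdP π D D0) (hY : RdP π Y Y0) (h : D * Z = Y)
    (hd : D.natDegree = D0.natDegree) (h0 : D0 ≠ 0) : ∃ Z0 : K[X], RdP π Z Z0 ∧ D0 * Z0 = Y0 := by
  haveI := π.isLocal
  have hD0 : D ≠ 0 := by
    rintro rfl
    exact h0 (hD.unique RdP.zero)
  have hl : Rd π.V π.φ D.leadingCoeff D0.leadingCoeff := by
    have h1 := hD D.natDegree
    rw [leadingCoeff, leadingCoeff, ← hd]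
    exact h1
  have he := hl.inv (leadingCoeff_ne_zero.2 h0)
  obtain ⟨Z0, hZ⟩ := rdp_exists (int_div (fun i => (hD i).mem) he.mem hD0 _ Z Y le_rfl h fun i => (hY i).mem)
  refine ⟨Z0, hZ, ?_⟩
  have h2 := hD.mul hZ
  rw [h] at h2
  exact h2.unique hY

theorem RdMt.one : RdMt π (1 : Mat (Om K)) (1 : Mat K) := by
  intro i j
  rw [Matrix.one_apply, Matrix.one_apply]
  split_ifs
  · exact RdP.one
  · exact RdP.zero

theorem RdMt.mul {M N : Mat (Om K)} {M0 N0 : Mat K} (h : RdMt π M M0) (h' : RdMt π N N0) : RdMt π (M * N) (M0 * N0) := by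
  intro i j
  rw [Matrix.mul_apply, Matrix.mul_apply, Fin.sum_univ_two, Fin.sum_univ_two]
  exact ((h i 0).mul (h' 0 j)).add ((h i 1).mul (h' 1 j))

theorem RdMt.unique {M : Mat (Om K)} {M0 M1 : Mat K} (h : RdMt π M M0) (h' : RdMt π M M1) : M0 = M1 := by
  ext1 i j
  exact (h i j).unique (h' i j)

theorem RdV.ps4 {u : Vtx (Om K)} {u0 : Vtx K} (h : RdV π u u0) : Rd π.V π.φ u.p u0.p ∧ Rd π.V π.φ u.ps u0.ps ∧
    Rd π.V π.φ u.m u0.m ∧ Rd π.V π.φ u.ms u0.ms ∧ Rd π.V π.φ u.al u0.al :=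
  ⟨((h.w.pow 3).add (h.v.pow 3)).add h.y, ((h.w.pow 3).add (h.v.pow 3)).sub h.y,
    ((h.w.pow 3).sub (h.v.pow 3)).add h.y, ((h.w.pow 3).sub (h.v.pow 3)).sub h.y, (h.w.mul h.v).pow 3⟩

theorem RdV.ab [CharZero K] {u : Vtx (Om K)} {u0 : Vtx K} (h : RdV π u u0) : RdLb π u.ab u0.ab := by
  haveI := π.isLocal
  exact ⟨(h.w.mul h.v).pow 2, (((h.w.pow 6).add (h.v.pow 6)).sub (h.y.pow 2)).div Rd.two two_ne_zero⟩

theorem RdV.unique {u : Vtx (Om K)} {u0 u1 : Vtx K} (h : RdV π u u0) (h' : RdV π u u1) : u0 = u1 :=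
  Vtx.ext (h.w.unique h'.w) (h.v.unique h'.v) (h.y.unique h'.y)

private theorem rdmt_of {a b c d : (Om K)[X]} {a0 b0 c0 d0 : K[X]} (ha : RdP π a a0) (hb : RdP π b b0) (hc : RdP π c c0)
    (hd : RdP π d d0) : RdMt π !![a, b; c, d] !![a0, b0; c0, d0] := by
  intro i j
  fin_cases i <;> fin_cases j
  · exact ha
  · exact hb
  · exact hc
  · exact hd

theorem RdMt.LL {u : Vtx (Om K)} {u0 : Vtx K} (h : RdV π u u0) : RdMt π u.LL u0.LL ∧ RdMt π u.LS u0.LS := by
  obtain ⟨h1, h2, h3, h4, _⟩ := h.ps4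
  have hm : RdP π (Polynomial.X - 1 : (Om K)[X]) (Polynomial.X - 1 : K[X]) := RdP.X.sub RdP.one
  have hp : RdP π (Polynomial.X + 1 : (Om K)[X]) (Polynomial.X + 1 : K[X]) := RdP.X.add RdP.one
  exact ⟨rdmt_of ((RdP.C h1).mul hm) ((RdP.C h4).mul hp) ((RdP.C h3).mul hp) ((RdP.C h2).mul hm),
    rdmt_of ((RdP.C h2).mul hp) ((RdP.C h4).mul hm) ((RdP.C h3).mul hm) ((RdP.C h1).mul hp)⟩

theorem RdMt.sand [CharZero K] {u : Vtx (Om K)} {u0 : Vtx K} {M : Mat (Om K)} {M0 : Mat K} (h : RdV π u u0)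
    (hM : RdMt π M M0) : RdMt π (u.sand M) (u0.sand M0) := by
  have h4 : Rd π.V π.φ (4⁻¹ : Om K) (4⁻¹ : K) := by
    have := rdc π (4⁻¹ : K)
    rwa [map_inv₀, map_ofNat] at this
  intro i j
  exact (RdP.C h4).mul (((RdMt.LL h).1.mul hM).mul (RdMt.LL h).2 i j)

theorem RdMt.scale {c : Om K} {c0 : K} {M : Mat (Om K)} {M0 : Mat K} (h : Rd π.V π.φ c c0) (h0 : c0 ≠ 0)
    (hM : RdMt π M M0) : RdMt π (scale c M) (scale c0 M0) := by
  haveI := π.isLocal
  exact rdmt_of (hM 0 0) ((RdP.C (h.inv h0)).mul (hM 0 1)) ((RdP.C h).mul (hM 1 0)) (hM 1 1)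

end ES
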