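import Pool.Agent.H67.ES.Cof
import Pool.Agent.H67.ES.RdPl

/-! # ES.Spread : goodness spreads out (about 130 lines)

Induction on `k` (all `s`, `M`).  `k = 0`: `M = 1`, `RdMt.one`.  Step: the finite set `T` of pairs `(c, α)` with `c ∈ s`, `α ∈ K`, `α^2 = c.1^3` (for each `c` at most two `α`: roots of
`X^2 - C (c.1^3)`).  For `(c, α) ∈ T` and `s' = s.erase c` (`Multiset.cons_erase`; `s.map cstL = cstL c ::ₘ s'.map cstL`) `Good` gives `ND (cstL c)`, `NZ`, `u`, `M'`.  Statements `Cof`: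
`∃ M0, RdMt π M M0` (`cof_rdMt`); for `(c, α) ∈ T`: `∃ u0, RdV π u u0`; `∃ M0', RdMt π M' M0' ∧ Good k s' M0'` (induction); for every root `l ∈ K` of `α (l^2+1) = 2 c.2 l` (finitely many, because
`α ≠ 0`): some entry `(M i j)(algebraMap l) ≠ 0` reduces to a nonzero element (`cof_unit`).  At a place where all this holds `M0` is good: if `s = c ::ₘ s'` then `s' = s.erase c`; `ND c` from
`ND (cstL c)` (injectivity of `algebraMap`); `M0 = u0.sand M0'` by `RdMt.sand`, `RdMt.unique`; `u0.ab = c`, `u0.al = α` by uniqueness of reductions (`RdV.ab`, `RdV.ps4`, `rd_cst`); `NZ`: `RdP.eval`. -/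

namespace ES

open Polynomial H68.BB
open H67.KH (rd_cst)

variable {K : Type} [Field K] [IsAlgClosed K] [CharZero K]

private theorem spread_nd {c : K × K} (h : ND (cstL c)) : ND c := by
  have hinj := (algebraMap K (Om K)).injective
  refine ⟨fun h0 => h.a ?_, fun h0 => h.b ?_, fun h0 => h.d ?_⟩
  · change algebraMap K (Om K) c.1 = 0
    rw [h0, map_zero]
  · change algebraMap K (Om K) c.2 = 0
    rw [h0, map_zero]
  · change algebraMap K (Om K) c.2 ^ 2 = algebraMap K (Om K) c.1 ^ 3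
    rw [← map_pow, ← map_pow, h0]

private theorem spread_roots {al b : K} (h : al ≠ 0) : {l : K | al * (l ^ 2 + 1) = 2 * b * l}.Finite := by
  have hp : (C al * X ^ 2 + C (-(2 * b)) * X + C al : K[X]) ≠ 0 := by
    intro h0
    have h1 := congrArg (fun q => q.coeff 2) h0
    simp [coeff_X, coeff_C] at h1
    exact h h1
  refine (finite_setOfPred_isRoot hp).subset fun l hl => ?_
  change al * (l ^ 2 + 1) = 2 * b * l at hl
  change eval l _ = 0
  simp only [eval_add, eval_mul, eval_C, eval_pow, eval_X]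
  linear_combination hl

private theorem spread_al (c : K) : {al : K | al ^ 2 = c}.Finite := by
  have hp : (X ^ 2 - C c : K[X]) ≠ 0 := X_pow_sub_C_ne_zero (by norm_num) c
  refine (finite_setOfPred_isRoot hp).subset fun l hl => ?_
  change l ^ 2 = c at hl
  change eval l _ = 0
  simp [hl]

private theorem spread_nz {M : Mat (Om K)} {al b : K} (hal : al ≠ 0)
    (h : NZ M (algebraMap K (Om K) al) (algebraMap K (Om K) b)) :
    Cof (fun π => ∀ M0 : Mat K, RdMt π M M0 → NZ M0 al b) := by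
  have h1 : ∀ l ∈ {l : K | al * (l ^ 2 + 1) = 2 * b * l},
      Cof (fun π => ∀ M0 : Mat K, RdMt π M M0 → ∃ i j, (M0 i j).eval l ≠ 0) := by
    intro l hl
    change al * (l ^ 2 + 1) = 2 * b * l at hl
    obtain ⟨i, j, hij⟩ := h (algebraMap K (Om K) l) (by
      have h2 := congrArg (algebraMap K (Om K)) hl
      simpa only [map_mul, map_add, map_pow, map_one, map_ofNat] using h2)
    refine (cof_unit hij).mono fun π hπ M0 hM => ?_
    obtain ⟨y, hy, hr⟩ := hπ
    refine ⟨i, j, ?_⟩
    rw [((hM i j).eval (rd_cst (π := π) l)).unique hr]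
    exact hy
  refine (Cof.all (spread_roots (b := b) hal) h1).mono fun π hπ M0 hM l hl => hπ l hl M0 hM

private theorem spread_step {k : ℕ} {s' : Multiset (K × K)} {M : Mat (Om K)} {c : K × K} {al : K}
    (hnd : ND (cstL c)) (hal : al ^ 2 = c.1 ^ 3)
    (hnz : NZ M (algebraMap K (Om K) al) (cstL c).2)
    {u : Vtx (Om K)} {M' : Mat (Om K)} (hab : u.ab = cstL c) (hual : u.al = algebraMap K (Om K) al)
    (hM : M = u.sand M') (ih : Cof (fun π => ∃ M0 : Mat K, RdMt π M' M0 ∧ Good k s' M0)) :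
    Cof (fun π => ∀ M0 : Mat K, RdMt π M M0 → NZ M0 al c.2 ∧
        ∃ (u : Vtx K) (M' : Mat K), u.ab = c ∧ u.al = al ∧ M0 = u.sand M' ∧ Good k s' M') := by
  have hal0 : al ≠ 0 := by
    intro h0
    apply (spread_nd hnd).a
    have h1 : c.1 ^ 3 = 0 := by rw [← hal, h0]; ring
    exact pow_eq_zero_iff (by norm_num) |>.mp h1
  refine (((spread_nz hal0 hnz).and (cof_rdV u)).and ih).mono ?_
  rintro π ⟨⟨h1, u0, hu⟩, M0', hM', hg⟩ M0 hM0
  refine ⟨h1 M0 hM0, u0, M0', ?_, ?_, ?_, hg⟩
  · have h2 := hu.ab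
    rw [hab] at h2
    exact Prod.ext (h2.1.unique (rd_cst (π := π) c.1)) (h2.2.unique (rd_cst (π := π) c.2))
  · have h2 := hu.ps4.2.2.2.2
    rw [hual] at h2
    exact h2.unique (rd_cst (π := π) al)
  · have h2 := RdMt.sand hu hM'
    rw [← hM] at h2
    exact RdMt.unique hM0 h2

theorem good_spread {k : ℕ} {s : Multiset (K × K)} {M : Mat (Om K)} (hg : Good k (s.map cstL) M) :
    Cof (fun π => ∃ M0 : Mat K, RdMt π M M0 ∧ Good k s M0) := by
  classical
  induction k generalizing s M with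
  | zero =>
    obtain ⟨h1, h2⟩ := hg
    have hs : s = 0 := Multiset.map_eq_zero.mp h1
    subst hs
    subst h2
    have h3 : {c : K | ∃ π : Place K (Om K), Rd π.V π.φ (tt K) c ∧
        ¬ ∃ M0 : Mat K, RdMt π (1 : Mat (Om K)) M0 ∧ Good 0 (0 : Multiset (K × K)) M0} = ∅ := by
      ext c
      simp only [Set.mem_ofPred_eq, Set.mem_empty_iff_false, iff_false]
      rintro ⟨π, -, h⟩
      exact h ⟨1, RdMt.one, rfl, rfl⟩
    unfold Cof
    rw [h3]
    exact Set.finite_empty
  | succ k ih =>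
    obtain ⟨⟨c1, hc1⟩, hall⟩ := hg
    have key : ∀ c ∈ {c : K × K | c ∈ s}, Cof (fun π => ∀ al ∈ {al : K | al ^ 2 = c.1 ^ 3},
        ∀ M0 : Mat K, RdMt π M M0 → NZ M0 al c.2 ∧
        ∃ (u : Vtx K) (M' : Mat K), u.ab = c ∧ u.al = al ∧ M0 = u.sand M' ∧ Good k (s.erase c) M') := by
      intro c hc
      change c ∈ s at hc
      have h1 : s.map cstL = cstL c ::ₘ (s.erase c).map cstL := by
        rw [← Multiset.map_cons, Multiset.cons_erase hc]
      obtain ⟨hnd, h2⟩ := hall _ _ h1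
      refine Cof.all (spread_al _) fun al hal => ?_
      change al ^ 2 = c.1 ^ 3 at hal
      obtain ⟨hnz, u, M', hab, hual, hM, hg'⟩ := h2 (algebraMap K (Om K) al) (by
        change algebraMap K (Om K) al ^ 2 = algebraMap K (Om K) c.1 ^ 3
        rw [← map_pow, ← map_pow, hal])
      exact spread_step hnd hal hnz hab hual hM (ih hg')
    have hfin : {c : K × K | c ∈ s}.Finite := by
      refine s.toFinset.finite_toSet.subset fun c hc => ?_
      simpa using hc
    refine ((cof_rdMt M).and (Cof.all hfin key)).mono ?_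
    rintro π ⟨⟨M0, hM0⟩, hk⟩
    refine ⟨M0, hM0, ?_, ?_⟩
    · obtain ⟨c, hc, -⟩ := Multiset.mem_map.mp hc1
      exact ⟨c, hc⟩
    · rintro c s' rfl
      have hc : c ∈ c ::ₘ s' := Multiset.mem_cons_self c s'
      have he : (c ::ₘ s').erase c = s' := Multiset.erase_cons_head c s'
      have h1 : (c ::ₘ s').map cstL = cstL c ::ₘ s'.map cstL := Multiset.map_cons _ _ _
      refine ⟨spread_nd (hall _ _ h1).1, fun al hal => ?_⟩
      have h2 := hk c hc al hal M0 hM0
      rwa [he] at h2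

end ES
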