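import Pool.Agent.H67.ES.Vlem

/-! # ES.StXX : the products `XX f` satisfy the state conditions (about 160 lines)

`st_sand`: let `X^t = [[d, b],[c, a]]` for `X = [[a, b],[c, d]]` (an antiautomorphism) and `D = diag(1,-1)`.  For all `x`: `LL(-x) = -LS(x)^t`,
`LS(-x) = -LL(x)^t`, `x LL(1/x) = - D LL(x) D`, `x LS(1/x) = D LS(x) D`.  The conditions `s..` say `M(-x) = M(x)^t`, the conditions `r..` say
`x^(2k) M(1/x) = (-1)^k D M(x) D` (for the entry `1 1` use `s00`).  So they pass to `LL M LS / 4`.  (In Lean: write the entries of `u.sand M` explicitly,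
`Matrix.mul_apply`, `Fin.sum_univ_two`, evaluate, and use `linear_combination`.)
Determinant: `det_sand`.  `ev`: for `i^2 = -1` one has `i⁻¹ = -i`, `i^(2k) = (-1)^k`, so `r01`, `s01` give `M 0 1 (i) = 0`, `M 1 0 (i) = 0`, and `r00`, `s00` give
`M 1 1 (i) = M 0 0 (i)`; `(LL(i) LS(i))_00 = (i^2 - 1)(p ps + m ms) = -8 b`. -/

namespace ES

open Polynomial H68.BB

variable {F : Type} [Field F] [CharZero F]

theorem st_nil : St 0 0 (1 : Mat F) := by
  have h00 : (1 : Mat F) 0 0 = 1 := Matrix.one_apply_eq 0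
  have h11 : (1 : Mat F) 1 1 = 1 := Matrix.one_apply_eq 1
  have h01 : (1 : Mat F) 0 1 = 0 := Matrix.one_apply_ne (by decide)
  have h10 : (1 : Mat F) 1 0 = 0 := Matrix.one_apply_ne (by decide)
  constructor
  · simp
  · intro i j
    fin_cases i <;> fin_cases j
    · show ((1 : Mat F) 0 0).natDegree ≤ _
      rw [h00]; simp
    · show ((1 : Mat F) 0 1).natDegree ≤ _
      rw [h01]; simp
    · show ((1 : Mat F) 1 0).natDegree ≤ _
      rw [h10]; simp
    · show ((1 : Mat F) 1 1).natDegree ≤ _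
      rw [h11]; simp
  · intro x; rw [h00, h11]; simp
  · intro x; rw [h01]; simp
  · intro x; rw [h10]; simp
  · intro x _; rw [h00]; simp
  · intro x _; rw [h01]; simp
  · intro x _; rw [h10]; simp
  · rw [Matrix.det_one]; simp
  · intro i _; rw [h00]; simp

omit [CharZero F] in
private theorem sx_entry (u : Vtx F) (M : Mat F) (i j : Fin 2) :
    (u.sand M) i j = C (4⁻¹ : F) * (u.LL i 0 * (M 0 0 * u.LS 0 j + M 0 1 * u.LS 1 j) +
      u.LL i 1 * (M 1 0 * u.LS 0 j + M 1 1 * u.LS 1 j)) := by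
  unfold Vtx.sand
  rw [Matrix.mul_assoc, Matrix.smul_apply, Matrix.mul_apply, Fin.sum_univ_two, Matrix.mul_apply, Matrix.mul_apply,
    Fin.sum_univ_two, Fin.sum_univ_two, smul_eq_mul]

omit [CharZero F] in
private theorem sx_e00 (u : Vtx F) (M : Mat F) (x : F) : ((u.sand M) 0 0).eval x =
    4⁻¹ * (u.p * (x - 1) * ((M 0 0).eval x * (u.ps * (x + 1)) + (M 0 1).eval x * (u.m * (x - 1))) +
      u.ms * (x + 1) * ((M 1 0).eval x * (u.ps * (x + 1)) + (M 1 1).eval x * (u.m * (x - 1)))) := by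
  rw [sx_entry]
  simp [Vtx.LL, Vtx.LS]

omit [CharZero F] in
private theorem sx_e01 (u : Vtx F) (M : Mat F) (x : F) : ((u.sand M) 0 1).eval x =
    4⁻¹ * (u.p * (x - 1) * ((M 0 0).eval x * (u.ms * (x - 1)) + (M 0 1).eval x * (u.p * (x + 1))) +
      u.ms * (x + 1) * ((M 1 0).eval x * (u.ms * (x - 1)) + (M 1 1).eval x * (u.p * (x + 1)))) := by
  rw [sx_entry]
  simp [Vtx.LL, Vtx.LS]

omit [CharZero F] in
private theorem sx_e10 (u : Vtx F) (M : Mat F) (x : F) : ((u.sand M) 1 0).eval x =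
    4⁻¹ * (u.m * (x + 1) * ((M 0 0).eval x * (u.ps * (x + 1)) + (M 0 1).eval x * (u.m * (x - 1))) +
      u.ps * (x - 1) * ((M 1 0).eval x * (u.ps * (x + 1)) + (M 1 1).eval x * (u.m * (x - 1)))) := by
  rw [sx_entry]
  simp [Vtx.LL, Vtx.LS]

omit [CharZero F] in
private theorem sx_e11 (u : Vtx F) (M : Mat F) (x : F) : ((u.sand M) 1 1).eval x =
    4⁻¹ * (u.m * (x + 1) * ((M 0 0).eval x * (u.ms * (x - 1)) + (M 0 1).eval x * (u.p * (x + 1))) +
      u.ps * (x - 1) * ((M 1 0).eval x * (u.ms * (x - 1)) + (M 1 1).eval x * (u.p * (x + 1)))) := by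
  rw [sx_entry]
  simp [Vtx.LL, Vtx.LS]

omit [CharZero F] in
private theorem sx_degL (u : Vtx F) (i j : Fin 2) : (u.LL i j).natDegree ≤ 1 := by
  have h1 : ∀ c : F, (C c * (X - 1)).natDegree ≤ 1 := fun c => by
    refine (natDegree_C_mul_le _ _).trans ?_
    have : (X - 1 : F[X]) = X - C 1 := by rw [C_1]
    rw [this, natDegree_X_sub_C]
  have h2 : ∀ c : F, (C c * (X + 1)).natDegree ≤ 1 := fun c => by
    refine (natDegree_C_mul_le _ _).trans ?_
    have : (X + 1 : F[X]) = X + C 1 := by rw [C_1]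
    rw [this, natDegree_X_add_C]
  fin_cases i <;> fin_cases j
  · exact h1 _
  · exact h2 _
  · exact h2 _
  · exact h1 _

omit [CharZero F] in
private theorem sx_degS (u : Vtx F) (i j : Fin 2) : (u.LS i j).natDegree ≤ 1 := by
  have h1 : ∀ c : F, (C c * (X - 1)).natDegree ≤ 1 := fun c => by
    refine (natDegree_C_mul_le _ _).trans ?_
    have : (X - 1 : F[X]) = X - C 1 := by rw [C_1]
    rw [this, natDegree_X_sub_C]
  have h2 : ∀ c : F, (C c * (X + 1)).natDegree ≤ 1 := fun c => by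
    refine (natDegree_C_mul_le _ _).trans ?_
    have : (X + 1 : F[X]) = X + C 1 := by rw [C_1]
    rw [this, natDegree_X_add_C]
  fin_cases i <;> fin_cases j
  · exact h2 _
  · exact h1 _
  · exact h1 _
  · exact h2 _

theorem st_sand {k : ℕ} {s : Multiset (F × F)} {M : Mat F} (h : St k s M) (u : Vtx F) :
    St (k + 1) (u.ab ::ₘ s) (u.sand M) := by
  have m11 : ∀ x : F, (M 1 1).eval (-x) = (M 0 0).eval x := fun x => by
    have h1 := h.s00 (-x)
    rw [neg_neg] at h1
    exact h1.symm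
  have r11 : ∀ x : F, x ≠ 0 → x ^ (2 * k) * (M 1 1).eval x⁻¹ = (-1) ^ k * (M 1 1).eval x := fun x hx => by
    have h1 := h.r00 (-x) (neg_ne_zero.2 hx)
    rw [inv_neg, h.s00, h.s00] at h1
    have h2 : (-x) ^ (2 * k) = x ^ (2 * k) := by rw [pow_mul, pow_mul, neg_sq]
    rw [h2] at h1
    exact h1
  have hA : ∀ x : F, x ≠ 0 → x ^ 2 * ((x⁻¹ - 1) * (x⁻¹ + 1)) = (1 - x) * (1 + x) := fun x hx => by
    field_simp
  have hB : ∀ x : F, x ≠ 0 → x ^ 2 * (x⁻¹ - 1) ^ 2 = (1 - x) ^ 2 := fun x hx => by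
    have h1 : x * x⁻¹ = 1 := mul_inv_cancel₀ hx
    linear_combination (x * x⁻¹ - x + (1 - x)) * h1
  have hC : ∀ x : F, x ≠ 0 → x ^ 2 * (x⁻¹ + 1) ^ 2 = (1 + x) ^ 2 := fun x hx => by
    have h1 : x * x⁻¹ = 1 := mul_inv_cancel₀ hx
    linear_combination (x * x⁻¹ + x + (1 + x)) * h1
  constructor
  · rw [Multiset.card_cons, h.card]
  · intro i j
    rw [sx_entry]
    refine (natDegree_C_mul_le _ _).trans ?_
    have key : ∀ (a b c d : Fin 2), (M a b * u.LS c d).natDegree ≤ 2 * k + 1 := fun a b c d =>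
      natDegree_mul_le_of_le (h.deg a b) (sx_degS u c d)
    have key2 : ∀ (a b : Fin 2) (q r : F[X]), q.natDegree ≤ 2 * k + 1 → r.natDegree ≤ 2 * k + 1 →
        (u.LL a b * (q + r)).natDegree ≤ 1 + (2 * k + 1) := fun a b q r hq hr =>
      natDegree_mul_le_of_le (sx_degL u a b) (natDegree_add_le_of_degree_le hq hr)
    refine natDegree_add_le_of_degree_le ?_ ?_
    · refine (key2 _ _ _ _ (key _ _ _ _) (key _ _ _ _)).trans (by omega)
    · refine (key2 _ _ _ _ (key _ _ _ _) (key _ _ _ _)).trans (by omega)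
  · intro x
    rw [sx_e00, sx_e11, h.s00, h.s01, h.s10, m11]
    ring
  · intro x
    rw [sx_e01, sx_e01, h.s00, h.s01, h.s10, m11]
    ring
  · intro x
    rw [sx_e10, sx_e10, h.s00, h.s01, h.s10, m11]
    ring
  · intro x hx
    rw [sx_e00, sx_e00]
    have a1 := hA x hx
    have a2 := hB x hx
    have a3 := hC x hx
    have t1 := h.r00 x hx
    have t2 := h.r01 x hx
    have t3 := h.r10 x hx
    have t4 := r11 x hx
    have hk : x ^ (2 * (k + 1)) = x ^ (2 * k) * x ^ 2 := by rw [mul_add, pow_add, mul_one]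
    have hk2 : ((-1 : F)) ^ (k + 1) = (-1) ^ k * (-1) := pow_succ _ _
    rw [hk, hk2]
    generalize x⁻¹ = y at *
    generalize x ^ (2 * k) = a at *
    generalize ((-1 : F)) ^ k = e at *
    linear_combination 4⁻¹ * (u.p * u.ps * a * (M 0 0).eval y * a1 + u.p * u.m * a * (M 0 1).eval y * a2 +
      u.ms * u.ps * a * (M 1 0).eval y * a3 + u.ms * u.m * a * (M 1 1).eval y * a1) +
      4⁻¹ * (u.p * u.ps * (1 - x) * (1 + x) * t1 + u.p * u.m * (1 - x) ^ 2 * t2 +
      u.ms * u.ps * (1 + x) ^ 2 * t3 + u.ms * u.m * (1 - x) * (1 + x) * t4)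
  · intro x hx
    rw [sx_e01, sx_e01]
    have a1 := hA x hx
    have a2 := hB x hx
    have a3 := hC x hx
    have t1 := h.r00 x hx
    have t2 := h.r01 x hx
    have t3 := h.r10 x hx
    have t4 := r11 x hx
    have hk : x ^ (2 * (k + 1)) = x ^ (2 * k) * x ^ 2 := by rw [mul_add, pow_add, mul_one]
    have hk2 : ((-1 : F)) ^ (k + 1) = (-1) ^ k * (-1) := pow_succ _ _
    rw [hk, hk2]
    generalize x⁻¹ = y at *
    generalize x ^ (2 * k) = a at *
    generalize ((-1 : F)) ^ k = e at *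
    linear_combination 4⁻¹ * (u.p * u.ms * a * (M 0 0).eval y * a2 + u.p * u.p * a * (M 0 1).eval y * a1 +
      u.ms * u.ms * a * (M 1 0).eval y * a1 + u.ms * u.p * a * (M 1 1).eval y * a3) +
      4⁻¹ * (u.p * u.ms * (1 - x) ^ 2 * t1 + u.p * u.p * (1 - x) * (1 + x) * t2 +
      u.ms * u.ms * (1 - x) * (1 + x) * t3 + u.ms * u.p * (1 + x) ^ 2 * t4)
  · intro x hx
    rw [sx_e10, sx_e10]
    have a1 := hA x hx
    have a2 := hB x hx
    have a3 := hC x hx
    have t1 := h.r00 x hx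
    have t2 := h.r01 x hx
    have t3 := h.r10 x hx
    have t4 := r11 x hx
    have hk : x ^ (2 * (k + 1)) = x ^ (2 * k) * x ^ 2 := by rw [mul_add, pow_add, mul_one]
    have hk2 : ((-1 : F)) ^ (k + 1) = (-1) ^ k * (-1) := pow_succ _ _
    rw [hk, hk2]
    generalize x⁻¹ = y at *
    generalize x ^ (2 * k) = a at *
    generalize ((-1 : F)) ^ k = e at *
    linear_combination 4⁻¹ * (u.m * u.ps * a * (M 0 0).eval y * a3 + u.m * u.m * a * (M 0 1).eval y * a1 +
      u.ps * u.ps * a * (M 1 0).eval y * a1 + u.ps * u.m * a * (M 1 1).eval y * a2) +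
      4⁻¹ * (u.m * u.ps * (1 + x) ^ 2 * t1 + u.m * u.m * (1 - x) * (1 + x) * t2 +
      u.ps * u.ps * (1 - x) * (1 + x) * t3 + u.ps * u.m * (1 - x) ^ 2 * t4)
  · rw [det_sand, h.det, Multiset.map_cons, Multiset.prod_cons]
  · intro i hi
    have hi0 : i ≠ 0 := by
      rintro rfl
      norm_num at hi
    have hinv : i⁻¹ = -i := by
      rw [inv_eq_iff_eq_inv, ← mul_eq_one_iff_eq_inv₀ (neg_ne_zero.2 hi0)]
      linear_combination -hi
    have hpow : i ^ (2 * k) = (-1) ^ k := by rw [pow_mul, hi]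
    have hne : ((-1 : F)) ^ k ≠ 0 := pow_ne_zero k (by norm_num)
    have z01 : (M 0 1).eval i = 0 := by
      have h1 := h.r01 i hi0
      rw [hinv, h.s01, hpow] at h1
      have h2 : 2 * ((-1 : F) ^ k * (M 0 1).eval i) = 0 := by linear_combination h1
      rcases mul_eq_zero.1 h2 with h3 | h3
      · exact absurd h3 two_ne_zero
      · exact (mul_eq_zero.1 h3).resolve_left hne
    have z10 : (M 1 0).eval i = 0 := by
      have h1 := h.r10 i hi0
      rw [hinv, h.s10, hpow] at h1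
      have h2 : 2 * ((-1 : F) ^ k * (M 1 0).eval i) = 0 := by linear_combination h1
      rcases mul_eq_zero.1 h2 with h3 | h3
      · exact absurd h3 two_ne_zero
      · exact (mul_eq_zero.1 h3).resolve_left hne
    have z11 : (M 1 1).eval i = (M 0 0).eval i := by
      have h1 := h.r00 i hi0
      rw [hinv, h.s00, hpow] at h1
      exact mul_left_cancel₀ hne h1
    have h1 := p_mul_ps u
    have h2 := m_mul_ms u
    have h3 := h.ev i hi
    have hk2 : ((-2 : F)) ^ (k + 1) = (-2) ^ k * (-2) := pow_succ _ _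
    rw [sx_e00, z01, z10, z11, Multiset.map_cons, Multiset.prod_cons, hk2]
    have h4 : 4⁻¹ * (u.p * (i - 1) * ((M 0 0).eval i * (u.ps * (i + 1)) + 0 * (u.m * (i - 1))) +
        u.ms * (i + 1) * (0 * (u.ps * (i + 1)) + (M 0 0).eval i * (u.m * (i - 1)))) =
        -2 * u.ab.2 * (M 0 0).eval i := by
      linear_combination 4⁻¹ * (i ^ 2 - 1) * (M 0 0).eval i * (h1 + h2) + u.ab.2 * (M 0 0).eval i * hi
    rw [h4, h3]
    ring

theorem st_XX (f : List (Vtx F)) : St f.length ((f.map Vtx.ab : List (F × F)) : Multiset (F × F)) (XX f) := by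
  induction f with
  | nil => exact st_nil
  | cons u f ih =>
    have h := st_sand ih u
    rw [Multiset.cons_coe] at h
    exact h

end ES
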