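import Pool.Agent.H67.ES.StSc
import Pool.Agent.H67.ES.StXX
import Pool.Agent.H67.ES.Open
import Pool.Agent.H67.ES.Spread
import Pool.Agent.H67.ES.FacRd

/-! # ES.CGo : the condition `CG` is open and spreads out (about 150 lines)

`T = tot f` reduces to `T0 = tot f0` (`tot_rd`), so `T.p → T0.p` etc. (`RdV.ps4`), which are not zero: `T.p, ... ≠ 0`; `XX f → XX f0` (induction: `RdMt.sand`, `RdMt.one`), labels: `RdV.ab`, `Multiset.Rel` of `f.map ab` and `f0.map ab` (`Multiset.rel` of coerced lists from `List.Forall₂`: induction, or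
`Multiset.coe_rel`-like), `f.length = f0.length`.  For each of the four scalars `c → c0 ≠ 0` (`Rd.inv`, `Rd.mul`): `scale c (XX f) → scale c0 (XX f0)` (`RdMt.scale`), `St` (`st_XX`, `st_scale`), `good_open`.
`cg_spread`: `good_spread` for the four matrices (labels `l.map cstL`, coerced), `cof_unit` for `T.p, T.ps, T.m, T.ms`, `Cof.and`, `Cof.mono`.  At such a place: `f0` has labels `l` (`RdV.ab` and uniqueness of reductions of constants: `rd_cst`), `T0.p` is the reduction of `T.p`, not zero, etc.;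
`M0 = scale c0 (XX f0)` by `RdMt.unique`. -/

namespace ES

open Polynomial H68.BB

variable {K : Type} [Field K] [IsAlgClosed K] [CharZero K]

theorem XX_rd {π : Place K (Om K)} {f : List (Vtx (Om K))} {f0 : List (Vtx K)} (h : List.Forall₂ (RdV π) f f0) :
    RdMt π (XX f) (XX f0) := by
  induction h with
  | nil => exact RdMt.one
  | cons h1 _ ih => exact RdMt.sand h1 ih

omit [IsAlgClosed K] in
private theorem cgo_lb {π : Place K (Om K)} {f : List (Vtx (Om K))} {f0 : List (Vtx K)} (h : List.Forall₂ (RdV π) f f0) :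
    Multiset.Rel (RdLb π) ((f.map Vtx.ab : List (Om K × Om K)) : Multiset (Om K × Om K))
      ((f0.map Vtx.ab : List (K × K)) : Multiset (K × K)) := by
  induction h with
  | nil => exact Multiset.Rel.zero
  | cons h1 _ ih => exact Multiset.Rel.cons h1.ab ih

omit [IsAlgClosed K] [CharZero K] in
private theorem cgo_c2 {π : Place K (Om K)} {T : Vtx (Om K)} {T0 : Vtx K} (h : RdV π T T0) (hm : T0.m ≠ 0)
    (hps : T0.ps ≠ 0) : Rd π.V π.φ (T.p * T.ms / (T.m * T.ps)) (T0.p * T0.ms / (T0.m * T0.ps)) := by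
  haveI := π.isLocal
  obtain ⟨r1, r2, r3, r4, -⟩ := h.ps4
  exact (r1.mul r4).div (r3.mul r2) (mul_ne_zero hm hps)

omit [IsAlgClosed K] [CharZero K] in
private theorem cgo_c3 {π : Place K (Om K)} {T : Vtx (Om K)} {T0 : Vtx K} (h : RdV π T T0) (hm : T0.m ≠ 0) :
    Rd π.V π.φ (-(T.ms / T.m)) (-(T0.ms / T0.m)) := by
  haveI := π.isLocal
  obtain ⟨r1, r2, r3, r4, -⟩ := h.ps4
  exact (r4.div r3 hm).neg

omit [IsAlgClosed K] [CharZero K] in
private theorem cgo_c4 {π : Place K (Om K)} {T : Vtx (Om K)} {T0 : Vtx K} (h : RdV π T T0) (hps : T0.ps ≠ 0) :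
    Rd π.V π.φ (-(T.p / T.ps)) (-(T0.p / T0.ps)) := by
  haveI := π.isLocal
  obtain ⟨r1, r2, r3, r4, -⟩ := h.ps4
  exact (r1.div r2 hps).neg

theorem cg_open {π : Place K (Om K)} {f : List (Vtx (Om K))} {f0 : List (Vtx K)} (h : List.Forall₂ (RdV π) f f0) (h0 : CG f0) :
    CG f := by
  have hT := tot_rd h
  have hX := XX_rd h
  have hL := cgo_lb h
  have hlen : f0.length = f.length := h.length_eq.symm
  obtain ⟨r1, r2, r3, r4, -⟩ := hT.ps4
  have hc2 := cgo_c2 hT h0.m h0.ps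
  have hc3 := cgo_c3 hT h0.m
  have hc4 := cgo_c4 hT h0.ps
  have n2 : (tot f0).p * (tot f0).ms / ((tot f0).m * (tot f0).ps) ≠ 0 :=
    div_ne_zero (mul_ne_zero h0.p h0.ms) (mul_ne_zero h0.m h0.ps)
  have n3 : -((tot f0).ms / (tot f0).m) ≠ 0 := neg_ne_zero.2 (div_ne_zero h0.ms h0.m)
  have n4 : -((tot f0).p / (tot f0).ps) ≠ 0 := neg_ne_zero.2 (div_ne_zero h0.p h0.ps)
  have hp := r1.ne_zero h0.p
  have hps := r2.ne_zero h0.ps
  have hm := r3.ne_zero h0.m
  have hms := r4.ne_zero h0.ms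
  have key : ∀ {c : Om K} {c0 : K}, Rd π.V π.φ c c0 → c0 ≠ 0 → c ≠ 0 →
      Good f0.length ((f0.map Vtx.ab : List (K × K)) : Multiset (K × K)) (scale c0 (XX f0)) →
      Good f.length ((f.map Vtx.ab : List (Om K × Om K)) : Multiset (Om K × Om K)) (scale c (XX f)) := by
    intro c c0 hc hc0 hcn hg
    rw [hlen] at hg
    exact good_open (st_scale (st_XX f) hcn) hL (RdMt.scale hc hc0 hX) hg
  refine ⟨hp, hps, hm, hms, ?_, key hc2 n2 (hc2.ne_zero n2) h0.g2, key hc3 n3 (hc3.ne_zero n3) h0.g3,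
    key hc4 n4 (hc4.ne_zero n4) h0.g4⟩
  have hg := h0.g1
  rw [hlen] at hg
  exact good_open (st_XX f) hL hX hg

omit [IsAlgClosed K] in
private theorem cgo_lab {π : Place K (Om K)} {f : List (Vtx (Om K))} {f0 : List (Vtx K)} (h : List.Forall₂ (RdV π) f f0) :
    ∀ {l : List (K × K)}, f.map Vtx.ab = l.map cstL → f0.map Vtx.ab = l := by
  induction h with
  | nil =>
    intro l hl
    rw [List.map_nil] at hl
    rw [List.map_nil]
    exact (List.map_eq_nil_iff.1 hl.symm).symm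
  | @cons u u0 g g0 h1 _ ih =>
    intro l hl
    cases l with
    | nil => simp at hl
    | cons c l =>
      rw [List.map_cons, List.map_cons, List.cons.injEq] at hl
      rw [List.map_cons, ih hl.2]
      have h2 := h1.ab
      rw [hl.1] at h2
      congr 1
      exact Prod.ext (h2.1.unique (H67.KH.rd_cst (π := π) c.1)) (h2.2.unique (H67.KH.rd_cst (π := π) c.2))

theorem cg_spread {f : List (Vtx (Om K))} {l : List (K × K)} (hl : f.map Vtx.ab = l.map cstL) (h : CG f) :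
    Cof (fun π => ∀ f0 : List (Vtx K), List.Forall₂ (RdV π) f f0 → CG f0) := by
  have hm : ((f.map Vtx.ab : List (Om K × Om K)) : Multiset (Om K × Om K)) = (l : Multiset (K × K)).map cstL := by
    rw [hl, Multiset.map_coe]
  have g1 := h.g1
  have g2 := h.g2
  have g3 := h.g3
  have g4 := h.g4
  rw [hm] at g1 g2 g3 g4
  refine ((((cof_unit h.p).and (cof_unit h.ps)).and ((cof_unit h.m).and (cof_unit h.ms))).and
    (((good_spread g1).and (good_spread g2)).and ((good_spread g3).and (good_spread g4)))).mono ?_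
  rintro π ⟨⟨⟨⟨p, hp0, hp⟩, ⟨ps, hps0, hps⟩⟩, ⟨⟨m, hm0, hmm⟩, ⟨ms, hms0, hms⟩⟩⟩,
    ⟨⟨⟨M1, hM1, hg1⟩, ⟨M2, hM2, hg2⟩⟩, ⟨⟨M3, hM3, hg3⟩, ⟨M4, hM4, hg4⟩⟩⟩⟩ f0 hf
  have hT := tot_rd hf
  have hX := XX_rd hf
  have hab := cgo_lab hf hl
  have hlen : f0.length = f.length := hf.length_eq.symm
  obtain ⟨r1, r2, r3, r4, -⟩ := hT.ps4
  have e1 : (tot f0).p ≠ 0 := by rw [r1.unique hp]; exact hp0
  have e2 : (tot f0).ps ≠ 0 := by rw [r2.unique hps]; exact hps0
  have e3 : (tot f0).m ≠ 0 := by rw [r3.unique hmm]; exact hm0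
  have e4 : (tot f0).ms ≠ 0 := by rw [r4.unique hms]; exact hms0
  have hc2 := cgo_c2 hT e3 e2
  have hc3 := cgo_c3 hT e3
  have hc4 := cgo_c4 hT e2
  have n2 : (tot f0).p * (tot f0).ms / ((tot f0).m * (tot f0).ps) ≠ 0 := div_ne_zero (mul_ne_zero e1 e4) (mul_ne_zero e3 e2)
  have n3 : -((tot f0).ms / (tot f0).m) ≠ 0 := neg_ne_zero.2 (div_ne_zero e4 e3)
  have n4 : -((tot f0).p / (tot f0).ps) ≠ 0 := neg_ne_zero.2 (div_ne_zero e1 e2)
  refine ⟨e1, e2, e3, e4, ?_, ?_, ?_, ?_⟩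
  · rw [hab, hlen, hX.unique hM1]
    exact hg1
  · rw [hab, hlen, (RdMt.scale hc2 n2 hX).unique hM2]
    exact hg2
  · rw [hab, hlen, (RdMt.scale hc3 n3 hX).unique hM3]
    exact hg3
  · rw [hab, hlen, (RdMt.scale hc4 n4 hX).unique hM4]
    exact hg4

end ES
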