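import Pool.Agent.H67.ES.MsDef
import Pool.Agent.H34.ES.Spc

/-! # ES.MapL : homomorphisms and the product of vertices (about 80 lines)

Unfold everything; `XX_map`, `tot_map` by induction on the list; matrices entrywise (`ext i j; fin_cases i <;> fin_cases j`), `Matrix.map_apply`, `Polynomial.map_mul`, `Polynomial.map_C`, ...; for `sand` use `Matrix.map_mul`
(with the ring homomorphism `Polynomial.mapRingHom σ`; `Polynomial.coe_mapRingHom`).  `lab_sigma`: `sigma_ev`. -/

namespace ES

open Polynomial H68.BB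

variable {F G : Type} [Field F] [Field G] (σ : F →+* G)

theorem ab_map (u : Vtx F) : (u.map σ).ab = (σ u.ab.1, σ u.ab.2) := by
  have h2 : σ (2 : F) = 2 := map_ofNat σ 2
  unfold Vtx.map Vtx.ab
  simp only [map_pow, map_mul, map_div₀, map_sub, map_add, h2]

theorem al_map (u : Vtx F) : (u.map σ).al = σ u.al := by
  unfold Vtx.map Vtx.al
  simp only [map_pow, map_mul]

theorem p4_map (u : Vtx F) : (u.map σ).p = σ u.p ∧ (u.map σ).ps = σ u.ps ∧ (u.map σ).m = σ u.m ∧ (u.map σ).ms = σ u.ms := by
  unfold Vtx.map Vtx.p Vtx.ps Vtx.m Vtx.ms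
  refine ⟨?_, ?_, ?_, ?_⟩ <;> simp only [map_pow, map_sub, map_add]

private theorem LL_map (u : Vtx F) : (u.map σ).LL = u.LL.map (Polynomial.map σ) := by
  obtain ⟨h1, h2, h3, h4⟩ := p4_map σ u
  unfold Vtx.LL
  rw [h1, h2, h3, h4]
  ext1 i j
  fin_cases i <;> fin_cases j <;> simp

private theorem LS_map (u : Vtx F) : (u.map σ).LS = u.LS.map (Polynomial.map σ) := by
  obtain ⟨h1, h2, h3, h4⟩ := p4_map σ u
  unfold Vtx.LS
  rw [h1, h2, h3, h4]
  ext1 i j
  fin_cases i <;> fin_cases j <;> simp

private theorem mul_map (A B : Mat F) : (A * B).map (Polynomial.map σ) = A.map (Polynomial.map σ) * B.map (Polynomial.map σ) := by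
  have h := Matrix.map_mul (L := A) (M := B) (f := Polynomial.mapRingHom σ)
  rw [Polynomial.coe_mapRingHom] at h
  exact h

private theorem sand_map (u : Vtx F) (M : Mat F) : (u.map σ).sand (M.map (Polynomial.map σ)) = (u.sand M).map (Polynomial.map σ) := by
  have h4 : σ (4⁻¹ : F) = 4⁻¹ := by rw [map_inv₀, map_ofNat]
  unfold Vtx.sand
  rw [LL_map, LS_map, ← mul_map, ← mul_map]
  ext1 i j
  simp only [Matrix.smul_apply, Matrix.map_apply, smul_eq_mul, Polynomial.map_mul, Polynomial.map_C, h4]

theorem XX_map (f : List (Vtx F)) : XX (f.map (Vtx.map σ)) = (XX f).map (Polynomial.map σ) := by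
  induction f with
  | nil =>
    show (1 : Mat G) = (1 : Mat F).map (Polynomial.map σ)
    rw [Matrix.map_one _ (Polynomial.map_zero σ) (Polynomial.map_one σ)]
  | cons u f ih =>
    rw [List.map_cons]
    show (u.map σ).sand (XX (f.map (Vtx.map σ))) = (u.sand (XX f)).map (Polynomial.map σ)
    rw [ih, sand_map]

theorem tot_map (f : List (Vtx F)) : tot (f.map (Vtx.map σ)) = (tot f).map σ := by
  induction f with
  | nil =>
    show (⟨1, 1, 0⟩ : Vtx G) = (⟨1, 1, 0⟩ : Vtx F).map σ
    unfold Vtx.map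
    simp only [map_one, map_zero]
  | cons u f ih =>
    rw [List.map_cons]
    unfold tot
    rw [ih]
    unfold Vtx.map
    simp only [map_mul, map_add, map_pow]

theorem scale_map (c : F) (M : Mat F) : (scale c M).map (Polynomial.map σ) = scale (σ c) (M.map (Polynomial.map σ)) := by
  unfold scale
  ext1 i j
  fin_cases i <;> fin_cases j <;> simp

theorem lab_sigma {K : Type} [Field K] {s : ℕ} (W : Wm K s) (σ : Om K ≃ₐ[RatFunc K] Om K) (β : Fin s → Om K) :
    lab W (fun i => σ (β i)) = (σ (lab W β).1, σ (lab W β).2) := by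
  unfold lab
  simp only [sigma_ev]

theorem lab_cst {K : Type} [Field K] {s : ℕ} (W : Wm K s) (β : Fin s → K) :
    (lab W (fun i => algebraMap K (Om K) (β i)) : Om K × Om K) = cstL (lab W β) := by
  unfold lab cstL
  simp only [ev_cst]

end ES
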