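import Pool.Agent.H67.ES.GenV
import Pool.Agent.H67.ES.CGo
import Pool.Agent.H67.ES.MapL

/-! # ES.Step : moving one vertex (about 150 lines)

`U` as in `gen_vtx`, `U' := U.neg`.  `F := L1.map (Vtx.map cs) ++ U :: L2.map (Vtx.map cs)`, `F'` the same with `U'`, `cs = algebraMap K (Om K)`.  At a place with `tt → 0` (`place_exists K 0`) they reduce to `L1 ++ u0 :: L2` (`rd_cst`): `cg_open`: `CG F`, `CG F'`.
The labels are `(L1 ++ u0 :: L2).map ab` mapped by `cstL` (`ab_map`): `cg_spread` for `F`, `F'`, and `cof_rdV U`: outside a finite set `Z` of `c` all three hold at every place `π` with `tt → c` (`Cof`).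
Let `w` be with `w - u0.w ∉ Z` and `(w, v, y)` a vertex with `ab = u0.ab`, `al = u0.al`; take `π` with `tt → w - u0.w` (`place_exists`).  `U → u1`, `u1.w = w` (`Rd.unique`), `u1.ab = u0.ab`, `u1.al = u0.al` (`rd_lab`); `vtx_ext`: `v = u1.v` and `y = ± u1.y`.
If `y = u1.y`: `CG (L1 ++ u1 :: L2)` from `F`; if `y = - u1.y`: from `F'` (`U' → u1.neg`).  So the bad set is contained in `{w | w - u0.w ∈ Z}`.
`step_swap`: `step` with `u0.swp`-like vertex `⟨u0.v, u0.w, u0.y⟩` (same label, same `al`): its bad set `B` is finite; if `w` is bad here with `(v, y)` then `v ∈ B` (`⟨v, w, y⟩` has the same label and `al`), and `w = u0.w * u0.v / v`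
(`wv_eq`: `w v = al/a = u0.w u0.v`, `v ≠ 0`): the bad set is contained in the image of `B`. -/

namespace ES

open Polynomial H68.BB
open H67.KH (mem_of_root rd_of_mem rd_cst)

variable {K : Type} [Field K] [IsAlgClosed K] [CharZero K]

omit [IsAlgClosed K] [CharZero K] in
private theorem stp_cst {π : Place K (Om K)} (L : List (Vtx K)) :
    List.Forall₂ (RdV π) (L.map (Vtx.map (algebraMap K (Om K)))) L := by
  induction L with
  | nil => exact List.Forall₂.nil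
  | cons u L ih => exact List.Forall₂.cons ⟨rd_cst π _, rd_cst π _, rd_cst π _⟩ ih

omit [IsAlgClosed K] [CharZero K] in
private theorem stp_all {π : Place K (Om K)} {L1 L2 : List (Vtx K)} {U : Vtx (Om K)} {u : Vtx K} (h : RdV π U u) :
    List.Forall₂ (RdV π) (L1.map (Vtx.map (algebraMap K (Om K))) ++ U :: L2.map (Vtx.map (algebraMap K (Om K))))
      (L1 ++ u :: L2) :=
  List.rel_append (stp_cst L1) (List.Forall₂.cons h (stp_cst L2))

omit [IsAlgClosed K] [CharZero K] in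
private theorem stp_lab (L : List (Vtx K)) :
    (L.map (Vtx.map (algebraMap K (Om K)))).map Vtx.ab = (L.map Vtx.ab).map cstL := by
  rw [List.map_map, List.map_map]
  apply List.map_congr_left
  intro u _
  exact ab_map (algebraMap K (Om K)) u

private theorem stp_key {L1 L2 : List (Vtx K)} {u0 : Vtx K} (h : CG (L1 ++ u0 :: L2)) {U : Vtx (Om K)}
    (hU : U.ab = cstL u0.ab) (hr : ∀ π : Place K (Om K), Rd π.V π.φ (tt K) 0 → RdV π U u0) :
    Cof (fun π => ∀ u : Vtx K, RdV π U u → CG (L1 ++ u :: L2)) := by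
  obtain ⟨π, h1, h2⟩ := place_exists K 0
  have h3 : CG (L1.map (Vtx.map (algebraMap K (Om K))) ++ U :: L2.map (Vtx.map (algebraMap K (Om K)))) :=
    cg_open (stp_all (hr π ⟨h1, h2⟩)) h
  have h4 : (L1.map (Vtx.map (algebraMap K (Om K))) ++ U :: L2.map (Vtx.map (algebraMap K (Om K)))).map Vtx.ab =
      ((L1 ++ u0 :: L2).map Vtx.ab).map cstL := by
    rw [List.map_append, List.map_append, List.map_append, List.map_cons, List.map_cons, List.map_cons, stp_lab, stp_lab, hU]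
  refine (cg_spread h4 h3).mono ?_
  intro π' h5 u hu
  exact h5 _ (stp_all hu)

theorem step {L1 L2 : List (Vtx K)} {u0 : Vtx K} (hy : u0.y = 0) (hnd : ND u0.ab) (h : CG (L1 ++ u0 :: L2)) :
    {w : K | ∃ v y : K, (⟨w, v, y⟩ : Vtx K).ab = u0.ab ∧ (⟨w, v, y⟩ : Vtx K).al = u0.al ∧
      ¬ CG (L1 ++ ⟨w, v, y⟩ :: L2)}.Finite := by
  obtain ⟨U, hUw, hUab, hUal, hU⟩ := gen_vtx hy hnd
  have k1 := stp_key h hUab (fun π hπ => (hU π hπ).1)
  have k2 := stp_key h (U := U.neg) ((neg_ab U).1.trans hUab) (fun π hπ => (hU π hπ).2)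
  have k3 := cof_rdV U
  have k4 := (k1.and k2).and k3
  have k5 : ((fun c : K => u0.w + c) '' {c : K | ∃ π : Place K (Om K), Rd π.V π.φ (tt K) c ∧
      ¬ (((∀ u : Vtx K, RdV π U u → CG (L1 ++ u :: L2)) ∧ ∀ u : Vtx K, RdV π U.neg u → CG (L1 ++ u :: L2)) ∧
        ∃ u : Vtx K, RdV π U u)}).Finite := Set.Finite.image _ k4
  refine Set.Finite.subset k5 ?_
  rintro w ⟨v, y, hab, hal, hn⟩
  refine ⟨w - u0.w, ?_, by simp⟩
  obtain ⟨π, h1, h2⟩ := place_exists K (w - u0.w)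
  refine ⟨π, ⟨h1, h2⟩, ?_⟩
  rintro ⟨⟨g1, g2⟩, u1, hu1⟩
  apply hn
  have hw1 : u1.w = w := by
    have e1 : Rd π.V π.φ U.w (u0.w + (w - u0.w)) := by
      rw [hUw]
      exact (rd_cst π u0.w).add ⟨h1, h2⟩
    rw [hu1.w.unique e1]
    ring
  obtain ⟨hb1, hb2⟩ := rd_lab hu1 hUab hUal
  obtain ⟨e2, e3⟩ := vtx_ext (u := u1) (u' := ⟨w, v, y⟩) (by rw [hb1]; exact hnd) (hab.trans hb1.symm)
    (hal.trans hb2.symm) hw1.symm
  rcases e3 with e3 | e3
  · have e4 : (⟨w, v, y⟩ : Vtx K) = u1 := Vtx.ext hw1.symm e2 e3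
    rw [e4]
    exact g1 u1 hu1
  · have e4 : (⟨w, v, y⟩ : Vtx K) = u1.neg := Vtx.ext hw1.symm e2 e3
    rw [e4]
    exact g2 u1.neg ⟨hu1.w, hu1.v, hu1.y.neg⟩

theorem step_swap {L1 L2 : List (Vtx K)} {u0 : Vtx K} (hy : u0.y = 0) (hnd : ND u0.ab)
    (h : CG (L1 ++ ⟨u0.v, u0.w, u0.y⟩ :: L2)) :
    {w : K | ∃ v y : K, (⟨w, v, y⟩ : Vtx K).ab = u0.ab ∧ (⟨w, v, y⟩ : Vtx K).al = u0.al ∧
      ¬ CG (L1 ++ ⟨v, w, y⟩ :: L2)}.Finite := by
  have sab : ∀ w v y : K, (⟨v, w, y⟩ : Vtx K).ab = (⟨w, v, y⟩ : Vtx K).ab := by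
    intro w v y
    unfold Vtx.ab
    simp only
    rw [mul_comm v w, add_comm (v ^ 6) (w ^ 6)]
  have sal : ∀ w v y : K, (⟨v, w, y⟩ : Vtx K).al = (⟨w, v, y⟩ : Vtx K).al := by
    intro w v y
    unfold Vtx.al
    simp only
    rw [mul_comm v w]
  have e0 : (⟨u0.v, u0.w, u0.y⟩ : Vtx K).ab = u0.ab := sab u0.w u0.v u0.y
  have e1 : (⟨u0.v, u0.w, u0.y⟩ : Vtx K).al = u0.al := sal u0.w u0.v u0.y
  have hfin := step (u0 := ⟨u0.v, u0.w, u0.y⟩) hy (by rw [e0]; exact hnd) h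
  refine Set.Finite.subset (Set.Finite.image (fun v : K => u0.w * u0.v / v) hfin) ?_
  rintro w ⟨v, y, hab, hal, hn⟩
  have hnd' : ND (⟨w, v, y⟩ : Vtx K).ab := by rw [hab]; exact hnd
  refine ⟨v, ⟨w, y, ?_, ?_, hn⟩, ?_⟩
  · rw [sab, e0]; exact hab
  · rw [sal, e1]; exact hal
  · have h1 := wv_eq hnd'
    have h2 := wv_eq hnd
    rw [hab, hal, ← h2] at h1
    have hv : v ≠ 0 := hnd'.ne.2.2.1
    simp only at h1 ⊢
    rw [← h1, mul_div_cancel_right₀ _ hv]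

end ES
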