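import Pool.Agent.H67.ES.Vlem
import Pool.Agent.H67.ES.Top

/-! # ES.StepY : the total `y` is not zero for almost all `w` (about 120 lines)

`tot (L1 ++ u :: L2) = ⟨W1 u.w V.., ..⟩`: with `(W1, V1, Y1) = tot L1`, `(W2, V2, 0) = tot L2` (all `y` in `L2` are zero) `tot_append` gives `tot.y = W1^3 (u.y V2^3) + Y1 (u.v V2)^3 = V2^3 (W1^3 u.y + Y1 u.v^3)`, and `W1, V2 ≠ 0` (products of nonzero numbers: `ND.ne`).
Let `q := w v` (the same for all vertices with the given `ab`, `al`: `wv_eq`), `q ≠ 0`.  If the `y` of `L1 ++ ⟨w, v, y⟩ :: L2` is `0`: `y = - Y1 v^3 / W1^3`, `y^2 = w^6 + v^6 - 2 b`, times `W1^6 w^6`: `W1^6 w^12 - 2 b W1^6 w^6 + (W1^6 - Y1^2) q^6 = 0`: `w` is a root of a nonzero polynomial (leading coefficient `W1^6`).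
For `⟨v, w, y⟩`: `y = - Y1 w^3 / W1^3`: `(W1^6 - Y1^2) w^12 - 2 b W1^6 w^6 + W1^6 q^6 = 0`: a nonzero polynomial (constant coefficient).  Finite root sets (`Polynomial.rootSet`, or `Polynomial.roots.toFinset`). -/

namespace ES

open Polynomial H68.BB

variable {K : Type} [Field K] [CharZero K]

private theorem sy_ne {L : List (Vtx K)} (h : ∀ u ∈ L, ND u.ab) : (tot L).w ≠ 0 ∧ (tot L).v ≠ 0 := by
  induction L with
  | nil => exact ⟨one_ne_zero, one_ne_zero⟩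
  | cons u L ih =>
    have h1 := ih (fun v hv => h v (List.mem_cons_of_mem _ hv))
    have h2 := (h u List.mem_cons_self).ne
    exact ⟨mul_ne_zero h2.2.1 h1.1, mul_ne_zero h2.2.2.1 h1.2⟩

omit [CharZero K] in
private theorem sy_y {L : List (Vtx K)} (h : ∀ u ∈ L, u.y = 0) : (tot L).y = 0 := by
  induction L with
  | nil => rfl
  | cons u L ih =>
    have h1 := ih (fun v hv => h v (List.mem_cons_of_mem _ hv))
    have h2 := h u List.mem_cons_self
    show u.w ^ 3 * (tot L).y + u.y * (tot L).v ^ 3 = 0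
    rw [h1, h2]
    ring

omit [CharZero K] in
private theorem sy_tot (L1 L2 : List (Vtx K)) (u : Vtx K) (h : (tot L2).y = 0) :
    (tot (L1 ++ u :: L2)).y = (tot L2).v ^ 3 * ((tot L1).w ^ 3 * u.y + (tot L1).y * u.v ^ 3) := by
  rw [tot_append]
  have hT : tot (u :: L2) = ⟨u.w * (tot L2).w, u.v * (tot L2).v,
    u.w ^ 3 * (tot L2).y + u.y * (tot L2).v ^ 3⟩ := rfl
  rw [hT, h]
  show (tot L1).w ^ 3 * (u.w ^ 3 * 0 + u.y * (tot L2).v ^ 3) + (tot L1).y * (u.v * (tot L2).v) ^ 3 = _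
  ring

theorem step_y {L1 L2 : List (Vtx K)} {c : K × K} {al : K} (h1 : ∀ u ∈ L1, ND u.ab) (h2 : ∀ u ∈ L2, ND u.ab)
    (hy : ∀ u ∈ L2, u.y = 0) (hnd : ND c) :
    {w : K | ∃ v y : K, (⟨w, v, y⟩ : Vtx K).ab = c ∧ (⟨w, v, y⟩ : Vtx K).al = al ∧
      ((tot (L1 ++ ⟨w, v, y⟩ :: L2)).y = 0 ∨ (tot (L1 ++ ⟨v, w, y⟩ :: L2)).y = 0)}.Finite := by
  classical
  have hW := (sy_ne h1).1
  have hV := (sy_ne h2).2
  have hY := sy_y hy
  by_cases hq : al / c.1 = 0
  · refine Set.Finite.subset Set.finite_empty ?_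
    rintro w ⟨v, y, hc, ha, -⟩
    have hn : ND (⟨w, v, y⟩ : Vtx K).ab := by rw [hc]; exact hnd
    have h3 := wv_eq hn
    rw [hc, ha, hq] at h3
    exact (mul_ne_zero hn.ne.2.1 hn.ne.2.2.1 h3).elim
  · obtain ⟨W1, hW1⟩ : ∃ W1, W1 = (tot L1).w := ⟨_, rfl⟩
    obtain ⟨Y1, hY1⟩ : ∃ Y1, Y1 = (tot L1).y := ⟨_, rfl⟩
    rw [← hW1] at hW
    let P : K[X] := C (W1 ^ 6) * X ^ 12 - C (2 * c.2 * W1 ^ 6) * X ^ 6 + C ((W1 ^ 6 - Y1 ^ 2) * (al / c.1) ^ 6)
    let Q : K[X] := C (W1 ^ 6 - Y1 ^ 2) * X ^ 12 - C (2 * c.2 * W1 ^ 6) * X ^ 6 + C (W1 ^ 6 * (al / c.1) ^ 6)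
    have hP : P ≠ 0 := by
      intro h0
      have h3 := congrArg (fun p : K[X] => p.coeff 12) h0
      simp only [P, coeff_add, coeff_sub, coeff_C_mul, coeff_X_pow, coeff_C, coeff_zero] at h3
      norm_num at h3
      exact hW h3
    have hQ : Q ≠ 0 := by
      intro h0
      have h3 := congrArg (fun p : K[X] => p.eval 0) h0
      simp only [Q, eval_add, eval_sub, eval_mul, eval_C, eval_pow, eval_X, eval_zero] at h3
      apply mul_ne_zero (pow_ne_zero 6 hW) (pow_ne_zero 6 hq)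
      linear_combination h3
    refine Set.Finite.subset ((Polynomial.finite_setOfPred_isRoot hP).union (Polynomial.finite_setOfPred_isRoot hQ)) ?_
    rintro w ⟨v, y, hc, ha, hyy⟩
    have hn : ND (⟨w, v, y⟩ : Vtx K).ab := by rw [hc]; exact hnd
    have h3 := wv_eq hn
    rw [hc, ha] at h3
    have h3' : w * v = al / c.1 := h3
    have h4 : (w ^ 6 + v ^ 6 - y ^ 2) / 2 = c.2 := congrArg Prod.snd hc
    have h5 : y ^ 2 = w ^ 6 + v ^ 6 - 2 * c.2 := by
      rw [← h4]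
      field_simp
      ring
    rcases hyy with hyy | hyy
    · left
      rw [sy_tot L1 L2 _ hY, ← hW1, ← hY1] at hyy
      have h6 : W1 ^ 3 * y + Y1 * v ^ 3 = 0 := (mul_eq_zero.1 hyy).resolve_left (pow_ne_zero 3 hV)
      show P.eval w = 0
      simp only [P, eval_add, eval_sub, eval_mul, eval_C, eval_pow, eval_X]
      rw [← h3']
      have h7 : W1 ^ 6 * y ^ 2 = Y1 ^ 2 * v ^ 6 := by linear_combination (W1 ^ 3 * y - Y1 * v ^ 3) * h6
      rw [h5] at h7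
      linear_combination w ^ 6 * h7
    · right
      rw [sy_tot L1 L2 _ hY, ← hW1, ← hY1] at hyy
      have h6 : W1 ^ 3 * y + Y1 * w ^ 3 = 0 := (mul_eq_zero.1 hyy).resolve_left (pow_ne_zero 3 hV)
      show Q.eval w = 0
      simp only [Q, eval_add, eval_sub, eval_mul, eval_C, eval_pow, eval_X]
      rw [← h3']
      have h7 : W1 ^ 6 * y ^ 2 = Y1 ^ 2 * w ^ 6 := by linear_combination (W1 ^ 3 * y - Y1 * w ^ 3) * h6
      rw [h5] at h7
      linear_combination w ^ 6 * h7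

end ES
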