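import Pool.Agent.H67.ES.ExtD
import Pool.Agent.H67.ES.Step
import Pool.Agent.H67.ES.StepY

/-! # ES.ExtS : one step (about 180 lines)

Let `j = pre.length`, `g0 = nth F0 j = (β, u0)`, `F0.drop j = g0 :: F0.drop (j+1)`.  `Swps` of an append splits (`List.forall₂_append`-like): a list `f'` with `Swps ((pre ++ [g]) ++ F0.drop (j+1)) f'` is `pre' ++ g' :: rest'` with `Swps pre pre'`, `g' = g` or `g' = g.swp`, `Swps (F0.drop (j+1)) rest'`,
and there are finitely many `pre'`, `rest'` (`{f' | Swps f f'}` is finite: induction on `f`).  For fixed `pre'`, `rest'` put `L1 = pre'.map snd`, `L2 = rest'.map snd`: all `y` of `L2` are zero, all labels are `ND` (`lab`, `BaseL.nd`; `swp` does not change the label);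
`CG (L1 ++ u0 :: L2)` and `CG (L1 ++ ⟨u0.v, u0.w, u0.y⟩ :: L2)` by `ExtP.cg` of `pre` (`g0 :: ..`, exchanged or not).  `step`, `step_swap`, `step_y`: the bad `w` for `CG` and for `y = 0` form a finite set.
The set of the statement is contained in the union over all `pre'`, `rest'` of these sets (for a good `w` all fields of `ExtP F0 (pre ++ [g])`, `g = (g0.1, ⟨w, v, y⟩)`, hold: `lab`: `List.take_succ`; the length of `pre ++ [g]` is `j + 1`). -/

namespace ES

open Polynomial H68.BB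

variable {K : Type} [Field K] [IsAlgClosed K] [CharZero K] {s : ℕ} {W : Wm K s}

omit [IsAlgClosed K] [CharZero K] in
private theorem xs_nil {f' : List (Lk s K)} (h : Swps [] f') : f' = [] := by
  unfold Swps at h
  exact List.forall₂_nil_left_iff.1 h

omit [IsAlgClosed K] [CharZero K] in
private theorem xs_cons {g : Lk s K} {f f' : List (Lk s K)} (h : Swps (g :: f) f') :
    ∃ g' f1, f' = g' :: f1 ∧ (g' = g ∨ g' = g.swp) ∧ Swps f f1 := by
  unfold Swps at h
  obtain ⟨g', f1, h1, h2, h3⟩ := List.forall₂_cons_left_iff.1 h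
  exact ⟨g', f1, h3, h1, h2⟩

omit [IsAlgClosed K] [CharZero K] in
private theorem xs_split {a b : List (Lk s K)} : ∀ {c : List (Lk s K)}, Swps (a ++ b) c →
    ∃ c1 c2, c = c1 ++ c2 ∧ Swps a c1 ∧ Swps b c2 := by
  induction a with
  | nil =>
    intro c h
    exact ⟨[], c, rfl, List.Forall₂.nil, h⟩
  | cons g a ih =>
    intro c h
    obtain ⟨g', c', rfl, h1, h2⟩ := xs_cons (show Swps (g :: (a ++ b)) c from h)
    obtain ⟨c1, c2, rfl, h3, h4⟩ := ih h2
    exact ⟨g' :: c1, c2, rfl, List.Forall₂.cons h1 h3, h4⟩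

omit [IsAlgClosed K] [CharZero K] in
private theorem xs_app {a a' b b' : List (Lk s K)} (h1 : Swps a a') (h2 : Swps b b') : Swps (a ++ b) (a' ++ b') := by
  unfold Swps at *
  exact List.rel_append h1 h2

omit [IsAlgClosed K] [CharZero K] in
private theorem xs_fin (f : List (Lk s K)) : {f' : List (Lk s K) | Swps f f'}.Finite := by
  induction f with
  | nil =>
    refine (Set.finite_singleton ([] : List (Lk s K))).subset ?_
    intro f' h
    exact xs_nil h
  | cons g f ih =>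
    refine ((ih.image (fun t => g :: t)).union (ih.image (fun t => g.swp :: t))).subset ?_
    intro f' h
    obtain ⟨g', f1, rfl, h1, h2⟩ := xs_cons h
    rcases h1 with rfl | rfl
    · exact Or.inl ⟨f1, h2, rfl⟩
    · exact Or.inr ⟨f1, h2, rfl⟩

omit [IsAlgClosed K] [CharZero K] in
private theorem xs_ab (g : Lk s K) : g.swp.2.ab = g.2.ab := by
  show g.2.swp.ab = g.2.ab
  unfold Vtx.swp Vtx.ab
  simp only [Prod.mk.injEq]
  constructor
  · ring
  · ring

omit [IsAlgClosed K] [CharZero K] in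
private theorem xs_mem {f : List (Lk s K)} : ∀ {f' : List (Lk s K)}, Swps f f' → ∀ g' ∈ f', ∃ g ∈ f, g' = g ∨ g' = g.swp := by
  induction f with
  | nil =>
    intro f' h g' hg
    rw [xs_nil h] at hg
    exact absurd hg List.not_mem_nil
  | cons g f ih =>
    intro f' h g' hg
    obtain ⟨g1, f1, rfl, h1, h2⟩ := xs_cons h
    rcases List.mem_cons.1 hg with rfl | hg
    · exact ⟨g, List.mem_cons_self, h1⟩
    · obtain ⟨g2, h3, h4⟩ := ih h2 g' hg
      exact ⟨g2, List.mem_cons_of_mem _ h3, h4⟩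

theorem ext_step {F0 pre : List (Lk s K)} (hB : BaseL W F0) (h : ExtP F0 pre) (hl : pre.length < F0.length) :
    {w : K | ∃ v y : K, (⟨w, v, y⟩ : Vtx K).ab = (nth F0 pre.length).2.ab ∧
      (⟨w, v, y⟩ : Vtx K).al = (nth F0 pre.length).2.al ∧
      ¬ ExtP F0 (pre ++ [((nth F0 pre.length).1, ⟨w, v, y⟩)])}.Finite := by
  classical
  have hg0 : nth F0 pre.length = F0[pre.length] := by
    unfold nth
    rw [List.getD_eq_getElem _ _ hl]
  obtain ⟨g0, hg0'⟩ : ∃ g0, g0 = nth F0 pre.length := ⟨_, rfl⟩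
  have hmem : g0 ∈ F0 := by
    rw [hg0', hg0]
    exact List.getElem_mem hl
  have hdrop : F0.drop pre.length = g0 :: F0.drop (pre.length + 1) := by
    rw [hg0', hg0]
    exact List.drop_eq_getElem_cons hl
  have htake : F0.take (pre.length + 1) = F0.take pre.length ++ [g0] := by
    rw [hg0', hg0]
    exact List.take_succ_eq_append_getElem hl
  rw [← hg0']
  have hndR : ∀ g ∈ F0.drop (pre.length + 1), ND g.2.ab := fun g hg => hB.nd g (List.mem_of_mem_drop hg)
  have hyR : ∀ g ∈ F0.drop (pre.length + 1), g.2.y = 0 := fun g hg => hB.y g (List.mem_of_mem_drop hg)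
  have hndP : ∀ g ∈ pre, ND g.2.ab := by
    intro g hg
    have h1 : ((g.1, g.2.ab) : (Fin s → K) × (K × K)) ∈ (F0.take pre.length).map (fun g => (g.1, g.2.ab)) := by
      rw [← h.lab]
      exact List.mem_map_of_mem hg
    obtain ⟨g1, h2, h3⟩ := List.mem_map.1 h1
    have h4 : g1.2.ab = g.2.ab := congrArg Prod.snd h3
    rw [← h4]
    exact hB.nd g1 (List.mem_of_mem_take h2)
  have fin1 : ∀ p r : List (Lk s K), Swps pre p → Swps (F0.drop (pre.length + 1)) r →
      ({w : K | ∃ v y : K, (⟨w, v, y⟩ : Vtx K).ab = g0.2.ab ∧ (⟨w, v, y⟩ : Vtx K).al = g0.2.al ∧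
          ¬ CG (p.map Prod.snd ++ ⟨w, v, y⟩ :: r.map Prod.snd)} ∪
        {w : K | ∃ v y : K, (⟨w, v, y⟩ : Vtx K).ab = g0.2.ab ∧ (⟨w, v, y⟩ : Vtx K).al = g0.2.al ∧
          ¬ CG (p.map Prod.snd ++ ⟨v, w, y⟩ :: r.map Prod.snd)} ∪
        {w : K | ∃ v y : K, (⟨w, v, y⟩ : Vtx K).ab = g0.2.ab ∧ (⟨w, v, y⟩ : Vtx K).al = g0.2.al ∧
          ((tot (p.map Prod.snd ++ ⟨w, v, y⟩ :: r.map Prod.snd)).y = 0 ∨
            (tot (p.map Prod.snd ++ ⟨v, w, y⟩ :: r.map Prod.snd)).y = 0)}).Finite := by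
    intro p r hp hr
    have hy0 := hB.y g0 hmem
    have hn0 := hB.nd g0 hmem
    refine Set.Finite.union (Set.Finite.union ?_ ?_) ?_
    · apply step hy0 hn0
      have h1 := h.cg (p ++ g0 :: r) (by
        rw [hdrop]
        exact xs_app hp (List.Forall₂.cons (Or.inl rfl) hr))
      rw [List.map_append, List.map_cons] at h1
      exact h1
    · apply step_swap hy0 hn0
      have h1 := h.cg (p ++ g0.swp :: r) (by
        rw [hdrop]
        exact xs_app hp (List.Forall₂.cons (Or.inr rfl) hr))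
      rw [List.map_append, List.map_cons] at h1
      exact h1
    · apply step_y
      · intro u hu
        obtain ⟨g', h1, rfl⟩ := List.mem_map.1 hu
        obtain ⟨g, h2, h3⟩ := xs_mem hp g' h1
        rcases h3 with rfl | rfl
        · exact hndP _ h2
        · rw [xs_ab]
          exact hndP _ h2
      · intro u hu
        obtain ⟨g', h1, rfl⟩ := List.mem_map.1 hu
        obtain ⟨g, h2, h3⟩ := xs_mem hr g' h1
        rcases h3 with rfl | rfl
        · exact hndR _ h2
        · rw [xs_ab]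
          exact hndR _ h2
      · intro u hu
        obtain ⟨g', h1, rfl⟩ := List.mem_map.1 hu
        obtain ⟨g, h2, h3⟩ := xs_mem hr g' h1
        rcases h3 with rfl | rfl
        · exact hyR _ h2
        · exact hyR g h2
      · exact hn0
  have finU := (xs_fin pre).biUnion (t := fun p => ⋃ r ∈ {r | Swps (F0.drop (pre.length + 1)) r},
      ({w : K | ∃ v y : K, (⟨w, v, y⟩ : Vtx K).ab = g0.2.ab ∧ (⟨w, v, y⟩ : Vtx K).al = g0.2.al ∧
          ¬ CG (p.map Prod.snd ++ ⟨w, v, y⟩ :: r.map Prod.snd)} ∪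
        {w : K | ∃ v y : K, (⟨w, v, y⟩ : Vtx K).ab = g0.2.ab ∧ (⟨w, v, y⟩ : Vtx K).al = g0.2.al ∧
          ¬ CG (p.map Prod.snd ++ ⟨v, w, y⟩ :: r.map Prod.snd)} ∪
        {w : K | ∃ v y : K, (⟨w, v, y⟩ : Vtx K).ab = g0.2.ab ∧ (⟨w, v, y⟩ : Vtx K).al = g0.2.al ∧
          ((tot (p.map Prod.snd ++ ⟨w, v, y⟩ :: r.map Prod.snd)).y = 0 ∨
            (tot (p.map Prod.snd ++ ⟨v, w, y⟩ :: r.map Prod.snd)).y = 0)}))
    (fun p hp => (xs_fin (F0.drop (pre.length + 1))).biUnion (fun r hr => fin1 p r hp hr))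
  refine finU.subset ?_
  rintro w ⟨v, y, hab, hal, hno⟩
  by_contra hw
  apply hno
  have good : ∀ p r : List (Lk s K), Swps pre p → Swps (F0.drop (pre.length + 1)) r →
      CG (p.map Prod.snd ++ ⟨w, v, y⟩ :: r.map Prod.snd) ∧ CG (p.map Prod.snd ++ ⟨v, w, y⟩ :: r.map Prod.snd) ∧
        (tot (p.map Prod.snd ++ ⟨w, v, y⟩ :: r.map Prod.snd)).y ≠ 0 ∧
        (tot (p.map Prod.snd ++ ⟨v, w, y⟩ :: r.map Prod.snd)).y ≠ 0 := by
    intro p r hp hr
    refine ⟨?_, ?_, ?_, ?_⟩
    · by_contra hc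
      exact hw (Set.mem_biUnion hp (Set.mem_biUnion hr (Or.inl (Or.inl ⟨v, y, hab, hal, hc⟩))))
    · by_contra hc
      exact hw (Set.mem_biUnion hp (Set.mem_biUnion hr (Or.inl (Or.inr ⟨v, y, hab, hal, hc⟩))))
    · intro hc
      exact hw (Set.mem_biUnion hp (Set.mem_biUnion hr (Or.inr ⟨v, y, hab, hal, Or.inl hc⟩)))
    · intro hc
      exact hw (Set.mem_biUnion hp (Set.mem_biUnion hr (Or.inr ⟨v, y, hab, hal, Or.inr hc⟩)))
  have hlen : (pre ++ [((g0.1, ⟨w, v, y⟩) : Lk s K)]).length = pre.length + 1 := by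
    rw [List.length_append, List.length_singleton]
  have main : ∀ f' : List (Lk s K),
      Swps ((pre ++ [((g0.1, ⟨w, v, y⟩) : Lk s K)]) ++ F0.drop (pre ++ [((g0.1, ⟨w, v, y⟩) : Lk s K)]).length) f' →
      CG (f'.map Prod.snd) ∧ (tot (f'.map Prod.snd)).y ≠ 0 := by
    intro f' hf
    rw [hlen, List.append_assoc, List.singleton_append] at hf
    obtain ⟨p, c, rfl, hp, hc⟩ := xs_split hf
    obtain ⟨g', r, rfl, hg, hr⟩ := xs_cons hc
    obtain ⟨h1, h2, h3, h4⟩ := good p r hp hr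
    rw [List.map_append, List.map_cons]
    rcases hg with rfl | rfl
    · exact ⟨h1, h3⟩
    · exact ⟨h2, h4⟩
  refine ⟨?_, ?_, fun f' hf => (main f' hf).1, fun _ f' hf => (main f' hf).2⟩
  · rw [hlen]
    exact hl
  · rw [hlen, htake, List.map_append, List.map_append, h.lab]
    congr 1
    show [((g0.1, (⟨w, v, y⟩ : Vtx K).ab) : (Fin s → K) × (K × K))] = [(g0.1, g0.2.ab)]
    rw [hab]

end ES
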