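import Pool.Agent.H67.ES.Vtx

/-! # ES.Mdef : states, good states, reduction, moves, the class `Psi` (definitions only, no sorry)

`Good k s M`: whatever label `c` of `s` and whatever sign of `α` (`α^2 = a^3`) one chooses, a vertex `u` with label `c` and
`u.al = α` can be split off, `M = LL u * M' * LS u / 4`, `M` does not vanish at the roots of `α X^2 - 2 b X + α`, and `M'` is good
for the remaining labels.  `St k s M`: degree, symmetry, determinant and sign conditions which all `XX f` satisfy. -/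

namespace ES

open Polynomial H68.BB

/-- `2 × 2` matrices of polynomials -/
abbrev Mat (F : Type) [Field F] : Type := Matrix (Fin 2) (Fin 2) F[X]

section
variable {F : Type} [Field F]

/-- a nondegenerate label `(a, b)` -/
structure ND (c : F × F) : Prop where
  a : c.1 ≠ 0
  b : c.2 ≠ 0
  d : c.2 ^ 2 ≠ c.1 ^ 3

/-- `M` does not vanish at the roots of `α X^2 - 2 b X + α` -/
def NZ (M : Mat F) (al b : F) : Prop :=
  ∀ l : F, al * (l ^ 2 + 1) = 2 * b * l → ∃ i j, (M i j).eval l ≠ 0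

/-- a good state with the multiset `s` of labels -/
def Good : ℕ → Multiset (F × F) → Mat F → Prop
  | 0, s, M => s = 0 ∧ M = 1
  | k + 1, s, M => (∃ c, c ∈ s) ∧ ∀ (c : F × F) (s' : Multiset (F × F)), s = c ::ₘ s' → ND c ∧
      ∀ al : F, al ^ 2 = c.1 ^ 3 → NZ M al c.2 ∧
        ∃ (u : Vtx F) (M' : Mat F), u.ab = c ∧ u.al = al ∧ M = u.sand M' ∧ Good k s' M'

/-- the conditions satisfied by `XX f`, with the labels `s` of `f` -/
structure St (k : ℕ) (s : Multiset (F × F)) (M : Mat F) : Prop where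
  card : Multiset.card s = k
  deg : ∀ i j, (M i j).natDegree ≤ 2 * k
  s00 : ∀ x : F, (M 0 0).eval (-x) = (M 1 1).eval x
  s01 : ∀ x : F, (M 0 1).eval (-x) = (M 0 1).eval x
  s10 : ∀ x : F, (M 1 0).eval (-x) = (M 1 0).eval x
  r00 : ∀ x : F, x ≠ 0 → x ^ (2 * k) * (M 0 0).eval x⁻¹ = (-1) ^ k * (M 0 0).eval x
  r01 : ∀ x : F, x ≠ 0 → x ^ (2 * k) * (M 0 1).eval x⁻¹ = -(-1) ^ k * (M 0 1).eval x
  r10 : ∀ x : F, x ≠ 0 → x ^ (2 * k) * (M 1 0).eval x⁻¹ = -(-1) ^ k * (M 1 0).eval x
  det : M.det = (s.map (fun c => C (c.1 ^ 3) * (X ^ 2 + 1) ^ 2 - C (4 * c.2 ^ 2) * X ^ 2)).prod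
  ev : ∀ i : F, i ^ 2 = -1 → (M 0 0).eval i = (-2) ^ k * (s.map Prod.snd).prod

/-- the obstruction to the existence of a vertex with `(p : m) = (P : M)` -/
def eob (P M al b : F) : F := P * M * (P - M) * (al * (P + M) - b * (P - M))

end

section
variable {K : Type} [Field K]

/-- coefficientwise reduction of polynomials -/
def RdP (π : Place K (Om K)) (p : (Om K)[X]) (p0 : K[X]) : Prop := ∀ n, Rd π.V π.φ (p.coeff n) (p0.coeff n)

/-- coefficientwise reduction of matrices -/
def RdMt (π : Place K (Om K)) (M : Mat (Om K)) (M0 : Mat K) : Prop := ∀ i j, RdP π (M i j) (M0 i j)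

/-- reduction of labels -/
def RdLb (π : Place K (Om K)) (c : Om K × Om K) (c0 : K × K) : Prop :=
  Rd π.V π.φ c.1 c0.1 ∧ Rd π.V π.φ c.2 c0.2

/-- reduction of vertices -/
structure RdV (π : Place K (Om K)) (u : Vtx (Om K)) (u0 : Vtx K) : Prop where
  w : Rd π.V π.φ u.w u0.w
  v : Rd π.V π.φ u.v u0.v
  y : Rd π.V π.φ u.y u0.y

/-- reduction of links (base point in a fixed affine chart) -/
def RdLk {s : ℕ} (π : Place K (Om K)) (g : Lk s (Om K)) (g0 : Lk s K) : Prop :=
  (∀ i, Rd π.V π.φ (g.1 i) (g0.1 i)) ∧ RdV π g.2 g0.2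

/-- embed a label, a vertex, a matrix -/
noncomputable def cstL (c : K × K) : Om K × Om K := (algebraMap K (Om K) c.1, algebraMap K (Om K) c.2)

end

section
variable {s : ℕ} {F : Type} [Field F]

/-- the label of a base point -/
noncomputable def lab {K : Type} [Field K] [Algebra K F] (W : Wm K s) (β : Fin s → F) : F × F := (ev W.a β, ev W.b β)

/-- chains of moves between lists of links, with a sign -/
inductive Mv : List (Lk s F) → List (Lk s F) → ℤ → Prop
  | refl (f : List (Lk s F)) : Mv f f 1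
  | recut (pre suf : List (Lk s F)) (g1 g2 h2 h1 : Lk s F) : Recut g1.2 g2.2 h2.2 h1.2 → h1.1 = g1.1 → h2.1 = g2.1 →
      ND g1.2.ab → ND g2.2.ab → g1.2.ab.2 ^ 2 * g2.2.ab.1 ^ 3 ≠ g2.2.ab.2 ^ 2 * g1.2.ab.1 ^ 3 →
      Mv (pre ++ g1 :: g2 :: suf) (pre ++ h2 :: h1 :: suf) 1
  | rot (pre suf : List (Lk s F)) (g1 g2 : Lk s F) (z : F) : z ^ 6 = 1 →
      Mv (pre ++ g1 :: g2 :: suf) (pre ++ (g1.1, g1.2.rot z) :: (g2.1, g2.2.rot z⁻¹) :: suf) 1
  | flip (pre : List (Lk s F)) (g : Lk s F) : Mv (pre ++ [g]) (pre ++ [(g.1, g.2.flip)]) (-1)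
  | trans {f g h : List (Lk s F)} {e e' : ℤ} : Mv f g e → Mv g h e' → Mv f h (e * e')

/-- `f'` is the polygon `f` seen from another cusp: `N(g'_j) = z_j diag(1, c_(j-1)) N(g_j) diag(1, 1/c_j)`, `c_0 = c`, `z_j^2 c_(j-1) = c_j`;
then `XX f' = scale c (XX f)` -/
inductive RotRel : F → List (Lk s F) → List (Lk s F) → Prop
  | nil (c : F) : RotRel c [] []
  | cons {c c1 z : F} {g g' : Lk s F} {f f' : List (Lk s F)} : c ≠ 0 → z ≠ 0 → z ^ 2 * c = c1 → g'.1 = g.1 →
      g'.2.ab = g.2.ab → g'.2.al = g.2.al → g'.2.p = z * g.2.p → g'.2.m = z * c * g.2.m → c1 * g'.2.ms = z * g.2.ms →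
      c1 * g'.2.ps = z * c * g.2.ps → RotRel c1 f f' → RotRel c (g :: f) (g' :: f')

end

section
variable {K : Type} [Field K] {s : ℕ}

/-- the sixth roots of unity -/
noncomputable def mu6 (K : Type) [Field K] : Finset K := nthRootsFinset 6 (1 : K)

open Classical in
/-- `k`-tuples of sixth roots of unity with product one -/
noncomputable def Z6 (k : ℕ) (K : Type) [Field K] : Finset (Fin k → K) :=
  (Fintype.piFinset fun _ : Fin k => mu6 K).filter (fun z => ∏ i, z i = 1)

/-- the `i`-th link of a list (junk if there is none) -/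
noncomputable def nth (f : List (Lk s K)) (i : ℕ) : Lk s K := f.getD i (fun _ => 0, ⟨0, 0, 0⟩)

/-- the tuple of points of the rotated links -/
noncomputable def tup (k : ℕ) (f : List (Lk s K)) (z : Fin k → K) : Fin k → Pt s K :=
  fun i => Lk.pt ((nth f i).1, (nth f i).2.rot (z i))

/-- the class `Psi f`: sum over all `z` with product one of the class of the points of the rotated links (for lists of length `k`) -/
noncomputable def Psi (W : Wm K s) (k : ℕ) (f : List (Lk s K)) : AA k W := ∑ z ∈ Z6 k K, cls W (tup k f z)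

end

end ES
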