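import Pool.Agent.H67.ES.Top
import Pool.Agent.H67.ES.Vlem

/-! # ES.FacTot : adjusting the total vertex by changing the last vertex (about 120 lines)

Let `T = tot f`.  `XX_top` and the hypotheses: `T.v^3 (T.v^3 + T.y) = v^3 (v^3 + y)` (first minus third), `T.v^3 (T.v^3 - T.y) = v^3 (v^3 - y)` (first minus fourth), so `T.v^6 = v^6`, `T.v^3 T.y = v^3 y`, `T.w^6 = w^6`.
Let `ζ := w / T.w` (`ζ^6 = 1`), replace the last vertex `u` by `u.rot ζ`: by `tot_append` the total becomes `(ζ w_T, ζ⁻¹ v_T, ζ^3 y_T)` (`ζ^3 = ζ^(-3)`), `XX` does not change (`sand_rot`; induction on the list).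
Now `w` is right and `(w v')^2 = (w v)^2`: `v' = ± v`; if `v' = - v` replace the last vertex by its flip (`sand_flip_one`): total `(w, -v', -y')`.  In both steps `v^3 y` is unchanged, so at the end `v^3 y'' = v^3 y`. -/

namespace ES

open Polynomial H68.BB

variable {s : ℕ} {F : Type} [Field F] [CharZero F]

omit [CharZero F] in
private theorem tot_snoc (l : List (Vtx F)) (u : Vtx F) : tot (l ++ [u]) =
    ⟨(tot l).w * u.w, (tot l).v * u.v, (tot l).w ^ 3 * u.y + (tot l).y * u.v ^ 3⟩ := by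
  have h : tot [u] = ⟨u.w * 1, u.v * 1, u.w ^ 3 * 0 + u.y * 1 ^ 3⟩ := rfl
  rw [tot_append, h]
  refine Vtx.ext ?_ ?_ ?_
  · simp only; ring
  · simp only; ring
  · simp only; ring

omit [CharZero F] in
private theorem tot_snoc_flip (l : List (Vtx F)) (u : Vtx F) : tot (l ++ [u.flip]) =
    ⟨(tot (l ++ [u])).w, -(tot (l ++ [u])).v, -(tot (l ++ [u])).y⟩ := by
  rw [tot_snoc, tot_snoc]
  refine Vtx.ext ?_ ?_ ?_
  · simp only [Vtx.flip]
  · simp only [Vtx.flip]; ring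
  · simp only [Vtx.flip]; ring

omit [CharZero F] in
private theorem XX_snoc (l : List (Vtx F)) {u u' : Vtx F} (h : u'.sand 1 = u.sand 1) :
    XX (l ++ [u']) = XX (l ++ [u]) := by
  induction l with
  | nil => exact h
  | cons v l ih =>
    change v.sand (XX (l ++ [u'])) = v.sand (XX (l ++ [u]))
    rw [ih]

private theorem tot_eqs {T : Vtx F} {w v y : F} (hv : v ≠ 0)
    (t00 : (w ^ 6 + v ^ 6 - y ^ 2) / 2 = (T.w ^ 6 + T.v ^ 6 - T.y ^ 2) / 2)
    (t01 : (w ^ 6 - (y + v ^ 3) ^ 2) / 2 = (T.w ^ 6 - (T.y + T.v ^ 3) ^ 2) / 2)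
    (t10 : (w ^ 6 - (y - v ^ 3) ^ 2) / 2 = (T.w ^ 6 - (T.y - T.v ^ 3) ^ 2) / 2) :
    T.v ^ 6 = v ^ 6 ∧ T.v ^ 3 * T.y = v ^ 3 * y ∧ T.w ^ 6 = w ^ 6 := by
  have h2 : (2 : F) ≠ 0 := two_ne_zero
  have a1 : T.v ^ 6 = v ^ 6 := by
    have : 2 * (T.v ^ 6 - v ^ 6) = 0 := by
      linear_combination -2 * t00 + t01 + t10
    exact sub_eq_zero.1 ((mul_eq_zero.1 this).resolve_left h2)
  have a2 : T.v ^ 3 * T.y = v ^ 3 * y := by
    have : 2 * (T.v ^ 3 * T.y - v ^ 3 * y) = 0 := by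
      linear_combination t01 - t10
    exact sub_eq_zero.1 ((mul_eq_zero.1 this).resolve_left h2)
  refine ⟨a1, a2, ?_⟩
  have a3 : T.y ^ 2 = y ^ 2 := by
    apply mul_left_cancel₀ (pow_ne_zero 6 hv)
    have : v ^ 6 * T.y ^ 2 - v ^ 6 * y ^ 2 = 0 := by
      linear_combination (-T.y ^ 2) * a1 + (T.v ^ 3 * T.y + v ^ 3 * y) * a2
    exact sub_eq_zero.1 this
  have : T.w ^ 6 - w ^ 6 = 0 := by
    linear_combination -2 * t00 - a1 + a3
  exact sub_eq_zero.1 this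

theorem fac_tot {f : List (Lk s F)} (hne : f ≠ []) (hnd : ∀ g ∈ f, ND g.2.ab) {w v y : F} (hw : w ≠ 0) (hv : v ≠ 0)
    (hwv : (w * v) ^ 2 = ((tot (f.map Prod.snd)).w * (tot (f.map Prod.snd)).v) ^ 2)
    (h00 : (XX (f.map Prod.snd) 0 0).coeff (2 * f.length) = (w ^ 6 + v ^ 6 - y ^ 2) / 2)
    (h01 : (XX (f.map Prod.snd) 0 1).coeff (2 * f.length) = (w ^ 6 - (y + v ^ 3) ^ 2) / 2)
    (h10 : (XX (f.map Prod.snd) 1 0).coeff (2 * f.length) = (w ^ 6 - (y - v ^ 3) ^ 2) / 2) :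
    ∃ f' : List (Lk s F), f'.map (fun g => (g.1, g.2.ab)) = f.map (fun g => (g.1, g.2.ab)) ∧
      XX (f'.map Prod.snd) = XX (f.map Prod.snd) ∧ tot (f'.map Prod.snd) = ⟨w, v, y⟩ := by
  obtain ⟨f0, g, rfl⟩ : ∃ f0 g, f = f0 ++ [g] :=
    ⟨f.dropLast, f.getLast hne, (List.dropLast_append_getLast hne).symm⟩
  have htop := XX_top ((f0 ++ [g]).map Prod.snd)
  rw [List.length_map] at htop
  obtain ⟨t00, -, t01, t10⟩ := htop
  rw [h00] at t00
  rw [h01] at t01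
  rw [h10] at t10
  have hmap : ∀ u' : Vtx F, (f0 ++ [(g.1, u')]).map Prod.snd = f0.map Prod.snd ++ [u'] := by
    intro u'
    rw [List.map_append, List.map_singleton]
  have hmap0 : (f0 ++ [g]).map Prod.snd = f0.map Prod.snd ++ [g.2] := by
    rw [List.map_append, List.map_singleton]
  rw [hmap0] at hwv t00 t01 t10 ⊢
  obtain ⟨T, hT⟩ : ∃ T : Vtx F, T = tot (f0.map Prod.snd ++ [g.2]) := ⟨_, rfl⟩
  rw [← hT] at hwv t00 t01 t10
  obtain ⟨e1, e2, e3⟩ := tot_eqs hv t00 t01 t10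
  have hTw : T.w ≠ 0 := by
    intro h0
    rw [h0] at e3
    have h1 : w ^ 6 = 0 := by rw [← e3]; ring
    exact pow_ne_zero 6 hw h1
  obtain ⟨z, hz⟩ : ∃ z : F, z = w / T.w := ⟨_, rfl⟩
  have hz6 : z ^ 6 = 1 := by
    rw [hz, div_pow, e3, div_self (pow_ne_zero _ hw)]
  have hz0 : z ≠ 0 := by
    rintro h0
    rw [h0] at hz6
    norm_num at hz6
  have hzi : z⁻¹ ^ 3 = z ^ 3 := by
    rw [inv_pow]
    exact inv_eq_of_mul_eq_one_left (by rw [← hz6]; ring)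
  have hzT : z * T.w = w := by rw [hz]; field_simp
  -- the total after the rotation
  have hrot : tot (f0.map Prod.snd ++ [g.2.rot z]) = ⟨w, z⁻¹ * T.v, z ^ 3 * T.y⟩ := by
    rw [tot_snoc, ← hzT, hT, tot_snoc]
    refine Vtx.ext ?_ ?_ ?_
    · simp only [Vtx.rot]; ring
    · simp only [Vtx.rot]; ring
    · simp only [Vtx.rot]
      have : (z⁻¹ * g.2.v) ^ 3 = z ^ 3 * g.2.v ^ 3 := by rw [mul_pow, hzi]
      rw [this]; ring
  have hv2 : (z⁻¹ * T.v) ^ 2 = v ^ 2 := by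
    have h1 : (w * v) ^ 2 = (w * (z⁻¹ * T.v)) ^ 2 := by
      rw [hwv, ← hzT]
      congr 1
      field_simp
    rw [mul_pow, mul_pow] at h1
    exact (mul_left_cancel₀ (pow_ne_zero 2 hw) h1).symm
  have hvy : (z⁻¹ * T.v) ^ 3 * (z ^ 3 * T.y) = v ^ 3 * y := by
    rw [mul_pow, hzi, ← e2]
    have : (z ^ 3) ^ 2 = 1 := by rw [← hz6]; ring
    linear_combination T.v ^ 3 * T.y * this
  have hlab : (g.2.rot z).ab = g.2.ab := ab_rot _ hz6
  rcases sq_eq_sq_iff_eq_or_eq_neg.1 hv2 with hv' | hv'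
  · refine ⟨f0 ++ [(g.1, g.2.rot z)], ?_, ?_, ?_⟩
    · rw [List.map_append, List.map_append, List.map_singleton, List.map_singleton, hlab]
    · rw [hmap]
      exact XX_snoc _ (sand_rot _ hz6 1)
    · rw [hmap, hrot, hv']
      rw [hv'] at hvy
      rw [mul_left_cancel₀ (pow_ne_zero 3 hv) hvy]
  · refine ⟨f0 ++ [(g.1, (g.2.rot z).flip)], ?_, ?_, ?_⟩
    · rw [List.map_append, List.map_append, List.map_singleton, List.map_singleton, ab_flip, hlab]
    · rw [hmap]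
      exact XX_snoc _ ((sand_flip_one _).trans (sand_rot _ hz6 1))
    · rw [hmap, tot_snoc_flip, hrot]
      rw [hv'] at hvy ⊢
      have h5 : -(z ^ 3 * T.y) = y := by
        apply mul_left_cancel₀ (pow_ne_zero 3 hv)
        rw [← hvy]; ring
      refine Vtx.ext rfl ?_ h5
      exact neg_neg v

/-- `(w v)^2` of the total is the product of the `a` -/
theorem tot_wv (f : List (Vtx F)) : ((tot f).w * (tot f).v) ^ 2 = (f.map (fun u => u.ab.1)).prod := by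
  induction f with
  | nil => simp [tot]
  | cons u f ih =>
    rw [List.map_cons, List.prod_cons, ← ih]
    simp only [tot, Vtx.ab]
    ring

end ES
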