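import Pool.Agent.H67.ES.Uniq
import Pool.Agent.H67.ES.Top

/-! # ES.RotE : the same polygon seen from another cusp (about 180 lines)

`rot_exists`: induction on `f` (all `c ≠ 0`).  `f = g :: f1`, `Θ = XX f = g.sand (XX f1)`.  `hg` at `(g.ab, g.al)` and `peel_unique`: `Good k .. (XX f1)`.  `hg'` at `(g.ab, g.al)`: `u'`, `M'` with `scale c Θ = u'.sand M'`, `NZ`, `Good k .. M'`.
Choose a root `l` (`root_exists`) and a nonzero entry `(scale c Θ) i j (l)`; the column `j` of `scale c Θ` is `(Θ_00, c Θ_10)` or `c⁻¹ (Θ_01, c Θ_11)`.  `col` for `g` (column `j` of `Θ`) and for `u'`: `(l-1) p Θ_1j = (l+1) m Θ_0j`,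
`(l-1) p' c Θ_1j = (l+1) m' Θ_0j`; the column is not zero and `p, m, l-1, l+1 ≠ 0`, so `Θ_0j(l) ≠ 0`, `p' c m = m' p`.  Put `z := p'/p ≠ 0`, `c1 := z^2 c`: `m' = z c m`; `p' ps' = p ps` (`p_mul_ps`, same label, same `al`): `ps' = ps/z`,
`c1 ps' = z c ps`; `m' ms' = m ms`: `ms' = ms/(z c)`, `c1 ms' = z ms`.  Then `LL u' = z diag(1,c) LL g diag(1,1/c1)`, `LS u' = z diag(1/c1,1) LS g diag(c,1)`, so `scale c (g.sand X) = u'.sand (scale c1 X)` for every `X`
(entries); with `X = XX f1` and `sand_inj`: `M' = scale c1 (XX f1)`; induction with `c1`.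
`rot_minus`: let `f'` be as in `rot_exists` for `c = p ms/(m ps)` of `T = tot f`, `T' = tot f'`.  `al` and `a` of all vertices agree, so `(T'.w T'.v)^i` agree for `i = 2, 3`: `T'.w T'.v = T.w T.v`.  `XX_top` for `f'` and `f`: the leading coefficients of
`scale c Θ` are `(w^6+v^6-y^2)/2`, `(1/c) p ms/2 = m ps/2 = (w^6-(y-v^3)^2)/2`, `c m ps/2 = (w^6-(y+v^3)^2)/2`: so `T'.v^6 = T.v^6`, `T'.v^3 T'.y = - T.v^3 T.y` (compare `FacTot`).  Rotate the last vertex of `f'` by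
`ζ := T.w/T'.w` (`ζ^6 = 1`; `RotRel` is preserved: the last `z` is multiplied by `ζ^3`): the total becomes `(T.w, T.v, -T.y)`. -/

namespace ES

open Polynomial H68.BB

variable {s : ℕ} {F : Type} [Field F] [CharZero F] [IsAlgClosed F]

/-- diagonal matrices -/
private noncomputable def D2 (x y : F) : Mat F := !![C x, 0; 0, C y]

omit [CharZero F] [IsAlgClosed F] in
private theorem LL_rel {u u' : Vtx F} {c c1 z : F} (hc1 : c1 ≠ 0) (hp : u'.p = z * u.p)
    (hm : u'.m = z * c * u.m) (hms : c1 * u'.ms = z * u.ms) (hps : c1 * u'.ps = z * c * u.ps) :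
    u'.LL = D2 z (z * c) * u.LL * D2 1 c1⁻¹ := by
  have h1 : u'.ms = z * u.ms * c1⁻¹ := by rw [← hms]; field_simp
  have h2 : u'.ps = z * c * u.ps * c1⁻¹ := by rw [← hps]; field_simp
  ext1 i j
  fin_cases i <;> fin_cases j <;>
    simp [Vtx.LL, D2, Matrix.mul_apply, Fin.sum_univ_two, hp, hm, h1, h2, C_mul] <;> ring

omit [CharZero F] [IsAlgClosed F] in
private theorem LS_rel {u u' : Vtx F} {c c1 z : F} (hc1 : c1 ≠ 0) (hp : u'.p = z * u.p)
    (hm : u'.m = z * c * u.m) (hms : c1 * u'.ms = z * u.ms) (hps : c1 * u'.ps = z * c * u.ps) :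
    u'.LS = D2 (z * c1⁻¹) z * u.LS * D2 c 1 := by
  have h1 : u'.ms = z * u.ms * c1⁻¹ := by rw [← hms]; field_simp
  have h2 : u'.ps = z * c * u.ps * c1⁻¹ := by rw [← hps]; field_simp
  ext1 i j
  fin_cases i <;> fin_cases j <;>
    simp [Vtx.LS, D2, Matrix.mul_apply, Fin.sum_univ_two, hp, hm, h1, h2, C_mul] <;> ring

omit [CharZero F] [IsAlgClosed F] in
private theorem D2_eq (x y : F) : (D2 x y : Mat F) = Matrix.diagonal ![C x, C y] := by
  ext1 i j
  fin_cases i <;> fin_cases j <;> simp [D2]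

omit [CharZero F] [IsAlgClosed F] in
private theorem D2_mul_mul (x y x' y' : F) (Y : Mat F) (i j : Fin 2) :
    (D2 x y * Y * D2 x' y') i j = ![C x, C y] i * Y i j * ![C x', C y'] j := by
  rw [D2_eq, D2_eq, Matrix.mul_diagonal, Matrix.diagonal_mul]

omit [CharZero F] [IsAlgClosed F] in
private theorem scale_D2 {c : F} (hc : c ≠ 0) (Y : Mat F) :
    scale c Y = D2 1 c * Y * D2 1 c⁻¹ := by
  have h1 : (C c : F[X]) * C c⁻¹ = 1 := by rw [← C_mul, mul_inv_cancel₀ hc, C_1]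
  ext1 i j
  rw [D2_mul_mul]
  fin_cases i <;> fin_cases j
  · simp [scale]
  · simp [scale, mul_comm]
  · simp [scale]
  · show Y 1 1 = C c * Y 1 1 * C c⁻¹
    linear_combination -(Y 1 1) * h1

omit [CharZero F] [IsAlgClosed F] in
private theorem D2_mul (x y x' y' : F) : D2 x y * D2 x' y' = D2 (x * x') (y * y') := by
  ext1 i j
  fin_cases i <;> fin_cases j <;>
    simp [D2, Matrix.mul_apply, Fin.sum_univ_two]

omit [CharZero F] [IsAlgClosed F] in
private theorem D2_one : (D2 1 1 : Mat F) = 1 := by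
  ext1 i j
  fin_cases i <;> fin_cases j <;> simp [D2]

omit [CharZero F] [IsAlgClosed F] in
private theorem D2_diag (x : F) : (D2 x x : Mat F) = C x • (1 : Mat F) := by
  ext1 i j
  fin_cases i <;> fin_cases j <;> simp [D2]

omit [CharZero F] [IsAlgClosed F] in
private theorem D2_scale {c c1 z : F} (hc : c ≠ 0) (hz : z ≠ 0) (h : z ^ 2 * c = c1) (N : Mat F) :
    C (z * c1⁻¹) • (D2 z (z * c) * N * D2 c 1) = scale c N := by
  have k1 : z * c1⁻¹ * z * c = 1 := by rw [← h]; field_simp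
  have k2 : z * c1⁻¹ * z = c⁻¹ := by rw [← h]; field_simp
  have k3 : z * c1⁻¹ * (z * c) * c = c := by rw [← h]; field_simp
  have k4 : z * c1⁻¹ * (z * c) = 1 := by rw [← h]; field_simp
  ext1 i j
  rw [Matrix.smul_apply, D2_mul_mul, smul_eq_mul]
  fin_cases i <;> fin_cases j
  · show C (z * c1⁻¹) * (C z * N 0 0 * C c) = N 0 0
    have e : C (z * c1⁻¹) * (C z * N 0 0 * C c) = C (z * c1⁻¹ * z * c) * N 0 0 := by
      simp only [C_mul]; ring
    rw [e, k1, C_1, one_mul]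
  · show C (z * c1⁻¹) * (C z * N 0 1 * C 1) = C c⁻¹ * N 0 1
    have e : C (z * c1⁻¹) * (C z * N 0 1 * C 1) = C (z * c1⁻¹ * z) * N 0 1 := by
      simp only [C_mul, C_1]; ring
    rw [e, k2]
  · show C (z * c1⁻¹) * (C (z * c) * N 1 0 * C c) = C c * N 1 0
    have e : C (z * c1⁻¹) * (C (z * c) * N 1 0 * C c) = C (z * c1⁻¹ * (z * c) * c) * N 1 0 := by
      simp only [C_mul]; ring
    rw [e, k3]
  · show C (z * c1⁻¹) * (C (z * c) * N 1 1 * C 1) = N 1 1
    have e : C (z * c1⁻¹) * (C (z * c) * N 1 1 * C 1) = C (z * c1⁻¹ * (z * c)) * N 1 1 := by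
      simp only [C_mul, C_1]; ring
    rw [e, k4, C_1, one_mul]

omit [CharZero F] [IsAlgClosed F] in
private theorem scale_smul (c : F) (x : F[X]) (N : Mat F) : scale c (x • N) = x • scale c N := by
  ext1 i j
  fin_cases i <;> fin_cases j <;> simp [scale] <;> ring

omit [CharZero F] [IsAlgClosed F] in
private theorem sand_scale {u u' : Vtx F} {c c1 z : F} (hc : c ≠ 0) (hz : z ≠ 0)
    (h : z ^ 2 * c = c1) (hp : u'.p = z * u.p)
    (hm : u'.m = z * c * u.m) (hms : c1 * u'.ms = z * u.ms) (hps : c1 * u'.ps = z * c * u.ps)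
    (Y : Mat F) : u'.sand (scale c1 Y) = scale c (u.sand Y) := by
  have hc1 : c1 ≠ 0 := by rw [← h]; exact mul_ne_zero (pow_ne_zero _ hz) hc
  have e1 : u'.LL * scale c1 Y * u'.LS = scale c (u.LL * Y * u.LS) := by
    rw [← D2_scale hc hz h, LL_rel hc1 hp hm hms hps, LS_rel hc1 hp hm hms hps, scale_D2 hc1 Y]
    have a1 : D2 1 c1⁻¹ * D2 1 c1 = (1 : Mat F) := by
      rw [D2_mul, one_mul, inv_mul_cancel₀ hc1, D2_one]
    have a2 : D2 1 c1⁻¹ * D2 (z * c1⁻¹) z = C (z * c1⁻¹) • (1 : Mat F) := by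
      rw [D2_mul, one_mul, mul_comm c1⁻¹ z, D2_diag]
    calc D2 z (z * c) * u.LL * D2 1 c1⁻¹ * (D2 1 c1 * Y * D2 1 c1⁻¹) *
          (D2 (z * c1⁻¹) z * u.LS * D2 c 1)
        = D2 z (z * c) * u.LL * (D2 1 c1⁻¹ * D2 1 c1) * Y * (D2 1 c1⁻¹ * D2 (z * c1⁻¹) z) *
          u.LS * D2 c 1 := by simp only [Matrix.mul_assoc]
      _ = C (z * c1⁻¹) • (D2 z (z * c) * (u.LL * Y * u.LS) * D2 c 1) := by
          rw [a1, a2]
          simp only [Matrix.mul_assoc, Matrix.mul_one, Matrix.mul_smul, Matrix.smul_mul]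
  rw [Vtx.sand, Vtx.sand, e1, scale_smul]

private theorem rot_step {u u' : Vtx F} {M' Y : Mat F} {c : F} (hc : c ≠ 0) (hnd : ND u.ab)
    (hab : u'.ab = u.ab) (hal : u'.al = u.al) (hM : scale c (u.sand Y) = u'.sand M')
    (hnz : NZ (scale c (u.sand Y)) u.al u.ab.2) :
    ∃ z c1 : F, z ≠ 0 ∧ z ^ 2 * c = c1 ∧ u'.p = z * u.p ∧ u'.m = z * c * u.m ∧
      c1 * u'.ms = z * u.ms ∧ c1 * u'.ps = z * c * u.ps := by
  obtain ⟨l, hl⟩ := root_exists (a := u.ab.1) (b := u.ab.2) hnd (al_sq u)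
  obtain ⟨hl0, hl1, -⟩ := root_ne (a := u.ab.1) (b := u.ab.2) hnd (al_sq u) hl
  have hlm : l - 1 ≠ 0 := by
    intro h0
    exact hl1 (by rw [sub_eq_zero.mp h0, one_pow])
  have hlp : l + 1 ≠ 0 := by
    intro h0
    exact hl1 (by rw [eq_neg_of_add_eq_zero_left h0]; ring)
  have hnd' : ND u'.ab := by rw [hab]; exact hnd
  obtain ⟨-, -, -, hp, hps, hm, hms, -, -⟩ := hnd.ne
  obtain ⟨-, -, -, hp', hps', hm', hms', -, -⟩ := hnd'.ne
  have hl' : u'.al * (l ^ 2 + 1) = 2 * u'.ab.2 * l := by rw [hab, hal]; exact hl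
  obtain ⟨i, j, hij⟩ := hnz l hl
  have c1 := col (M := Y) hl j
  have c2 := col (M := M') hl' j
  rw [← hM] at c2
  obtain ⟨x0, x1, e1, e2, hne⟩ : ∃ x0 x1 : F, (l - 1) * u.p * x1 = (l + 1) * u.m * x0 ∧
      (l - 1) * u'.p * (c * x1) = (l + 1) * u'.m * x0 ∧ (x0 ≠ 0 ∨ x1 ≠ 0) := by
    fin_cases j
    · refine ⟨(u.sand Y 0 0).eval l, (u.sand Y 1 0).eval l, c1, ?_, ?_⟩
      · simpa [scale] using c2
      · fin_cases i
        · left
          simpa [scale] using hij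
        · right
          have h3 : c * (u.sand Y 1 0).eval l ≠ 0 := by simpa [scale] using hij
          exact right_ne_zero_of_mul h3
    · refine ⟨(u.sand Y 0 1).eval l, (u.sand Y 1 1).eval l, c1, ?_, ?_⟩
      · have h3 : (l - 1) * u'.p * (u.sand Y 1 1).eval l =
            (l + 1) * u'.m * (c⁻¹ * (u.sand Y 0 1).eval l) := by simpa [scale] using c2
        have h4 : c * c⁻¹ = 1 := mul_inv_cancel₀ hc
        linear_combination c * h3 + (l + 1) * u'.m * (u.sand Y 0 1).eval l * h4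
      · fin_cases i
        · left
          have h3 : c⁻¹ * (u.sand Y 0 1).eval l ≠ 0 := by simpa [scale] using hij
          exact right_ne_zero_of_mul h3
        · right
          simpa [scale] using hij
  have hx0 : x0 ≠ 0 := by
    intro h0
    rw [h0, mul_zero] at e1
    have h1 : x1 = 0 := (mul_eq_zero.mp e1).resolve_left (mul_ne_zero hlm hp)
    rcases hne with h | h
    · exact h h0
    · exact h h1
  have key : u'.p * c * u.m = u.p * u'.m := by
    apply mul_left_cancel₀ (mul_ne_zero hlp hx0)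
    linear_combination -(u'.p * c) * e1 + u.p * e2
  obtain ⟨z, hz⟩ : ∃ z, z = u'.p / u.p := ⟨_, rfl⟩
  have hzp : u'.p = z * u.p := by rw [hz]; field_simp
  have hz0 : z ≠ 0 := by rw [hz]; exact div_ne_zero hp' hp
  have hzm : u'.m = z * c * u.m := by
    apply mul_left_cancel₀ hp
    linear_combination c * u.m * hzp - key
  have h1 : u'.m * u'.ms = u.m * u.ms := by rw [m_mul_ms, m_mul_ms, hab, hal]
  have h2 : u'.p * u'.ps = u.p * u.ps := by rw [p_mul_ps, p_mul_ps, hab, hal]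
  have h3 : z * c * u'.ms = u.ms := by
    apply mul_left_cancel₀ hm
    linear_combination h1 - u'.ms * hzm
  have h4 : z * u'.ps = u.ps := by
    apply mul_left_cancel₀ hp
    linear_combination h2 - u'.ps * hzp
  exact ⟨z, z ^ 2 * c, hz0, rfl, hzp, hzm, by linear_combination z * h3,
    by linear_combination z * c * h4⟩

theorem rot_exists {k : ℕ} {f : List (Lk s F)} (hnd : ∀ g ∈ f, ND g.2.ab) {c : F} (hc : c ≠ 0)
    (hg : Good k ((f.map (fun g => g.2.ab) : List (F × F)) : Multiset (F × F)) (XX (f.map Prod.snd)))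
    (hg' : Good k ((f.map (fun g => g.2.ab) : List (F × F)) : Multiset (F × F)) (scale c (XX (f.map Prod.snd)))) :
    ∃ f' : List (Lk s F), RotRel c f f' ∧ XX (f'.map Prod.snd) = scale c (XX (f.map Prod.snd)) := by
  induction f generalizing k c with
  | nil =>
    refine ⟨[], RotRel.nil c, ?_⟩
    ext1 i j
    fin_cases i <;> fin_cases j <;> simp [XX, scale]
  | cons g f1 ih =>
    have hX : XX ((g :: f1).map Prod.snd) = g.2.sand (XX (f1.map Prod.snd)) := rfl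
    rw [hX] at hg hg' ⊢
    have hndg : ND g.2.ab := hnd g List.mem_cons_self
    have hs : (((g :: f1).map (fun g => g.2.ab) : List (F × F)) : Multiset (F × F)) =
        g.2.ab ::ₘ ((f1.map (fun g => g.2.ab) : List (F × F)) : Multiset (F × F)) := rfl
    rw [hs] at hg hg'
    cases k with
    | zero => exact absurd hg.1 (Multiset.cons_ne_zero)
    | succ k =>
      obtain ⟨-, hal⟩ := hg.2 _ _ rfl
      obtain ⟨hnz, u, M', hu1, hu2, hu3, hu4⟩ := hal g.2.al (al_sq g.2)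
      obtain ⟨-, hM'⟩ := peel_unique (M := g.2.sand (XX (f1.map Prod.snd))) rfl hu3 hu1.symm
        hu2.symm hndg hnz
      rw [← hM'] at hu4
      obtain ⟨-, hal'⟩ := hg'.2 _ _ rfl
      obtain ⟨hnz', u', M'', hu1', hu2', hu3', hu4'⟩ := hal' g.2.al (al_sq g.2)
      obtain ⟨z, c1, hz, hzc, hp, hm, hms, hps⟩ := rot_step hc hndg hu1' hu2' hu3' hnz'
      have hc1 : c1 ≠ 0 := by rw [← hzc]; exact mul_ne_zero (pow_ne_zero _ hz) hc
      have hsc := sand_scale hc hz hzc hp hm hms hps (XX (f1.map Prod.snd))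
      have hnd' : ND u'.ab := by rw [hu1']; exact hndg
      have hM2 : M'' = scale c1 (XX (f1.map Prod.snd)) := by
        apply sand_inj hnd'
        rw [← hu3', hsc]
      rw [hM2] at hu4'
      obtain ⟨f', hrel, hXX⟩ := ih (fun g' hg' => hnd g' (List.mem_cons_of_mem _ hg')) hc1 hu4 hu4'
      refine ⟨(g.1, u') :: f', RotRel.cons hc hz hzc rfl hu1' hu2' hp hm hms hps hrel, ?_⟩
      have hX' : XX (((g.1, u') :: f').map Prod.snd) = u'.sand (XX (f'.map Prod.snd)) := rfl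
      rw [hX', hXX, hsc]

omit [CharZero F] [IsAlgClosed F] in
private theorem rel_map {c : F} {f f' : List (Lk s F)} (h : RotRel c f f') :
    f'.map (fun g => (g.1, g.2.ab)) = f.map (fun g => (g.1, g.2.ab)) ∧ f'.length = f.length := by
  induction h with
  | nil c => exact ⟨rfl, rfl⟩
  | cons _ _ _ h1 h2 _ _ _ _ _ _ ih =>
    refine ⟨?_, ?_⟩
    · rw [List.map_cons, List.map_cons, ih.1, h1, h2]
    · rw [List.length_cons, List.length_cons, ih.2]

omit [IsAlgClosed F] in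
private theorem rel_wv {c : F} {f f' : List (Lk s F)} (h : RotRel c f f')
    (hnd : ∀ g ∈ f, ND g.2.ab) :
    (tot (f'.map Prod.snd)).w * (tot (f'.map Prod.snd)).v =
      (tot (f.map Prod.snd)).w * (tot (f.map Prod.snd)).v ∧
    (tot (f.map Prod.snd)).w * (tot (f.map Prod.snd)).v ≠ 0 := by
  induction h with
  | nil c =>
    refine ⟨rfl, ?_⟩
    simp [tot]
  | @cons c c1 z g g' f f' _ _ _ _ h2 h3 _ _ _ _ _ ih =>
    obtain ⟨ih1, ih2⟩ := ih (fun g' hg' => hnd g' (List.mem_cons_of_mem _ hg'))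
    have hg : ND g.2.ab := hnd g List.mem_cons_self
    obtain ⟨-, hw, hv, -⟩ := hg.ne
    have hwv : g.2.w * g.2.v ≠ 0 := mul_ne_zero hw hv
    have e2 : (g'.2.w * g'.2.v) ^ 2 = (g.2.w * g.2.v) ^ 2 := congrArg Prod.fst h2
    have e3 : (g'.2.w * g'.2.v) ^ 3 = (g.2.w * g.2.v) ^ 3 := h3
    have e1 : g'.2.w * g'.2.v = g.2.w * g.2.v := by
      apply mul_left_cancel₀ (pow_ne_zero 2 hwv)
      calc (g.2.w * g.2.v) ^ 2 * (g'.2.w * g'.2.v) = (g'.2.w * g'.2.v) ^ 2 * (g'.2.w * g'.2.v) := by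
            rw [e2]
        _ = (g'.2.w * g'.2.v) ^ 3 := by ring
        _ = (g.2.w * g.2.v) ^ 3 := e3
        _ = (g.2.w * g.2.v) ^ 2 * (g.2.w * g.2.v) := by ring
    have t1 : ∀ (g : Lk s F) (f : List (Lk s F)), (tot ((g :: f).map Prod.snd)).w *
        (tot ((g :: f).map Prod.snd)).v = g.2.w * g.2.v * ((tot (f.map Prod.snd)).w *
          (tot (f.map Prod.snd)).v) := by
      intro g f
      show g.2.w * (tot (f.map Prod.snd)).w * (g.2.v * (tot (f.map Prod.snd)).v) = _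
      ring
    rw [t1, t1, e1, ih1]
    exact ⟨rfl, mul_ne_zero hwv ih2⟩

omit [IsAlgClosed F] in
private theorem rot_last {c ζ : F} (hζ : ζ ^ 6 = 1) {f f' : List (Lk s F)} (h : RotRel c f f')
    (hne : f ≠ []) : ∃ f'' : List (Lk s F), RotRel c f f'' ∧
      XX (f''.map Prod.snd) = XX (f'.map Prod.snd) ∧
      tot (f''.map Prod.snd) = ⟨ζ * (tot (f'.map Prod.snd)).w, ζ⁻¹ * (tot (f'.map Prod.snd)).v,
        ζ ^ 3 * (tot (f'.map Prod.snd)).y⟩ := by
  have hζ0 : ζ ≠ 0 := by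
    intro h0
    rw [h0] at hζ
    norm_num at hζ
  have h3 : ζ⁻¹ ^ 3 = ζ ^ 3 := by
    rw [inv_pow]
    apply inv_eq_of_mul_eq_one_left
    rw [← pow_add]
    exact hζ
  induction h with
  | nil c => exact absurd rfl hne
  | @cons c c1 z g g' f f' k1 k2 k3 k4 k5 k6 k7 k8 k9 k10 k11 ih =>
    by_cases hf : f = []
    · subst hf
      cases k11
      refine ⟨[(g'.1, g'.2.rot ζ)], ?_, ?_, ?_⟩
      · refine RotRel.cons (z := ζ ^ 3 * z) k1 (mul_ne_zero (pow_ne_zero _ hζ0) k2) ?_ k4 ?_ ?_ ?_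
          ?_ ?_ ?_ (RotRel.nil c1)
        · linear_combination k3 + z ^ 2 * c * hζ
        · show (g'.2.rot ζ).ab = _
          rw [ab_rot _ hζ, k5]
        · show (g'.2.rot ζ).al = _
          rw [al_rot _ hζ, k6]
        · have e : (g'.2.rot ζ).p = ζ ^ 3 * g'.2.p := by
            simp only [Vtx.p, Vtx.rot, mul_pow, h3]; ring
          show (g'.2.rot ζ).p = _
          rw [e, k7]; ring
        · have e : (g'.2.rot ζ).m = ζ ^ 3 * g'.2.m := by
            simp only [Vtx.m, Vtx.rot, mul_pow, h3]; ring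
          show (g'.2.rot ζ).m = _
          rw [e, k8]; ring
        · have e : (g'.2.rot ζ).ms = ζ ^ 3 * g'.2.ms := by
            simp only [Vtx.ms, Vtx.rot, mul_pow, h3]; ring
          show c1 * (g'.2.rot ζ).ms = _
          rw [e]
          linear_combination ζ ^ 3 * k9
        · have e : (g'.2.rot ζ).ps = ζ ^ 3 * g'.2.ps := by
            simp only [Vtx.ps, Vtx.rot, mul_pow, h3]; ring
          show c1 * (g'.2.rot ζ).ps = _
          rw [e]
          linear_combination ζ ^ 3 * k10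
      · show (g'.2.rot ζ).sand 1 = g'.2.sand 1
        exact sand_rot _ hζ 1
      · show (⟨(g'.2.rot ζ).w * 1, (g'.2.rot ζ).v * 1,
          (g'.2.rot ζ).w ^ 3 * 0 + (g'.2.rot ζ).y * 1 ^ 3⟩ : Vtx F) = ⟨ζ * (g'.2.w * 1),
            ζ⁻¹ * (g'.2.v * 1), ζ ^ 3 * (g'.2.w ^ 3 * 0 + g'.2.y * 1 ^ 3)⟩
        simp [Vtx.rot]
    · obtain ⟨f'', r1, r2, r3⟩ := ih hf
      refine ⟨g' :: f'', RotRel.cons k1 k2 k3 k4 k5 k6 k7 k8 k9 k10 r1, ?_, ?_⟩
      · show g'.2.sand (XX (f''.map Prod.snd)) = g'.2.sand (XX (f'.map Prod.snd))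
        rw [r2]
      · show (⟨g'.2.w * (tot (f''.map Prod.snd)).w, g'.2.v * (tot (f''.map Prod.snd)).v,
          g'.2.w ^ 3 * (tot (f''.map Prod.snd)).y + g'.2.y * (tot (f''.map Prod.snd)).v ^ 3⟩ :
            Vtx F) = ⟨ζ * (g'.2.w * (tot (f'.map Prod.snd)).w),
            ζ⁻¹ * (g'.2.v * (tot (f'.map Prod.snd)).v),
            ζ ^ 3 * (g'.2.w ^ 3 * (tot (f'.map Prod.snd)).y +
              g'.2.y * (tot (f'.map Prod.snd)).v ^ 3)⟩
        rw [r3]
        simp only [Vtx.mk.injEq]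
        refine ⟨by ring, by ring, ?_⟩
        rw [mul_pow, h3]
        ring

theorem rot_minus {k : ℕ} {f : List (Lk s F)} (hne : f ≠ []) (hnd : ∀ g ∈ f, ND g.2.ab) {T : Vtx F} (hT : T = tot (f.map Prod.snd))
    (h4 : T.p ≠ 0 ∧ T.ps ≠ 0 ∧ T.m ≠ 0 ∧ T.ms ≠ 0)
    (hg : Good k ((f.map (fun g => g.2.ab) : List (F × F)) : Multiset (F × F)) (XX (f.map Prod.snd)))
    (hg' : Good k ((f.map (fun g => g.2.ab) : List (F × F)) : Multiset (F × F))
      (scale (T.p * T.ms / (T.m * T.ps)) (XX (f.map Prod.snd)))) :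
    ∃ f' : List (Lk s F), RotRel (T.p * T.ms / (T.m * T.ps)) f f' ∧
      XX (f'.map Prod.snd) = scale (T.p * T.ms / (T.m * T.ps)) (XX (f.map Prod.snd)) ∧
      tot (f'.map Prod.snd) = ⟨T.w, T.v, -T.y⟩ ∧ f'.map (fun g => (g.1, g.2.ab)) = f.map (fun g => (g.1, g.2.ab)) := by
  obtain ⟨h4p, h4ps, h4m, h4ms⟩ := h4
  set c := T.p * T.ms / (T.m * T.ps) with hcdef
  have hc : c ≠ 0 := div_ne_zero (mul_ne_zero h4p h4ms) (mul_ne_zero h4m h4ps)
  obtain ⟨f0, hrel, hXX⟩ := rot_exists hnd hc hg hg'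
  obtain ⟨hwv, hwv0⟩ := rel_wv hrel hnd
  obtain ⟨-, hlen⟩ := rel_map hrel
  set T' := tot (f0.map Prod.snd) with hT'
  rw [← hT] at hwv hwv0
  have hw0 : T.w ≠ 0 := left_ne_zero_of_mul hwv0
  have hv0 : T.v ≠ 0 := right_ne_zero_of_mul hwv0
  have hw0' : T'.w ≠ 0 := left_ne_zero_of_mul (hwv ▸ hwv0)
  obtain ⟨a00, -, a01, a10⟩ := XX_top (f.map Prod.snd)
  obtain ⟨b00, -, b01, b10⟩ := XX_top (f0.map Prod.snd)
  rw [← hT, List.length_map] at a00 a01 a10
  rw [← hT', List.length_map, hlen, hXX] at b00 b01 b10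
  have q1 : T'.w ^ 6 + T'.v ^ 6 - T'.y ^ 2 = T.w ^ 6 + T.v ^ 6 - T.y ^ 2 := by
    have h1 : (scale c (XX (f.map Prod.snd))) 0 0 = XX (f.map Prod.snd) 0 0 := by simp [scale]
    rw [h1, a00] at b00
    linear_combination -2 * b00
  have q2 : T'.w ^ 6 - (T'.y + T'.v ^ 3) ^ 2 = T.w ^ 6 - (T.y - T.v ^ 3) ^ 2 := by
    have h1 : (scale c (XX (f.map Prod.snd))) 0 1 = C c⁻¹ * XX (f.map Prod.snd) 0 1 := by
      simp [scale]
    rw [h1, coeff_C_mul, a01] at b01
    have h2 : c⁻¹ * (T.w ^ 6 - (T.y + T.v ^ 3) ^ 2) = T.w ^ 6 - (T.y - T.v ^ 3) ^ 2 := by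
      have e1 : T.w ^ 6 - (T.y + T.v ^ 3) ^ 2 = T.p * T.ms := by
        simp only [Vtx.p, Vtx.ms]; ring
      have e2 : T.w ^ 6 - (T.y - T.v ^ 3) ^ 2 = T.m * T.ps := by
        simp only [Vtx.m, Vtx.ps]; ring
      rw [e1, e2, hcdef]
      field_simp
    linear_combination -2 * b01 + h2
  have q3 : T'.w ^ 6 - (T'.y - T'.v ^ 3) ^ 2 = T.w ^ 6 - (T.y + T.v ^ 3) ^ 2 := by
    have h1 : (scale c (XX (f.map Prod.snd))) 1 0 = C c * XX (f.map Prod.snd) 1 0 := by
      simp [scale]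
    rw [h1, coeff_C_mul, a10] at b10
    have h2 : c * (T.w ^ 6 - (T.y - T.v ^ 3) ^ 2) = T.w ^ 6 - (T.y + T.v ^ 3) ^ 2 := by
      have e1 : T.w ^ 6 - (T.y + T.v ^ 3) ^ 2 = T.p * T.ms := by
        simp only [Vtx.p, Vtx.ms]; ring
      have e2 : T.w ^ 6 - (T.y - T.v ^ 3) ^ 2 = T.m * T.ps := by
        simp only [Vtx.m, Vtx.ps]; ring
      rw [e1, e2, hcdef]
      field_simp
    linear_combination -2 * b10 + h2
  have hv6 : T'.v ^ 6 = T.v ^ 6 := by linear_combination (1 / 2) * q1 - (1 / 4) * q2 - (1 / 4) * q3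
  have hvy : T'.v ^ 3 * T'.y = -(T.v ^ 3 * T.y) := by
    linear_combination (1 / 4) * q3 - (1 / 4) * q2
  have hw6 : T'.w ^ 6 = T.w ^ 6 := by
    apply mul_right_cancel₀ (pow_ne_zero 6 hv0)
    calc T'.w ^ 6 * T.v ^ 6 = T'.w ^ 6 * T'.v ^ 6 := by rw [hv6]
      _ = (T'.w * T'.v) ^ 6 := by ring
      _ = (T.w * T.v) ^ 6 := by rw [hwv]
      _ = T.w ^ 6 * T.v ^ 6 := by ring
  have hζ : (T.w / T'.w) ^ 6 = 1 := by
    rw [div_pow, hw6, div_self (pow_ne_zero _ hw0)]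
  obtain ⟨f', r1, r2, r3⟩ := rot_last hζ hrel hne
  refine ⟨f', r1, r2.trans hXX, ?_, (rel_map r1).1⟩
  rw [r3, ← hT']
  have hTv : T'.v = T.w / T'.w * T.v := by
    field_simp
    linear_combination hwv
  have hζ0 : T.w / T'.w ≠ 0 := div_ne_zero hw0 hw0'
  rw [Vtx.mk.injEq]
  refine ⟨by field_simp, ?_, ?_⟩
  · rw [hTv, inv_mul_cancel_left₀ hζ0]
  · apply mul_left_cancel₀ (pow_ne_zero 3 hv0)
    rw [hTv] at hvy
    linear_combination hvy

end ES
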