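import Pool.Agent.H67.ES.StSc
import Pool.Agent.H67.ES.RotE
import Pool.Agent.H67.ES.FacTot
import Pool.Agent.H36.ES.Cs3

/-! # ES.Four : the four cusps `(± w, ± v)` have the same class (about 200 lines)

`T = (w, v, y) = tot f`, `f = pre ++ [g]` (`f ≠ []`).  `tot_append`: for `g' = (g.1, u')` the total of `pre ++ [g']` is `(W1 u'.w, V1 u'.v, W1^3 u'.y + Y1 u'.v^3)`, `(W1, V1, Y1) = tot pre`; `XX (pre ++ [g'])` depends only on `u'.sand 1` (induction on `pre`).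
(a) `(w, v)`: `f` itself.  (b) `(-w, v)`: `G f := pre ++ [(g.1, ⟨-g.2.w, g.2.v, g.2.y⟩)]`; `⟨-w, v, y⟩ = (⟨w, v, y⟩.flip).rot (-1)`: same label, `sand_rot`, `sand_flip_one`.  Class: `Psi (G f) = Psi f`: `Mv.flip` then a rotation by `-1` of the last link; the rotation
by `-1` of one link changes the sign of `Psi` (`sl_rot_neg` of `H36/ES/Cs3`: for each `z ∈ Z6`), or directly: the point of `⟨-w, v, y⟩.rot z` has coordinates `((z w)^2 + .., z^3 y)`, i.e. it is the point of `⟨w, v, y⟩.rot z`: so `tup k (G f) z = tup k f z`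
and `Psi (G f) = Psi f` is trivial (`(−z w)^2 = (z w)^2`).
(c) `(w, -v)`: `rot_minus` gives `f'` with `RotRel c f f'`, `XX f' = scale c (XX f)`, total `(w, v, -y)`, same base points and labels; `CS2`: `Psi f' = - Psi f`; `f'' := ` `f'` with the last vertex flipped: total `(w, -v, y)`, same `XX`, and `CS1` with `Mv.flip`:
`Psi f'' = - Psi f' = Psi f`.  (d) `(-w, -v)`: `G f''`.
`GFac`: `mem`: same base points and labels as `f`, `XX f = scale c1 m0.M` gives `XX f'' = scale (c c1) m0.M` (`scale_scale`), totals; `m0`, `ps0` for `(w, -v, y)`: `m = T.p`, `ps = T.ms`; for `(-w, v, y)`: `m = - T.ps`, `ps = - T.m`; for `(-w, -v, y)`: `m = - T.ms`, `ps = - T.p`. -/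

namespace ES

open Polynomial H68.BB

variable {K : Type} [Field K] [IsAlgClosed K] [CharZero K] {s k : ℕ} {W : Wm K s}

omit [IsAlgClosed K] [CharZero K] in
private theorem fo_tot (l : List (Vtx K)) (u : Vtx K) : tot (l ++ [u]) =
    ⟨(tot l).w * u.w, (tot l).v * u.v, (tot l).w ^ 3 * u.y + (tot l).y * u.v ^ 3⟩ := by
  have h : tot [u] = ⟨u.w * 1, u.v * 1, u.w ^ 3 * 0 + u.y * 1 ^ 3⟩ := rfl
  rw [tot_append, h]
  refine Vtx.ext ?_ ?_ ?_
  · simp only; ring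
  · simp only; ring
  · simp only; ring

omit [IsAlgClosed K] [CharZero K] in
private theorem fo_XX (l : List (Vtx K)) {u u' : Vtx K} (h : u'.sand 1 = u.sand 1) :
    XX (l ++ [u']) = XX (l ++ [u]) := by
  induction l with
  | nil => exact h
  | cons v l ih =>
    change v.sand (XX (l ++ [u'])) = v.sand (XX (l ++ [u]))
    rw [ih]

/-- the data of a link on which the points of its rotations depend -/
private def NN (g : Lk s K) : (Fin s → K) × K × K × K := (g.1, g.2.w ^ 2, g.2.v ^ 2, g.2.y)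

omit [IsAlgClosed K] [CharZero K] in
private theorem fo_psi {f f' : List (Lk s K)} (h : f'.map NN = f.map NN) : Psi W k f' = Psi W k f := by
  unfold Psi
  refine Finset.sum_congr rfl fun z _ => ?_
  congr 1
  funext i
  have h1 : NN (nth f' i) = NN (nth f i) := by
    unfold nth
    rw [← List.getD_map (f := NN), ← List.getD_map (f := NN), h]
  have hp : (nth f' i).1 = (nth f i).1 := congrArg (fun q => q.1) h1
  have hw : (nth f' i).2.w ^ 2 = (nth f i).2.w ^ 2 := congrArg (fun q => q.2.1) h1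
  have hv : (nth f' i).2.v ^ 2 = (nth f i).2.v ^ 2 := congrArg (fun q => q.2.2.1) h1
  have hy : (nth f' i).2.y = (nth f i).2.y := congrArg (fun q => q.2.2.2) h1
  refine Pt.ext hp ?_ ?_
  · change (z i * (nth f' i).2.w) ^ 2 + ((z i)⁻¹ * (nth f' i).2.v) ^ 2 =
      (z i * (nth f i).2.w) ^ 2 + ((z i)⁻¹ * (nth f i).2.v) ^ 2
    rw [mul_pow, mul_pow, mul_pow, mul_pow, hw, hv]
  · change z i ^ 3 * (nth f' i).2.y = z i ^ 3 * (nth f i).2.y
    rw [hy]

omit [IsAlgClosed K] [CharZero K] in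
private theorem fo_lab {B : Multiset (Fin s → K)} {f f1 : List (Lk s K)}
    (hB : ((f.map Prod.fst : List (Fin s → K)) : Multiset (Fin s → K)) = B)
    (hl : ∀ g ∈ f, g.2.ab = lab W g.1)
    (hm : f1.map (fun g => (g.1, g.2.ab)) = f.map (fun g => (g.1, g.2.ab))) :
    ((f1.map Prod.fst : List (Fin s → K)) : Multiset (Fin s → K)) = B ∧ ∀ g ∈ f1, g.2.ab = lab W g.1 := by
  constructor
  · have h1 := congrArg (List.map Prod.fst) hm
    rw [List.map_map, List.map_map] at h1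
    have h2 : f1.map Prod.fst = f.map Prod.fst := h1
    rw [h2, hB]
  · intro g hg
    have h1 : (g.1, g.2.ab) ∈ f1.map (fun g => (g.1, g.2.ab)) := List.mem_map.2 ⟨g, hg, rfl⟩
    rw [hm] at h1
    obtain ⟨g0, hg0, h2⟩ := List.mem_map.1 h1
    have h3 : g0.1 = g.1 := congrArg (fun q => q.1) h2
    have h4 : g0.2.ab = g.2.ab := congrArg (fun q => q.2) h2
    rw [← h4, ← h3]
    exact hl g0 hg0

omit [IsAlgClosed K] in
/-- change of the sign of `w` -/
private theorem fo_neg {m0 : Ms s K} {w v : K} {f : List (Lk s K)} (hne : f ≠ [])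
    (hf : f ∈ FacS W m0 w v) : ∃ f1 : List (Lk s K), f1 ∈ FacS W m0 (-w) v ∧
      XX (f1.map Prod.snd) = XX (f.map Prod.snd) ∧ Psi W k f1 = Psi W k f := by
  obtain ⟨f0, g, rfl⟩ : ∃ f0 g, f = f0 ++ [g] :=
    ⟨f.dropLast, f.getLast hne, (List.dropLast_append_getLast hne).symm⟩
  obtain ⟨hB, hl, ⟨c, hc, hX⟩, ht⟩ := hf
  have e0 : (⟨-g.2.w, g.2.v, g.2.y⟩ : Vtx K) = g.2.flip.rot (-1) := by
    refine Vtx.ext ?_ ?_ ?_
    · simp only [Vtx.rot, Vtx.flip]; ring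
    · simp only [Vtx.rot, Vtx.flip, inv_neg, inv_one]; ring
    · simp only [Vtx.rot, Vtx.flip]; ring
  have e6 : (-1 : K) ^ 6 = 1 := by ring
  have hab : (⟨-g.2.w, g.2.v, g.2.y⟩ : Vtx K).ab = g.2.ab := by
    unfold Vtx.ab
    simp only [Prod.mk.injEq]
    constructor
    · ring
    · congr 1
      ring
  have hsnd : (f0 ++ [(g.1, (⟨-g.2.w, g.2.v, g.2.y⟩ : Vtx K))]).map Prod.snd =
      f0.map Prod.snd ++ [(⟨-g.2.w, g.2.v, g.2.y⟩ : Vtx K)] := by
    rw [List.map_append, List.map_singleton]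
  have hsnd0 : (f0 ++ [g]).map Prod.snd = f0.map Prod.snd ++ [g.2] := by
    rw [List.map_append, List.map_singleton]
  have hXX : XX ((f0 ++ [(g.1, (⟨-g.2.w, g.2.v, g.2.y⟩ : Vtx K))]).map Prod.snd) =
      XX ((f0 ++ [g]).map Prod.snd) := by
    rw [hsnd, hsnd0]
    refine fo_XX _ ?_
    rw [e0, sand_rot _ e6, sand_flip_one]
  have hm : (f0 ++ [(g.1, (⟨-g.2.w, g.2.v, g.2.y⟩ : Vtx K))]).map (fun g => (g.1, g.2.ab)) =
      (f0 ++ [g]).map (fun g => (g.1, g.2.ab)) := by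
    rw [List.map_append, List.map_append, List.map_singleton, List.map_singleton, hab]
  obtain ⟨hB1, hl1⟩ := fo_lab hB hl hm
  refine ⟨f0 ++ [(g.1, (⟨-g.2.w, g.2.v, g.2.y⟩ : Vtx K))], ⟨hB1, hl1, ⟨c, hc, hXX.trans hX⟩, ?_⟩, hXX, ?_⟩
  · rw [hsnd0, fo_tot] at ht
    rw [hsnd, fo_tot]
    have a1 := congrArg Vtx.w ht
    have a2 := congrArg Vtx.v ht
    have a3 := congrArg Vtx.y ht
    simp only at a1 a2 a3
    refine Vtx.ext ?_ a2 a3
    simp only
    rw [← a1]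
    ring
  · apply fo_psi
    rw [List.map_append, List.map_append, List.map_singleton, List.map_singleton]
    have : NN (g.1, (⟨-g.2.w, g.2.v, g.2.y⟩ : Vtx K)) = NN g := by
      unfold NN
      simp only [Prod.mk.injEq, true_and, and_true]
      ring
    rw [this]

theorem four (h1 : CS1 W k) (h2 : CS2 W k) (hk : 0 < k) {m0 : Ms s K} {w v : K} {f : List (Lk s K)} (hlen : f.length = k)
    (hok : ∀ g ∈ f, g.Ok W) (hne : ∀ g ∈ f, g.1 ≠ 0) (hnd : ∀ g ∈ f, ND g.2.ab) (hf : f ∈ FacS W m0 w v) (hw : w ≠ 0) (hv : v ≠ 0)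
    (hy : m0.y ≠ 0) {T : Vtx K} (hT : T = ⟨w, v, m0.y⟩) (h4 : T.p ≠ 0 ∧ T.ps ≠ 0 ∧ T.m ≠ 0 ∧ T.ms ≠ 0)
    (hg : Good k (m0.B.map (lab W)) (XX (f.map Prod.snd)))
    (hg' : Good k (m0.B.map (lab W)) (scale (T.p * T.ms / (T.m * T.ps)) (XX (f.map Prod.snd)))) :
    (∃ f' : List (Lk s K), GFac W k m0 w v f' ∧ Psi W k f' = Psi W k f) ∧
    (∃ f' : List (Lk s K), GFac W k m0 w (-v) f' ∧ Psi W k f' = Psi W k f) ∧
    (∃ f' : List (Lk s K), GFac W k m0 (-w) v f' ∧ Psi W k f' = Psi W k f) ∧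
    (∃ f' : List (Lk s K), GFac W k m0 (-w) (-v) f' ∧ Psi W k f' = Psi W k f) := by
  have hf0 : f ≠ [] := by
    rintro rfl
    rw [List.length_nil] at hlen
    omega
  obtain ⟨hB, hl, ⟨c1, hc1, hX⟩, ht⟩ := hf
  obtain ⟨hp, hps, hm, hms⟩ := h4
  have hTt : T = tot (f.map Prod.snd) := by rw [ht, hT]
  have hmul : ((f.map (fun g => g.2.ab) : List (K × K)) : Multiset (K × K)) = m0.B.map (lab W) := by
    rw [← hB, Multiset.map_coe, List.map_map]
    congr 1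
    exact List.map_congr_left fun g hg' => hl g hg'
  obtain ⟨f', hrel, hX', ht', hm'⟩ := rot_minus hf0 hnd hTt ⟨hp, hps, hm, hms⟩
    (by rw [hmul]; exact hg) (by rw [hmul]; exact hg')
  obtain ⟨hB', hl'⟩ := fo_lab hB hl hm'
  have hlen' : f'.length = k := by
    have := congrArg List.length hm'
    rwa [List.length_map, List.length_map, hlen] at this
  have hf'0 : f' ≠ [] := by
    rintro rfl
    rw [List.length_nil] at hlen'
    omega
  have hmem' : ∀ g' ∈ f', ∃ g ∈ f, g.1 = g'.1 ∧ g.2.ab = g'.2.ab := by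
    intro g' hg1
    have a1 : (g'.1, g'.2.ab) ∈ f'.map (fun g => (g.1, g.2.ab)) := List.mem_map.2 ⟨g', hg1, rfl⟩
    rw [hm'] at a1
    obtain ⟨g, hg0, a2⟩ := List.mem_map.1 a1
    exact ⟨g, hg0, congrArg (fun q => q.1) a2, congrArg (fun q => q.2) a2⟩
  have hok' : ∀ g' ∈ f', g'.Ok W := by
    intro g' hg1
    obtain ⟨g, hg0, e1, e2⟩ := hmem' g' hg1
    have := hok g hg0
    refine ⟨fun F hF => ?_, ?_⟩
    · rw [← e1]
      exact this.I F hF
    · rw [← e1, ← e2]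
      exact this.ab
  have hne' : ∀ g' ∈ f', g'.1 ≠ 0 := by
    intro g' hg1
    obtain ⟨g, hg0, e1, _⟩ := hmem' g' hg1
    rw [← e1]
    exact hne g hg0
  have hnd' : ∀ g' ∈ f', ND g'.2.ab := by
    intro g' hg1
    obtain ⟨g, hg0, _, e2⟩ := hmem' g' hg1
    rw [← e2]
    exact hnd g hg0
  have hTy : T.y ≠ 0 := by rw [hT]; exact hy
  have hPsi' := h2 _ f f' T hlen hk hok hne hnd hrel hTt hp hps hm hms hTy rfl ht'
  -- flip the last vertex of `f'`
  obtain ⟨f0, g, hfg⟩ : ∃ f0 g, f' = f0 ++ [g] :=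
    ⟨f'.dropLast, f'.getLast hf'0, (List.dropLast_append_getLast hf'0).symm⟩
  have hmv : Mv f' (f0 ++ [(g.1, g.2.flip)]) (-1) := by
    rw [hfg]
    exact Mv.flip f0 g
  have hPsi2 := h1 _ _ _ hmv hok' hne' hnd' hlen'
  have hPsi3 : Psi W k (f0 ++ [(g.1, g.2.flip)]) = Psi W k f := by
    rw [hPsi2, neg_smul, one_smul]
    exact (eq_neg_of_add_eq_zero_left hPsi').symm
  have hsnd : (f0 ++ [(g.1, g.2.flip)]).map Prod.snd = f0.map Prod.snd ++ [g.2.flip] := by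
    rw [List.map_append, List.map_singleton]
  have hsnd0 : f'.map Prod.snd = f0.map Prod.snd ++ [g.2] := by
    rw [hfg, List.map_append, List.map_singleton]
  have hXX : XX ((f0 ++ [(g.1, g.2.flip)]).map Prod.snd) = XX (f'.map Prod.snd) := by
    rw [hsnd, hsnd0]
    exact fo_XX _ (sand_flip_one _)
  have hm2 : (f0 ++ [(g.1, g.2.flip)]).map (fun g => (g.1, g.2.ab)) = f'.map (fun g => (g.1, g.2.ab)) := by
    rw [hfg, List.map_append, List.map_append, List.map_singleton, List.map_singleton, ab_flip]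
  obtain ⟨hB2, hl2⟩ := fo_lab hB' hl' hm2
  have hc0 : T.p * T.ms / (T.m * T.ps) ≠ 0 := div_ne_zero (mul_ne_zero hp hms) (mul_ne_zero hm hps)
  have hX2 : XX ((f0 ++ [(g.1, g.2.flip)]).map Prod.snd) =
      scale (T.p * T.ms / (T.m * T.ps) * c1) m0.M := by
    rw [hXX, hX', hX, scale_scale]
  have ht2 : tot ((f0 ++ [(g.1, g.2.flip)]).map Prod.snd) = ⟨w, -v, m0.y⟩ := by
    rw [hsnd, fo_tot]
    rw [hsnd0, fo_tot] at ht'
    have a1 := congrArg Vtx.w ht'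
    have a2 := congrArg Vtx.v ht'
    have a3 := congrArg Vtx.y ht'
    rw [hT] at a1 a2 a3
    simp only at a1 a2 a3
    refine Vtx.ext ?_ ?_ ?_
    · exact a1
    · simp only [Vtx.flip]
      rw [← a2]
      ring
    · simp only [Vtx.flip]
      have : m0.y = -(-m0.y) := (neg_neg _).symm
      rw [this, ← a3]
      ring
  have hf2 : f0 ++ [(g.1, g.2.flip)] ∈ FacS W m0 w (-v) :=
    ⟨hB2, hl2, ⟨_, mul_ne_zero hc0 hc1, hX2⟩, ht2⟩
  have hgood2 : Good k (m0.B.map (lab W)) (XX ((f0 ++ [(g.1, g.2.flip)]).map Prod.snd)) := by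
    rw [hXX, hX']
    exact hg'
  have hf : f ∈ FacS W m0 w v := ⟨hB, hl, ⟨c1, hc1, hX⟩, ht⟩
  obtain ⟨f3, hf3, hX3, hP3⟩ := fo_neg (k := k) hf0 hf
  obtain ⟨f4, hf4, hX4, hP4⟩ := fo_neg (k := k) (List.append_ne_nil_of_right_ne_nil f0
    (List.cons_ne_nil (g.1, g.2.flip) [])) hf2
  subst hT
  refine ⟨⟨f, ⟨hf, hw, hv, hm, hps, hg⟩, rfl⟩,
    ⟨_, ⟨hf2, hw, neg_ne_zero.2 hv, ?_, ?_, hgood2⟩, hPsi3⟩,
    ⟨f3, ⟨hf3, neg_ne_zero.2 hw, hv, ?_, ?_, by rw [hX3]; exact hg⟩, hP3⟩,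
    ⟨f4, ⟨hf4, neg_ne_zero.2 hw, neg_ne_zero.2 hv, ?_, ?_, by rw [hX4]; exact hgood2⟩,
      hP4.trans hPsi3⟩⟩
  · have : (⟨w, -v, m0.y⟩ : Vtx K).m = (⟨w, v, m0.y⟩ : Vtx K).p := by
      simp only [Vtx.m, Vtx.p]; ring
    rw [this]; exact hp
  · have : (⟨w, -v, m0.y⟩ : Vtx K).ps = (⟨w, v, m0.y⟩ : Vtx K).ms := by
      simp only [Vtx.ps, Vtx.ms]; ring
    rw [this]; exact hms
  · have : (⟨-w, v, m0.y⟩ : Vtx K).m = -(⟨w, v, m0.y⟩ : Vtx K).ps := by
      simp only [Vtx.m, Vtx.ps]; ring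
    rw [this]; exact neg_ne_zero.2 hps
  · have : (⟨-w, v, m0.y⟩ : Vtx K).ps = -(⟨w, v, m0.y⟩ : Vtx K).m := by
      simp only [Vtx.ps, Vtx.m]; ring
    rw [this]; exact neg_ne_zero.2 hm
  · have : (⟨-w, -v, m0.y⟩ : Vtx K).m = -(⟨w, v, m0.y⟩ : Vtx K).ms := by
      simp only [Vtx.m, Vtx.ms]; ring
    rw [this]; exact neg_ne_zero.2 hms
  · have : (⟨-w, -v, m0.y⟩ : Vtx K).ps = -(⟨w, v, m0.y⟩ : Vtx K).p := by
      simp only [Vtx.ps, Vtx.p]; ring
    rw [this]; exact neg_ne_zero.2 hp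

end ES
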