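import Pool.Agent.H67.ES.Uniq

/-! # ES.FacFin : a good matrix has finitely many factorisations, and at least one (about 120 lines)

`fac_finite`: induction on `k`.  `k = 0`: `B.map lab = 0`, so `B = 0`, `f = []`.  `k + 1`: `f = g :: f1`, `g.1 ∈ B` (finitely many), `al := g.2.al` with `al^2 = (lab g.1).1^3` (at most two values); for fixed `β`, `al`
(`B = β ::ₘ B'`, `B' = B.erase β`) let `u`, `M'` be as in `Good`; `peel_unique`: `g.2 = u.rot z` with `z^6 = 1` (finitely many: `nthRootsFinset 6`), `XX f1 = M'`, the base points of `f1` are `B'`; induction.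
So the set is contained in a finite union of images of finite sets under `fun f1 => g :: f1`.
`fac_exists`: induction: `B = β ::ₘ B'` (`Good` says that there is a label), choose a square root `al` of `a^3` (`F` algebraically closed). -/

namespace ES

open Polynomial H68.BB

variable {K : Type} [Field K] {s : ℕ} {W : Wm K s} {F : Type} [Field F] [CharZero F] [IsAlgClosed F] [Algebra K F]

omit [CharZero F] [IsAlgClosed F] in
private theorem froots_fin {n : ℕ} (hn : 0 < n) (d : F) : {x : F | x ^ n = d}.Finite := by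
  classical
  refine (nthRoots n d).toFinset.finite_toSet.subset ?_
  intro x hx
  have h : x ^ n = d := hx
  simpa [mem_nthRoots hn] using h

omit [CharZero F] [IsAlgClosed F] in
private theorem fal_sq (u : Vtx F) : u.al ^ 2 = u.ab.1 ^ 3 := by
  simp only [Vtx.al, Vtx.ab]
  ring

theorem fac_finite {k : ℕ} {M : Mat F} {B : Multiset (Fin s → F)} (hg : Good k (B.map (lab W)) M) :
    {f : List (Lk s F) | ((f.map Prod.fst : List (Fin s → F)) : Multiset (Fin s → F)) = B ∧ (∀ g ∈ f, g.2.ab = lab W g.1) ∧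
      XX (f.map Prod.snd) = M}.Finite := by
  classical
  induction k generalizing M B with
  | zero =>
    have hB : B = 0 := Multiset.map_eq_zero.1 hg.1
    refine (Set.finite_singleton ([] : List (Lk s F))).subset ?_
    rintro f ⟨h1, _, _⟩
    rw [hB, Multiset.coe_eq_zero, List.map_eq_nil_iff] at h1
    exact h1
  | succ k ih =>
    have hBf : {β : Fin s → F | β ∈ B}.Finite := by
      refine B.toFinset.finite_toSet.subset ?_
      intro β hβ
      exact Multiset.mem_toFinset.2 hβ
    have key : ∀ β ∈ {β : Fin s → F | β ∈ B}, ∀ al ∈ {al : F | al ^ 2 = (lab W β).1 ^ 3},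
        {f : List (Lk s F) | (((f.map Prod.fst : List (Fin s → F)) : Multiset (Fin s → F)) = B ∧
          (∀ g ∈ f, g.2.ab = lab W g.1) ∧ XX (f.map Prod.snd) = M) ∧
          ∃ g f1, f = g :: f1 ∧ g.1 = β ∧ g.2.al = al}.Finite := by
      intro β hβ al hal
      obtain ⟨B', hB'⟩ := Multiset.exists_cons_of_mem (show β ∈ B from hβ)
      have hc : B.map (lab W) = lab W β ::ₘ B'.map (lab W) := by
        rw [hB', Multiset.map_cons]
      obtain ⟨hnd, hh⟩ := hg.2 _ _ hc
      obtain ⟨hnz, u, M', hu1, hu2, hM, hG⟩ := hh al hal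
      refine (Set.Finite.image2 (fun (z : F) (f1 : List (Lk s F)) => ((β, u.rot z) :: f1 : List (Lk s F)))
        (froots_fin (by norm_num : 0 < 6) (1 : F)) (ih hG)).subset ?_
      rintro f ⟨⟨h1, h2, h3⟩, g, f1, rfl, hg1, hg2⟩
      have hab : g.2.ab = lab W β := by
        rw [← hg1]
        exact h2 g List.mem_cons_self
      have hM2 : M = g.2.sand (XX (f1.map Prod.snd)) := h3.symm
      obtain ⟨⟨z, hz, hgz⟩, hMM⟩ := peel_unique hM hM2 (hu1.trans hab.symm) (hu2.trans hg2.symm)
        (by rw [hu1]; exact hnd) (by rw [hu2, hu1]; exact hnz)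
      refine ⟨z, hz, f1, ⟨?_, ?_, hMM.symm⟩, ?_⟩
      · rw [List.map_cons, ← Multiset.cons_coe, hg1, hB'] at h1
        exact (Multiset.cons_inj_right β).1 h1
      · exact fun g' hg' => h2 g' (List.mem_cons_of_mem _ hg')
      · change (β, u.rot z) :: f1 = g :: f1
        rw [← hgz, ← hg1]
    refine (hBf.biUnion fun β hβ => (froots_fin (by norm_num : 0 < 2) ((lab W β).1 ^ 3)).biUnion
      fun al hal => key β hβ al hal).subset ?_
    rintro f ⟨h1, h2, h3⟩
    cases f with
    | nil =>
      exfalso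
      obtain ⟨c, hc⟩ := hg.1
      rw [← h1] at hc
      simp at hc
    | cons g f1 =>
      have hgB : g.1 ∈ B := by
        rw [← h1, List.map_cons, ← Multiset.cons_coe]
        exact Multiset.mem_cons_self _ _
      have hal : g.2.al ^ 2 = (lab W g.1).1 ^ 3 := by
        rw [fal_sq, h2 g List.mem_cons_self]
      exact Set.mem_biUnion hgB (Set.mem_biUnion (show g.2.al ∈ {x : F | x ^ 2 = (lab W g.1).1 ^ 3} from hal)
        ⟨⟨h1, h2, h3⟩, g, f1, rfl, rfl, rfl⟩)

theorem fac_exists {k : ℕ} {M : Mat F} {B : Multiset (Fin s → F)} (hg : Good k (B.map (lab W)) M) :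
    ∃ f : List (Lk s F), ((f.map Prod.fst : List (Fin s → F)) : Multiset (Fin s → F)) = B ∧ (∀ g ∈ f, g.2.ab = lab W g.1) ∧
      XX (f.map Prod.snd) = M := by
  induction k generalizing M B with
  | zero =>
    have hB : B = 0 := Multiset.map_eq_zero.1 hg.1
    refine ⟨[], hB.symm, ?_, hg.2.symm⟩
    intro g hg'
    exact absurd hg' List.not_mem_nil
  | succ k ih =>
    obtain ⟨c, hc⟩ := hg.1
    obtain ⟨β, hβ, _⟩ := Multiset.mem_map.1 hc
    obtain ⟨B', hB'⟩ := Multiset.exists_cons_of_mem hβ
    have hc' : B.map (lab W) = lab W β ::ₘ B'.map (lab W) := by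
      rw [hB', Multiset.map_cons]
    obtain ⟨_, hh⟩ := hg.2 _ _ hc'
    obtain ⟨al, hal⟩ := IsAlgClosed.exists_pow_nat_eq ((lab W β).1 ^ 3) (n := 2) (by norm_num)
    obtain ⟨_, u, M', hu1, _, hM, hG⟩ := hh al hal
    obtain ⟨f1, h1, h2, h3⟩ := ih hG
    refine ⟨(β, u) :: f1, ?_, ?_, ?_⟩
    · rw [List.map_cons, ← Multiset.cons_coe, h1, hB']
    · intro g hg'
      rcases List.mem_cons.1 hg' with rfl | h
      · exact hu1
      · exact h2 g h
    · change u.sand (XX (f1.map Prod.snd)) = M
      rw [h3, hM]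

end ES
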