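import Pool.Agent.H67.ES.StSc
import Pool.Agent.H67.ES.RotE
import Pool.Agent.H67.ES.FacFin
import Pool.Agent.H67.ES.FacTot

/-! # ES.Star : the factorisations with the cusps `(z^2 v, z w)` (about 150 lines)

`T = (w, v, y) = tot f`, `c := -(T.ms / T.m)`.  `fac_exists` for `Good k _ (scale c (XX f))`: a list with base points `m0.B`, `XX = scale c (XX f)`; `fac_tot` with `(v, w, y)` in place of `(w, v, y)`: `(v w)^2 = ..` (`tot_wv`, the labels of both lists are `m0.B.map lab`),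
leading coefficients (`XX_top` for `f`; entry `0 1`: `c⁻¹ (w^6 - (y + v^3)^2)/2 = - m/ms * ms p/2 = - m p / 2 = (v^6 - (y + w^3)^2)/2`; entry `1 0`: `c (w^6 - (y - v^3)^2)/2 = - ms/m * ps m / 2 = - ps ms / 2 = (v^6 - (y - w^3)^2)/2`).
The result is `g :: fs` (`k > 0`) with total `(v, w, y)`.  Rotating the first vertex by `z^2` (`(z^2)^6 = 1`): `XX` is unchanged (`sand_rot`), the total becomes `(z^2 v, z^(-2) w, z^6 y) = (z^2 v, z w, y)`, label and base point are unchanged (`ab_rot`). -/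

namespace ES

open Polynomial H68.BB

variable {K : Type} [Field K] [IsAlgClosed K] [CharZero K] {s k : ℕ} {W : Wm K s}

private theorem lab_of {m0 : Ms s K} {f f1 : List (Lk s K)} (hnd : ∀ g ∈ f, ND g.2.ab)
    (hB : ((f.map Prod.fst : List (Fin s → K)) : Multiset (Fin s → K)) = m0.B) (hl : ∀ g ∈ f, g.2.ab = lab W g.1)
    (hB1 : ((f1.map Prod.fst : List (Fin s → K)) : Multiset (Fin s → K)) = m0.B) (hl1 : ∀ g ∈ f1, g.2.ab = lab W g.1) :
    ∀ g ∈ f1, ND g.2.ab := by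
  intro g hg
  have h1 : g.1 ∈ m0.B := by
    rw [← hB1]
    exact Multiset.mem_coe.2 (List.mem_map.2 ⟨g, hg, rfl⟩)
  rw [← hB] at h1
  obtain ⟨g', hg', he⟩ := List.mem_map.1 (Multiset.mem_coe.1 h1)
  have h2 := hnd g' hg'
  rw [hl g' hg', he, ← hl1 g hg] at h2
  exact h2

private theorem prod_of {B : Multiset (Fin s → K)} {f : List (Lk s K)}
    (hB : ((f.map Prod.fst : List (Fin s → K)) : Multiset (Fin s → K)) = B) (hl : ∀ g ∈ f, g.2.ab = lab W g.1) :
    ((f.map Prod.snd).map (fun u => u.ab.1)).prod = (B.map (fun β => (lab W β).1)).prod := by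
  rw [← hB, Multiset.map_coe, Multiset.prod_coe, List.map_map, List.map_map]
  congr 1
  apply List.map_congr_left
  intro g hg
  show g.2.ab.1 = (lab W g.1).1
  rw [hl g hg]

theorem star (hk : 0 < k) {m0 : Ms s K} {w v : K} {f : List (Lk s K)} (hlen : f.length = k) (hnd : ∀ g ∈ f, ND g.2.ab)
    (hf : f ∈ FacS W m0 w v) (hw : w ≠ 0) (hv : v ≠ 0) {T : Vtx K} (hT : T = ⟨w, v, m0.y⟩) (hm : T.m ≠ 0) (hms : T.ms ≠ 0)
    (hg : Good k (m0.B.map (lab W)) (scale (-(T.ms / T.m)) (XX (f.map Prod.snd)))) :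
    ∃ (g : Lk s K) (fs : List (Lk s K)), (g :: fs).length = k ∧
      (((g :: fs).map Prod.fst : List (Fin s → K)) : Multiset (Fin s → K)) = m0.B ∧ (∀ g' ∈ g :: fs, g'.2.ab = lab W g'.1) ∧
      ∀ z : K, z ^ 3 = 1 → ((g.1, g.2.rot (z ^ 2)) :: fs) ∈ FacS W m0 (z ^ 2 * v) (z * w) ∧
        XX (((g.1, g.2.rot (z ^ 2)) :: fs).map Prod.snd) = scale (-(T.ms / T.m)) (XX (f.map Prod.snd)) := by
  obtain ⟨hB, hl, ⟨c', hc', hX⟩, htot⟩ := hf
  set c : K := -(T.ms / T.m) with hc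
  have hc0 : c ≠ 0 := neg_ne_zero.2 (div_ne_zero hms hm)
  obtain ⟨f1, hB1, hl1, hX1⟩ := fac_exists hg
  have hlen1 : f1.length = k := by
    have h1 := congrArg Multiset.card hB1
    have h2 := congrArg Multiset.card hB
    rw [Multiset.coe_card, List.length_map] at h1 h2
    rw [h1, ← h2, hlen]
  have hne : f1 ≠ [] := by
    rintro rfl
    rw [List.length_nil] at hlen1
    omega
  have hnd1 := lab_of hnd hB hl hB1 hl1
  have hwv : (v * w) ^ 2 = ((tot (f1.map Prod.snd)).w * (tot (f1.map Prod.snd)).v) ^ 2 := by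
    have h1 := tot_wv (f.map Prod.snd)
    rw [tot_wv, prod_of hB1 hl1, ← prod_of hB hl, ← h1, htot]
    ring
  obtain ⟨t00, -, t01, t10⟩ := XX_top (f.map Prod.snd)
  rw [List.length_map, htot, hlen] at t00 t01 t10
  have hTm : T.m = w ^ 3 - v ^ 3 + m0.y := by rw [hT]; rfl
  have hTms : T.ms = w ^ 3 - v ^ 3 - m0.y := by rw [hT]; rfl
  have hci : c⁻¹ = -(T.m / T.ms) := by
    rw [hc, inv_neg, inv_div]
  obtain ⟨f', hmap, hX', htot'⟩ := fac_tot hne hnd1 (w := v) (v := w) (y := m0.y) hv hw hwv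
    (by
      rw [hX1, hlen1]
      show (XX (f.map Prod.snd) 0 0).coeff (2 * k) = _
      rw [t00]
      ring)
    (by
      rw [hX1, hlen1]
      show (C c⁻¹ * XX (f.map Prod.snd) 0 1).coeff (2 * k) = _
      rw [coeff_C_mul, t01, hci]
      simp only
      have e : w ^ 6 - (m0.y + v ^ 3) ^ 2 = T.ms * (w ^ 3 + v ^ 3 + m0.y) := by rw [hTms]; ring
      have e' : v ^ 6 - (m0.y + w ^ 3) ^ 2 = -(T.m * (w ^ 3 + v ^ 3 + m0.y)) := by rw [hTm]; ring
      rw [e, e']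
      field_simp)
    (by
      rw [hX1, hlen1]
      show (C c * XX (f.map Prod.snd) 1 0).coeff (2 * k) = _
      rw [coeff_C_mul, t10, hc]
      simp only
      have e : w ^ 6 - (m0.y - v ^ 3) ^ 2 = T.m * (w ^ 3 + v ^ 3 - m0.y) := by rw [hTm]; ring
      have e' : v ^ 6 - (m0.y - w ^ 3) ^ 2 = -(T.ms * (w ^ 3 + v ^ 3 - m0.y)) := by rw [hTms]; ring
      rw [e, e']
      field_simp)
  have hlen' : f'.length = k := by
    have h1 := congrArg List.length hmap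
    rw [List.length_map, List.length_map] at h1
    rw [h1, hlen1]
  have hfst : f'.map Prod.fst = f1.map Prod.fst := by
    have h1 := congrArg (List.map Prod.fst) hmap
    rw [List.map_map, List.map_map] at h1
    exact h1
  have hl' : ∀ g' ∈ f', g'.2.ab = lab W g'.1 := by
    intro g' hg'
    have h1 : (g'.1, g'.2.ab) ∈ f1.map (fun g => (g.1, g.2.ab)) := by
      rw [← hmap]
      exact List.mem_map.2 ⟨g', hg', rfl⟩
    obtain ⟨g1, hg1, he⟩ := List.mem_map.1 h1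
    have e1 : g1.1 = g'.1 := (Prod.ext_iff.1 he).1
    have e2 : g1.2.ab = g'.2.ab := (Prod.ext_iff.1 he).2
    rw [← e1, ← e2]
    exact hl1 g1 hg1
  obtain ⟨g, fs, rfl⟩ : ∃ g fs, f' = g :: fs := by
    cases f' with
    | nil => rw [List.length_nil] at hlen'; omega
    | cons g fs => exact ⟨g, fs, rfl⟩
  have hBB : (((g :: fs).map Prod.fst : List (Fin s → K)) : Multiset (Fin s → K)) = m0.B := by
    rw [hfst]
    exact hB1
  refine ⟨g, fs, hlen', hBB, hl', ?_⟩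
  intro z hz
  have hz0 : z ≠ 0 := by
    rintro rfl
    norm_num at hz
  have hz6 : (z ^ 2) ^ 6 = 1 := by
    have : (z ^ 2) ^ 6 = (z ^ 3) ^ 4 := by ring
    rw [this, hz, one_pow]
  have hz2 : (z ^ 2)⁻¹ = z := by
    apply inv_eq_of_mul_eq_one_right
    rw [← hz]
    ring
  have hXn : XX (((g.1, g.2.rot (z ^ 2)) :: fs).map Prod.snd) = scale c (XX (f.map Prod.snd)) := by
    rw [← hX1, ← hX']
    show (g.2.rot (z ^ 2)).sand (XX (fs.map Prod.snd)) = g.2.sand (XX (fs.map Prod.snd))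
    exact sand_rot g.2 hz6 _
  refine ⟨⟨?_, ?_, ⟨c * c', mul_ne_zero hc0 hc', ?_⟩, ?_⟩, hXn⟩
  · rw [← hBB]
    rfl
  · intro g' hg'
    rcases List.mem_cons.1 hg' with h | h
    · rw [h]
      show (g.2.rot (z ^ 2)).ab = lab W g.1
      rw [ab_rot g.2 hz6]
      exact hl' g List.mem_cons_self
    · exact hl' g' (List.mem_cons_of_mem _ h)
  · rw [hXn, hX, scale_scale]
  · have ht : tot ((g :: fs).map Prod.snd) = ⟨g.2.w * (tot (fs.map Prod.snd)).w, g.2.v * (tot (fs.map Prod.snd)).v,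
        g.2.w ^ 3 * (tot (fs.map Prod.snd)).y + g.2.y * (tot (fs.map Prod.snd)).v ^ 3⟩ := rfl
    rw [ht, Vtx.mk.injEq] at htot'
    obtain ⟨a1, a2, a3⟩ := htot'
    show (⟨z ^ 2 * g.2.w * (tot (fs.map Prod.snd)).w, (z ^ 2)⁻¹ * g.2.v * (tot (fs.map Prod.snd)).v,
        (z ^ 2 * g.2.w) ^ 3 * (tot (fs.map Prod.snd)).y + (z ^ 2) ^ 3 * g.2.y * (tot (fs.map Prod.snd)).v ^ 3⟩ : Vtx K) =
        ⟨z ^ 2 * v, z * w, m0.y⟩
    rw [Vtx.mk.injEq]
    refine ⟨?_, ?_, ?_⟩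
    · rw [← a1]; ring
    · rw [← a2, hz2]; ring
    · rw [← a3]
      linear_combination (z ^ 3 + 1) * (g.2.w ^ 3 * (tot (fs.map Prod.snd)).y + g.2.y * (tot (fs.map Prod.snd)).v ^ 3) * hz

end ES
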