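import Pool.Agent.H67.ES.RelS
import Pool.Agent.H67.ES.Four
import Pool.Agent.H67.ES.Star
import Pool.Agent.H67.ES.StXX

/-! # ES.Mach : THE MACHINE: the class of a very good list has finite order if its states move (about 200 lines)

`T = (w, v, y) = tot f`, `w, v ≠ 0` (`ND.ne` of all vertices, `tot` is a product), `B = f.map fst`, `m_z := ⟨B, z w^2 + z^2 v^2, y, XX f⟩` for `z^3 = 1`.
`OnS W k m_z`: `I`, `ne` from `Ok`, `ne`; `St`: `st_XX` (`g.2.ab = lab W g.1`); `eqy`: `XX_top` (`2 (XX 0 0).coeff (2k) = w^6 + v^6 - y^2`), `A = ∏ a = (w v)^2` (`tot_wv`), and `x^3 - 3 (w v)^2 x = w^6 + v^6`.  `SepB`: any list with the same multiset is a permutation;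
`Sep` is symmetric (`List.Perm.pairwise_iff`).  `f ∈ FacS W m_z w v` with `c = 1` (`scale_one`).  `four` for `f` (`cg.g1`, `cg.g2`).
`star` (`cg.g3`): `g :: fs`; `f_z := (g.1, g.2.rot (z^2)) :: fs ∈ FacS W m_z (z^2 v) (z w)`, `XX f_z = scale (-(ms/m)) (XX f)`; `four` for `f_z`, `T' = (z^2 v, z w, y)`: `T'.p = p`, `T'.ps = ps`, `T'.m = - ms`, `T'.ms = - m` (`z^6 = z^3 = 1`), so
`scale (T'.p T'.ms / (T'.m T'.ps)) (XX f_z) = scale (-(p/ps)) (XX f)` (`scale_scale`), `cg.g4`.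
`rel` with `E = {Psi f, Psi f, Psi f, Psi f, Psi f_z, Psi f_z, Psi f_z, Psi f_z}` and `cu_eight` (`Multiset.Rel.cons` eight times; `m_z.A W = (w v)^2`): `4 Psi f + 4 Psi f_z` has finite order.
`om^2 + om + 1 = 0` (exists, `K` algebraically closed); `z = 1, om, om^2`: the links of `f_z` are the rotations of `g` by `1`, `om^2`, `om^4 = om`; `CS3`: the sum of the three `Psi f_z` is `0`.  So `12 Psi f` has finite order (`IsOfFinAddOrder.add`), hence `Psi f`. -/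

namespace ES

open Polynomial H68.BB

variable {K : Type} [Field K] [IsAlgClosed K] [CharZero K] {s k : ℕ} {W : Wm K s}

omit [IsAlgClosed K] [CharZero K] in
private theorem mc_mul {f : List (Lk s K)} (hok : ∀ g ∈ f, g.Ok W) :
    (((f.map Prod.snd).map Vtx.ab : List (K × K)) : Multiset (K × K)) =
      ((f.map Prod.fst : List (Fin s → K)) : Multiset (Fin s → K)).map (lab W) := by
  rw [Multiset.map_coe, List.map_map, List.map_map]
  congr 1
  exact List.map_congr_left fun g hg => (hok g hg).ab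

omit [IsAlgClosed K] in
private theorem mc_A {f : List (Lk s K)} (hok : ∀ g ∈ f, g.Ok W) :
    (((f.map Prod.fst : List (Fin s → K)) : Multiset (Fin s → K)).map (fun β => ev W.a β)).prod =
      ((tot (f.map Prod.snd)).w * (tot (f.map Prod.snd)).v) ^ 2 := by
  rw [tot_wv, Multiset.map_coe, Multiset.prod_coe, List.map_map, List.map_map]
  congr 1
  refine List.map_congr_left fun g hg => ?_
  have h := congrArg Prod.fst (hok g hg).ab
  exact h.symm

omit [IsAlgClosed K] in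
private theorem mc_ne {f : List (Lk s K)} (hnd : ∀ g ∈ f, ND g.2.ab) :
    (tot (f.map Prod.snd)).w ≠ 0 ∧ (tot (f.map Prod.snd)).v ≠ 0 := by
  have h := tot_wv (f.map Prod.snd)
  have h2 : ((f.map Prod.snd).map (fun u => u.ab.1)).prod ≠ 0 := by
    rw [List.map_map]
    apply List.prod_ne_zero
    rw [List.mem_map]
    rintro ⟨g, hg, h3⟩
    exact (hnd g hg).a h3
  rw [← h] at h2
  constructor
  · intro h3
    apply h2
    rw [h3, zero_mul, zero_pow two_ne_zero]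
  · intro h3
    apply h2
    rw [h3, mul_zero, zero_pow two_ne_zero]

omit [IsAlgClosed K] [CharZero K] in
private theorem mc_sep {f : List (Lk s K)} (hok : ∀ g ∈ f, g.Ok W)
    (hsep : (f.map (fun g => g.2.ab)).Pairwise Sep) :
    SepB W ((f.map Prod.fst : List (Fin s → K)) : Multiset (Fin s → K)) := by
  intro l hl
  have hp : l.Perm (f.map Prod.fst) := Multiset.coe_eq_coe.1 hl
  have hp2 := hp.map (lab W)
  have h3 : (f.map Prod.fst).map (lab W) = f.map (fun g => g.2.ab) := by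
    rw [List.map_map]
    exact List.map_congr_left fun g hg => (hok g hg).ab.symm
  rw [h3] at hp2
  have hsym : ∀ {x y : K × K}, Sep x y → Sep y x := fun h => Ne.symm h
  exact (hp2.pairwise_iff hsym).2 hsep

omit [IsAlgClosed K] in
private theorem mc_onS {f : List (Lk s K)} (hok : ∀ g ∈ f, g.Ok W) (hne : ∀ g ∈ f, g.1 ≠ 0)
    (hlen : f.length = k) {z : K} (hz : z ^ 3 = 1) {T : Vtx K} (hT : T = tot (f.map Prod.snd)) :
    OnS W k ⟨((f.map Prod.fst : List (Fin s → K)) : Multiset (Fin s → K)),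
      z * T.w ^ 2 + z ^ 2 * T.v ^ 2, T.y, XX (f.map Prod.snd)⟩ := by
  refine ⟨?_, ?_, ?_, ?_⟩
  · intro β hβ
    obtain ⟨g, hg, rfl⟩ := List.mem_map.1 (Multiset.mem_coe.1 hβ)
    exact (hok g hg).I
  · intro β hβ
    obtain ⟨g, hg, rfl⟩ := List.mem_map.1 (Multiset.mem_coe.1 hβ)
    exact hne g hg
  · have h := st_XX (f.map Prod.snd)
    rw [List.length_map, hlen, mc_mul hok] at h
    exact h
  · have h := (XX_top (f.map Prod.snd)).1
    rw [List.length_map, hlen, ← hT] at h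
    have hA := mc_A hok
    rw [← hT] at hA
    show T.y ^ 2 = (z * T.w ^ 2 + z ^ 2 * T.v ^ 2) ^ 3 -
      3 * (((f.map Prod.fst : List (Fin s → K)) : Multiset (Fin s → K)).map (fun β => ev W.a β)).prod *
        (z * T.w ^ 2 + z ^ 2 * T.v ^ 2) - 2 * (XX (f.map Prod.snd) 0 0).coeff (2 * k)
    rw [hA, h]
    field_simp
    linear_combination (-(T.w ^ 6 + (z ^ 3 + 1) * T.v ^ 6 + 3 * (T.w * T.v) ^ 2 *
      (z * T.w ^ 2 + z ^ 2 * T.v ^ 2))) * hz

private theorem mc_rel (hW : W.Ok) (h1 : CS1 W k) (h2 : CS2 W k) {f : List (Lk s K)} (hf : VG W k f)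
    {T : Vtx K} (hT : T = tot (f.map Prod.snd)) {z : K} (hz : z ^ 3 = 1)
    (hF : Fam W k z ⟨((f.map Prod.fst : List (Fin s → K)) : Multiset (Fin s → K)),
      z * T.w ^ 2 + z ^ 2 * T.v ^ 2, T.y, XX (f.map Prod.snd)⟩)
    {g : Lk s K} {fs : List (Lk s K)} (hlen : (g :: fs).length = k)
    (hB : (((g :: fs).map Prod.fst : List (Fin s → K)) : Multiset (Fin s → K)) =
      ((f.map Prod.fst : List (Fin s → K)) : Multiset (Fin s → K)))
    (hl : ∀ g' ∈ g :: fs, g'.2.ab = lab W g'.1)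
    (hfz : ((g.1, g.2.rot (z ^ 2)) :: fs) ∈ FacS W
      (⟨((f.map Prod.fst : List (Fin s → K)) : Multiset (Fin s → K)),
        z * T.w ^ 2 + z ^ 2 * T.v ^ 2, T.y, XX (f.map Prod.snd)⟩ : Ms s K) (z ^ 2 * T.v) (z * T.w))
    (hX : XX (((g.1, g.2.rot (z ^ 2)) :: fs).map Prod.snd) =
      scale (-(T.ms / T.m)) (XX (f.map Prod.snd))) :
    IsOfFinAddOrder (4 • Psi W k f + 4 • Psi W k ((g.1, g.2.rot (z ^ 2)) :: fs)) := by
  obtain ⟨hw, hv⟩ := mc_ne hf.nd
  rw [← hT] at hw hv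
  have hz0 : z ≠ 0 := by
    rintro rfl
    norm_num at hz
  have hz6 : (z ^ 2) ^ 6 = 1 := by
    have : (z ^ 2) ^ 6 = (z ^ 3) ^ 4 := by ring
    rw [this, hz, one_pow]
  have cg := hf.cg
  have hp : T.p ≠ 0 := by rw [hT]; exact cg.p
  have hps : T.ps ≠ 0 := by rw [hT]; exact cg.ps
  have hm : T.m ≠ 0 := by rw [hT]; exact cg.m
  have hms : T.ms ≠ 0 := by rw [hT]; exact cg.ms
  have hy : T.y ≠ 0 := by rw [hT]; exact hf.y
  set m0 : Ms s K := ⟨((f.map Prod.fst : List (Fin s → K)) : Multiset (Fin s → K)),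
    z * T.w ^ 2 + z ^ 2 * T.v ^ 2, T.y, XX (f.map Prod.snd)⟩ with hm0
  have hmul : (((f.map Prod.snd).map Vtx.ab : List (K × K)) : Multiset (K × K)) = m0.B.map (lab W) :=
    mc_mul hf.ok
  have hsl : (f.map Prod.snd).length = k := by rw [List.length_map, hf.len]
  have g1 := cg.g1
  have g2 := cg.g2
  have g3 := cg.g3
  have g4 := cg.g4
  rw [hsl, hmul] at g1 g2 g3 g4
  rw [← hT] at g2 g3 g4
  have hfm : f ∈ FacS W m0 T.w T.v := by
    refine ⟨rfl, fun g hg => (hf.ok g hg).ab, ⟨1, one_ne_zero, (scale_one _).symm⟩, ?_⟩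
    rw [← hT]
  obtain ⟨a1, a2, a3, a4⟩ := four h1 h2 hf.pos hf.len hf.ok hf.ne hf.nd hfm hw hv hy (T := T) rfl
    ⟨hp, hps, hm, hms⟩ g1 g2
  -- the list `f_z`
  have hbase : ∀ g' ∈ g :: fs, ∃ g0 ∈ f, g0.1 = g'.1 := by
    intro g' hg'
    have h3 : g'.1 ∈ (((g :: fs).map Prod.fst : List (Fin s → K)) : Multiset (Fin s → K)) :=
      Multiset.mem_coe.2 (List.mem_map_of_mem hg')
    rw [hB] at h3
    obtain ⟨g0, hg0, h4⟩ := List.mem_map.1 (Multiset.mem_coe.1 h3)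
    exact ⟨g0, hg0, h4⟩
  have hcase : ∀ g' ∈ ((g.1, g.2.rot (z ^ 2)) :: fs), ∃ g0 ∈ f, g0.1 = g'.1 ∧ g'.2.ab = lab W g'.1 := by
    intro g' hg'
    rcases List.mem_cons.1 hg' with h | h
    · obtain ⟨g0, hg0, h4⟩ := hbase g List.mem_cons_self
      refine ⟨g0, hg0, ?_, ?_⟩
      · rw [h]
        exact h4
      · rw [h]
        show (g.2.rot (z ^ 2)).ab = lab W g.1
        rw [ab_rot g.2 hz6]
        exact hl g List.mem_cons_self
    · obtain ⟨g0, hg0, h4⟩ := hbase g' (List.mem_cons_of_mem _ h)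
      exact ⟨g0, hg0, h4, hl g' (List.mem_cons_of_mem _ h)⟩
  have zok : ∀ g' ∈ ((g.1, g.2.rot (z ^ 2)) :: fs), Lk.Ok W g' := by
    intro g' hg'
    obtain ⟨g0, hg0, h4, h5⟩ := hcase g' hg'
    refine ⟨fun F hF => ?_, h5⟩
    rw [← h4]
    exact (hf.ok g0 hg0).I F hF
  have zne : ∀ g' ∈ ((g.1, g.2.rot (z ^ 2)) :: fs), g'.1 ≠ 0 := by
    intro g' hg'
    obtain ⟨g0, hg0, h4, h5⟩ := hcase g' hg'
    rw [← h4]
    exact hf.ne g0 hg0
  have znd : ∀ g' ∈ ((g.1, g.2.rot (z ^ 2)) :: fs), ND g'.2.ab := by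
    intro g' hg'
    obtain ⟨g0, hg0, h4, h5⟩ := hcase g' hg'
    have h6 := hf.nd g0 hg0
    rw [(hf.ok g0 hg0).ab, h4] at h6
    rw [h5]
    exact h6
  have zlen : ((g.1, g.2.rot (z ^ 2)) :: fs).length = k := by
    rw [← hlen]
    rfl
  have e3 : (z ^ 2 * T.v) ^ 3 = T.v ^ 3 := by
    have : (z ^ 2 * T.v) ^ 3 = (z ^ 3) ^ 2 * T.v ^ 3 := by ring
    rw [this, hz, one_pow, one_mul]
  have e4 : (z * T.w) ^ 3 = T.w ^ 3 := by
    have : (z * T.w) ^ 3 = z ^ 3 * T.w ^ 3 := by ring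
    rw [this, hz, one_mul]
  have q1 : (⟨z ^ 2 * T.v, z * T.w, T.y⟩ : Vtx K).p = T.p := by
    simp only [Vtx.p]
    rw [e3, e4]
    ring
  have q2 : (⟨z ^ 2 * T.v, z * T.w, T.y⟩ : Vtx K).ps = T.ps := by
    simp only [Vtx.ps]
    rw [e3, e4]
    ring
  have q3 : (⟨z ^ 2 * T.v, z * T.w, T.y⟩ : Vtx K).m = -T.ms := by
    simp only [Vtx.m, Vtx.ms]
    rw [e3, e4]
    ring
  have q4 : (⟨z ^ 2 * T.v, z * T.w, T.y⟩ : Vtx K).ms = -T.m := by
    simp only [Vtx.m, Vtx.ms]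
    rw [e3, e4]
    ring
  have gz : Good k (m0.B.map (lab W)) (XX (((g.1, g.2.rot (z ^ 2)) :: fs).map Prod.snd)) := by
    rw [hX]
    exact g3
  have gz' : Good k (m0.B.map (lab W)) (scale ((⟨z ^ 2 * T.v, z * T.w, T.y⟩ : Vtx K).p *
      (⟨z ^ 2 * T.v, z * T.w, T.y⟩ : Vtx K).ms / ((⟨z ^ 2 * T.v, z * T.w, T.y⟩ : Vtx K).m *
      (⟨z ^ 2 * T.v, z * T.w, T.y⟩ : Vtx K).ps)) (XX (((g.1, g.2.rot (z ^ 2)) :: fs).map Prod.snd))) := by
    rw [q1, q2, q3, q4, hX, scale_scale]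
    have e5 : T.p * -T.m / (-T.ms * T.ps) * -(T.ms / T.m) = -(T.p / T.ps) := by
      field_simp
    rw [e5]
    exact g4
  obtain ⟨b1, b2, b3, b4⟩ := four h1 h2 hf.pos zlen zok zne znd hfz
    (mul_ne_zero (pow_ne_zero 2 hz0) hv) (mul_ne_zero hz0 hw) hy
    (T := ⟨z ^ 2 * T.v, z * T.w, T.y⟩) rfl
    ⟨by rw [q1]; exact hp, by rw [q2]; exact hps, by rw [q3]; exact neg_ne_zero.2 hms,
      by rw [q4]; exact neg_ne_zero.2 hm⟩ gz gz'
  have hAm : m0.A W = (T.w * T.v) ^ 2 := by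
    have := mc_A hf.ok (W := W)
    rw [← hT] at this
    exact this
  have hR : Multiset.Rel (fun (q : K × K) (e : AA k W) =>
      ∃ f' : List (Lk s K), GFac W k m0 q.1 q.2 f' ∧ Psi W k f' = e) (cuM z m0.x (m0.A W))
      ({Psi W k f, Psi W k f, Psi W k f, Psi W k f,
        Psi W k ((g.1, g.2.rot (z ^ 2)) :: fs), Psi W k ((g.1, g.2.rot (z ^ 2)) :: fs),
        Psi W k ((g.1, g.2.rot (z ^ 2)) :: fs), Psi W k ((g.1, g.2.rot (z ^ 2)) :: fs)} :
        Multiset (AA k W)) := by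
    rw [hAm]
    have hx : m0.x = z * T.w ^ 2 + z ^ 2 * T.v ^ 2 := rfl
    rw [hx, cu_eight hz]
    exact Multiset.Rel.cons a1 (Multiset.Rel.cons a2 (Multiset.Rel.cons a3 (Multiset.Rel.cons a4
      (Multiset.Rel.cons b1 (Multiset.Rel.cons b2 (Multiset.Rel.cons b3
        (Multiset.Rel.cons b4 Multiset.Rel.zero)))))))
  have hfin := rel hW hf.pos h1 (mc_onS hf.ok hf.ne hf.len hz hT) (mc_sep hf.ok hf.sep) hz hF hR
  have hsum : ({Psi W k f, Psi W k f, Psi W k f, Psi W k f,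
        Psi W k ((g.1, g.2.rot (z ^ 2)) :: fs), Psi W k ((g.1, g.2.rot (z ^ 2)) :: fs),
        Psi W k ((g.1, g.2.rot (z ^ 2)) :: fs), Psi W k ((g.1, g.2.rot (z ^ 2)) :: fs)} :
        Multiset (AA k W)).sum =
      4 • Psi W k f + 4 • Psi W k ((g.1, g.2.rot (z ^ 2)) :: fs) := by
    simp only [Multiset.insert_eq_cons, Multiset.sum_cons, Multiset.sum_singleton]
    abel
  rw [hsum] at hfin
  exact hfin

theorem mach (hW : W.Ok) (h1 : CS1 W k) (h2 : CS2 W k) (h3 : CS3 W k) {f : List (Lk s K)} (hf : VG W k f) {T : Vtx K}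
    (hT : T = tot (f.map Prod.snd))
    (hF : ∀ z : K, z ^ 3 = 1 → Fam W k z
      ⟨((f.map Prod.fst : List (Fin s → K)) : Multiset (Fin s → K)), z * T.w ^ 2 + z ^ 2 * T.v ^ 2, T.y, XX (f.map Prod.snd)⟩) :
    IsOfFinAddOrder (Psi W k f) := by
  obtain ⟨hw, hv⟩ := mc_ne hf.nd
  rw [← hT] at hw hv
  have cg := hf.cg
  have hm : T.m ≠ 0 := by rw [hT]; exact cg.m
  have hms : T.ms ≠ 0 := by rw [hT]; exact cg.ms
  have hsl : (f.map Prod.snd).length = k := by rw [List.length_map, hf.len]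
  have g3 := cg.g3
  rw [hsl, mc_mul (W := W) hf.ok, ← hT] at g3
  have hfm : f ∈ FacS W (⟨((f.map Prod.fst : List (Fin s → K)) : Multiset (Fin s → K)),
      1 * T.w ^ 2 + 1 ^ 2 * T.v ^ 2, T.y, XX (f.map Prod.snd)⟩ : Ms s K) T.w T.v := by
    refine ⟨rfl, fun g hg => (hf.ok g hg).ab, ⟨1, one_ne_zero, (scale_one _).symm⟩, ?_⟩
    rw [← hT]
  obtain ⟨g, fs, hlen, hB, hl, hst⟩ := star hf.pos hf.len hf.nd hfm hw hv (T := T) rfl hm hms g3
  have key : ∀ z : K, z ^ 3 = 1 →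
      IsOfFinAddOrder (4 • Psi W k f + 4 • Psi W k ((g.1, g.2.rot (z ^ 2)) :: fs)) := by
    intro z hz
    obtain ⟨hs1, hs2⟩ := hst z hz
    exact mc_rel hW h1 h2 hf hT hz (hF z hz) hlen hB hl hs1 hs2
  obtain ⟨r, hr⟩ := IsAlgClosed.exists_pow_nat_eq (-3 : K) two_pos
  set om : K := (r - 1) / 2 with hom
  have h2ne : (2 : K) ≠ 0 := two_ne_zero
  have hom1 : om ^ 2 + om + 1 = 0 := by
    rw [hom]
    field_simp
    linear_combination hr
  have hom3 : om ^ 3 = 1 := by linear_combination (om - 1) * hom1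
  have hom4 : (om ^ 2) ^ 2 = om := by linear_combination om * hom3
  have hom6 : (om ^ 2) ^ 3 = 1 := by linear_combination (om ^ 3 + 1) * hom3
  have k1 := key 1 (one_pow 3)
  have k2 := key om hom3
  have k3 := key (om ^ 2) hom6
  rw [one_pow] at k1
  rw [hom4] at k3
  have hcs := h3 g fs (by
    intro g' hg'
    have h4 : g'.1 ∈ (((g :: fs).map Prod.fst : List (Fin s → K)) : Multiset (Fin s → K)) :=
      Multiset.mem_coe.2 (List.mem_map_of_mem hg')
    rw [hB] at h4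
    obtain ⟨g0, hg0, h5⟩ := List.mem_map.1 (Multiset.mem_coe.1 h4)
    refine ⟨fun F hF' => ?_, hl g' hg'⟩
    rw [← h5]
    exact (hf.ok g0 hg0).I F hF') (by
    intro g' hg'
    have h4 : g'.1 ∈ (((g :: fs).map Prod.fst : List (Fin s → K)) : Multiset (Fin s → K)) :=
      Multiset.mem_coe.2 (List.mem_map_of_mem hg')
    rw [hB] at h4
    obtain ⟨g0, hg0, h5⟩ := List.mem_map.1 (Multiset.mem_coe.1 h4)
    rw [← h5]
    exact hf.ne g0 hg0) hlen om hom1
  have hall := (k1.add k2).add k3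
  have hsum : 4 • Psi W k f + 4 • Psi W k ((g.1, g.2.rot 1) :: fs) +
      (4 • Psi W k f + 4 • Psi W k ((g.1, g.2.rot (om ^ 2)) :: fs)) +
      (4 • Psi W k f + 4 • Psi W k ((g.1, g.2.rot om) :: fs)) =
      12 • Psi W k f + 4 • (Psi W k ((g.1, g.2.rot 1) :: fs) + Psi W k ((g.1, g.2.rot om) :: fs) +
        Psi W k ((g.1, g.2.rot (om ^ 2)) :: fs)) := by
    abel
  rw [hsum, hcs, smul_zero, add_zero] at hall
  rw [isOfFinAddOrder_iff_nsmul_eq_zero] at hall ⊢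
  obtain ⟨n, hn, h6⟩ := hall
  refine ⟨n * 12, by positivity, ?_⟩
  rw [mul_smul]
  exact h6

end ES
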