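import Pool.Agent.H34.ES.NestF
import Pool.Agent.H67.ES.ExtS
import Pool.Agent.H67.ES.ExtN
import Pool.Agent.H67.ES.Mach
import Mathlib.GroupTheory.Torsion

/-! # ES.Fibre : all tuples over generic base points, any base (about 120 lines)

`h : AA k W →+ AA k W ⧸ AddCommGroup.torsion (AA k W)` the quotient map (`QuotientAddGroup.mk'`): `h x = 0` iff `IsOfFinAddOrder x`.  Choose `al j` with `al j ^ 2 = a_j^3` (not zero since `a_j ≠ 0`), `F0` as in `base_exists`.  `nest_fib` with `E := ExtP F0`: `ext_nil`;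
`ext_step` (`nth F0 j` has base point `β j`, label `lab W (β j)` and `al j`, so the two sets agree; `pre.length < F0.length = k`); for `f.length = k` and `E f`: by `ext_vg` all `swpL S f` are `VG`; `mach` with `hF` for `swpL S f`: its base points are `β j` by `ExtP.lab` of `f` (`F0.take k = F0`) and `nth_swpL`
(`List.ext_getElem`, `swp` does not change the base point), labels from `VG.ok`, `h4`, `hy` from `VG.cg`, `VG.y`; this gives `IsOfFinAddOrder (Psi W k (swpL S f))`; `cls_fin` (`H36/ES/Cs4`; the links of `f` are `Ok` and have nonzero base points: `ExtP.lab` and `BaseL`). -/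

namespace ES

open H68.BB Polynomial

variable {K : Type} [Field K] [IsAlgClosed K] [CharZero K] {s k : ℕ} {W : Wm K s}

omit [IsAlgClosed K] [CharZero K] in
theorem fb_extP_mem {F0 f : List (Lk s K)} (hl : f.length = F0.length) (h : ExtP F0 f) {g : Lk s K} (hg : g ∈ f) :
    ∃ g0 ∈ F0, g.1 = g0.1 ∧ g.2.ab = g0.2.ab := by
  have h1 := h.lab
  rw [hl, List.take_length] at h1
  have h2 : (g.1, g.2.ab) ∈ F0.map (fun g => (g.1, g.2.ab)) := by
    rw [← h1]
    exact List.mem_map.2 ⟨g, hg, rfl⟩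
  obtain ⟨g0, h3, h4⟩ := List.mem_map.1 h2
  exact ⟨g0, h3, (congrArg Prod.fst h4).symm, (congrArg Prod.snd h4).symm⟩

omit [IsAlgClosed K] [CharZero K] in
theorem fb_extP_fst {F0 f : List (Lk s K)} (hl : f.length = F0.length) (h : ExtP F0 f) :
    f.map Prod.fst = F0.map Prod.fst := by
  have h1 := h.lab
  rw [hl, List.take_length] at h1
  have h2 := congrArg (List.map Prod.fst) h1
  rw [List.map_map, List.map_map] at h2
  exact h2

omit [IsAlgClosed K] [CharZero K] in
theorem fb_swpL_fst {f : List (Lk s K)} (hl : f.length = k) (S : Finset (Fin k)) : (swpL S f).map Prod.fst = f.map Prod.fst := by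
  refine List.ext_getElem (by rw [List.length_map, List.length_map, swpL_length, hl]) ?_
  intro i h1 h2
  rw [List.getElem_map, List.getElem_map]
  have hi : i < k := by rw [List.length_map, hl] at h2; exact h2
  have h3 := nth_swpL S f ⟨i, hi⟩
  have e1 : (swpL S f)[i]'(by rw [swpL_length]; exact hi) = nth (swpL S f) i := by
    unfold nth
    rw [List.getD_eq_getElem _ _ (by rw [swpL_length]; exact hi)]
  have e2 : f[i]'(by rw [hl]; exact hi) = nth f i := by
    unfold nth
    rw [List.getD_eq_getElem _ _ (by rw [hl]; exact hi)]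
  rw [e1, e2]
  have h4 : nth (swpL S f) i = if (⟨i, hi⟩ : Fin k) ∈ S then (nth f i).swp else nth f i := h3
  rw [h4]
  split_ifs
  · rfl
  · rfl

theorem fibre (hW : W.Ok) (h1 : CS1 W k) (h2 : CS2 W k) (h3 : CS3 W k) (hk : 0 < k) {β : Fin k → Fin s → K}
    (hI : ∀ j, ∀ q ∈ W.I, ev q (β j) = 0) (hne : ∀ j, β j ≠ 0) (hnd : ∀ j, ND (lab W (β j) : K × K))
    (hsep : ∀ i j, i ≠ j → Sep (lab W (β i) : K × K) (lab W (β j)))
    (hkap : ∀ κ : Fin k → K, (∀ j, Kap (lab W (β j)) (κ j)) → ∏ j, κ j ≠ 1)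
    (hF : ∀ f : List (Lk s K), f.length = k → f.map Prod.fst = List.ofFn β → (∀ g ∈ f, g.2.ab = lab W g.1) →
      ∀ T : Vtx K, T = tot (f.map Prod.snd) → (T.p ≠ 0 ∧ T.ps ≠ 0 ∧ T.m ≠ 0 ∧ T.ms ≠ 0) → T.y ≠ 0 → ∀ z : K, z ^ 3 = 1 →
      Fam W k z ⟨((f.map Prod.fst : List (Fin s → K)) : Multiset (Fin s → K)), z * T.w ^ 2 + z ^ 2 * T.v ^ 2, T.y,
        XX (f.map Prod.snd)⟩)
    {P : Fin k → Pt s K} (hP : ∀ j, OnW W (P j)) (hb : ∀ j, (P j).β = β j) : IsOfFinAddOrder (cls W P) := by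
  let q : AA k W →+ AA k W ⧸ AddCommGroup.torsion (AA k W) := QuotientAddGroup.mk' (AddCommGroup.torsion (AA k W))
  have hq : ∀ x : AA k W, q x = 0 ↔ IsOfFinAddOrder x := fun x =>
    (QuotientAddGroup.eq_zero_iff (N := AddCommGroup.torsion (AA k W)) x).trans Iff.rfl
  rw [← hq]
  have hex : ∀ j, ∃ x : K, x ^ 2 = (lab W (β j) : K × K).1 ^ 3 := fun j =>
    IsAlgClosed.exists_pow_nat_eq _ (by norm_num)
  choose al hal using hex
  obtain ⟨F0, hF0, hB, hFd⟩ := base_exists hI hne hnd hsep hkap hal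
  have hal0 : ∀ j, al j ≠ 0 := by
    intro j h
    have h4 := hal j
    rw [h, zero_pow two_ne_zero] at h4
    exact pow_ne_zero 3 (hnd j).a h4.symm
  have hF0β : F0.map Prod.fst = List.ofFn β := by
    refine List.ext_getElem (by rw [List.length_map, List.length_ofFn, hF0]) ?_
    intro i h4 h5
    rw [List.getElem_map, List.getElem_ofFn]
    have hi : i < F0.length := by rw [List.length_map] at h4; exact h4
    have hik : i < k := by rw [← hF0]; exact hi
    have h6 : (nth F0 i).1 = β ⟨i, hik⟩ := (hFd ⟨i, hik⟩).1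
    rw [← h6]
    unfold nth
    rw [List.getD_eq_getElem _ _ hi]
  refine nest_fib hW hne (al := al) hal hal0 q (ExtP F0) (ext_nil hB) ?_ ?_ P hP hb
  · intro pre hl hpre
    have h4 := ext_step hB hpre (by rw [hF0]; exact hl)
    obtain ⟨e1, e2, e3⟩ := hFd ⟨pre.length, hl⟩
    have e1' : (nth F0 pre.length).1 = β ⟨pre.length, hl⟩ := e1
    have e2' : (nth F0 pre.length).2.ab = lab W (β ⟨pre.length, hl⟩) := e2
    have e3' : (nth F0 pre.length).2.al = al ⟨pre.length, hl⟩ := e3
    rw [e1', e2', e3'] at h4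
    exact h4
  · intro f hfl hf
    rw [hq]
    have hlF : f.length = F0.length := by rw [hfl, hF0]
    refine cls_fin hW hk ?_ ?_ hfl ?_
    · intro g hg
      obtain ⟨g0, h4, h5, h6⟩ := fb_extP_mem hlF hf hg
      have h7 := (hB.ok g0 h4)
      exact ⟨by rw [h5]; exact h7.I, by rw [h5, h6]; exact h7.ab⟩
    · intro g hg
      obtain ⟨g0, h4, h5, h6⟩ := fb_extP_mem hlF hf hg
      rw [h5]
      exact hB.ne g0 h4
    · intro S
      have hV := ext_vg hk hB hF0 hfl hf S
      refine mach hW h1 h2 h3 hV rfl ?_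
      intro z hz
      refine hF (swpL S f) hV.len ?_ (fun g hg => (hV.ok g hg).ab) _ rfl
        ⟨hV.cg.p, hV.cg.ps, hV.cg.m, hV.cg.ms⟩ hV.y z hz
      rw [fb_swpL_fst hfl S, fb_extP_fst hlF hf, hF0β]

end ES
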