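import Pool.Agent.H67.ES.Diag
import Pool.Agent.H67.KH.Roots

/-! # ES.MsDef : states, factorisations with a cusp, families of states (definitions and trivial facts, no sorry)

A state `m = (B, x, y, M)`: a multiset of base points, a point `(x, y)`, a matrix.  `FacS W m w v`: the factorisations
`XX f = scale c m.M` over the base points of `m` whose total vertex is `(w, v, y)`.  `cuM z x A`: the eight pairs `(w, v)` with
`z w^2 + z^2 v^2 = x`, `(w v)^2 = A` (`z^3 = 1`).  `Fam W k z m0`: a Galois stable family of states over `Om K` which reduces to `m0` at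
one place, and such that every factorisation of its members has at another place a point which specialises to a class zero. -/

namespace ES

open Polynomial H68.BB

/-- a state -/
@[ext] structure Ms (s : ℕ) (F : Type) [Field F] where
  B : Multiset (Fin s → F)
  x : F
  y : F
  M : Mat F

/-- apply a homomorphism -/
noncomputable def Ms.map {s : ℕ} {F G : Type} [Field F] [Field G] (σ : F →+* G) (m : Ms s F) : Ms s G :=
  ⟨m.B.map (fun β i => σ (β i)), σ m.x, σ m.y, m.M.map (Polynomial.map σ)⟩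

section
variable {K : Type} [Field K] {s : ℕ} {F : Type} [Field F] [Algebra K F]

/-- the product of the values of `a` at the base points -/
noncomputable def Ms.A (W : Wm K s) (m : Ms s F) : F := (m.B.map (fun β => ev W.a β)).prod

/-- the state is on the model -/
structure OnS (W : Wm K s) (k : ℕ) (m : Ms s F) : Prop where
  I : ∀ β ∈ m.B, ∀ f ∈ W.I, ev f β = 0
  ne : ∀ β ∈ m.B, β ≠ 0
  st : St k (m.B.map (lab W)) m.M
  eqy : m.y ^ 2 = m.x ^ 3 - 3 * m.A W * m.x - 2 * (m.M 0 0).coeff (2 * k)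

/-- the factorisations of `m` with the cusp `(w, v)` -/
def FacS (W : Wm K s) (m : Ms s F) (w v : F) : Set (List (Lk s F)) :=
  {f | ((f.map Prod.fst : List (Fin s → F)) : Multiset (Fin s → F)) = m.B ∧ (∀ g ∈ f, g.2.ab = lab W g.1) ∧
    (∃ c : F, c ≠ 0 ∧ XX (f.map Prod.snd) = scale c m.M) ∧ tot (f.map Prod.snd) = ⟨w, v, m.y⟩}

open Classical in
/-- the multiset of all factorisations -/
noncomputable def fcM (W : Wm K s) (m : Ms s F) (w v : F) : Multiset (List (Lk s F)) :=
  if h : (FacS W m w v).Finite then h.toFinset.val else 0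

theorem fcM_mem {W : Wm K s} {m : Ms s F} {w v : F} {f : List (Lk s F)} (h : f ∈ fcM W m w v) : f ∈ FacS W m w v := by
  unfold fcM at h
  split at h
  · rename_i hfin
    exact hfin.mem_toFinset.1 h
  · exact absurd h (Multiset.notMem_zero _)

theorem fcM_iff {W : Wm K s} {m : Ms s F} {w v : F} (h : (FacS W m w v).Finite) {f : List (Lk s F)} :
    f ∈ fcM W m w v ↔ f ∈ FacS W m w v := by
  unfold fcM
  rw [dif_pos h]
  exact h.mem_toFinset

theorem fcM_nodup (W : Wm K s) (m : Ms s F) (w v : F) : (fcM W m w v).Nodup := by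
  unfold fcM
  split
  · exact Finset.nodup _
  · exact Multiset.nodup_zero

theorem FacS_len {W : Wm K s} {m : Ms s F} {w v : F} {f : List (Lk s F)} (h : f ∈ FacS W m w v) :
    f.length = Multiset.card m.B := by
  rw [← h.1, Multiset.coe_card, List.length_map]

/-- a good factorisation -/
structure GFac (W : Wm K s) (k : ℕ) (m : Ms s F) (w v : F) (f : List (Lk s F)) : Prop where
  mem : f ∈ FacS W m w v
  w0 : w ≠ 0
  v0 : v ≠ 0
  m0 : (⟨w, v, m.y⟩ : Vtx F).m ≠ 0
  ps0 : (⟨w, v, m.y⟩ : Vtx F).ps ≠ 0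
  good : Good k (m.B.map (lab W)) (XX (f.map Prod.snd))

end

/-- the eight cusps -/
noncomputable def cuM {F : Type} [Field F] (z x A : F) : Multiset (F × F) :=
  (X ^ 2 - C x * X + C A : F[X]).roots.bind fun U =>
    (X ^ 2 - C (z ^ 2 * U) : F[X]).roots.bind fun w => (X ^ 2 - C (z * (x - U)) : F[X]).roots.map fun v => (w, v)

/-- the tuple of the points of a list -/
noncomputable def ptsL {s : ℕ} {F : Type} [Field F] (k : ℕ) (f : List (Lk s F)) : Fin k → Pt s F := fun i => (nth f i).pt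

section
variable {K : Type} [Field K] {s : ℕ}

/-- reduction of states -/
structure RdS (π : Place K (Om K)) (m : Ms s (Om K)) (m0 : Ms s K) : Prop where
  B : Multiset.Rel (fun (β : Fin s → Om K) (β0 : Fin s → K) => ∀ i, Rd π.V π.φ (β i) (β0 i)) m.B m0.B
  x : Rd π.V π.φ m.x m0.x
  y : Rd π.V π.φ m.y m0.y
  M : RdMt π m.M m0.M

/-- the labels of the base points are separated -/
def SepB (W : Wm K s) (B : Multiset (Fin s → K)) : Prop :=
  ∀ l : List (Fin s → K), (l : Multiset (Fin s → K)) = B → (l.map (lab W)).Pairwise Sep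

/-- the point specialises to a point which makes the class of every tuple zero -/
def Nul (W : Wm K s) (k : ℕ) (π : Place K (Om K)) (P : Pt s (Om K)) : Prop :=
  ∃ p : Pt s K, Sp W π P p ∧ ∀ (Q : Fin k → Pt s K) (i : Fin k), (∀ j, OnW W (Q j)) → Q i = p → cls W Q = 0

/-- a family of states through `m0` -/
def Fam (W : Wm K s) (k : ℕ) (z : K) (m0 : Ms s K) : Prop :=
  ∃ (M : Multiset (Ms s (Om K))) (π0 π1 : Place K (Om K)), M ≠ 0 ∧ (∀ m ∈ M, OnS W k m) ∧
    (∀ σ : Om K ≃ₐ[RatFunc K] Om K, M.map (Ms.map (σ : Om K →+* Om K)) = M) ∧ (∀ m ∈ M, RdS π0 m m0) ∧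
    (∀ m ∈ M, ∀ w v : Om K, algebraMap K (Om K) z * w ^ 2 + algebraMap K (Om K) z ^ 2 * v ^ 2 = m.x →
      ∀ f ∈ FacS W m w v, ∃ g ∈ f, Nul W k π1 g.pt)

/-- the class is invariant under the moves (class side, helper34 and helper36) -/
def CS1 (W : Wm K s) (k : ℕ) : Prop := ∀ (f f' : List (Lk s K)) (e : ℤ), Mv f f' e → (∀ g ∈ f, g.Ok W) →
  (∀ g ∈ f, g.1 ≠ 0) → (∀ g ∈ f, ND g.2.ab) → f.length = k → Psi W k f' = e • Psi W k f

/-- the mirror relation (class side, helper34) -/
def CS2 (W : Wm K s) (k : ℕ) : Prop := ∀ (c : K) (f f' : List (Lk s K)) (T : Vtx K), f.length = k → 0 < k →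
  (∀ g ∈ f, g.Ok W) → (∀ g ∈ f, g.1 ≠ 0) → (∀ g ∈ f, ND g.2.ab) → RotRel c f f' → T = tot (f.map Prod.snd) →
  T.p ≠ 0 → T.ps ≠ 0 → T.m ≠ 0 → T.ms ≠ 0 → T.y ≠ 0 → c = T.p * T.ms / (T.m * T.ps) →
  tot (f'.map Prod.snd) = ⟨T.w, T.v, -T.y⟩ → Psi W k f + Psi W k f' = 0

/-- three rotations of the first link (class side, helper36) -/
def CS3 (W : Wm K s) (k : ℕ) : Prop := ∀ (g : Lk s K) (f : List (Lk s K)), (∀ g' ∈ g :: f, g'.Ok W) →
  (∀ g' ∈ g :: f, g'.1 ≠ 0) → (g :: f).length = k → ∀ om : K, om ^ 2 + om + 1 = 0 →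
  Psi W k ((g.1, g.2.rot 1) :: f) + Psi W k ((g.1, g.2.rot om) :: f) + Psi W k ((g.1, g.2.rot (om ^ 2)) :: f) = 0

end

/-- the four scalings of a list of vertices are good -/
structure CG {F : Type} [Field F] (f : List (Vtx F)) : Prop where
  p : (tot f).p ≠ 0
  ps : (tot f).ps ≠ 0
  m : (tot f).m ≠ 0
  ms : (tot f).ms ≠ 0
  g1 : Good f.length ((f.map Vtx.ab : List (F × F)) : Multiset (F × F)) (XX f)
  g2 : Good f.length ((f.map Vtx.ab : List (F × F)) : Multiset (F × F))
    (scale ((tot f).p * (tot f).ms / ((tot f).m * (tot f).ps)) (XX f))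
  g3 : Good f.length ((f.map Vtx.ab : List (F × F)) : Multiset (F × F)) (scale (-((tot f).ms / (tot f).m)) (XX f))
  g4 : Good f.length ((f.map Vtx.ab : List (F × F)) : Multiset (F × F)) (scale (-((tot f).p / (tot f).ps)) (XX f))

/-- a very good list of links -/
structure VG {K : Type} [Field K] {s : ℕ} (W : Wm K s) (k : ℕ) (f : List (Lk s K)) : Prop where
  len : f.length = k
  pos : 0 < k
  ok : ∀ g ∈ f, g.Ok W
  ne : ∀ g ∈ f, g.1 ≠ 0
  nd : ∀ g ∈ f, ND g.2.ab
  sep : (f.map (fun g => g.2.ab)).Pairwise Sep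
  cg : CG (f.map Prod.snd)
  y : (tot (f.map Prod.snd)).y ≠ 0

end ES
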