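import Pool.Agent.H67.ES.MdlSt
import Pool.Agent.H67.ES.MsDef
import Pool.Agent.H67.ES.RdPl
import Pool.Agent.H34.ES.Dh

/-! # ES.ToMs : model points as states (about 150 lines)

`W = P1 n a b`, base points `![1, t]` for the roots `t` of `q`; `aeval t (dh a) = ev a ![1, t]` (`aeval_dh`), `natDegree_dh`.
`toMs_on`: `I` is empty, `![1, t] ≠ 0`, `St` is `mdl_st` (`OnM` extends `OnM0`; `Multiset.map_map`), `eqy`: `m.eqy`, `Mdl.rhs`; `(mdlM k m 0 0).coeff (2 k) = m.t.coeff 0` (`mdlM_top`) and `NA n k (dh a) m.q = ∏ ev a ![1, t]` over the roots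
(`NA = resultant q a k (4 n)`, `q` monic of degree `k` splits: use the lemma of `MdlSt` about `nrm`, or the resultant formula of Mathlib used there).
`toMs_sigma`: `H67.KH.roots_sigma`, `Polynomial.map_comp`, entries of `mdlM` (`ext i j; fin_cases`).
`toMs_rd`: `roots_rd` for `q` (`m0.q` is monic of degree `k`, `m.q.natDegree = k`), `Multiset.rel_map`, entries: `RdP` of `comp (X^2)`: the coefficient at `2 i` of `p.comp (X^2)` is `p.coeff i`, at odd places `0`
(`Polynomial.expand`: `p.comp (X^2) = expand _ 2 p`, `coeff_expand`), `RdP.add`, `RdP.mul`, ... . -/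

namespace ES

open Polynomial H68.BB H71.ES

variable {K : Type} [Field K]

/-- the state of a model point -/
noncomputable def toMs {F : Type} [Field F] (k : ℕ) (m : Mdl F) : Ms 2 F :=
  ⟨m.q.roots.map (fun t => ![1, t]), m.x, m.y, mdlM k m⟩

private theorem tm_00 {F : Type} [Field F] (k : ℕ) (m : Mdl F) : mdlM k m 0 0 =
    C ((-1 : F) ^ k) * (m.t.comp (X ^ 2) + X * m.s.comp (X ^ 2)) := by
  simp [mdlM]

private theorem tm_01 {F : Type} [Field F] (k : ℕ) (m : Mdl F) : mdlM k m 0 1 =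
    C ((-1 : F) ^ k) * (-m.u.comp (X ^ 2)) := by
  simp [mdlM]

private theorem tm_10 {F : Type} [Field F] (k : ℕ) (m : Mdl F) : mdlM k m 1 0 =
    C ((-1 : F) ^ k) * (m.v.comp (X ^ 2)) := by
  simp [mdlM]

private theorem tm_11 {F : Type} [Field F] (k : ℕ) (m : Mdl F) : mdlM k m 1 1 =
    C ((-1 : F) ^ k) * (m.t.comp (X ^ 2) - X * m.s.comp (X ^ 2)) := by
  simp [mdlM]

private theorem tm_expand {π : Place K (Om K)} {p : (Om K)[X]} {p0 : K[X]} (h : RdP π p p0) :
    RdP π (p.comp (X ^ 2)) (p0.comp (X ^ 2)) := by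
  rw [← expand_eq_comp_X_pow, ← expand_eq_comp_X_pow]
  intro i
  rw [coeff_expand (by norm_num), coeff_expand (by norm_num)]
  split_ifs
  · exact h _
  · exact Rd.zero

theorem toMs_on {F : Type} [Field F] [CharZero F] [IsAlgClosed F] [Algebra K F] {n k : ℕ} (hk : 0 < k)
    {a b : MvPolynomial (Fin 2) K} (ha : a.IsHomogeneous (4 * n)) (hb : b.IsHomogeneous (6 * n)) {m : Mdl F}
    (h : OnM n k (dh a) (dh b) m) : OnS (P1 n a b) k (toMs k m) := by
  have hB : (toMs k m).B = m.q.roots.map (fun t => ![1, t]) := rfl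
  have hsp : m.q.Splits := IsAlgClosed.splits m.q
  have ha' := natDegree_dh ha
  have hb' := natDegree_dh hb
  refine ⟨fun β _ f hf => absurd hf (Set.notMem_empty f), ?_, ?_, ?_⟩
  · intro β hβ
    rw [hB, Multiset.mem_map] at hβ
    obtain ⟨t, -, rfl⟩ := hβ
    intro h0
    have h1 := congrFun h0 0
    exact one_ne_zero h1
  · have h1 := mdl_st hk ha' hb' h.toOnM0
    have h2 : (toMs k m).B.map (lab (P1 n a b)) =
        m.q.roots.map (fun t => (aeval t (dh a), aeval t (dh b))) := by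
      rw [hB, Multiset.map_map]
      refine Multiset.map_congr rfl fun t _ => ?_
      rw [aeval_dh, aeval_dh]
      rfl
    rw [h2]
    exact h1
  · have h1 : (toMs k m).A (P1 n a b) = NA n k (dh a) m.q := by
      rw [NA_prod ha' h.monic h.deg hsp]
      unfold Ms.A
      rw [hB, Multiset.map_map]
      congr 1
      refine Multiset.map_congr rfl fun t _ => ?_
      rw [aeval_dh]
      rfl
    rw [h1]
    have h2 : ((toMs k m).M 0 0).coeff (2 * k) = m.t.coeff 0 := mdlM_top hk h.toOnM0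
    rw [h2]
    exact h.eqy

theorem toMs_sigma [IsAlgClosed K] (k : ℕ) (σ : Om K ≃ₐ[RatFunc K] Om K) (m : Mdl (Om K)) :
    toMs k (m.map (σ : Om K →+* Om K)) = (toMs k m).map (σ : Om K →+* Om K) := by
  have hc : ∀ p : (Om K)[X], (p.map (σ : Om K →+* Om K)).comp (X ^ 2) =
      (p.comp (X ^ 2)).map (σ : Om K →+* Om K) := by
    intro p
    rw [Polynomial.map_comp, Polynomial.map_pow, map_X]
  have hs : (m.map (σ : Om K →+* Om K)).s = m.s.map (σ : Om K →+* Om K) := rfl
  have ht : (m.map (σ : Om K →+* Om K)).t = m.t.map (σ : Om K →+* Om K) := rfl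
  have hu : (m.map (σ : Om K →+* Om K)).u = m.u.map (σ : Om K →+* Om K) := rfl
  have hv : (m.map (σ : Om K →+* Om K)).v = m.v.map (σ : Om K →+* Om K) := rfl
  have he : (C ((-1 : Om K) ^ k) : (Om K)[X]) = (C ((-1 : Om K) ^ k)).map (σ : Om K →+* Om K) := by
    rw [Polynomial.map_C]
    congr 1
    rw [RingHom.map_pow, RingHom.map_neg, RingHom.map_one]
  have hM : mdlM k (m.map (σ : Om K →+* Om K)) = (mdlM k m).map (Polynomial.map (σ : Om K →+* Om K)) := by
    ext1 i j
    rw [Matrix.map_apply]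
    fin_cases i <;> fin_cases j
    · show mdlM k (m.map (σ : Om K →+* Om K)) 0 0 = (mdlM k m 0 0).map (σ : Om K →+* Om K)
      rw [tm_00, tm_00, ht, hs, hc, hc, Polynomial.map_mul, Polynomial.map_add, Polynomial.map_mul,
        map_X, ← he]
    · show mdlM k (m.map (σ : Om K →+* Om K)) 0 1 = (mdlM k m 0 1).map (σ : Om K →+* Om K)
      rw [tm_01, tm_01, hu, hc, Polynomial.map_mul, Polynomial.map_neg, ← he]
    · show mdlM k (m.map (σ : Om K →+* Om K)) 1 0 = (mdlM k m 1 0).map (σ : Om K →+* Om K)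
      rw [tm_10, tm_10, hv, hc, Polynomial.map_mul, ← he]
    · show mdlM k (m.map (σ : Om K →+* Om K)) 1 1 = (mdlM k m 1 1).map (σ : Om K →+* Om K)
      rw [tm_11, tm_11, ht, hs, hc, hc, Polynomial.map_mul, Polynomial.map_sub, Polynomial.map_mul,
        map_X, ← he]
  have hB : (toMs k (m.map (σ : Om K →+* Om K))).B = ((toMs k m).map (σ : Om K →+* Om K)).B := by
    show (m.q.map (σ : Om K →+* Om K)).roots.map (fun t => (![1, t] : Fin 2 → Om K)) =
      (m.q.roots.map (fun t => (![1, t] : Fin 2 → Om K))).map (fun β i => (σ : Om K →+* Om K) (β i))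
    rw [← H67.KH.roots_sigma, Multiset.map_map, Multiset.map_map]
    refine Multiset.map_congr rfl fun t _ => ?_
    funext i
    match i with
    | 0 => exact (map_one _).symm
    | 1 => rfl
  exact Ms.ext hB rfl rfl hM

theorem toMs_rd [IsAlgClosed K] [CharZero K] {π : Place K (Om K)} {k : ℕ} {m : Mdl (Om K)} {m0 : Mdl K} (hd : m.q.natDegree = k)
    (hd0 : m0.q.natDegree = k) (hq : m0.q.Monic) (h : RdM π m m0) : RdS π (toMs k m) (toMs k m0) := by
  have he : RdP π (C ((-1 : Om K) ^ k)) (C ((-1 : K) ^ k)) := RdP.C ((Rd.one.neg).pow k)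
  have hs := tm_expand (show RdP π m.s m0.s from h.s)
  have ht := tm_expand (show RdP π m.t m0.t from h.t)
  have hu := tm_expand (show RdP π m.u m0.u from h.u)
  have hv := tm_expand (show RdP π m.v m0.v from h.v)
  have hX : RdP π (X : (Om K)[X]) (X : K[X]) := RdP.X
  refine ⟨?_, h.x, h.y, ?_⟩
  · show Multiset.Rel _ (m.q.roots.map (fun t => (![1, t] : Fin 2 → Om K)))
      (m0.q.roots.map (fun t => (![1, t] : Fin 2 → K)))
    rw [Multiset.rel_map]
    refine (H67.KH.roots_rd hq.ne_zero h.q (hd.trans hd0.symm).le).mono ?_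
    intro t _ t0 _ ht0 i
    match i with
    | 0 => exact Rd.one
    | 1 => exact ht0
  · intro i j
    fin_cases i <;> fin_cases j
    · show RdP π (mdlM k m 0 0) (mdlM k m0 0 0)
      rw [tm_00, tm_00]
      exact he.mul (ht.add (hX.mul hs))
    · show RdP π (mdlM k m 0 1) (mdlM k m0 0 1)
      rw [tm_01, tm_01]
      exact he.mul hu.neg
    · show RdP π (mdlM k m 1 0) (mdlM k m0 1 0)
      rw [tm_10, tm_10]
      exact he.mul hv
    · show RdP π (mdlM k m 1 1) (mdlM k m0 1 1)
      rw [tm_11, tm_11]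
      exact he.mul (ht.sub (hX.mul hs))

end ES
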