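import Pool.Agent.H67.ES.Vlem

/-! # ES.Diag : lists of vertices with `y = 0` are good (about 200 lines)

If `y = 0` then `p = ps =: σ = r + r'`, `m = ms =: δ = r - r'`, and `LL`, `LS` are of the form `[[A, B],[B, A]]`; all such matrices commute.  So `XX f` does not change if `f` is permuted, it is of this
form, and on the vectors `(1, ±1)` it has the eigenvalues `θ_±(X) = ∏_i (σ_i (X-1) ± δ_i (X+1)) (σ_i (X+1) ± δ_i (X-1)) / 4`.
Induction on the length.  Let `f.map ab = c ::ₘ s'` (as multisets): there is a vertex `u_i` with label `c`, `f` is a permutation of `u_i :: f'`, `f'.map ab = s'` (by `hsep` the labels are different; but it is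
enough to take any such `i`).  Given `α` with `α^2 = c.1^3`: `α = ± u_i.al`; take `u := u_i` or `u := u_i.flip` (its `y` is `-0 = 0`, label `c`, `al = -u_i.al`).
`XX f = u.sand (XX f')`: for `u_i` by commutation; for the flip: `LL u LS u = LL u_i LS u_i` for `y = 0` (`sand_flip_one`) and commutation.
`NZ`: let `α (l^2+1) = 2 b l`, `(a, b) = c`, `l ≠ ± 1`, `l ≠ 0`.  `det LL_u (l) = 0` (`det_LL`), i.e. `(σ (l-1) + δ (l+1)) (σ (l-1) - δ (l+1)) = 0` for `σ, δ` of `u`.  Say `σ (l-1) = - ε δ (l+1)`, `ε = ± 1`: then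
`θ_(-ε)(l) ≠ 0`: every factor: `j = i`: `σ (l-1) - ε δ (l+1) = 2 σ (l-1) ≠ 0` (`σ^2 = 2 (b+α) ≠ 0`), `σ (l+1) - ε δ (l-1)`: multiply by `δ (l+1)`... equals `(σ^2+δ^2)(l-1)(l+1)`-multiple: `σ^2+δ^2 = 4 b ≠ 0`;
`j ≠ i`: a zero of a factor gives `σ_j^2 (l-1)^2 = δ_j^2 (l+1)^2` or `σ_j^2 (l+1)^2 = δ_j^2 (l-1)^2`, together with `σ^2 (l-1)^2 = δ^2 (l+1)^2`: `σ_j^2 δ^2 = σ^2 δ_j^2` or `σ_j^2 σ^2 = δ_j^2 δ^2`, where
`σ_j^2 = 2 (b_j + α_j)`, `δ_j^2 = 2 (b_j - α_j)`: `b_j α = ± b α_j`, so `b_j^2 a^3 = b^2 a_j^3`, excluded by `hsep`.  If `θ_(-ε)(l) ≠ 0` then `XX f (l)` has a nonzero entry (`θ_± = M 0 0 ± M 0 1`). -/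

namespace ES

open Polynomial H68.BB

variable {F : Type} [Field F] [CharZero F]

/-- the labels have different `b^2/a^3` -/
def Sep (c c' : F × F) : Prop := c.2 ^ 2 * c'.1 ^ 3 ≠ c'.2 ^ 2 * c.1 ^ 3

/-- exchange `w` and `v` -/
def Vtx.swap {F : Type} (u : Vtx F) : Vtx F := ⟨u.v, u.w, u.y⟩

omit [CharZero F] in
private theorem mext {a b c d a' b' c' d' : F[X]} (h1 : a = a') (h2 : b = b') (h3 : c = c') (h4 : d = d') :
    !![a, b; c, d] = !![a', b'; c', d'] := by rw [h1, h2, h3, h4]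

/-- the matrices `[[A, B], [B, A]]` -/
private def Cm (M : Mat F) : Prop := M 0 0 = M 1 1 ∧ M 0 1 = M 1 0

/-- the eigenvalue of `M` on `(1, e)` -/
private noncomputable def ei (e : F) (M : Mat F) : F[X] := M 0 0 + C e * M 0 1

/-- the eigenvalue of `LL u LS u / 4` -/
private noncomputable def th (e : F) (u : Vtx F) : F[X] :=
  C (4⁻¹ : F) * ((C u.p * (X - 1) + C e * (C u.m * (X + 1))) * (C u.p * (X + 1) + C e * (C u.m * (X - 1))))

omit [CharZero F] in
private theorem ms_eq {u : Vtx F} (h : u.y = 0) : u.ms = u.m := by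
  unfold Vtx.ms Vtx.m
  rw [h]; ring

omit [CharZero F] in
private theorem ps_eq {u : Vtx F} (h : u.y = 0) : u.ps = u.p := by
  unfold Vtx.ps Vtx.p
  rw [h]; ring

omit [CharZero F] in
private theorem sand_val {u : Vtx F} (h : u.y = 0) {M : Mat F} (hM : Cm M) :
    u.sand M = !![C (4⁻¹ : F) * ((C u.p * (X - 1) * M 0 0 + C u.m * (X + 1) * M 0 1) * (C u.p * (X + 1)) +
        (C u.p * (X - 1) * M 0 1 + C u.m * (X + 1) * M 0 0) * (C u.m * (X - 1))),
      C (4⁻¹ : F) * ((C u.p * (X - 1) * M 0 0 + C u.m * (X + 1) * M 0 1) * (C u.m * (X - 1)) +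
        (C u.p * (X - 1) * M 0 1 + C u.m * (X + 1) * M 0 0) * (C u.p * (X + 1)));
      C (4⁻¹ : F) * ((C u.p * (X - 1) * M 0 0 + C u.m * (X + 1) * M 0 1) * (C u.m * (X - 1)) +
        (C u.p * (X - 1) * M 0 1 + C u.m * (X + 1) * M 0 0) * (C u.p * (X + 1))),
      C (4⁻¹ : F) * ((C u.p * (X - 1) * M 0 0 + C u.m * (X + 1) * M 0 1) * (C u.p * (X + 1)) +
        (C u.p * (X - 1) * M 0 1 + C u.m * (X + 1) * M 0 0) * (C u.m * (X - 1)))] := by
  have e : M = !![M 0 0, M 0 1; M 0 1, M 0 0] := by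
    rw [Matrix.eta_fin_two M]
    apply mext rfl rfl
    · exact hM.2.symm
    · exact hM.1.symm
  unfold Vtx.sand Vtx.LL Vtx.LS
  rw [ms_eq h, ps_eq h]
  conv_lhs => rw [e]
  rw [Matrix.mul_fin_two, Matrix.mul_fin_two]
  ext1 i j
  fin_cases i <;> fin_cases j <;> simp [-mul_eq_mul_left_iff] <;> ring

omit [CharZero F] in
private theorem cm_sand {u : Vtx F} (h : u.y = 0) {M : Mat F} (hM : Cm M) : Cm (u.sand M) := by
  rw [sand_val h hM]
  refine ⟨?_, ?_⟩ <;>
    simp only [Matrix.of_apply, Matrix.cons_val', Matrix.cons_val_zero, Matrix.cons_val_one, Matrix.cons_val_fin_one]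

omit [CharZero F] in
private theorem ei_sand {u : Vtx F} (h : u.y = 0) {M : Mat F} (hM : Cm M) {e : F} (he : e ^ 2 = 1) :
    ei e (u.sand M) = th e u * ei e M := by
  have he' : (C e : F[X]) ^ 2 = 1 := by rw [← C_pow, he, C_1]
  rw [sand_val h hM]
  unfold ei th
  simp only [Matrix.of_apply, Matrix.cons_val', Matrix.cons_val_zero, Matrix.cons_val_one, Matrix.cons_val_fin_one]
  generalize M 0 0 = A
  generalize M 0 1 = B
  generalize (C (4⁻¹ : F) : F[X]) = q
  generalize (C u.p : F[X]) = p at *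
  generalize (C u.m : F[X]) = m at *
  generalize (C e : F[X]) = e' at *
  linear_combination (-q * (A * (m * (X + 1)) * (m * (X - 1)) +
    B * ((p * (X - 1)) * (m * (X - 1)) + m * (X + 1) * (p * (X + 1)) +
    e' * (m * (X + 1)) * (m * (X - 1))))) * he'

private theorem ei_ext {M M' : Mat F} (h : Cm M) (h' : Cm M') (h1 : ei 1 M = ei 1 M') (h2 : ei (-1) M = ei (-1) M') : M = M' := by
  unfold ei at h1 h2
  rw [C_1] at h1
  rw [C_neg, C_1] at h2
  have t : (2 : F[X]) ≠ 0 := two_ne_zero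
  have e0 : M 0 0 = M' 0 0 := by
    apply mul_left_cancel₀ t
    linear_combination h1 + h2
  have e1 : M 0 1 = M' 0 1 := by
    apply mul_left_cancel₀ t
    linear_combination h1 - h2
  rw [Matrix.eta_fin_two M, Matrix.eta_fin_two M']
  apply mext e0 e1
  · rw [← h.2, ← h'.2, e1]
  · rw [← h.1, ← h'.1, e0]

omit [CharZero F] in
private theorem cm_XX : ∀ {f : List (Vtx F)}, (∀ u ∈ f, u.y = 0) → Cm (XX f) := by
  intro f
  induction f with
  | nil => intro _; exact ⟨rfl, rfl⟩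
  | cons u f ih =>
    intro h
    exact cm_sand (h u (by simp)) (ih fun v hv => h v (by simp [hv]))

omit [CharZero F] in
private theorem ei_XX {e : F} (he : e ^ 2 = 1) : ∀ {f : List (Vtx F)}, (∀ u ∈ f, u.y = 0) →
    ei e (XX f) = (f.map (th e)).prod := by
  intro f
  induction f with
  | nil =>
    intro _
    unfold ei XX
    simp
  | cons u f ih =>
    intro h
    have h' : ∀ v ∈ f, v.y = 0 := fun v hv => h v (by simp [hv])
    have := ei_sand (h u (by simp)) (cm_XX h') he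
    rw [List.map_cons, List.prod_cons, ← ih h', ← this]
    rfl

omit [CharZero F] in
private theorem flip_y {u : Vtx F} (h : u.y = 0) : u.flip.y = 0 := by
  unfold Vtx.flip
  simp [h]

omit [CharZero F] in
private theorem th_flip {u : Vtx F} (h : u.y = 0) {e : F} (he : e ^ 2 = 1) : th e u.flip = th e u := by
  have he' : (C e : F[X]) ^ 2 = 1 := by rw [← C_pow, he, C_1]
  have hp : u.flip.p = u.m := by unfold Vtx.flip Vtx.p Vtx.m; rw [h]; ring
  have hm : u.flip.m = u.p := by unfold Vtx.flip Vtx.p Vtx.m; rw [h]; ring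
  unfold th
  rw [hp, hm]
  linear_combination C (4⁻¹ : F) * (X ^ 2 - 1) * (C u.p ^ 2 - C u.m ^ 2) * he'

private theorem th_ev {u : Vtx F} (h : u.y = 0) {e : F} (he : e ^ 2 = 1) (l : F) :
    2 * (th e u).eval l = 2 * u.ab.2 * (l ^ 2 - 1) + e * u.p * u.m * (l ^ 2 + 1) := by
  have h1 := p_mul_ps u
  have h2 := m_mul_ms u
  rw [ps_eq h] at h1
  rw [ms_eq h] at h2
  unfold th
  simp only [eval_mul, eval_add, eval_sub, eval_C, eval_X, eval_one]
  field_simp
  linear_combination 2 * (l ^ 2 - 1) * (h1 + h2) + 2 * (l ^ 2 - 1) * u.m ^ 2 * he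

private theorem th_zero {u : Vtx F} (h : u.y = 0) {e : F} (he : e ^ 2 = 1) {l : F} (h0 : (th e u).eval l = 0) :
    4 * u.ab.2 ^ 2 * l ^ 2 = u.ab.1 ^ 3 * (l ^ 2 + 1) ^ 2 := by
  have h1 := p_mul_ps u
  have h2 := m_mul_ms u
  rw [ps_eq h] at h1
  rw [ms_eq h] at h2
  have h3 := th_ev h he l
  have h4 := al_sq u
  rw [h0] at h3
  have h5 : (u.p * u.m) ^ 2 = 4 * (u.ab.2 ^ 2 - u.ab.1 ^ 3) := by
    rw [← h4]
    linear_combination u.m ^ 2 * h1 + 2 * (u.ab.2 + u.al) * h2
  have h6 : (2 * u.ab.2 * (l ^ 2 - 1)) ^ 2 = (u.p * u.m) ^ 2 * (l ^ 2 + 1) ^ 2 := by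
    linear_combination (-(2 * u.ab.2 * (l ^ 2 - 1)) + e * u.p * u.m * (l ^ 2 + 1)) * h3 + (u.p * u.m) ^ 2 * (l ^ 2 + 1) ^ 2 * he
  rw [h5] at h6
  have h7 : (4 : F) * (4 * u.ab.2 ^ 2 * l ^ 2) = 4 * (u.ab.1 ^ 3 * (l ^ 2 + 1) ^ 2) := by
    linear_combination -h6
  exact mul_left_cancel₀ (by norm_num) h7

private theorem list_zero {f : List (Vtx F)} {e l : F} (h : ((f.map (th e)).prod).eval l = 0) :
    ∃ u ∈ f, (th e u).eval l = 0 := by
  induction f with
  | nil => simp at h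
  | cons u f ih =>
    rw [List.map_cons, List.prod_cons, eval_mul] at h
    rcases mul_eq_zero.1 h with h | h
    · exact ⟨u, by simp, h⟩
    · obtain ⟨v, hv, h⟩ := ih h
      exact ⟨v, by simp [hv], h⟩

private theorem sep_only {u v : Vtx F} {al l : F} (hu : ND u.ab) (hal : al ^ 2 = u.ab.1 ^ 3) (hl : al * (l ^ 2 + 1) = 2 * u.ab.2 * l)
    (hs : u.ab.2 ^ 2 * v.ab.1 ^ 3 ≠ v.ab.2 ^ 2 * u.ab.1 ^ 3) (hv : 4 * v.ab.2 ^ 2 * l ^ 2 = v.ab.1 ^ 3 * (l ^ 2 + 1) ^ 2) : False := by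
  have ha0 : al ≠ 0 := by
    rintro rfl
    apply hu.a
    have : u.ab.1 ^ 3 = 0 := by rw [← hal]; ring
    exact pow_eq_zero_iff (by norm_num) |>.1 this
  have hl0 : l ≠ 0 := by
    rintro rfl
    apply ha0
    linear_combination hl
  apply hs
  have h1 : u.ab.1 ^ 3 * (l ^ 2 + 1) ^ 2 = 4 * u.ab.2 ^ 2 * l ^ 2 := by
    rw [← hal]
    linear_combination (al * (l ^ 2 + 1) + 2 * u.ab.2 * l) * hl
  have h2 : 4 * l ^ 2 * (u.ab.2 ^ 2 * v.ab.1 ^ 3) = 4 * l ^ 2 * (v.ab.2 ^ 2 * u.ab.1 ^ 3) := by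
    linear_combination -(v.ab.1 ^ 3) * h1 - u.ab.1 ^ 3 * hv
  exact mul_left_cancel₀ (mul_ne_zero (by norm_num) (pow_ne_zero 2 hl0)) h2

private theorem nz_main {u : Vtx F} {f : List (Vtx F)} (hy : ∀ v ∈ u :: f, v.y = 0) (hu : ND u.ab)
    (hs : ∀ v ∈ f, u.ab.2 ^ 2 * v.ab.1 ^ 3 ≠ v.ab.2 ^ 2 * u.ab.1 ^ 3) {al : F} (hal : al ^ 2 = u.ab.1 ^ 3) :
    NZ (XX (u :: f)) al u.ab.2 := by
  intro l hl
  by_contra hc
  push Not at hc
  have key : ∀ e : F, e ^ 2 = 1 → (th e u).eval l = 0 := by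
    intro e he
    have h1 : ((( u :: f).map (th e)).prod).eval l = 0 := by
      rw [← ei_XX he hy]
      unfold ei
      rw [eval_add, eval_mul, hc, hc]
      ring
    obtain ⟨v, hv, h0⟩ := list_zero h1
    rcases List.mem_cons.1 hv with rfl | hv'
    · exact h0
    · exact (sep_only hu hal hl (hs v hv') (th_zero (hy v hv) he h0)).elim
  have k1 := key 1 (by norm_num)
  have k2 := key (-1) (by norm_num)
  have hy0 : u.y = 0 := hy u (by simp)
  have e1 := th_ev hy0 (e := 1) (by norm_num) l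
  have e2 := th_ev hy0 (e := -1) (by norm_num) l
  rw [k1] at e1
  rw [k2] at e2
  have e3 : (4 * u.ab.2) * (l ^ 2 - 1) = 0 := by linear_combination -e1 - e2
  rcases mul_eq_zero.1 e3 with h | h
  · rcases mul_eq_zero.1 h with h | h
    · norm_num at h
    · exact hu.b h
  · apply hu.d
    rw [← hal]
    have hl1 : l ^ 2 = 1 := by linear_combination h
    have h2 : (4 : F) * u.ab.2 ^ 2 = 4 * al ^ 2 := by
      linear_combination -(al * (l ^ 2 + 1) + 2 * u.ab.2 * l) * hl - (4 * u.ab.2 ^ 2 - al ^ 2 * (l ^ 2 + 3)) * hl1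
    exact mul_left_cancel₀ (by norm_num) h2

private theorem XX_eq_of {f g : List (Vtx F)} (hf : ∀ u ∈ f, u.y = 0) (hg : ∀ u ∈ g, u.y = 0)
    (h : ∀ e : F, e ^ 2 = 1 → (f.map (th e)).prod = (g.map (th e)).prod) : XX f = XX g := by
  apply ei_ext (cm_XX hf) (cm_XX hg)
  · rw [ei_XX (by norm_num) hf, ei_XX (by norm_num) hg]
    exact h 1 (by norm_num)
  · rw [ei_XX (by norm_num) hf, ei_XX (by norm_num) hg]
    exact h (-1) (by norm_num)

private theorem good_aux : ∀ (k : ℕ) {f : List (Vtx F)}, f.length = k → (∀ u ∈ f, u.y = 0) → (∀ u ∈ f, ND u.ab) →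
    (f.map Vtx.ab).Pairwise Sep → Good k ((f.map Vtx.ab : List (F × F)) : Multiset (F × F)) (XX f) := by
  intro k
  induction k with
  | zero =>
    intro f hk _ _ _
    obtain rfl := List.length_eq_zero_iff.1 hk
    exact ⟨rfl, rfl⟩
  | succ k ih =>
    intro f hk hy hnd hsep
    refine ⟨?_, ?_⟩
    · obtain ⟨u, hu⟩ := List.exists_mem_of_length_pos (l := f) (by omega)
      exact ⟨u.ab, by
        rw [Multiset.mem_coe]
        exact List.mem_map_of_mem hu⟩
    · intro c s' hs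
      have hc : c ∈ f.map Vtx.ab := by
        rw [← Multiset.mem_coe, hs]
        exact Multiset.mem_cons_self c s'
      obtain ⟨u, hu, huc⟩ := List.mem_map.1 hc
      obtain ⟨f1, f2, rfl⟩ := List.append_of_mem hu
      have hp : (f1 ++ u :: f2).Perm (u :: (f1 ++ f2)) := List.perm_middle
      have hyf : ∀ v ∈ f1 ++ f2, v.y = 0 := fun v hv => hy v (hp.mem_iff.2 (List.mem_cons_of_mem _ hv))
      have hndf : ∀ v ∈ f1 ++ f2, ND v.ab := fun v hv => hnd v (hp.mem_iff.2 (List.mem_cons_of_mem _ hv))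
      have hu0 : u.y = 0 := hy u hu
      have hs' : s' = (((f1 ++ f2).map Vtx.ab : List (F × F)) : Multiset (F × F)) := by
        have h1 : (((f1 ++ u :: f2).map Vtx.ab : List (F × F)) : Multiset (F × F)) =
            c ::ₘ (((f1 ++ f2).map Vtx.ab : List (F × F)) : Multiset (F × F)) := by
          rw [← huc, Multiset.cons_coe, ← List.map_cons]
          exact Multiset.coe_eq_coe.2 (hp.map _)
        rw [h1] at hs
        exact ((Multiset.cons_inj_right c).1 hs).symm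
      rw [List.map_append, List.map_cons, List.pairwise_append, List.pairwise_cons] at hsep
      have hsf : ((f1 ++ f2).map Vtx.ab).Pairwise Sep := by
        rw [List.map_append, List.pairwise_append]
        exact ⟨hsep.1, hsep.2.1.2, fun a ha b hb => hsep.2.2 a ha b (List.mem_cons_of_mem _ hb)⟩
      have hsu : ∀ v ∈ f1 ++ f2, u.ab.2 ^ 2 * v.ab.1 ^ 3 ≠ v.ab.2 ^ 2 * u.ab.1 ^ 3 := by
        intro v hv
        rcases List.mem_append.1 hv with hv | hv
        · have := hsep.2.2 v.ab (List.mem_map_of_mem hv) u.ab (by simp)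
          exact fun h => this h.symm
        · exact hsep.2.1.1 v.ab (List.mem_map_of_mem hv)
      have hyu : ∀ v ∈ u :: (f1 ++ f2), v.y = 0 := fun v hv => hy v (hp.mem_iff.2 hv)
      have hXX : XX (f1 ++ u :: f2) = XX (u :: (f1 ++ f2)) :=
        XX_eq_of hy hyu fun e _ => (hp.map (th e)).prod_eq
      refine ⟨huc ▸ hnd u hu, ?_⟩
      intro al hal
      rw [← huc] at hal ⊢
      refine ⟨?_, ?_⟩
      · rw [hXX]
        exact nz_main hyu (hnd u hu) hsu hal
      · have hG := ih (f := f1 ++ f2) (by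
          rw [List.length_append, List.length_cons] at hk
          rw [List.length_append]; omega) hyf hndf hsf
        rw [← hs'] at hG
        have h2 : al ^ 2 = u.al ^ 2 := by rw [al_sq, hal]
        rcases sq_eq_sq_iff_eq_or_eq_neg.1 h2 with h | h
        · exact ⟨u, XX (f1 ++ f2), rfl, h.symm, hXX, hG⟩
        · refine ⟨u.flip, XX (f1 ++ f2), ab_flip u, by rw [al_flip, h], ?_, hG⟩
          have hyu' : ∀ v ∈ u.flip :: (f1 ++ f2), v.y = 0 := by
            intro v hv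
            rcases List.mem_cons.1 hv with rfl | hv
            · exact flip_y hu0
            · exact hyf v hv
          have : XX (u :: (f1 ++ f2)) = XX (u.flip :: (f1 ++ f2)) := by
            apply XX_eq_of hyu hyu'
            intro e he
            rw [List.map_cons, List.map_cons, List.prod_cons, List.prod_cons, th_flip hu0 he]
          rw [hXX, this]
          rfl

theorem good_diag {f : List (Vtx F)} (hy : ∀ u ∈ f, u.y = 0) (hnd : ∀ u ∈ f, ND u.ab) (hsep : (f.map Vtx.ab).Pairwise Sep) :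
    Good f.length ((f.map Vtx.ab : List (F × F)) : Multiset (F × F)) (XX f) :=
  good_aux f.length rfl hy hnd hsep

omit [CharZero F] in
private theorem sand_swap {u : Vtx F} (h : u.y = 0) (M : Mat F) : u.swap.sand (scale (-1) M) = scale (-1) (u.sand M) := by
  have hp : u.swap.p = u.p := by unfold Vtx.swap Vtx.p; ring
  have hps : u.swap.ps = u.p := by unfold Vtx.swap Vtx.p Vtx.ps; rw [h]; ring
  have hm : u.swap.m = -u.m := by unfold Vtx.swap Vtx.m; rw [h]; ring
  have hms : u.swap.ms = -u.m := by unfold Vtx.swap Vtx.m Vtx.ms; rw [h]; ring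
  have hi : (-1 : F)⁻¹ = -1 := by rw [inv_neg, inv_one]
  have e : M = !![M 0 0, M 0 1; M 1 0, M 1 1] := Matrix.eta_fin_two M
  unfold Vtx.sand Vtx.LL Vtx.LS scale
  rw [hp, hps, hm, hms, ps_eq h, ms_eq h]
  conv_rhs => rw [e]
  rw [Matrix.mul_fin_two, Matrix.mul_fin_two, Matrix.mul_fin_two, Matrix.mul_fin_two]
  ext1 i j
  fin_cases i <;> fin_cases j <;> simp [-mul_eq_mul_left_iff] <;> ring

/-- exchanging `w` and `v` in all vertices of such a list -/
theorem XX_swap {f : List (Vtx F)} (hy : ∀ u ∈ f, u.y = 0) : XX (f.map Vtx.swap) = scale (-1) (XX f) := by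
  induction f with
  | nil =>
    unfold XX scale
    ext1 i j
    fin_cases i <;> fin_cases j <;> simp
  | cons u f ih =>
    have h' : ∀ v ∈ f, v.y = 0 := fun v hv => hy v (by simp [hv])
    have h1 := sand_swap (hy u (by simp)) (XX f)
    rw [← ih h'] at h1
    rw [List.map_cons]
    exact h1

end ES
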