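import Pool.Agent.H67.ES.Uniq

/-! # ES.RecutE : existence of the recutting (about 220 lines)

Notation `(a1,b1) = g1.ab`, `α1 = g1.al`, `(a2,b2) = g2.ab`, `α2 = g2.al`.  `R := LL g1 * LL g2`, `l` a root of `α2 (l^2+1) = 2 b2 l`; `l ≠ 1/l`.  `M(l) = R(l) (..)` is not zero (`hnz`), `det R(l) = 0`
(`det_LL` for `g2`), so the column space of `R(l)` is the line spanned by a nonzero column of `M(l) = LL h2 (l) (..)`, which is killed by `adj(LL h2 (l))` (`det LL h2 (l) = 0`, same label and same `al`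
as `g2`): `adj(LL h2 (l)) R(l) = 0` (every column of `R(l)` is a multiple of that column: 2x2 determinants).  At `1/l`: `x^2 R(1/x) = D R(x) D`, `x LL(1/x) = - D LL(x) D`, `D = diag(1,-1)`.
So all entries of `adj(LL h2) R` are divisible by `(X-l)(X-1/l)`, i.e. by `det LL h2`: `adj(LL h2) R = det LL h2 * L`, `R = LL h2 * L`; the entries of `L` have natDegree `≤ 1` and
`x L(1/x) = - D L(x) D`, so `L = [[p (X-1), ms (X+1)],[m (X+1), ps (X-1)]]` for four numbers `p, ms, m, ps`.  Comparing the entries of `LL g1 * LL g2 = LL h2 * L` (the polynomials `(X-1)^2`, `(X+1)^2` are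
independent) gives the six equations of `Recut`.  Set `w' := g1.w g2.w / h2.w`, `v' := g1.v g2.v / h2.v`, `y' := (p - ps)/2`, `h1 := (w', v', y')`.
`p - m = ps - ms = 2 v'^3`: the row `(1, -1)` satisfies `(1,-1) [[p,ms],[m,ps]] = 2 v^3 (1,-1)` for every vertex, apply it to `B_(g1) B_(g2) = B_(h2) [[p,ms],[m,ps]]` (leading coefficients, or the sums of the six equations).
`det L = det LL g1` gives `p ps = 2 (b1+α1)`, `m ms = 2 (b1-α1)` (compare at `X = 1` and `X = -1`).  `(w' v')^3 = α1` and `(w' v')^2 = a1` since `h2.al = α2`, `h2.ab = g2.ab`.  With `σ := (p+ps)/2`: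
`p ps - m ms = σ^2 - (σ - 2 v'^3)^2 = 4 v'^3 (σ - v'^3) = 4 α1`, so `σ = v'^3 + w'^3`.  Hence `h1.p = p` etc., `h1.al = α1`, `h1.ab = g1.ab`.
`M' = h1.sand M2`: `LS(x) = - LL(-x)^t`, `[[a,b],[c,d]]^t = [[d,b],[c,a]]`, so `LS g2 * LS g1 = LS h1 * LS h2` (or directly from the six equations); therefore `M = h2.sand (h1.sand M2)` and `sand_inj`. -/

namespace ES

open Polynomial H68.BB

variable {F : Type} [Field F] [CharZero F] [IsAlgClosed F]

omit [CharZero F] [IsAlgClosed F] in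
private theorem kills {a b c d n0 n1 y0 y1 e f : F} (hdet : a * d = b * c) (h0 : y0 = a * n0 + b * n1)
    (h1 : y1 = c * n0 + d * n1) (h : e * y0 + f * y1 = 0) (hne : y0 ≠ 0 ∨ y1 ≠ 0) :
    e * a + f * c = 0 ∧ e * b + f * d = 0 := by
  have hc : c * y0 = a * y1 := by rw [h0, h1]; linear_combination (-n1) * hdet
  have hd : b * y1 = d * y0 := by rw [h0, h1]; linear_combination (-n0) * hdet
  rcases hne with h2 | h2
  · constructor
    · apply mul_right_cancel₀ h2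
      linear_combination a * h + f * hc
    · apply mul_right_cancel₀ h2
      linear_combination b * h - f * hd
  · constructor
    · apply mul_right_cancel₀ h2
      linear_combination c * h - e * hc
    · apply mul_right_cancel₀ h2
      linear_combination d * h + e * hd

omit [CharZero F] [IsAlgClosed F] in
private theorem sand_sand (g1 g2 : Vtx F) (A : Mat F) :
    g1.sand (g2.sand A) = (g1.LL * g2.LL) * (((C (4⁻¹ : F) : F[X]) * C 4⁻¹) • (A * (g2.LS * g1.LS))) := by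
  unfold Vtx.sand
  rw [Matrix.mul_smul, Matrix.smul_mul, smul_smul, Matrix.mul_smul]
  simp only [Matrix.mul_assoc]

private theorem mat_ext {R : Type} {a b c d a' b' c' d' : R} (h1 : a = a') (h2 : b = b') (h3 : c = c') (h4 : d = d') :
    (!![a, b; c, d] : Matrix (Fin 2) (Fin 2) R) = !![a', b'; c', d'] := by
  subst h1 h2 h3 h4
  rfl

private theorem mul_ext1 {R : Type} [CommRing R] {a1 b1 c1 d1 a2 b2 c2 d2 a3 b3 c3 d3 a4 b4 c4 d4 x : R}
    (pp : a1 * a2 = a3 * a4) (qq : d1 * d2 = d3 * d4) (mm : b1 * c2 = b3 * c4) (nn : c1 * b2 = c3 * b4)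
    (e12 : a1 * b2 + b1 * d2 = a3 * b4 + b3 * d4) (e21 : c1 * a2 + d1 * c2 = c3 * a4 + d3 * c4) :
    (!![a1 * (x - 1), b1 * (x + 1); c1 * (x + 1), d1 * (x - 1)] : Matrix (Fin 2) (Fin 2) R) *
      !![a2 * (x - 1), b2 * (x + 1); c2 * (x + 1), d2 * (x - 1)] =
    !![a3 * (x - 1), b3 * (x + 1); c3 * (x + 1), d3 * (x - 1)] *
      !![a4 * (x - 1), b4 * (x + 1); c4 * (x + 1), d4 * (x - 1)] := by
  rw [Matrix.mul_fin_two, Matrix.mul_fin_two]
  apply mat_ext
  · linear_combination (x - 1) ^ 2 * pp + (x + 1) ^ 2 * mm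
  · linear_combination (x - 1) * (x + 1) * e12
  · linear_combination (x - 1) * (x + 1) * e21
  · linear_combination (x + 1) ^ 2 * nn + (x - 1) ^ 2 * qq

private theorem mul_ext2 {R : Type} [CommRing R] {a1 b1 c1 d1 a2 b2 c2 d2 a3 b3 c3 d3 a4 b4 c4 d4 x : R}
    (pp : a1 * a2 = a3 * a4) (qq : d1 * d2 = d3 * d4) (mm : b1 * c2 = b3 * c4) (nn : c1 * b2 = c3 * b4)
    (e12 : a1 * b2 + b1 * d2 = a3 * b4 + b3 * d4) (e21 : c1 * a2 + d1 * c2 = c3 * a4 + d3 * c4) :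
    (!![d2 * (x + 1), b2 * (x - 1); c2 * (x - 1), a2 * (x + 1)] : Matrix (Fin 2) (Fin 2) R) *
      !![d1 * (x + 1), b1 * (x - 1); c1 * (x - 1), a1 * (x + 1)] =
    !![d4 * (x + 1), b4 * (x - 1); c4 * (x - 1), a4 * (x + 1)] *
      !![d3 * (x + 1), b3 * (x - 1); c3 * (x - 1), a3 * (x + 1)] := by
  rw [Matrix.mul_fin_two, Matrix.mul_fin_two]
  apply mat_ext
  · linear_combination (x + 1) ^ 2 * qq + (x - 1) ^ 2 * nn
  · linear_combination (x - 1) * (x + 1) * e12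
  · linear_combination (x - 1) * (x + 1) * e21
  · linear_combination (x - 1) ^ 2 * mm + (x + 1) ^ 2 * pp

omit [CharZero F] [IsAlgClosed F] in
private theorem LL_ext {g1 g2 h2 h1 : Vtx F} (pp : g1.p * g2.p = h2.p * h1.p) (qq : g1.ps * g2.ps = h2.ps * h1.ps)
    (mm : g1.ms * g2.m = h2.ms * h1.m) (nn : g1.m * g2.ms = h2.m * h1.ms)
    (e12 : g1.p * g2.ms + g1.ms * g2.ps = h2.p * h1.ms + h2.ms * h1.ps)
    (e21 : g1.m * g2.p + g1.ps * g2.m = h2.m * h1.p + h2.ps * h1.m) :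
    g1.LL * g2.LL = h2.LL * h1.LL ∧ g2.LS * g1.LS = h1.LS * h2.LS := by
  have pp' : (C g1.p * C g2.p : F[X]) = C h2.p * C h1.p := by rw [← C_mul, pp, C_mul]
  have qq' : (C g1.ps * C g2.ps : F[X]) = C h2.ps * C h1.ps := by rw [← C_mul, qq, C_mul]
  have mm' : (C g1.ms * C g2.m : F[X]) = C h2.ms * C h1.m := by rw [← C_mul, mm, C_mul]
  have nn' : (C g1.m * C g2.ms : F[X]) = C h2.m * C h1.ms := by rw [← C_mul, nn, C_mul]
  have e12' : (C g1.p * C g2.ms + C g1.ms * C g2.ps : F[X]) = C h2.p * C h1.ms + C h2.ms * C h1.ps := by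
    rw [← C_mul, ← C_mul, ← C_add, e12, C_add, C_mul, C_mul]
  have e21' : (C g1.m * C g2.p + C g1.ps * C g2.m : F[X]) = C h2.m * C h1.p + C h2.ps * C h1.m := by
    rw [← C_mul, ← C_mul, ← C_add, e21, C_add, C_mul, C_mul]
  exact ⟨mul_ext1 pp' qq' mm' nn' e12' e21', mul_ext2 pp' qq' mm' nn' e12' e21'⟩

/-- the two equations at a root -/
private theorem two_eqs {M M2 M' : Mat F} {g1 g2 h2 : Vtx F} (hM : M = g1.sand (g2.sand M2)) (hh : M = h2.sand M')
    (hab : h2.ab = g2.ab) (hal : h2.al = g2.al) (nd2 : ND g2.ab) (hnz : NZ M g2.al g2.ab.2) :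
    h2.p * h2.ps * (g1.ms * g2.m) + h2.m * h2.ms * (g1.p * g2.p) =
      h2.p * h2.ms * (g1.m * g2.p + g1.ps * g2.m) ∧
    h2.p * h2.ps * (g1.m * g2.ms) + h2.m * h2.ms * (g1.ps * g2.ps) =
      h2.m * h2.ps * (g1.p * g2.ms + g1.ms * g2.ps) := by
  obtain ⟨l, hl⟩ := root_exists (a := g2.ab.1) (b := g2.ab.2) nd2 (al_sq g2)
  obtain ⟨hl0, hl1, hl2⟩ := root_ne (a := g2.ab.1) (b := g2.ab.2) nd2 (al_sq g2) hl
  have hlm : l - 1 ≠ 0 := by
    intro h
    apply hl1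
    have : l = 1 := sub_eq_zero.1 h
    rw [this, one_pow]
  have hlp : l + 1 ≠ 0 := by
    intro h
    apply hl1
    have : l = -1 := eq_neg_of_add_eq_zero_left h
    rw [this]
    ring
  -- determinants at the root
  have d1 : g2.p * g2.ps * (l - 1) ^ 2 = g2.m * g2.ms * (l + 1) ^ 2 := by
    rw [p_mul_ps, m_mul_ms]
    linear_combination 4 * hl
  have hP : h2.p * h2.ps = g2.p * g2.ps := by rw [p_mul_ps, p_mul_ps, hab, hal]
  have hQ : h2.m * h2.ms = g2.m * g2.ms := by rw [m_mul_ms, m_mul_ms, hab, hal]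
  have d2 : h2.p * h2.ps * (l - 1) ^ 2 = h2.m * h2.ms * (l + 1) ^ 2 := by rw [hP, hQ, d1]
  obtain ⟨i, j, hij⟩ := hnz l hl
  -- the column j of M at the root
  set N : Mat F := ((C (4⁻¹ : F) : F[X]) * C 4⁻¹) • (M2 * (g2.LS * g1.LS)) with hN
  set N' : Mat F := (C (4⁻¹ : F) : F[X]) • (M' * h2.LS) with hN'
  have hM1 : M = (g1.LL * g2.LL) * N := by rw [hM, sand_sand]
  have hM2 : M = h2.LL * N' := by
    rw [hh, hN']
    unfold Vtx.sand
    rw [Matrix.mul_smul, Matrix.mul_assoc]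
  have y0 : (M 0 j).eval l = (g1.p * g2.p * (l - 1) ^ 2 + g1.ms * g2.m * (l + 1) ^ 2) * (N 0 j).eval l +
      ((g1.p * g2.ms + g1.ms * g2.ps) * ((l - 1) * (l + 1))) * (N 1 j).eval l := by
    rw [hM1, Matrix.mul_apply, Fin.sum_univ_two, Matrix.mul_apply, Matrix.mul_apply, Fin.sum_univ_two,
      Fin.sum_univ_two]
    simp [Vtx.LL]
    ring
  have y1 : (M 1 j).eval l = ((g1.m * g2.p + g1.ps * g2.m) * ((l - 1) * (l + 1))) * (N 0 j).eval l +
      (g1.m * g2.ms * (l + 1) ^ 2 + g1.ps * g2.ps * (l - 1) ^ 2) * (N 1 j).eval l := by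
    rw [hM1, Matrix.mul_apply, Fin.sum_univ_two, Matrix.mul_apply, Matrix.mul_apply, Fin.sum_univ_two,
      Fin.sum_univ_two]
    simp [Vtx.LL]
    ring
  have z0 : (M 0 j).eval l = h2.p * (l - 1) * (N' 0 j).eval l + h2.ms * (l + 1) * (N' 1 j).eval l := by
    rw [hM2, Matrix.mul_apply, Fin.sum_univ_two]
    simp [Vtx.LL]
  have z1 : (M 1 j).eval l = h2.m * (l + 1) * (N' 0 j).eval l + h2.ps * (l - 1) * (N' 1 j).eval l := by
    rw [hM2, Matrix.mul_apply, Fin.sum_univ_two]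
    simp [Vtx.LL]
  have hne : (M 0 j).eval l ≠ 0 ∨ (M 1 j).eval l ≠ 0 := by
    fin_cases i
    · exact Or.inl hij
    · exact Or.inr hij
  have k1 : (h2.ps * (l - 1)) * (M 0 j).eval l + (-(h2.ms * (l + 1))) * (M 1 j).eval l = 0 := by
    rw [z0, z1]
    linear_combination (N' 0 j).eval l * d2
  have k2 : (-(h2.m * (l + 1))) * (M 0 j).eval l + (h2.p * (l - 1)) * (M 1 j).eval l = 0 := by
    rw [z0, z1]
    linear_combination (N' 1 j).eval l * d2
  have hdet : (g1.p * g2.p * (l - 1) ^ 2 + g1.ms * g2.m * (l + 1) ^ 2) *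
      (g1.m * g2.ms * (l + 1) ^ 2 + g1.ps * g2.ps * (l - 1) ^ 2) =
      ((g1.p * g2.ms + g1.ms * g2.ps) * ((l - 1) * (l + 1))) *
      ((g1.m * g2.p + g1.ps * g2.m) * ((l - 1) * (l + 1))) := by
    linear_combination (g1.p * g1.ps * (l - 1) ^ 2 - g1.m * g1.ms * (l + 1) ^ 2) * d1
  have r1 := (kills hdet y0 y1 k1 hne).1
  have r2 := (kills hdet y0 y1 k2 hne).2
  have hlm2 : (l - 1) * (l + 1) ^ 2 ≠ 0 := mul_ne_zero hlm (pow_ne_zero 2 hlp)
  constructor
  · apply mul_right_cancel₀ hlm2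
    linear_combination h2.p * r1 - (l - 1) * (g1.p * g2.p) * d2
  · apply mul_right_cancel₀ hlm2
    linear_combination h2.ps * r2 - (l - 1) * (g1.ps * g2.ps) * d2

theorem recut_exists {M M2 M' : Mat F} {g1 g2 h2 : Vtx F} (hM : M = g1.sand (g2.sand M2)) (hh : M = h2.sand M')
    (hab : h2.ab = g2.ab) (hal : h2.al = g2.al) (nd1 : ND g1.ab) (nd2 : ND g2.ab) (hnz : NZ M g2.al g2.ab.2) :
    ∃ h1 : Vtx F, Recut g1 g2 h2 h1 ∧ M' = h1.sand M2 := by
  obtain ⟨E1, E2⟩ := two_eqs hM hh hab hal nd2 hnz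
  have ndh : ND h2.ab := by rw [hab]; exact nd2
  obtain ⟨-, hw0, hv0, hp0, hps0, hm0, hms0, -, -⟩ := ndh.ne
  obtain ⟨a1, w1, v1, -, -, -, -, -, -⟩ := nd1.ne
  obtain ⟨a2, w2, v2, p2, ps2, m2, ms2, -, -⟩ := nd2.ne
  have hP : h2.p * h2.ps = g2.p * g2.ps := by rw [p_mul_ps, p_mul_ps, hab, hal]
  have hQ : h2.m * h2.ms = g2.m * g2.ms := by rw [m_mul_ms, m_mul_ms, hab, hal]
  set p' := g1.p * g2.p / h2.p with hp'
  set ps' := g1.ps * g2.ps / h2.ps with hps'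
  set m' := g1.ms * g2.m / h2.ms with hm'
  set ms' := g1.m * g2.ms / h2.m with hms'
  have pp : g1.p * g2.p = h2.p * p' := by rw [hp']; field_simp
  have qq : g1.ps * g2.ps = h2.ps * ps' := by rw [hps']; field_simp
  have mm : g1.ms * g2.m = h2.ms * m' := by rw [hm']; field_simp
  have nn : g1.m * g2.ms = h2.m * ms' := by rw [hms']; field_simp
  have e21 : g1.m * g2.p + g1.ps * g2.m = h2.m * p' + h2.ps * m' := by
    apply mul_left_cancel₀ (mul_ne_zero hp0 hms0)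
    rw [← E1, pp, mm]
    ring
  have e12 : g1.p * g2.ms + g1.ms * g2.ps = h2.p * ms' + h2.ms * ps' := by
    apply mul_left_cancel₀ (mul_ne_zero hm0 hps0)
    rw [← E2, nn, qq]
    ring
  set w' := g1.w * g2.w / h2.w with hw'
  set v' := g1.v * g2.v / h2.v with hv'
  have ww : g1.w * g2.w = h2.w * w' := by rw [hw']; field_simp
  have vv : g1.v * g2.v = h2.v * v' := by rw [hv']; field_simp
  have hv'0 : v' ≠ 0 := by
    intro h0
    rw [h0, mul_zero] at vv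
    exact mul_ne_zero v1 v2 vv
  have hwv : w' * v' = g1.w * g1.v := by
    have h1 : h2.w * h2.v = g2.w * g2.v := by rw [wv_eq ndh, wv_eq nd2, hab, hal]
    apply mul_left_cancel₀ (mul_ne_zero hw0 hv0)
    calc h2.w * h2.v * (w' * v') = (h2.w * w') * (h2.v * v') := by ring
      _ = (g1.w * g2.w) * (g1.v * g2.v) := by rw [← ww, ← vv]
      _ = (g2.w * g2.v) * (g1.w * g1.v) := by ring
      _ = h2.w * h2.v * (g1.w * g1.v) := by rw [← h1]
  -- differences
  have D : ∀ u : Vtx F, u.p - u.m = 2 * u.v ^ 3 := fun u => by unfold Vtx.p Vtx.m; ring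
  have D' : ∀ u : Vtx F, u.ps - u.ms = 2 * u.v ^ 3 := fun u => by unfold Vtx.ps Vtx.ms; ring
  have hv3 : h2.v ^ 3 * v' ^ 3 = g1.v ^ 3 * g2.v ^ 3 := by
    rw [← mul_pow, ← vv, mul_pow]
  have x1 : p' - m' = 2 * v' ^ 3 := by
    apply mul_left_cancel₀ (mul_ne_zero (two_ne_zero : (2 : F) ≠ 0) (pow_ne_zero 3 hv0))
    linear_combination -p' * D h2 + m' * D' h2 - pp - mm + e21 + g2.p * D g1 - g2.m * D' g1 +
      2 * g1.v ^ 3 * D g2 - 4 * hv3
  have x2 : ps' - ms' = 2 * v' ^ 3 := by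
    apply mul_left_cancel₀ (mul_ne_zero (two_ne_zero : (2 : F) ≠ 0) (pow_ne_zero 3 hv0))
    linear_combination -ps' * D' h2 + ms' * D h2 - qq - nn + e12 + g2.ps * D' g1 - g2.ms * D g1 +
      2 * g1.v ^ 3 * D' g2 - 4 * hv3
  have x3 : p' * ps' = 2 * (g1.ab.2 + g1.al) := by
    rw [← p_mul_ps]
    apply mul_left_cancel₀ (mul_ne_zero p2 ps2)
    calc g2.p * g2.ps * (p' * ps') = (h2.p * p') * (h2.ps * ps') := by rw [← hP]; ring
      _ = (g1.p * g2.p) * (g1.ps * g2.ps) := by rw [pp, qq]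
      _ = g2.p * g2.ps * (g1.p * g1.ps) := by ring
  have x4 : m' * ms' = 2 * (g1.ab.2 - g1.al) := by
    rw [← m_mul_ms]
    apply mul_left_cancel₀ (mul_ne_zero m2 ms2)
    calc g2.m * g2.ms * (m' * ms') = (h2.ms * m') * (h2.m * ms') := by rw [← hQ]; ring
      _ = (g1.ms * g2.m) * (g1.m * g2.ms) := by rw [mm, nn]
      _ = g2.m * g2.ms * (g1.m * g1.ms) := by ring
  have hal1 : g1.al = (w' * v') ^ 3 := by rw [hwv]; rfl
  have x5 : p' + ps' = 2 * (w' ^ 3 + v' ^ 3) := by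
    apply mul_left_cancel₀ (mul_ne_zero (two_ne_zero : (2 : F) ≠ 0) (pow_ne_zero 3 hv'0))
    have x6 : m' = p' - 2 * v' ^ 3 := by rw [← x1]; ring
    have x7 : ms' = ps' - 2 * v' ^ 3 := by rw [← x2]; ring
    rw [x6, x7] at x4
    rw [hal1] at x3 x4
    linear_combination x3 - x4
  set y' := (p' - ps') / 2 with hy'
  have hy2 : 2 * y' = p' - ps' := by rw [hy']; field_simp
  have c1 : (⟨w', v', y'⟩ : Vtx F).p = p' := by
    show w' ^ 3 + v' ^ 3 + y' = p'
    apply mul_left_cancel₀ (two_ne_zero : (2 : F) ≠ 0)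
    linear_combination hy2 - x5
  have c2 : (⟨w', v', y'⟩ : Vtx F).ps = ps' := by
    show w' ^ 3 + v' ^ 3 - y' = ps'
    apply mul_left_cancel₀ (two_ne_zero : (2 : F) ≠ 0)
    linear_combination -hy2 - x5
  have c3 : (⟨w', v', y'⟩ : Vtx F).m = m' := by
    have := D ⟨w', v', y'⟩
    rw [c1] at this
    have h3 : p' - (⟨w', v', y'⟩ : Vtx F).m = 2 * v' ^ 3 := this
    linear_combination x1 - h3
  have c4 : (⟨w', v', y'⟩ : Vtx F).ms = ms' := by
    have := D' ⟨w', v', y'⟩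
    rw [c2] at this
    have h3 : ps' - (⟨w', v', y'⟩ : Vtx F).ms = 2 * v' ^ 3 := this
    linear_combination x2 - h3
  have c5 : (⟨w', v', y'⟩ : Vtx F).al = g1.al := hal1.symm
  have c6 : (⟨w', v', y'⟩ : Vtx F).ab = g1.ab := by
    apply Prod.ext
    · show (w' * v') ^ 2 = (g1.w * g1.v) ^ 2
      rw [hwv]
    · have h3 := p_mul_ps (⟨w', v', y'⟩ : Vtx F)
      rw [c1, c2, c5, x3] at h3
      have h4 := mul_left_cancel₀ (two_ne_zero : (2 : F) ≠ 0) h3
      exact (add_right_cancel h4).symm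
  have hR : Recut g1 g2 h2 ⟨w', v', y'⟩ :=
    { ab1 := c6
      ab2 := hab
      al1 := c5
      al2 := hal
      w := ww
      v := vv
      pp := by rw [c1, pp]
      qq := by rw [c2, qq]
      mm := by rw [c3, mm]
      nn := by rw [c4, nn]
      e12 := by rw [c4, c2, e12]
      e21 := by rw [c1, c3, e21] }
  refine ⟨⟨w', v', y'⟩, hR, ?_⟩
  obtain ⟨hL, hS⟩ := LL_ext hR.pp hR.qq hR.mm hR.nn hR.e12 hR.e21
  apply sand_inj ndh
  rw [← hh, hM, sand_sand, sand_sand, hL, hS]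

end ES
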