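import Pool.Agent.H67.ES.MvLem
import Pool.Agent.H67.ES.Diag
import Pool.Agent.H67.ES.RecutE

/-! # ES.Bring : every label with every sign can be moved to the front (about 180 lines)

Strong induction on `k`.  Write `f = g1 :: f1`, `Θ = XX`.  From `Good` at `(g1.ab, g1.al)` and `peel_unique`: `Good k (f1.map ab) (XX f1)` (for `k ≥ 1`; `Good` is applied to
`s = g1.ab ::ₘ (f1.map ab)`; the `u`, `M'` it provides satisfy `XX f = u.sand M' = g1.sand (XX f1)`, so `M' = XX f1`).
Case A: `β = g1.1` and `al = g1.2.al`: `refl`.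
Case B (`k ≥ 1`): `β ∈ f1.map fst`: by induction (length `k`) `Mv f1 (h2' :: f2) e`, `h2'.1 = β`, `h2'.2.al = al`; `Mv.cons`: `Mv f (g1 :: h2' :: f2) e`; `XX` is unchanged (`Mv.XX`), the labels are permuted (`Mv.perm`,
so every `g` still has `g.2.ab = lab W g.1`).  `Good` at `(lab W β, al)` gives a vertex `h2` with `Θ = h2.sand M'` and `NZ Θ al b`; `recut_exists` gives `h1` with `Recut g1 h2' h2 h1`; append the move `recut` with `pre = []`
(its side conditions: `ND` from `Good`, `Sep` from `hsep`, which is invariant under permutations).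
Case C: `β = g1.1`, `al = - g1.2.al` (`al^2 = g1.2.al^2`).  If `k = 0`, `f = [g1]`: `Mv.flip` with `pre = []`.  If `k ≥ 1`: let `β'` be the base point of the head of `f1`, `al'` its `al`; by Case B, `f` can be moved to `h :: f2`
with `h.1 = β'`; the base points of `h :: f2` are those of `f` permuted and `β` is now in `f2.map fst` (if `β = β'`, then Case B applies directly to `f`); apply Case B again to `h :: f2`. -/

namespace ES

open Polynomial H68.BB

variable {K : Type} [Field K] [IsAlgClosed K] [CharZero K] {s : ℕ} {W : Wm K s}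

/-- the tail of a good list is good -/
theorem good_tail {k : ℕ} {g : Lk s K} {f : List (Lk s K)}
    (hg : Good (k + 1) (((g :: f).map (fun g => g.2.ab) : List (K × K)) : Multiset (K × K)) (XX ((g :: f).map Prod.snd))) :
    Good k ((f.map (fun g => g.2.ab) : List (K × K)) : Multiset (K × K)) (XX (f.map Prod.snd)) := by
  obtain ⟨nd, h2⟩ := hg.2 g.2.ab ((f.map (fun g => g.2.ab) : List (K × K)) : Multiset (K × K))
    (by rw [List.map_cons, Multiset.cons_coe])
  obtain ⟨nz, u, M', hu, hual, hM, hgood⟩ := h2 g.2.al (al_sq g.2)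
  have e1 : XX ((g :: f).map Prod.snd) = g.2.sand (XX (f.map Prod.snd)) := rfl
  have := (peel_unique e1 hM hu.symm hual.symm nd nz).2
  rw [this]
  exact hgood

/-- the hypotheses on a list -/
structure BrH (W : Wm K s) (k : ℕ) (f : List (Lk s K)) : Prop where
  len : f.length = k + 1
  lab : ∀ g ∈ f, g.2.ab = ES.lab W g.1
  sep : (f.map (fun g => g.2.ab)).Pairwise Sep
  good : Good (k + 1) ((f.map (fun g => g.2.ab) : List (K × K)) : Multiset (K × K)) (XX (f.map Prod.snd))

omit [IsAlgClosed K] [CharZero K] in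
theorem perm_ab {f f' : List (Lk s K)} (hp : (f'.map (fun g => (g.1, g.2.ab))).Perm (f.map (fun g => (g.1, g.2.ab)))) :
    (f'.map (fun g => g.2.ab)).Perm (f.map (fun g => g.2.ab)) := by
  have h := hp.map Prod.snd
  rw [List.map_map, List.map_map] at h
  exact h

omit [IsAlgClosed K] [CharZero K] in
theorem perm_fst {f f' : List (Lk s K)} (hp : (f'.map (fun g => (g.1, g.2.ab))).Perm (f.map (fun g => (g.1, g.2.ab)))) :
    (f'.map Prod.fst).Perm (f.map Prod.fst) := by
  have h := hp.map Prod.fst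
  rw [List.map_map, List.map_map] at h
  exact h

omit [IsAlgClosed K] in
theorem BrH.mv {k : ℕ} {f f' : List (Lk s K)} {e : ℤ} (h : BrH W k f) (hm : Mv f f' e) : BrH W k f' := by
  have hp := hm.perm
  have hab := perm_ab hp
  refine ⟨?_, ?_, ?_, ?_⟩
  · have := hp.length_eq
    rw [List.length_map, List.length_map] at this
    rw [this, h.len]
  · intro g hg
    have h1 : (g.1, g.2.ab) ∈ f'.map (fun g => (g.1, g.2.ab)) := List.mem_map.2 ⟨g, hg, rfl⟩
    have h2 := hp.mem_iff.1 h1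
    obtain ⟨g', hg', he⟩ := List.mem_map.1 h2
    have e1 : g'.1 = g.1 := (Prod.mk.inj he).1
    have e2 : g'.2.ab = g.2.ab := (Prod.mk.inj he).2
    rw [← e2, ← e1]
    exact h.lab g' hg'
  · exact (hab.pairwise_iff (fun {x y} hxy hyx => hxy hyx.symm)).2 h.sep
  · rw [hm.XX]
    have : ((f'.map (fun g => g.2.ab) : List (K × K)) : Multiset (K × K)) =
        ((f.map (fun g => g.2.ab) : List (K × K)) : Multiset (K × K)) := Multiset.coe_eq_coe.2 hab
    rw [this]
    exact h.good

theorem BrH.tail {k : ℕ} {g : Lk s K} {f : List (Lk s K)} (h : BrH W (k + 1) (g :: f)) : BrH W k f := by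
  refine ⟨?_, fun g' hg' => h.lab g' (List.mem_cons_of_mem _ hg'), ?_, good_tail h.good⟩
  · have := h.len
    rw [List.length_cons] at this
    omega
  · have := h.sep
    rw [List.map_cons, List.pairwise_cons] at this
    exact this.2

/-- the conclusion -/
def BrC (W : Wm K s) (f : List (Lk s K)) : Prop :=
  ∀ (β : Fin s → K) (al : K), β ∈ f.map Prod.fst → al ^ 2 = (ES.lab W β).1 ^ 3 →
    ∃ (h : Lk s K) (f2 : List (Lk s K)) (e : ℤ), Mv f (h :: f2) e ∧ h.1 = β ∧ h.2.al = al

theorem caseB {k : ℕ} (IH : ∀ f : List (Lk s K), BrH W k f → BrC W f) {g1 : Lk s K} {f1 : List (Lk s K)}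
    (h : BrH W (k + 1) (g1 :: f1)) {β : Fin s → K} {al : K} (hβ : β ∈ f1.map Prod.fst)
    (hal : al ^ 2 = (ES.lab W β).1 ^ 3) :
    ∃ (h : Lk s K) (f2 : List (Lk s K)) (e : ℤ), Mv (g1 :: f1) (h :: f2) e ∧ h.1 = β ∧ h.2.al = al := by
  have ht := h.tail
  obtain ⟨h2', f2, e, hm, hb, ha⟩ := IH f1 ht β al hβ hal
  have hm' : Mv (g1 :: f1) (g1 :: h2' :: f2) e := hm.cons g1
  have hT := ht.mv hm
  have hlab2 : h2'.2.ab = ES.lab W β := by rw [hT.lab h2' List.mem_cons_self, hb]
  have hmem : ES.lab W β ∈ f1.map (fun g => g.2.ab) := by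
    obtain ⟨g, hg, hgb⟩ := List.mem_map.1 hβ
    refine List.mem_map.2 ⟨g, hg, ?_⟩
    rw [ht.lab g hg, hgb]
  have hmem' : ES.lab W β ∈ (((g1 :: f1).map (fun g => g.2.ab) : List (K × K)) : Multiset (K × K)) := by
    rw [Multiset.mem_coe, List.map_cons]
    exact List.mem_cons_of_mem _ hmem
  obtain ⟨s', hs'⟩ := Multiset.exists_cons_of_mem hmem'
  obtain ⟨nd2, hk2⟩ := h.good.2 _ s' hs'
  obtain ⟨nz, u, M', hu, hual, hM, -⟩ := hk2 al hal
  obtain ⟨nd1, -⟩ := h.good.2 g1.2.ab ((f1.map (fun g => g.2.ab) : List (K × K)) : Multiset (K × K))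
    (by rw [List.map_cons, Multiset.cons_coe])
  have e1 : XX ((g1 :: f1).map Prod.snd) = g1.2.sand (h2'.2.sand (XX (f2.map Prod.snd))) := by
    have : XX ((h2' :: f2).map Prod.snd) = XX (f1.map Prod.snd) := hm.XX
    have e2 : XX ((h2' :: f2).map Prod.snd) = h2'.2.sand (XX (f2.map Prod.snd)) := rfl
    have e3 : XX ((g1 :: f1).map Prod.snd) = g1.2.sand (XX (f1.map Prod.snd)) := rfl
    rw [e3, ← this, e2]
  obtain ⟨h1, hrec, -⟩ := recut_exists e1 hM (hu.trans hlab2.symm) (hual.trans ha.symm) nd1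
    (by rw [hlab2]; exact nd2) (by rw [ha, hlab2]; exact nz)
  have hsepc : Sep g1.2.ab h2'.2.ab := by
    have := h.sep
    rw [List.map_cons, List.pairwise_cons] at this
    rw [hlab2]
    exact this.1 _ hmem
  have hmv : Mv ([] ++ g1 :: h2' :: f2) ([] ++ (β, u) :: (g1.1, h1) :: f2) 1 :=
    Mv.recut [] f2 g1 h2' (β, u) (g1.1, h1) hrec rfl hb.symm nd1 (by rw [hlab2]; exact nd2) hsepc
  exact ⟨(β, u), (g1.1, h1) :: f2, e * 1, hm'.trans hmv, rfl, hual⟩

theorem bring_all : ∀ (k : ℕ) (f : List (Lk s K)), BrH W k f → BrC W f := by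
  intro k
  induction k with
  | zero =>
    intro f h β al hβ hal
    obtain ⟨g1, rfl⟩ : ∃ g, f = [g] := List.length_eq_one_iff.1 h.len
    have hb : g1.1 = β := by
      obtain ⟨g, hg, hgb⟩ := List.mem_map.1 hβ
      rw [List.mem_singleton] at hg
      rw [← hg]; exact hgb
    have h1 : al ^ 2 = g1.2.al ^ 2 := by
      rw [hal, al_sq, h.lab g1 List.mem_cons_self, hb]
    rcases sq_eq_sq_iff_eq_or_eq_neg.1 h1 with h2 | h2
    · exact ⟨g1, [], 1, Mv.refl _, hb, h2.symm⟩
    · exact ⟨(g1.1, g1.2.flip), [], -1, Mv.flip [] g1, hb, by rw [al_flip, h2]⟩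
  | succ k IH =>
    intro f h β al hβ hal
    obtain ⟨g1, f1, rfl⟩ : ∃ g f1, f = g :: f1 := by
      cases f with
      | nil => have := h.len; simp at this
      | cons g f1 => exact ⟨g, f1, rfl⟩
    by_cases hβ1 : β ∈ f1.map Prod.fst
    · exact caseB IH h hβ1 hal
    have hb : g1.1 = β := by
      rw [List.map_cons, List.mem_cons] at hβ
      rcases hβ with h1 | h1
      · exact h1.symm
      · exact absurd h1 hβ1
    have h1 : al ^ 2 = g1.2.al ^ 2 := by
      rw [hal, al_sq, h.lab g1 List.mem_cons_self, hb]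
    rcases sq_eq_sq_iff_eq_or_eq_neg.1 h1 with h2 | h2
    · exact ⟨g1, f1, 1, Mv.refl _, hb, h2.symm⟩
    obtain ⟨g', f1', rfl⟩ : ∃ g f1', f1 = g :: f1' := by
      cases f1 with
      | nil => have := h.len; simp at this
      | cons g f1 => exact ⟨g, f1, rfl⟩
    have hg' : g'.2.al ^ 2 = (ES.lab W g'.1).1 ^ 3 := by
      rw [al_sq, h.lab g' (List.mem_cons_of_mem _ List.mem_cons_self)]
    obtain ⟨hh, f2, e, hm, hhb, -⟩ := caseB IH h (β := g'.1) (al := g'.2.al)
      (List.mem_map.2 ⟨g', List.mem_cons_self, rfl⟩) hg'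
    have hH := h.mv hm
    have hp := perm_fst hm.perm
    have hβ2 : β ∈ (hh :: f2).map Prod.fst := hp.mem_iff.2 hβ
    have hne : β ≠ g'.1 := by
      intro hcon
      exact hβ1 (List.mem_map.2 ⟨g', List.mem_cons_self, hcon.symm⟩)
    have hβ3 : β ∈ f2.map Prod.fst := by
      rw [List.map_cons, List.mem_cons, hhb] at hβ2
      rcases hβ2 with h3 | h3
      · exact absurd h3 hne
      · exact h3
    obtain ⟨h4, f4, e', hm', hb4, ha4⟩ := caseB IH hH hβ3 hal
    exact ⟨h4, f4, e * e', hm.trans hm', hb4, ha4⟩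

theorem bring {k : ℕ} {f : List (Lk s K)} (hk : f.length = k + 1) (hf : ∀ g ∈ f, g.2.ab = lab W g.1)
    (hsep : (f.map (fun g => g.2.ab)).Pairwise Sep)
    (hg : Good (k + 1) ((f.map (fun g => g.2.ab) : List (K × K)) : Multiset (K × K)) (XX (f.map Prod.snd)))
    {β : Fin s → K} {al : K} (hβ : β ∈ f.map Prod.fst) (hal : al ^ 2 = (lab W β).1 ^ 3) :
    ∃ (h : Lk s K) (f2 : List (Lk s K)) (e : ℤ), Mv f (h :: f2) e ∧ h.1 = β ∧ h.2.al = al :=
  bring_all k f ⟨hk, hf, hsep, hg⟩ β al hβ hal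

end ES
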