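import Pool.Agent.H67.ES.Mdef
import Pool.Agent.H34.ES.Spc

/-! # ES.Cof : statements which hold at all places over almost all `c` (about 150 lines)

`Cof P`: for all but finitely many `c ∈ K`, `P` holds for all places with `tt ↦ c`.
`cof_mem`: `x` is algebraic over `K(tt)`; clear denominators: there is `p ∈ K[X][Y]`, `p ≠ 0`, with `p(tt, x) = 0`; let `e(tt)`, `e ∈ K[X]`, be its leading coefficient in `Y`.  If `e(c) ≠ 0` then at every place
over `c` the coefficients `g(tt)` of `p` are integral (`g ∈ K[X]` reduces to `g(c)`), `e(tt)⁻¹` is integral, so `x` is a root of a monic polynomial with integral coefficients: `mem_of_root`.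
`cof_unit`: `x` and `x⁻¹` are integral, so the reduction of `x` is not zero (`Rd.mul`, `Rd.one`, `Rd.unique`).
`cof_rdMt`, `cof_rdV`: finitely many coefficients. -/

namespace ES

open Polynomial H68.BB

variable {K : Type} [Field K]

/-- `P` holds at all places over almost all points of the line -/
def Cof (P : Place K (Om K) → Prop) : Prop := {c : K | ∃ π : Place K (Om K), Rd π.V π.φ (tt K) c ∧ ¬ P π}.Finite

theorem Cof.mono {P Q : Place K (Om K) → Prop} (h : Cof P) (hPQ : ∀ π, P π → Q π) : Cof Q := by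
  refine Set.Finite.subset h ?_
  rintro c ⟨π, h1, h2⟩
  exact ⟨π, h1, fun h3 => h2 (hPQ π h3)⟩

theorem Cof.and {P Q : Place K (Om K) → Prop} (h : Cof P) (h' : Cof Q) : Cof (fun π => P π ∧ Q π) := by
  refine Set.Finite.subset (Set.Finite.union h h') ?_
  rintro c ⟨π, h1, h2⟩
  by_cases h3 : P π
  · exact Or.inr ⟨π, h1, fun h4 => h2 ⟨h3, h4⟩⟩
  · exact Or.inl ⟨π, h1, h3⟩

theorem Cof.all {ι : Type} {S : Set ι} (hS : S.Finite) {P : ι → Place K (Om K) → Prop} (h : ∀ i ∈ S, Cof (P i)) :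
    Cof (fun π => ∀ i ∈ S, P i π) := by
  refine Set.Finite.subset (Set.Finite.biUnion hS h) ?_
  rintro c ⟨π, h1, h2⟩
  by_contra h3
  apply h2
  intro i hi
  by_contra h4
  exact h3 (Set.mem_biUnion hi ⟨π, h1, h4⟩)

private theorem cof_algX : algebraMap K[X] (Om K) X = tt K := by
  rw [IsScalarTower.algebraMap_apply K[X] (RatFunc K) (Om K), RatFunc.algebraMap_X]
  rfl

private theorem cof_algC (c : K) : algebraMap K[X] (Om K) (C c) = algebraMap K (Om K) c := by
  rw [IsScalarTower.algebraMap_apply K[X] (RatFunc K) (Om K), RatFunc.algebraMap_C]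
  rw [IsScalarTower.algebraMap_apply K (RatFunc K) (Om K)]
  rfl

private theorem cof_inj : Function.Injective (algebraMap K[X] (Om K)) := by
  rw [IsScalarTower.algebraMap_eq K[X] (RatFunc K) (Om K)]
  exact (algebraMap (RatFunc K) (Om K)).injective.comp (RatFunc.algebraMap_injective K)

private theorem cof_poly {π : Place K (Om K)} {c : K} (h : Rd π.V π.φ (tt K) c) (g : K[X]) :
    Rd π.V π.φ (algebraMap K[X] (Om K) g) (g.eval c) := by
  induction g using Polynomial.induction_on' with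
  | add p q hp hq =>
    rw [map_add, eval_add]
    exact hp.add hq
  | monomial n a =>
    rw [← C_mul_X_pow_eq_monomial, map_mul, map_pow, cof_algX, cof_algC, eval_mul, eval_C, eval_pow,
      eval_X]
    exact (show Rd π.V π.φ (algebraMap K (Om K) a) a from π.const a).mul (h.pow n)

theorem cof_mem (x : Om K) : Cof (fun π => x ∈ π.V) := by
  have h0 : Algebra.IsAlgebraic K[X] (Om K) := ⟨fun b =>
    (IsFractionRing.isAlgebraic_iff K[X] (RatFunc K) (Om K)).mpr (Algebra.IsAlgebraic.isAlgebraic _)⟩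
  obtain ⟨p, hp, hx⟩ := h0.isAlgebraic x
  have he : p.leadingCoeff ≠ 0 := leadingCoeff_ne_zero.2 hp
  refine Set.Finite.subset (Polynomial.finite_setOf_isRoot he) ?_
  rintro c ⟨π, h1, h2⟩
  by_contra h3
  apply h2
  have hloc := π.isLocal
  have h4 : p.leadingCoeff.eval c ≠ 0 := h3
  have h5 := (cof_poly h1 p.leadingCoeff).inv h4
  have hne : algebraMap K[X] (Om K) p.leadingCoeff ≠ 0 := by
    rw [Ne, map_eq_zero_iff _ cof_inj]
    exact he
  have hlc : (p.map (algebraMap K[X] (Om K))).leadingCoeff =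
      algebraMap K[X] (Om K) p.leadingCoeff := leadingCoeff_map_of_injective cof_inj p
  refine H67.KH.mem_of_root (π := π)
    (p := C (algebraMap K[X] (Om K) p.leadingCoeff)⁻¹ * p.map (algebraMap K[X] (Om K)))
    (fun i => ?_) ?_ ?_
  · rw [coeff_C_mul, coeff_map]
    exact π.V.mul_mem _ _ h5.mem (cof_poly h1 _).mem
  · refine monic_C_mul_of_mul_leadingCoeff_eq_one ?_
    rw [hlc]
    exact inv_mul_cancel₀ hne
  · rw [IsRoot, eval_mul, eval_map]
    have h6 : eval₂ (algebraMap K[X] (Om K)) x p = 0 := hx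
    rw [h6, mul_zero]

theorem cof_unit {x : Om K} (hx : x ≠ 0) : Cof (fun π => ∃ y : K, y ≠ 0 ∧ Rd π.V π.φ x y) := by
  refine ((cof_mem x).and (cof_mem x⁻¹)).mono ?_
  rintro π ⟨h1, h2⟩
  obtain ⟨y, hy⟩ := H67.KH.rd_of_mem h1
  obtain ⟨z, hz⟩ := H67.KH.rd_of_mem h2
  refine ⟨y, ?_, hy⟩
  rintro rfl
  have h3 := hy.mul hz
  rw [mul_inv_cancel₀ hx, zero_mul] at h3
  exact one_ne_zero (Rd.one.unique h3)

private theorem cof_rdP {π : Place K (Om K)} {p : (Om K)[X]} (h : ∀ n, p.coeff n ∈ π.V) :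
    ∃ p0 : K[X], RdP π p p0 := by
  have hl : p ∈ Polynomial.lifts π.V.subtype := by
    rw [Polynomial.lifts_iff_coeff_lifts]
    intro i
    exact ⟨⟨p.coeff i, h i⟩, rfl⟩
  obtain ⟨P, hP⟩ := (Polynomial.mem_lifts _).1 hl
  refine ⟨P.map π.φ, fun n => ?_⟩
  rw [coeff_map, ← hP, coeff_map]
  exact ⟨(P.coeff n).2, rfl⟩

theorem cof_rdMt (M : Mat (Om K)) : Cof (fun π => ∃ M0 : Mat K, RdMt π M M0) := by
  classical
  set N : ℕ := ∑ i, ∑ j, (M i j).natDegree with hN
  have hle : ∀ i j, (M i j).natDegree ≤ N := fun i j =>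
    (Finset.single_le_sum (f := fun j => (M i j).natDegree) (fun _ _ => Nat.zero_le _)
      (Finset.mem_univ j)).trans
      (Finset.single_le_sum (f := fun i => ∑ j, (M i j).natDegree) (fun _ _ => Nat.zero_le _)
        (Finset.mem_univ i))
  have hS : (((Finset.univ : Finset (Fin 2)) ×ˢ ((Finset.univ : Finset (Fin 2)) ×ˢ
      Finset.range (N + 1)) : Finset (Fin 2 × Fin 2 × ℕ)) : Set (Fin 2 × Fin 2 × ℕ)).Finite :=
    Finset.finite_toSet _
  refine (Cof.all hS (P := fun t π => (M t.1 t.2.1).coeff t.2.2 ∈ π.V)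
    (fun t _ => cof_mem _)).mono ?_
  intro π h
  have h1 : ∀ i j, ∃ p0 : K[X], RdP π (M i j) p0 := by
    intro i j
    refine cof_rdP fun n => ?_
    by_cases hn : n < N + 1
    · refine h (i, j, n) ?_
      rw [Finset.mem_coe, Finset.mem_product, Finset.mem_product]
      exact ⟨Finset.mem_univ _, Finset.mem_univ _, Finset.mem_range.2 hn⟩
    · rw [coeff_eq_zero_of_natDegree_lt (lt_of_le_of_lt (hle i j) (by omega))]
      exact π.V.zero_mem
  choose M0 hM0 using h1
  exact ⟨M0, hM0⟩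

theorem cof_rdV (u : Vtx (Om K)) : Cof (fun π => ∃ u0 : Vtx K, RdV π u u0) := by
  refine (((cof_mem u.w).and (cof_mem u.v)).and (cof_mem u.y)).mono ?_
  rintro π ⟨⟨h1, h2⟩, h3⟩
  obtain ⟨a, ha⟩ := H67.KH.rd_of_mem h1
  obtain ⟨b, hb⟩ := H67.KH.rd_of_mem h2
  obtain ⟨c, hc⟩ := H67.KH.rd_of_mem h3
  exact ⟨⟨a, b, c⟩, ⟨ha, hb, hc⟩⟩

end ES
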