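import Pool.Agent.H67.ES.MsDef

/-! # ES.Cus : the eight cusps (about 150 lines)

`cu_mem`: `q = (w, v)`, `U` a root of `X^2 - x X + A`, `w^2 = z^2 U`, `v^2 = z (x - U)` (`mem_roots`, the polynomials are monic of degree 2, not zero): `(w v)^2 = z^3 U (x - U) = A`, `z w^2 + z^2 v^2 = z^3 x = x`.
`cu_rd`: `H67.KH.roots_rd` for the three polynomials (coefficients `0, 1, 2`; the others are zero; `natDegree = 2` both: `natDegree_quadratic`-like or `compute_degree!`), then `Multiset.Rel` of `bind`s: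
`Multiset.rel_bind` and `Multiset.rel_map` (`Multiset.Rel.mono`); `z` is a constant (`rd_cst`).  Put the polynomials in a common form `X^2 - C p * X + C q` first.
`cu_sigma`: `roots_sigma` for the three polynomials, `Multiset.map_bind`, `Multiset.bind_map`, `Multiset.map_map`, `sigma_cst` for `z`.
`cu_eight`: `X^2 - C x X + C A = (X - C (z w^2)) (X - C (z^2 v^2))` (`z^3 = 1`), `roots_mul`, `roots_X_sub_C`; for `U = z w^2`: `z^2 U = w^2`, `z (x - U) = z^3 v^2 = v^2`; for `U = z^2 v^2`: `z^2 U = z^4 v^2 = (z^2 v)^2`, `z (x - U) = z^2 w^2 = (z w)^2`;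
the roots of `X^2 - C (d^2) = (X - C d)(X - C (-d))` are `{d, -d}`. -/

namespace ES

open Polynomial H68.BB
open H67.KH (mem_of_root rd_of_mem rd_cst sigma_cst sigma_tt roots_rd roots_sigma)

private theorem sq_form {F : Type} [Field F] (a : F) : (X ^ 2 - C a : F[X]) = X ^ 2 - C 0 * X + C (-a) := by
  rw [C_0, C_neg]; ring

theorem cu_mem {F : Type} [Field F] {z x A : F} (hz : z ^ 3 = 1) {q : F × F} (hq : q ∈ cuM z x A) :
    (q.1 * q.2) ^ 2 = A ∧ z * q.1 ^ 2 + z ^ 2 * q.2 ^ 2 = x := by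
  unfold cuM at hq
  obtain ⟨U, hU, hq⟩ := Multiset.mem_bind.1 hq
  obtain ⟨w, hw, hq⟩ := Multiset.mem_bind.1 hq
  obtain ⟨v, hv, rfl⟩ := Multiset.mem_map.1 hq
  have h1 : U ^ 2 - x * U + A = 0 := by
    have := (mem_roots'.1 hU).2
    rw [IsRoot, eval_add, eval_sub, eval_mul, eval_pow, eval_X, eval_C, eval_C] at this
    exact this
  have h2 : w ^ 2 - z ^ 2 * U = 0 := by
    have := (mem_roots'.1 hw).2
    rw [IsRoot, eval_sub, eval_pow, eval_X, eval_C] at this
    exact this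
  have h3 : v ^ 2 - z * (x - U) = 0 := by
    have := (mem_roots'.1 hv).2
    rw [IsRoot, eval_sub, eval_pow, eval_X, eval_C] at this
    exact this
  refine ⟨?_, ?_⟩
  · show (w * v) ^ 2 = A
    linear_combination v ^ 2 * h2 + z ^ 2 * U * h3 + U * (x - U) * hz - h1
  · show z * w ^ 2 + z ^ 2 * v ^ 2 = x
    linear_combination z * h2 + z ^ 2 * h3 + x * hz

private theorem roots_two {F : Type} [Field F] (a b : F) : ((X - C a) * (X - C b) : F[X]).roots = {a, b} := by
  rw [roots_mul (mul_ne_zero (X_sub_C_ne_zero a) (X_sub_C_ne_zero b)), roots_X_sub_C, roots_X_sub_C]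
  rfl

private theorem roots_sq {F : Type} [Field F] (d : F) : (X ^ 2 - C (d ^ 2) : F[X]).roots = {d, -d} := by
  rw [← roots_two]
  congr 1
  rw [C_neg, C_pow]
  ring

theorem cu_eight {F : Type} [Field F] {z : F} (hz : z ^ 3 = 1) (w v : F) :
    cuM z (z * w ^ 2 + z ^ 2 * v ^ 2) ((w * v) ^ 2) =
      ({(w, v), (w, -v), (-w, v), (-w, -v), (z ^ 2 * v, z * w), (z ^ 2 * v, -(z * w)), (-(z ^ 2 * v), z * w),
        (-(z ^ 2 * v), -(z * w))} : Multiset (F × F)) := by
  have e1 : (X ^ 2 - C (z * w ^ 2 + z ^ 2 * v ^ 2) * X + C ((w * v) ^ 2) : F[X]) =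
      (X - C (z * w ^ 2)) * (X - C (z ^ 2 * v ^ 2)) := by
    have h : (C z : F[X]) ^ 3 = 1 := by rw [← C_pow, hz, C_1]
    simp only [C_add, C_mul, C_pow]
    linear_combination -(C w ^ 2 * C v ^ 2) * h
  have a1 : z ^ 2 * (z * w ^ 2) = w ^ 2 := by linear_combination w ^ 2 * hz
  have a2 : z * (z * w ^ 2 + z ^ 2 * v ^ 2 - z * w ^ 2) = v ^ 2 := by linear_combination v ^ 2 * hz
  have b1 : z ^ 2 * (z ^ 2 * v ^ 2) = (z ^ 2 * v) ^ 2 := by ring
  have b2 : z * (z * w ^ 2 + z ^ 2 * v ^ 2 - z ^ 2 * v ^ 2) = (z * w) ^ 2 := by ring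
  unfold cuM
  rw [e1, roots_two]
  have f : ∀ (a b : F) (g : F → Multiset (F × F)), ({a, b} : Multiset F).bind g = g a + g b := by
    intro a b g
    rw [Multiset.insert_eq_cons, Multiset.cons_bind, Multiset.singleton_bind]
  have m : ∀ (a b : F) (g : F → F × F), ({a, b} : Multiset F).map g = {g a, g b} := by
    intro a b g
    rw [Multiset.insert_eq_cons, Multiset.map_cons, Multiset.map_singleton]
    rfl
  rw [f, a1, a2, b1, b2, roots_sq, roots_sq, roots_sq, roots_sq, f, f, m, m, m, m]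
  rfl

variable {K : Type} [Field K] [IsAlgClosed K] {π : Place K (Om K)}

omit [IsAlgClosed K] in
private theorem quad_ne (F : Type) [Field F] (p q : F) : (X ^ 2 - C p * X + C q : F[X]) ≠ 0 ∧
    (X ^ 2 - C p * X + C q : F[X]).natDegree = 2 := by
  have h : (X ^ 2 - C p * X + C q : F[X]).Monic := by monicity!
  exact ⟨h.ne_zero, by compute_degree!⟩

private theorem quad_rd {p q : Om K} {p0 q0 : K} (hp : Rd π.V π.φ p p0) (hq : Rd π.V π.φ q q0) :
    Multiset.Rel (Rd π.V π.φ) (X ^ 2 - C p * X + C q : (Om K)[X]).roots (X ^ 2 - C p0 * X + C q0 : K[X]).roots := by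
  apply roots_rd (quad_ne K p0 q0).1
  · intro i
    rw [coeff_add, coeff_sub, coeff_C_mul, coeff_X_pow, coeff_X, coeff_C, coeff_add, coeff_sub, coeff_C_mul, coeff_X_pow,
      coeff_X, coeff_C]
    refine Rd.add (Rd.sub ?_ (Rd.mul hp ?_)) ?_
    · split_ifs
      · exact Rd.one
      · exact Rd.zero
    · split_ifs
      · exact Rd.one
      · exact Rd.zero
    · split_ifs
      · exact hq
      · exact Rd.zero
  · rw [(quad_ne K p0 q0).2, (quad_ne (Om K) p q).2]

theorem cu_rd (z : K) {x A : Om K} {x0 A0 : K} (hx : Rd π.V π.φ x x0) (hA : Rd π.V π.φ A A0) :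
    Multiset.Rel (fun (q : Om K × Om K) (q0 : K × K) => Rd π.V π.φ q.1 q0.1 ∧ Rd π.V π.φ q.2 q0.2)
      (cuM (algebraMap K (Om K) z) x A) (cuM z x0 A0) := by
  have hz : Rd π.V π.φ (algebraMap K (Om K) z) z := rd_cst π z
  have hsq : ∀ {a : Om K} {a0 : K}, Rd π.V π.φ a a0 →
      Multiset.Rel (Rd π.V π.φ) (X ^ 2 - C a : (Om K)[X]).roots (X ^ 2 - C a0 : K[X]).roots := by
    intro a a0 ha
    rw [sq_form, sq_form]
    exact quad_rd Rd.zero ha.neg
  unfold cuM
  refine Multiset.rel_bind (r := Rd π.V π.φ) ?_ (quad_rd hx hA)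
  intro U U0 hU
  refine Multiset.rel_bind (r := Rd π.V π.φ) ?_ (hsq ((hz.pow 2).mul hU))
  intro w w0 hw
  rw [Multiset.rel_map]
  exact (hsq (hz.mul (hx.sub hU))).mono fun v _ v0 _ hv => ⟨hw, hv⟩

omit [IsAlgClosed K] in
private theorem quad_sigma (σ : Om K ≃ₐ[RatFunc K] Om K) (p q : Om K) :
    (X ^ 2 - C (σ p) * X + C (σ q) : (Om K)[X]).roots = (X ^ 2 - C p * X + C q : (Om K)[X]).roots.map σ := by
  rw [roots_sigma]
  congr 1
  rw [Polynomial.map_add, Polynomial.map_sub, Polynomial.map_pow, Polynomial.map_mul, map_X, map_C, map_C]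
  rfl

theorem cu_sigma (σ : Om K ≃ₐ[RatFunc K] Om K) (z : K) (x A : Om K) :
    (cuM (algebraMap K (Om K) z) x A).map (fun q => (σ q.1, σ q.2)) = cuM (algebraMap K (Om K) z) (σ x) (σ A) := by
  have hz : σ (algebraMap K (Om K) z) = algebraMap K (Om K) z := sigma_cst σ z
  have hsq : ∀ a : Om K, (X ^ 2 - C (σ a) : (Om K)[X]).roots = (X ^ 2 - C a : (Om K)[X]).roots.map σ := by
    intro a
    have h := quad_sigma σ 0 (-a)
    rw [map_zero σ, map_neg σ] at h
    rw [sq_form (σ a), sq_form a]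
    exact h
  unfold cuM
  rw [quad_sigma, Multiset.map_bind, Multiset.bind_map]
  congr 1
  funext U
  have e1 : algebraMap K (Om K) z ^ 2 * σ U = σ (algebraMap K (Om K) z ^ 2 * U) := by rw [map_mul, map_pow, hz]
  have e2 : algebraMap K (Om K) z * (σ x - σ U) = σ (algebraMap K (Om K) z * (x - U)) := by rw [map_mul, map_sub, hz]
  rw [e1, e2, hsq, hsq, Multiset.map_bind, Multiset.bind_map]
  congr 1
  funext w
  rw [Multiset.map_map, Multiset.map_map]
  rfl

end ES
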