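import Pool.Agent.H67.ES.MsDef
import Pool.Agent.H36.ES.Cs3

/-! # ES.ExtD : the genericity predicate (definitions, no sorry) -/

namespace ES

open Polynomial H68.BB

variable {K : Type} [Field K] {s : ℕ}

/-- `f'` is `f` with `w` and `v` exchanged in some of the links -/
def Swps (f f' : List (Lk s K)) : Prop := List.Forall₂ (fun g g' : Lk s K => g' = g ∨ g' = g.swp) f f'

/-- a base list: all `y` are zero, and the total ratio `w^6/v^6` is not one for all exchanged lists -/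
structure BaseL (W : Wm K s) (F0 : List (Lk s K)) : Prop where
  ok : ∀ g ∈ F0, g.Ok W
  ne : ∀ g ∈ F0, g.1 ≠ 0
  nd : ∀ g ∈ F0, ND g.2.ab
  y : ∀ g ∈ F0, g.2.y = 0
  sep : (F0.map (fun g => g.2.ab)).Pairwise Sep
  kap : ∀ f' : List (Lk s K), Swps F0 f' → (tot (f'.map Prod.snd)).w ^ 6 ≠ (tot (f'.map Prod.snd)).v ^ 6

/-- `pre` followed by the rest of `F0` is good -/
structure ExtP (F0 pre : List (Lk s K)) : Prop where
  le : pre.length ≤ F0.length
  lab : pre.map (fun g => (g.1, g.2.ab)) = (F0.take pre.length).map (fun g => (g.1, g.2.ab))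
  cg : ∀ f' : List (Lk s K), Swps (pre ++ F0.drop pre.length) f' → CG (f'.map Prod.snd)
  y : pre ≠ [] → ∀ f' : List (Lk s K), Swps (pre ++ F0.drop pre.length) f' → (tot (f'.map Prod.snd)).y ≠ 0

/-- `κ = w^6/v^6` for a vertex with `y = 0` -/
def Kap (c : K × K) (κ : K) : Prop := κ ≠ 0 ∧ c.1 ^ 3 * (κ + 1) ^ 2 = 4 * c.2 ^ 2 * κ

end ES
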