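import Pool.Agent.H67.ES.StSc
import Pool.Agent.H67.ES.Open
import Pool.Agent.H67.ES.FacFin
import Pool.Agent.H67.ES.FacTot
import Pool.Agent.H67.ES.FacRd

/-! # ES.FOpen : the factorisations of a state near a state with a good factorisation (about 150 lines)

`k = card m.B = card m0.B` (`St.card`), `f0.length = k`.  `XX f0 = scale c0 m0.M`, `c0 ≠ 0`, `tot f0 = ⟨w0, v0, m0.y⟩`.  `XX_top` (entry `1 0`): `c0 * e0 = (w0^6 - (y0 - v0^3)^2)/2 = ps0 * m0 / 2 ≠ 0`, `e0 := (m0.M 1 0).coeff (2k)`, so `e0 ≠ 0`.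
Put `e := (m.M 1 0).coeff (2k)` (reduces to `e0`, so `e ≠ 0`), `N := (w^6 - (y - v^3)^2)/2` with `y = m.y` (reduces to `c0 e0`), `c := N/e`, which reduces to `c0` (`Rd.inv`, `Rd.mul`), so `c ≠ 0`.
For `f ∈ FacS W m w v` with `XX f = scale c' m.M`: `XX_top` gives `c' e = N`, `c' = c`.  `M1 := scale c m.M` reduces to `scale c0 m0.M = XX f0` (`RdMt.scale`), `St k _ M1` (`st_scale`), the labels reduce (`rd_ev`, `Multiset.rel_map`, `Multiset.Rel.mono`):
`good_open`: `Good k (m.B.map (lab W)) M1`.  Finiteness: `FacS W m w v` is contained in the set of `fac_finite`.  Nonempty: `fac_exists` gives `f`, and `fac_tot` with `(w, v, y)`: `ND` of its labels from `Good`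
(each label is in the multiset `B.map lab`, see `Good`: by induction, or from `Multiset.exists_cons_of_mem`; `k > 0`), `(w v)^2 = m.A W = (tot.w tot.v)^2` (`tot_wv`, labels), the coefficient `0 0`:
`m.eqy` and `x^3 = w^6 + v^6 + 3 (w v)^2 x` (`x = z w^2 + z^2 v^2`, `z^3 = 1`) give `(m.M 0 0).coeff (2k) = (w^6 + v^6 - y^2)/2`; `1 0`: definition of `c`; `0 1`: `st_top`: `c01 c10 = c00^2 - (w v)^6`, and
`(w^6 - (y + v^3)^2) (w^6 - (y - v^3)^2) = (w^6 + v^6 - y^2)^2 - 4 w^6 v^6`, `c10 = e ≠ 0`, `N ≠ 0`.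
Reduction of `f ∈ FacS W m w v`: `fac_rd` with `B0 = m0.B`, `M0 = XX f0`: `f1`; `tot_rd` (the vertices of `RdLk`): `tot f1` is the reduction `⟨w0, v0, y0⟩` of `⟨w, v, y⟩` (`RdV.unique`).  `GFac`: `w0, v0, m0, ps0` are those of `hf`. -/

namespace ES

open Polynomial H68.BB

variable {K : Type} [Field K] [IsAlgClosed K] [CharZero K] {s : ℕ} {W : Wm K s} {π : Place K (Om K)}

private theorem fo_nd {F : Type} [Field F] {k : ℕ} {t : Multiset (F × F)} {M : Mat F} (h : Good k t M) :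
    ∀ c ∈ t, ND c := by
  intro c hc
  cases k with
  | zero =>
    rw [h.1] at hc
    exact absurd hc (Multiset.notMem_zero _)
  | succ k =>
    obtain ⟨t', ht⟩ := Multiset.exists_cons_of_mem hc
    exact (h.2 c t' ht).1

private theorem fo_sc {F : Type} [Field F] (c : F) (M : Mat F) : scale c M 0 0 = M 0 0 ∧
    scale c M 1 0 = C c * M 1 0 := ⟨rfl, rfl⟩

private theorem fo_N {F : Type} [Field F] (w v y : F) :
    (⟨w, v, y⟩ : Vtx F).ps * (⟨w, v, y⟩ : Vtx F).m = w ^ 6 - (y - v ^ 3) ^ 2 := by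
  unfold Vtx.ps Vtx.m
  ring

private theorem fo_top {F : Type} [Field F] [CharZero F] {k : ℕ} {f : List (Lk s F)} {M : Mat F} {c w v y : F}
    (hl : f.length = k) (hX : XX (f.map Prod.snd) = scale c M) (ht : tot (f.map Prod.snd) = ⟨w, v, y⟩) :
    c * (M 1 0).coeff (2 * k) = (w ^ 6 - (y - v ^ 3) ^ 2) / 2 := by
  have h := (XX_top (f.map Prod.snd)).2.2.2
  rw [hX, ht, List.length_map, hl, (fo_sc c M).2, coeff_C_mul] at h
  exact h

theorem fac_open {k : ℕ} (hk : 0 < k) {m : Ms s (Om K)} {m0 : Ms s K} (hm : OnS W k m) (hm0 : OnS W k m0) (hr : RdS π m m0)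
    {z : K} (hz : z ^ 3 = 1) {w v : Om K} {w0 v0 : K} (hw : Rd π.V π.φ w w0) (hv : Rd π.V π.φ v v0)
    (hwv : (w * v) ^ 2 = m.A W) (hx : algebraMap K (Om K) z * w ^ 2 + algebraMap K (Om K) z ^ 2 * v ^ 2 = m.x)
    {f0 : List (Lk s K)} (hf : GFac W k m0 w0 v0 f0) :
    (FacS W m w v).Finite ∧ (FacS W m w v).Nonempty ∧ ∀ f ∈ FacS W m w v, ∃ f1 : List (Lk s K),
      List.Forall₂ (RdLk π) f f1 ∧ GFac W k m0 w0 v0 f1 ∧ XX (f1.map Prod.snd) = XX (f0.map Prod.snd) := by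
  have := π.isLocal
  have hlen0 : f0.length = k := by
    rw [FacS_len hf.mem, ← hm0.st.card, Multiset.card_map]
  have hlen : ∀ f ∈ FacS W m w v, f.length = k := by
    intro f h
    rw [FacS_len h, ← hm.st.card, Multiset.card_map]
  obtain ⟨hB0, hlab0, ⟨c0, hc0, hX0⟩, ht0⟩ := hf.mem
  have hw0 : w ≠ 0 := by
    rintro rfl
    exact hf.w0 (hw.unique Rd.zero)
  have hv0 : v ≠ 0 := by
    rintro rfl
    exact hf.v0 (hv.unique Rd.zero)
  have htop0 := fo_top hlen0 hX0 ht0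
  have hN0 : (w0 ^ 6 - (m0.y - v0 ^ 3) ^ 2) / 2 ≠ 0 := by
    rw [← fo_N]
    exact div_ne_zero (mul_ne_zero hf.ps0 hf.m0) two_ne_zero
  have he0 : (m0.M 1 0).coeff (2 * k) ≠ 0 := by
    intro h
    rw [h, mul_zero] at htop0
    exact hN0 htop0.symm
  have hre : Rd π.V π.φ ((m.M 1 0).coeff (2 * k)) ((m0.M 1 0).coeff (2 * k)) := hr.M 1 0 (2 * k)
  have he : (m.M 1 0).coeff (2 * k) ≠ 0 := by
    intro h
    rw [h] at hre
    exact he0 (hre.unique Rd.zero)
  have hrN : Rd π.V π.φ ((w ^ 6 - (m.y - v ^ 3) ^ 2) / 2) ((w0 ^ 6 - (m0.y - v0 ^ 3) ^ 2) / 2) :=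
    ((hw.pow 6).sub ((hr.y.sub (hv.pow 3)).pow 2)).div Rd.two two_ne_zero
  have hN : (w ^ 6 - (m.y - v ^ 3) ^ 2) / 2 ≠ 0 := by
    intro h
    rw [h] at hrN
    exact hN0 (hrN.unique Rd.zero)
  obtain ⟨c, hcdef⟩ : ∃ c, c = (w ^ 6 - (m.y - v ^ 3) ^ 2) / 2 / (m.M 1 0).coeff (2 * k) := ⟨_, rfl⟩
  have hce : c * (m.M 1 0).coeff (2 * k) = (w ^ 6 - (m.y - v ^ 3) ^ 2) / 2 := by
    rw [hcdef, div_mul_cancel₀ _ he]
  have hc : c ≠ 0 := by
    rw [hcdef]
    exact div_ne_zero hN he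
  have hrc : Rd π.V π.φ c c0 := by
    have h := hrN.div hre he0
    rw [← hcdef, ← htop0, mul_div_cancel_right₀ _ he0] at h
    exact h
  have huniq : ∀ f ∈ FacS W m w v, XX (f.map Prod.snd) = scale c m.M := by
    intro f h
    obtain ⟨_, _, ⟨c', _, hX⟩, ht⟩ := id h
    have h1 := fo_top (hlen f h) hX ht
    rw [hX, mul_right_cancel₀ he (h1.trans hce.symm)]
  have hst1 : St k (m.B.map (lab W)) (scale c m.M) := st_scale hm.st hc
  have hr1 : RdMt π (scale c m.M) (XX (f0.map Prod.snd)) := by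
    rw [hX0]
    exact RdMt.scale hrc hc0 hr.M
  have hrel : Multiset.Rel (RdLb π) (m.B.map (lab W)) (m0.B.map (lab W)) := by
    rw [Multiset.rel_map]
    exact hr.B.mono fun β _ β0 _ h => ⟨rd_ev W.a h, rd_ev W.b h⟩
  have hgood : Good k (m.B.map (lab W)) (scale c m.M) := good_open hst1 hrel hr1 hf.good
  refine ⟨(fac_finite hgood).subset fun f h => ⟨h.1, h.2.1, huniq f h⟩, ?_, ?_⟩
  · obtain ⟨g, hg1, hg2, hg3⟩ := fac_exists hgood
    have hgl : g.length = k := by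
      have h := congrArg Multiset.card hg1
      rw [Multiset.coe_card, List.length_map] at h
      rw [h, ← hm.st.card, Multiset.card_map]
    have hprod : m.A W = ((m.B.map (lab W)).map Prod.fst).prod := by
      rw [Multiset.map_map]
      rfl
    have hwv' : ((tot (g.map Prod.snd)).w * (tot (g.map Prod.snd)).v) ^ 2 = m.A W := by
      rw [tot_wv, Ms.A, ← hg1, Multiset.map_coe, Multiset.prod_coe, List.map_map, List.map_map]
      congr 1
      refine List.map_congr_left fun a ha => ?_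
      change a.2.ab.1 = ev W.a a.1
      rw [hg2 a ha]
      rfl
    have hz' : (algebraMap K (Om K) z) ^ 3 = 1 := by
      rw [← map_pow, hz, map_one]
    have h00' : (m.M 0 0).coeff (2 * k) = (w ^ 6 + v ^ 6 - m.y ^ 2) / 2 := by
      have h2 : (2 : Om K) ≠ 0 := two_ne_zero
      rw [eq_div_iff h2]
      have h3 := hm.eqy
      rw [← hwv, ← hx] at h3
      linear_combination h3 + (w ^ 6 + ((algebraMap K (Om K) z) ^ 3 + 1) * v ^ 6 +
        3 * algebraMap K (Om K) z * w ^ 4 * v ^ 2 + 3 * algebraMap K (Om K) z ^ 2 * w ^ 2 * v ^ 4) * hz'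
    have hs := st_top hst1
    rw [(fo_sc c m.M).1, (fo_sc c m.M).2, coeff_C_mul, hce, h00', ← hprod, ← hwv] at hs
    obtain ⟨_, hs2⟩ := hs
    have h01' : (scale c m.M 0 1).coeff (2 * k) = (w ^ 6 - (m.y + v ^ 3) ^ 2) / 2 := by
      apply mul_right_cancel₀ hN
      rw [hs2]
      ring
    obtain ⟨f', h1, h2, h3⟩ := fac_tot (f := g) (w := w) (v := v) (y := m.y)
      (by
        rintro rfl
        rw [List.length_nil] at hgl
        omega)
      (by
        intro a ha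
        rw [hg2 a ha]
        refine fo_nd hgood _ (Multiset.mem_map_of_mem _ ?_)
        rw [← hg1]
        exact Multiset.mem_coe.2 (List.mem_map_of_mem ha))
      hw0 hv0 (by rw [hwv, hwv'])
      (by rw [hg3, hgl, (fo_sc c m.M).1]; exact h00')
      (by rw [hg3, hgl]; exact h01')
      (by rw [hg3, hgl, (fo_sc c m.M).2, coeff_C_mul]; exact hce)
    refine ⟨f', ?_, ?_, ⟨c, hc, h2.trans hg3⟩, h3⟩
    · rw [← hg1]
      have h := congrArg (List.map Prod.fst) h1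
      rw [List.map_map, List.map_map] at h
      exact congrArg _ h
    · intro a ha
      have h : (a.1, a.2.ab) ∈ f'.map (fun g => (g.1, g.2.ab)) := List.mem_map.2 ⟨a, ha, rfl⟩
      rw [h1] at h
      obtain ⟨b, hb, hab⟩ := List.mem_map.1 h
      obtain ⟨e1, e2⟩ := Prod.mk.inj hab
      rw [← e2, hg2 b hb, e1]
  · intro f h
    have hB : Multiset.Rel (fun (β : Fin s → Om K) (β0 : Fin s → K) => ∀ i, Rd π.V π.φ (β i) (β0 i))
        ((f.map Prod.fst : List (Fin s → Om K)) : Multiset (Fin s → Om K)) m0.B := by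
      rw [h.1]
      exact hr.B
    obtain ⟨f1, h1, h2, h3, h4⟩ := fac_rd (π := π) (M0 := XX (f0.map Prod.snd)) hB h.2.1
      (by rw [huniq f h]; exact hr1) hf.good
    have h5 : tot (f1.map Prod.snd) = ⟨w0, v0, m0.y⟩ := by
      have h6 : RdV π (tot (f.map Prod.snd)) (tot (f1.map Prod.snd)) := by
        apply tot_rd
        rw [List.forall₂_map_left_iff, List.forall₂_map_right_iff]
        exact h1.imp fun a b hab => hab.2
      rw [h.2.2.2] at h6
      exact h6.unique ⟨hw, hv, hr.y⟩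
    refine ⟨f1, h1, ⟨⟨h4, h3, ⟨c0, hc0, h2.trans hX0⟩, h5⟩, hf.w0, hf.v0, hf.m0, hf.ps0, ?_⟩, h2⟩
    rw [h2]
    exact hf.good

end ES
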