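import Pool.Agent.H67.ES.Bring
import Pool.Agent.H67.ES.Top

/-! # ES.Indep : two factorisations of a good matrix with the same `w` differ by a chain of moves (about 150 lines)

Induction on `k`.  `k = 0`: both lists are empty, `Mv.refl`.
`k + 1`: let `f' = g' :: f1'`.  `bring` (with `β = g'.1 ∈ f.map fst`, `al = g'.2.al`): `Mv f (h :: f2) e0`, `h.1 = g'.1`, `h.2.al = g'.2.al`; `Mv.XX`: `XX (h :: f2) = XX f'`; `peel_unique` (`NZ` from `Good`): `g'.2 = h.2.rot z`,
`z^6 = 1`, `XX f2 = XX f1'`.
If `f2 = []` (`k = 0`): `tot.w` of `[h]` and `[g']` are equal: `h.w = z h.w`, so `z = 1` and `g' = h` (`rot 1`).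
If `f2 = h' :: f3`: move `rot` (`pre = []`): `Mv (h :: h' :: f3) (g' :: (h'.1, h'.2.rot z⁻¹) :: f3) 1`; put `f2' := (h'.1, h'.2.rot z⁻¹) :: f3`, `XX f2' = XX f2 = XX f1'` (`sand_rot`), `tot.w` of `f2'` and `f1'` agree (cancel
`g'.w ≠ 0`), the base points agree up to permutation, labels, `Sep` (sublists), `Good k` for `XX f2'` by `good_tail` for `g' :: f2'` (`XX` unchanged).  Induction: `Mv f2' f1' e1`; `Mv.cons`. -/

namespace ES

open Polynomial H68.BB

variable {K : Type} [Field K] [IsAlgClosed K] [CharZero K] {s : ℕ} {W : Wm K s}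

private theorem sep_symm {F : Type} [Field F] {c c' : F × F} (h : Sep c c') : Sep c' c := fun h1 => h h1.symm

private theorem mv_ab {f f' : List (Lk s K)} {e : ℤ} (h : Mv f f' e) (hf : ∀ g ∈ f, g.2.ab = lab W g.1) :
    ∀ g ∈ f', g.2.ab = lab W g.1 := by
  intro g hg
  have h1 : (g.1, g.2.ab) ∈ f.map (fun g => (g.1, g.2.ab)) :=
    h.perm.mem_iff.1 (List.mem_map.2 ⟨g, hg, rfl⟩)
  obtain ⟨g0, hg0, he⟩ := List.mem_map.1 h1
  have e1 : g0.1 = g.1 := (Prod.ext_iff.1 he).1
  have e2 : g0.2.ab = g.2.ab := (Prod.ext_iff.1 he).2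
  rw [← e1, ← e2]
  exact hf g0 hg0

private theorem mv_permab {f f' : List (Lk s K)} {e : ℤ} (h : Mv f f' e) :
    (f'.map (fun g => g.2.ab)).Perm (f.map (fun g => g.2.ab)) := by
  have h1 := h.perm.map Prod.snd
  rwa [List.map_map, List.map_map] at h1

private theorem mv_permfst {f f' : List (Lk s K)} {e : ℤ} (h : Mv f f' e) :
    (f'.map Prod.fst).Perm (f.map Prod.fst) := by
  have h1 := h.perm.map Prod.fst
  rwa [List.map_map, List.map_map] at h1

/-- a good list with a label `ab` in front -/
private theorem good_head {k : ℕ} {f : List (Lk s K)} {h : Lk s K} {f2 : List (Lk s K)}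
    (hg : Good (k + 1) ((f.map (fun g => g.2.ab) : List (K × K)) : Multiset (K × K)) (XX (f.map Prod.snd)))
    (hp : ((h :: f2).map (fun g => g.2.ab)).Perm (f.map (fun g => g.2.ab))) :
    ND h.2.ab ∧ NZ (XX (f.map Prod.snd)) h.2.al h.2.ab.2 := by
  have hs : ((f.map (fun g => g.2.ab) : List (K × K)) : Multiset (K × K)) =
      h.2.ab ::ₘ ((f2.map (fun g => g.2.ab) : List (K × K)) : Multiset (K × K)) := by
    rw [Multiset.cons_coe, Multiset.coe_eq_coe]
    exact hp.symm
  obtain ⟨h1, h2⟩ := hg.2 _ _ hs
  exact ⟨h1, (h2 _ (al_sq h.2)).1⟩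

theorem indep {k : ℕ} {f f' : List (Lk s K)} (hk : f.length = k) (hf : ∀ g ∈ f, g.2.ab = lab W g.1)
    (hf' : ∀ g ∈ f', g.2.ab = lab W g.1) (hp : (f'.map Prod.fst).Perm (f.map Prod.fst))
    (hsep : (f.map (fun g => g.2.ab)).Pairwise Sep)
    (hg : Good k ((f.map (fun g => g.2.ab) : List (K × K)) : Multiset (K × K)) (XX (f.map Prod.snd)))
    (hX : XX (f'.map Prod.snd) = XX (f.map Prod.snd)) (hw : (tot (f'.map Prod.snd)).w = (tot (f.map Prod.snd)).w) :
    ∃ e : ℤ, Mv f f' e := by
  induction k generalizing f f' with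
  | zero =>
    have h1 : f = [] := List.length_eq_zero_iff.1 hk
    subst h1
    have h2 : f' = [] := by
      have := hp.length_eq
      rw [List.length_map, List.map_nil, List.length_nil] at this
      exact List.length_eq_zero_iff.1 this
    subst h2
    exact ⟨1, Mv.refl _⟩
  | succ k ih =>
    have hl : f'.length = k + 1 := by
      have := hp.length_eq
      rw [List.length_map, List.length_map, hk] at this
      exact this
    obtain ⟨g', f1', rfl⟩ : ∃ g' f1', f' = g' :: f1' := by
      cases f' with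
      | nil => simp at hl
      | cons a b => exact ⟨a, b, rfl⟩
    have hg' : g'.2.ab = lab W g'.1 := hf' g' List.mem_cons_self
    -- move `g'` to the front
    have step : ∃ (f2' : List (Lk s K)) (e1 : ℤ), Mv f (g' :: f2') e1 := by
      have hβ : g'.1 ∈ f.map Prod.fst := by
        rw [← hp.mem_iff]
        exact List.mem_map.2 ⟨g', List.mem_cons_self, rfl⟩
      have hal : g'.2.al ^ 2 = (lab W g'.1).1 ^ 3 := by rw [← hg', al_sq]
      obtain ⟨h, f2, e0, hm, h1, h2⟩ := bring hk hf hsep hg hβ hal
      obtain ⟨hnd, hnz⟩ := good_head hg (mv_permab hm)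
      have hab : h.2.ab = g'.2.ab := by
        rw [mv_ab hm hf h List.mem_cons_self, h1, hg']
      obtain ⟨⟨z, hz, hgz⟩, -⟩ := peel_unique (M := XX (f.map Prod.snd)) (u1 := h.2) (u2 := g'.2)
        (M1 := XX (f2.map Prod.snd)) (M2 := XX (f1'.map Prod.snd)) hm.XX.symm hX.symm hab h2 hnd hnz
      cases f2 with
      | nil =>
        have hk0 : k = 0 := by
          have := (mv_permfst hm).length_eq
          rw [List.length_map, List.length_map, hk] at this
          simpa using this.symm
        subst hk0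
        have h1' : f1' = [] := by
          rw [List.length_cons] at hl
          exact List.length_eq_zero_iff.1 (by omega)
        subst h1'
        have h3 := hm.tot.1
        rw [← hw] at h3
        have h4 : h.2.w * 1 = g'.2.w * 1 := h3
        rw [mul_one, mul_one, hgz] at h4
        have h5 : h.2.w = z * h.2.w := h4
        obtain ⟨-, hwne, -⟩ := hnd.ne
        have hz1 : z = 1 := by
          have : (z - 1) * h.2.w = 0 := by linear_combination -h5
          exact sub_eq_zero.1 ((mul_eq_zero.1 this).resolve_right hwne)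
        have h6 : g' = h := by
          refine Prod.ext h1.symm ?_
          rw [hgz, hz1]
          ext
          · change 1 * h.2.w = h.2.w
            rw [one_mul]
          · change 1⁻¹ * h.2.v = h.2.v
            rw [inv_one, one_mul]
          · change 1 ^ 3 * h.2.y = h.2.y
            rw [one_pow, one_mul]
        exact ⟨[], e0, by rw [h6]; exact hm⟩
      | cons h' f3 =>
        have h3 := Mv.rot [] f3 h h' z hz
        rw [List.nil_append, List.nil_append] at h3
        have h6 : g' = (h.1, h.2.rot z) := Prod.ext h1.symm hgz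
        exact ⟨_, _, by rw [h6]; exact hm.trans h3⟩
    obtain ⟨f2', e1, hm⟩ := step
    obtain ⟨hnd, -⟩ := good_head hg (mv_permab hm)
    obtain ⟨-, hwne, -⟩ := hnd.ne
    have hX' : g'.2.sand (XX (f2'.map Prod.snd)) = g'.2.sand (XX (f1'.map Prod.snd)) :=
      hm.XX.trans hX.symm
    have hw' : g'.2.w * (tot (f1'.map Prod.snd)).w = g'.2.w * (tot (f2'.map Prod.snd)).w :=
      hw.trans hm.tot.1.symm
    have hs' : ((g' :: f2').map (fun g => g.2.ab)).Pairwise Sep :=
      ((mv_permab hm).pairwise_iff fun h => sep_symm h).2 hsep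
    have hg2 : Good (k + 1) (((g' :: f2').map (fun g => g.2.ab) : List (K × K)) : Multiset (K × K))
        (XX ((g' :: f2').map Prod.snd)) := by
      rw [hm.XX, Multiset.coe_eq_coe.2 (mv_permab hm)]
      exact hg
    have hlen : f2'.length = k := by
      have := (mv_permfst hm).length_eq
      rw [List.length_map, List.length_map, hk, List.length_cons] at this
      omega
    obtain ⟨e2, hm2⟩ := ih (f := f2') (f' := f1') hlen
      (fun g hg => mv_ab hm hf g (List.mem_cons_of_mem _ hg))
      (fun g hg => hf' g (List.mem_cons_of_mem _ hg))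
      (List.Perm.cons_inv (hp.trans (mv_permfst hm).symm))
      (by
        rw [List.map_cons, List.pairwise_cons] at hs'
        exact hs'.2)
      (good_tail hg2) (sand_inj hnd hX').symm (mul_left_cancel₀ hwne hw')
    exact ⟨_, hm.trans (hm2.cons g')⟩

end ES
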