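import Pool.Agent.H67.ES.MsDef
import Pool.Agent.H67.ES.Indep
import Pool.Agent.H67.ES.Vlem

/-! # ES.PsiEq : factorisations of the same matrix with the same total vertex have the same class (about 60 lines)

`indep` with `f := f0`, `f' := f1`: the base points are permuted (both are `m0.B`: `Multiset.coe_eq_coe`), `Pairwise Sep` from `SepB` (`g.2.ab = lab W g.1`, `List.map_map`, `List.map_congr_left`), `Good` (`GFac.good`; the label multiset of `f0` is `m0.B.map (lab W)`),
`XX`, `tot.w`: `∃ e, Mv f0 f1 e`.  `Mv.tot`: `v = e * v` with `v ≠ 0`, and `Mv.sgn`: `e = 1` (char 0).  `CS1` gives `Psi f1 = 1 • Psi f0`; the links are `Ok` (`OnS.I`, labels) and their base points are not zero (`OnS.ne`). -/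

namespace ES

open Polynomial H68.BB

variable {K : Type} [Field K] [IsAlgClosed K] [CharZero K] {s : ℕ} {W : Wm K s}

omit [IsAlgClosed K] [CharZero K] in
/-- the labels of a good state are nondegenerate -/
theorem good_nd {k : ℕ} {s : Multiset (K × K)} {M : Mat K} (h : Good k s M) {c : K × K} (hc : c ∈ s) : ND c := by
  match k, h with
  | 0, h =>
    rw [h.1] at hc
    exact absurd hc (Multiset.notMem_zero _)
  | k + 1, h =>
    obtain ⟨s', hs'⟩ := Multiset.exists_cons_of_mem hc
    exact (h.2 c s' hs').1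

theorem psi_eq {k : ℕ} (h1 : CS1 W k) {m0 : Ms s K} (hm0 : OnS W k m0) (hsep : SepB W m0.B) {w v : K}
    {f0 f1 : List (Lk s K)} (hf0 : GFac W k m0 w v f0) (hf1 : f1 ∈ FacS W m0 w v)
    (hX : XX (f1.map Prod.snd) = XX (f0.map Prod.snd)) : Psi W k f1 = Psi W k f0 := by
  have hm := hf0.mem
  have hl0 : ∀ g ∈ f0, g.2.ab = lab W g.1 := hm.2.1
  have hl1 : ∀ g ∈ f1, g.2.ab = lab W g.1 := hf1.2.1
  have hmap : (f0.map Prod.fst).map (lab W) = f0.map (fun g => g.2.ab) := by
    rw [List.map_map]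
    exact List.map_congr_left (fun g hg => (hl0 g hg).symm)
  have hk : f0.length = k := by
    rw [FacS_len hm]
    have h2 := hm0.st.card
    rwa [Multiset.card_map] at h2
  have hp : (f1.map Prod.fst).Perm (f0.map Prod.fst) := by
    rw [← Multiset.coe_eq_coe, hf1.1, hm.1]
  have hs : (f0.map (fun g => g.2.ab)).Pairwise Sep := by
    rw [← hmap]
    exact hsep _ hm.1
  have hB : m0.B.map (lab W) = ((f0.map (fun g => g.2.ab) : List (K × K)) : Multiset (K × K)) := by
    rw [← hm.1, Multiset.map_coe, hmap]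
  have hg : Good k ((f0.map (fun g => g.2.ab) : List (K × K)) : Multiset (K × K)) (XX (f0.map Prod.snd)) := by
    rw [← hB]
    exact hf0.good
  have ht0 : tot (f0.map Prod.snd) = ⟨w, v, m0.y⟩ := hm.2.2.2
  have ht1 : tot (f1.map Prod.snd) = ⟨w, v, m0.y⟩ := hf1.2.2.2
  obtain ⟨e, he⟩ := indep hk hl0 hl1 hp hs hg hX (by rw [ht0, ht1])
  have hv := he.tot.2.1
  rw [ht0, ht1] at hv
  have he1 : e = 1 := by
    rcases he.sgn with h | h
    · exact h
    · exfalso
      rw [h] at hv
      have h3 : (2 : K) * v = 0 := by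
        push_cast at hv
        linear_combination hv
      exact hf0.v0 ((mul_eq_zero.1 h3).resolve_left two_ne_zero)
  have hmem : ∀ g ∈ f0, g.1 ∈ m0.B := by
    intro g hg'
    rw [← hm.1]
    exact List.mem_map.2 ⟨g, hg', rfl⟩
  have hr := h1 f0 f1 e he (fun g hg' => ⟨hm0.I _ (hmem g hg'), hl0 g hg'⟩) (fun g hg' => hm0.ne _ (hmem g hg'))
    (fun g hg' => good_nd hf0.good (by rw [hl0 g hg']; exact Multiset.mem_map_of_mem _ (hmem g hg'))) hk
  rw [hr, he1, one_smul]

end ES
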