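import Pool.Agent.H67.ES.MsDef
import Pool.Agent.H67.ES.Vlem
import Pool.Agent.H67.ES.Top

/-! # ES.RotL : rotations permute the factorisations with a given cusp (about 140 lines)

`rotL_fac`: for a list `f = [g_0, .., g_(k-1)]` and `z_i^6 = 1`: labels (`ab_rot`), base points, `XX` unchanged (`sand_rot`, induction; it may be convenient to prove the statements for `List.ofFn` or for `List.zipWith` by induction on `k`,
or for `f.mapIdx`), `tot` of the rotated list is `((∏ z) T.w, (∏ z)⁻¹ T.v, (∏ z)^3 T.y)` (induction, `z_i^3 = z_i^(-3)`).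
`rotL_fcM`: `fun f => rotL k f z` maps the finite set `FacS W m w v` into itself and is injective on it (`rotL k (rotL k f z) z⁻¹ = f` for `f.length = k`), so it permutes it (`Finset.map`/`Finset.eq_of_subset_of_card_le`, `Multiset`: `Finset.image_val_of_injOn`).
If the set is infinite `fcM = 0`. -/

namespace ES

open Polynomial H68.BB

variable {K : Type} [Field K] {s k : ℕ} {W : Wm K s} {F : Type} [Field F] [CharZero F] [Algebra K F]

/-- the rotated list -/
noncomputable def rotL {F : Type} [Field F] (k : ℕ) (f : List (Lk s F)) (z : Fin k → F) : List (Lk s F) :=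
  List.ofFn fun i : Fin k => ((nth f i).1, (nth f i).2.rot (z i))

theorem rotL_length (f : List (Lk s F)) (z : Fin k → F) : (rotL k f z).length = k := by
  unfold rotL
  rw [List.length_ofFn]

theorem nth_rotL (f : List (Lk s F)) (z : Fin k → F) (i : Fin k) :
    nth (rotL k f z) i = ((nth f i).1, (nth f i).2.rot (z i)) := by
  have h : (i : ℕ) < (rotL k f z).length := by
    unfold rotL
    rw [List.length_ofFn]
    exact i.2
  have h1 : nth (rotL k f z) i = (rotL k f z)[(i : ℕ)] := by
    unfold nth
    exact List.getD_eq_getElem _ _ h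
  rw [h1]
  unfold rotL
  rw [List.getElem_ofFn]

/-- the rotated list, with a list of rotations -/
private noncomputable def rz {F : Type} [Field F] (f : List (Lk s F)) (l : List F) : List (Lk s F) :=
  List.zipWith (fun g z => (g.1, g.2.rot z)) f l

private theorem rz_nil {F : Type} [Field F] (l : List F) : rz ([] : List (Lk s F)) l = [] := by
  unfold rz
  rw [List.zipWith_nil_left]

private theorem rz_cons {F : Type} [Field F] (g : Lk s F) (f : List (Lk s F)) (z : F) (l : List F) :
    rz (g :: f) (z :: l) = (g.1, g.2.rot z) :: rz f l := by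
  unfold rz
  rw [List.zipWith_cons_cons]

private theorem rotL_rz {F : Type} [Field F] {f : List (Lk s F)} (hk : f.length = k) (z : Fin k → F) :
    rotL k f z = rz f (List.ofFn z) := by
  unfold rotL rz
  apply List.ext_getElem
  · rw [List.length_ofFn, List.length_zipWith, List.length_ofFn, hk, min_self]
  · intro i h1 h2
    have hi : i < k := by rwa [List.length_ofFn] at h1
    rw [List.getElem_ofFn, List.getElem_zipWith, List.getElem_ofFn]
    have h3 : nth f i = f[i]'(by rw [hk]; exact hi) := by
      unfold nth
      exact List.getD_eq_getElem _ _ _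
    simp only [h3]

private theorem rz_fst {F : Type} [Field F] (f : List (Lk s F)) : ∀ l : List F, f.length = l.length →
    (rz f l).map Prod.fst = f.map Prod.fst := by
  induction f with
  | nil => intro l _; rw [rz_nil]
  | cons g f ih =>
    intro l hl
    cases l with
    | nil => simp at hl
    | cons z l =>
      rw [rz_cons, List.map_cons, List.map_cons, ih l (by simpa using hl)]

private theorem rz_lab (W : Wm K s) (f : List (Lk s F)) : ∀ l : List F, f.length = l.length →
    (∀ z ∈ l, z ^ 6 = 1) → (∀ g ∈ f, g.2.ab = lab W g.1) → ∀ g ∈ rz f l, g.2.ab = lab W g.1 := by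
  induction f with
  | nil =>
    intro l _ _ _ g hg
    rw [rz_nil] at hg
    exact absurd hg List.not_mem_nil
  | cons g f ih =>
    intro l hl hz h
    cases l with
    | nil => simp at hl
    | cons z l =>
      intro g' hg'
      rw [rz_cons] at hg'
      rcases List.mem_cons.1 hg' with rfl | h1
      · change (g.2.rot z).ab = lab W g.1
        rw [ab_rot g.2 (hz z List.mem_cons_self)]
        exact h g List.mem_cons_self
      · exact ih l (by simpa using hl) (fun y hy => hz y (List.mem_cons_of_mem _ hy))
          (fun y hy => h y (List.mem_cons_of_mem _ hy)) g' h1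

private theorem rz_XX (f : List (Lk s F)) : ∀ l : List F, f.length = l.length →
    (∀ z ∈ l, z ^ 6 = 1) → XX ((rz f l).map Prod.snd) = XX (f.map Prod.snd) := by
  induction f with
  | nil => intro l _ _; rw [rz_nil]
  | cons g f ih =>
    intro l hl hz
    cases l with
    | nil => simp at hl
    | cons z l =>
      rw [rz_cons, List.map_cons, List.map_cons]
      change (g.2.rot z).sand (XX ((rz f l).map Prod.snd)) = g.2.sand (XX (f.map Prod.snd))
      rw [sand_rot g.2 (hz z List.mem_cons_self), ih l (by simpa using hl)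
        (fun y hy => hz y (List.mem_cons_of_mem _ hy))]

private theorem prod6 {F : Type} [Field F] (l : List F) (hz : ∀ z ∈ l, z ^ 6 = 1) : l.prod ^ 6 = 1 := by
  induction l with
  | nil => simp
  | cons z l ih =>
    rw [List.prod_cons, mul_pow, hz z List.mem_cons_self,
      ih (fun y hy => hz y (List.mem_cons_of_mem _ hy)), one_mul]

private theorem rz_tot {F : Type} [Field F] (f : List (Lk s F)) : ∀ l : List F, f.length = l.length →
    (∀ z ∈ l, z ^ 6 = 1) → tot ((rz f l).map Prod.snd) =
      ⟨l.prod * (tot (f.map Prod.snd)).w, l.prod⁻¹ * (tot (f.map Prod.snd)).v,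
        l.prod ^ 3 * (tot (f.map Prod.snd)).y⟩ := by
  induction f with
  | nil =>
    intro l hl _
    have : l = [] := List.length_eq_zero_iff.1 (by rw [← hl]; rfl)
    subst this
    rw [rz_nil]
    simp [tot]
  | cons g f ih =>
    intro l hl hz
    cases l with
    | nil => simp at hl
    | cons z l =>
      have h6 := prod6 l (fun y hy => hz y (List.mem_cons_of_mem _ hy))
      have hz6 := hz z List.mem_cons_self
      have hP0 : l.prod ≠ 0 := by
        intro h0
        rw [h0] at h6
        norm_num at h6
      have hz0 : z ≠ 0 := by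
        rintro rfl
        norm_num at hz6
      have hi : l.prod⁻¹ ^ 3 = l.prod ^ 3 := by
        rw [inv_pow]
        exact inv_eq_of_mul_eq_one_left (by rw [← h6]; ring)
      rw [rz_cons, List.map_cons, List.map_cons, List.prod_cons]
      unfold tot
      rw [ih l (by simpa using hl) (fun y hy => hz y (List.mem_cons_of_mem _ hy))]
      unfold Vtx.rot
      ext
      · simp only
        ring
      · simp only
        rw [mul_inv]
        ring
      · simp only
        rw [mul_pow (l.prod⁻¹), hi]
        ring

theorem rotL_fac {m : Ms s F} {w v : F} {f : List (Lk s F)} (hf : f ∈ FacS W m w v) (hk : f.length = k) {z : Fin k → F}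
    (hz : ∀ i, z i ^ 6 = 1) (h1 : ∏ i, z i = 1) : rotL k f z ∈ FacS W m w v := by
  obtain ⟨hB, hl, hX, hT⟩ := hf
  have hz' : ∀ y ∈ List.ofFn z, y ^ 6 = 1 := by
    intro y hy
    obtain ⟨i, rfl⟩ := (List.mem_ofFn' _ _).1 hy
    exact hz i
  have hlen : f.length = (List.ofFn z).length := by rw [List.length_ofFn, hk]
  have hp : (List.ofFn z).prod = 1 := by rw [List.prod_ofFn, h1]
  rw [rotL_rz hk]
  refine ⟨?_, rz_lab W f _ hlen hz' hl, ?_, ?_⟩
  · rw [rz_fst f _ hlen]
    exact hB
  · rw [rz_XX f _ hlen hz']
    exact hX
  · rw [rz_tot f _ hlen hz', hp, hT]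
    simp

private theorem rotL_injOn {F : Type} [Field F] {f f' : List (Lk s F)} (hf : f.length = k)
    (hf' : f'.length = k) {z : Fin k → F} (hz : ∀ i, z i ^ 6 = 1)
    (h : rotL k f z = rotL k f' z) : f = f' := by
  apply List.ext_getElem (hf.trans hf'.symm)
  intro i h1 h2
  have hi : i < k := by rw [← hf]; exact h1
  have h3 : (rotL k f z)[i]'(by unfold rotL; rw [List.length_ofFn]; exact hi) =
      (rotL k f' z)[i]'(by unfold rotL; rw [List.length_ofFn]; exact hi) := by
    simp only [h]
  unfold rotL at h3
  rw [List.getElem_ofFn, List.getElem_ofFn] at h3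
  have e1 : nth f i = f[i] := by
    unfold nth
    exact List.getD_eq_getElem _ _ _
  have e2 : nth f' i = f'[i] := by
    unfold nth
    exact List.getD_eq_getElem _ _ _
  simp only [e1, e2] at h3
  have hz6 := hz ⟨i, hi⟩
  have hz0 : z ⟨i, hi⟩ ≠ 0 := by
    intro h0
    rw [h0] at hz6
    norm_num at hz6
  have h4 := (Prod.mk.inj h3).1
  have h5 := (Prod.mk.inj h3).2
  unfold Vtx.rot at h5
  have h6 := (Vtx.mk.inj h5)
  refine Prod.ext h4 (Vtx.ext ?_ ?_ ?_)
  · exact mul_left_cancel₀ hz0 h6.1
  · exact mul_left_cancel₀ (inv_ne_zero hz0) h6.2.1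
  · exact mul_left_cancel₀ (pow_ne_zero 3 hz0) h6.2.2

theorem rotL_fcM {m : Ms s F} {w v : F} (hk : ∀ f ∈ FacS W m w v, f.length = k) {z : Fin k → F} (hz : ∀ i, z i ^ 6 = 1)
    (h1 : ∏ i, z i = 1) : (fcM W m w v).map (fun f => rotL k f z) = fcM W m w v := by
  classical
  by_cases h : (FacS W m w v).Finite
  · have e : fcM W m w v = h.toFinset.val := by
      unfold fcM
      rw [dif_pos h]
    rw [e]
    have hinj : Set.InjOn (fun f => rotL k f z) (h.toFinset : Set (List (Lk s F))) := by
      intro f hf f' hf' hff
      have hf1 : f ∈ FacS W m w v := h.mem_toFinset.1 (Finset.mem_coe.1 hf)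
      have hf2 : f' ∈ FacS W m w v := h.mem_toFinset.1 (Finset.mem_coe.1 hf')
      exact rotL_injOn (hk f hf1) (hk f' hf2) hz hff
    rw [← Finset.image_val_of_injOn hinj]
    congr 1
    apply Finset.eq_of_subset_of_card_le
    · intro g hg
      obtain ⟨f, hf, rfl⟩ := Finset.mem_image.1 hg
      have hf1 : f ∈ FacS W m w v := h.mem_toFinset.1 hf
      exact h.mem_toFinset.2 (rotL_fac hf1 (hk f hf1) hz h1)
    · rw [Finset.card_image_of_injOn hinj]
  · have e : fcM W m w v = 0 := by
      unfold fcM
      rw [dif_neg h]
    rw [e, Multiset.map_zero]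

end ES
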