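import Pool.Agent.H67.ES.FOpen
import Pool.Agent.H67.ES.PsiEq
import Pool.Agent.H67.ES.RotL

/-! # ES.FacLim : the limit of the multiset of all factorisations with a given cusp (about 130 lines)

`fac_open`: the set is finite and not empty.  Every `f ∈ fcM` has length `k` (`card m.B = k`).  With `z' i := algebraMap K (Om K) (z i)`:
`(Z6 k K).card • (fcM.map (ptsL k)) = (Z6 k K).val.bind (fun z => (fcM.map (fun f => rotL k f z')).map (ptsL k))` (`rotL_fcM`; a `bind` with constant value: `Multiset.bind` of a constant is `card •`)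
`= fcM.bind (fun f => (Z6 k K).val.map (fun z => ptsL k (rotL k f z')))` (`Multiset.bind_map_comm`, `Multiset.map_bind`).  For each `f` let `f1` be as in `fac_open`: the multiset of `f` has the limit
`∑ z ∈ Z6 k K, cls W (tup k f1 z) = Psi W k f1` (`Lim.map` with `A = B = (Z6 k K).val` and `r` = equality, `Multiset.Rel` of equality: `Multiset.rel_eq_refl`; `SpT`: `Sp_fin` for each point: `nth f i` reduces to `nth f1 i` for `i < k` (`RdLk`, `List.Forall₂`),
so the point of the rotated link reduces to `tup k f1 z i`; `NZ` because the base point is not zero (`OnS.ne` for `m0`)), which is `Psi W k f0` by `psi_eq`.  `Lim.bind_const`. -/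

namespace ES

open Polynomial H68.BB

variable {K : Type} [Field K] [IsAlgClosed K] [CharZero K] {s : ℕ} {W : Wm K s} {π : Place K (Om K)}

private theorem fl_Z6 {F : Type} [Field F] {k : ℕ} {z : Fin k → F} (h : z ∈ Z6 k F) :
    (∀ i, z i ^ 6 = 1) ∧ ∏ i, z i = 1 := by
  classical
  unfold Z6 at h
  rw [Finset.mem_filter, Fintype.mem_piFinset] at h
  refine ⟨fun i => ?_, h.2⟩
  have h1 := h.1 i
  unfold mu6 at h1
  rwa [mem_nthRootsFinset (by norm_num)] at h1

private theorem fl_ne {F : Type} [Field F] {z : F} (h : z ^ 6 = 1) : z ≠ 0 := by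
  rintro rfl
  norm_num at h

private theorem fl_nth {F : Type} [Field F] {k : ℕ} {f : List (Lk s F)} (hf : f.length = k) (i : Fin k) :
    nth f i = f[(i : ℕ)]'(by rw [hf]; exact i.2) := by
  unfold nth
  exact List.getD_eq_getElem _ _ _

private theorem fl_red {k : ℕ} {f : List (Lk s (Om K))} {f1 : List (Lk s K)} (h : List.Forall₂ (RdLk π) f f1)
    (hf : f.length = k) (i : Fin k) : RdLk π (nth f i) (nth f1 i) := by
  have hf1 : f1.length = k := by rw [← h.length_eq, hf]
  rw [fl_nth hf, fl_nth hf1]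
  have h1 := (List.forall₂_iff_get.1 h).2 i (by rw [hf]; exact i.2) (by rw [hf1]; exact i.2)
  exact h1

private theorem fl_bind {α β : Type} (A : Multiset α) (c : Multiset β) : A.bind (fun _ => c) = Multiset.card A • c := by
  induction A using Multiset.induction_on with
  | empty => simp
  | cons x A ih => rw [Multiset.cons_bind, ih, Multiset.card_cons, succ_nsmul']

theorem fac_lim {k : ℕ} (hk : 0 < k) (h1 : CS1 W k) {m : Ms s (Om K)} {m0 : Ms s K} (hm : OnS W k m) (hm0 : OnS W k m0)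
    (hsep : SepB W m0.B) (hr : RdS π m m0) {z : K} (hz : z ^ 3 = 1) {w v : Om K} {w0 v0 : K} (hw : Rd π.V π.φ w w0)
    (hv : Rd π.V π.φ v v0) (hwv : (w * v) ^ 2 = m.A W)
    (hx : algebraMap K (Om K) z * w ^ 2 + algebraMap K (Om K) z ^ 2 * v ^ 2 = m.x) {f0 : List (Lk s K)}
    (hf : GFac W k m0 w0 v0 f0) :
    0 < Multiset.card (fcM W m w v) ∧
      Lim W π ((Z6 k K).card • (fcM W m w v).map (ptsL k)) (Multiset.card (fcM W m w v) • Psi W k f0) := by
  have := π.isLocal
  obtain ⟨hfin, hne, hred⟩ := fac_open hk hm hm0 hr hz hw hv hwv hx hf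
  have hlen : ∀ f ∈ FacS W m w v, f.length = k := by
    intro f h
    rw [FacS_len h, ← hm.st.card, Multiset.card_map]
  refine ⟨?_, ?_⟩
  · obtain ⟨f, h⟩ := hne
    exact Multiset.card_pos_iff_exists_mem.2 ⟨f, (fcM_iff hfin).2 h⟩
  have key : (Z6 k K).card • (fcM W m w v).map (ptsL k) = (fcM W m w v).bind fun f => (Z6 k K).val.map fun y =>
      ptsL k (rotL k f fun i => algebraMap K (Om K) (y i)) := by
    rw [Multiset.bind_map_comm]
    have e5 := fl_bind (Z6 k K).val ((fcM W m w v).map (ptsL k))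
    rw [Finset.card_val] at e5
    rw [← e5]
    refine Multiset.bind_congr fun y hy => ?_
    obtain ⟨hy6, hy1⟩ := fl_Z6 (Finset.mem_def.2 hy)
    have e := rotL_fcM (W := W) (m := m) (w := w) (v := v) hlen
      (z := fun i => algebraMap K (Om K) (y i)) (fun i => by rw [← map_pow, hy6 i, map_one])
      (by rw [← map_prod, hy1, map_one])
    conv_lhs => rw [← e]
    rw [Multiset.map_map]
    rfl
  rw [key]
  refine Lim.bind_const _ _ _ fun f hfm => ?_
  have hfS := fcM_mem hfm
  obtain ⟨f1, hf1, hg1, hX⟩ := hred f hfS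
  rw [← psi_eq h1 hm0 hsep hf hg1.mem hX]
  have hl := hlen f hfS
  have hl1 : f1.length = k := by rw [← hf1.length_eq, hl]
  have e3 : Psi W k f1 = ((Z6 k K).val.map (fun y => cls W (tup k f1 y))).sum := rfl
  rw [e3]
  refine Lim.map (r := fun x y => x = y) (Multiset.rel_eq.2 rfl) _ _ ?_
  rintro y hy y' - rfl
  obtain ⟨hy6, hy1⟩ := fl_Z6 (Finset.mem_def.2 hy)
  intro i
  have hy0 : y i ≠ 0 := fl_ne (hy6 i)
  have hyy : Rd π.V π.φ (algebraMap K (Om K) (y i)) (y i) := π.const _
  have hb : (nth f1 i).1 ∈ m0.B := by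
    rw [← hg1.mem.1, fl_nth hl1]
    exact Multiset.mem_coe.2 (List.mem_map_of_mem (List.getElem_mem _))
  have hR := fl_red hf1 hl i
  have e4 : ptsL k (rotL k f fun i => algebraMap K (Om K) (y i)) i
      = Lk.pt ((nth f i).1, (nth f i).2.rot (algebraMap K (Om K) (y i))) := by
    unfold ptsL
    rw [nth_rotL]
  rw [e4]
  refine Sp_fin (Or.inl (hm0.ne _ hb)) ?_ ?_ ?_
  · intro j
    exact hR.1 j
  · show Rd π.V π.φ ((algebraMap K (Om K) (y i) * (nth f i).2.w) ^ 2 + ((algebraMap K (Om K) (y i))⁻¹ * (nth f i).2.v) ^ 2)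
        ((y i * (nth f1 i).2.w) ^ 2 + ((y i)⁻¹ * (nth f1 i).2.v) ^ 2)
    exact ((hyy.mul hR.2.w).pow 2).add (((hyy.inv hy0).mul hR.2.v).pow 2)
  · show Rd π.V π.φ (algebraMap K (Om K) (y i) ^ 3 * (nth f i).2.y) (y i ^ 3 * (nth f1 i).2.y)
    exact (hyy.pow 3).mul hR.2.y

end ES
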