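import Pool.Agent.H67.ES.MapL

/-! # ES.FacSig : automorphisms permute the factorisations (about 120 lines)

`Σ f := f.map (Lk.map σ)` (`Lk.map` maps the base point and the vertex).  `f ∈ FacS W m w v` implies `Σ f ∈ FacS W (m.map σ) (σ w) (σ v)` (`MapL`: `ab_map`, `lab_sigma`, `XX_map`, `scale_map` with `σ c`, `tot_map`; `List.map_map`), and
conversely with `σ.symm`: so `FacS W (m.map σ) (σ w) (σ v) = Σ '' FacS W m w v`, `Σ` is injective.  If the set is infinite both sides are `0`; otherwise `Finset.map`/`Finset.image` of an injective function: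
`toFinset` of the image is the `image` of `toFinset`, `Finset.image_val_of_injOn`. -/

namespace ES

open Polynomial H68.BB

variable {K : Type} [Field K] {s : ℕ} {W : Wm K s}

private theorem facS_map (σ : Om K ≃ₐ[RatFunc K] Om K) {m : Ms s (Om K)} {w v : Om K} {f : List (Lk s (Om K))}
    (h : f ∈ FacS W m w v) :
    f.map (Lk.map σ) ∈ FacS W (m.map (σ : Om K →+* Om K)) (σ w) (σ v) := by
  obtain ⟨h1, h2, ⟨c, hc, h3⟩, h4⟩ := h
  have e2 : (f.map (Lk.map σ)).map Prod.snd = (f.map Prod.snd).map (Vtx.map (σ : Om K →+* Om K)) := by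
    rw [List.map_map, List.map_map]
    rfl
  refine ⟨?_, ?_, ⟨σ c, ?_, ?_⟩, ?_⟩
  · have e1 : (f.map (Lk.map σ)).map Prod.fst = (f.map Prod.fst).map (fun β i => σ (β i)) := by
      rw [List.map_map, List.map_map]
      rfl
    rw [e1, ← Multiset.map_coe, h1]
    rfl
  · intro g hg
    obtain ⟨g0, hg0, rfl⟩ := List.mem_map.1 hg
    have e3 : (Lk.map σ g0).2.ab = (g0.2.map (σ : Om K →+* Om K)).ab := rfl
    have e4 : lab W (Lk.map σ g0).1 = (σ (lab W g0.1).1, σ (lab W g0.1).2) := lab_sigma W σ g0.1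
    rw [e3, ab_map, e4, h2 g0 hg0]
    rfl
  · exact (map_ne_zero_iff _ σ.injective).2 hc
  · rw [e2, XX_map, h3, scale_map]
    rfl
  · rw [e2, tot_map, h4]
    rfl

private theorem ms_symm (σ : Om K ≃ₐ[RatFunc K] Om K) (m : Ms s (Om K)) :
    (m.map (σ : Om K →+* Om K)).map (σ.symm : Om K →+* Om K) = m := by
  have h1 : ∀ x : Om K, (σ.symm : Om K →+* Om K) ((σ : Om K →+* Om K) x) = x := fun x => σ.symm_apply_apply x
  have h2 : (σ.symm : Om K →+* Om K).comp (σ : Om K →+* Om K) = RingHom.id _ := RingHom.ext h1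
  unfold Ms.map
  ext1
  · rw [Multiset.map_map]
    conv_rhs => rw [← Multiset.map_id m.B]
    refine Multiset.map_congr rfl fun β _ => ?_
    funext i
    exact h1 _
  · exact h1 _
  · exact h1 _
  · ext1 i j
    show Polynomial.map _ (Polynomial.map _ (m.M i j)) = m.M i j
    rw [Polynomial.map_map, h2, Polynomial.map_id]

private theorem lk_symm (σ : Om K ≃ₐ[RatFunc K] Om K) (f : List (Lk s (Om K))) :
    (f.map (Lk.map σ)).map (Lk.map σ.symm) = f := by
  rw [List.map_map]
  conv_rhs => rw [← List.map_id f]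
  refine List.map_congr_left fun g _ => ?_
  show Lk.map σ.symm (Lk.map σ g) = g
  unfold Lk.map Vtx.map
  ext1
  · funext i
    exact σ.symm_apply_apply _
  · ext1
    · exact σ.symm_apply_apply _
    · exact σ.symm_apply_apply _
    · exact σ.symm_apply_apply _

private theorem lk_inj (σ : Om K ≃ₐ[RatFunc K] Om K) :
    Function.Injective (List.map (Lk.map (s := s) (σ : Om K → Om K))) := by
  intro f g h
  have h1 := congrArg (List.map (Lk.map (s := s) (σ.symm : Om K → Om K))) h
  rwa [lk_symm, lk_symm] at h1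

private theorem facS_image (σ : Om K ≃ₐ[RatFunc K] Om K) (m : Ms s (Om K)) (w v : Om K) :
    FacS W (m.map (σ : Om K →+* Om K)) (σ w) (σ v) = List.map (Lk.map σ) '' FacS W m w v := by
  ext f
  constructor
  · intro h
    have h1 := facS_map σ.symm h
    rw [ms_symm, σ.symm_apply_apply, σ.symm_apply_apply] at h1
    refine ⟨_, h1, ?_⟩
    exact lk_symm σ.symm f
  · rintro ⟨g, hg, rfl⟩
    exact facS_map σ hg

theorem fcM_sigma (σ : Om K ≃ₐ[RatFunc K] Om K) (m : Ms s (Om K)) (w v : Om K) :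
    fcM W (m.map (σ : Om K →+* Om K)) (σ w) (σ v) = (fcM W m w v).map (List.map (Lk.map σ)) := by
  have him := facS_image (W := W) σ m w v
  by_cases h : (FacS W m w v).Finite
  · have h' : (FacS W (m.map (σ : Om K →+* Om K)) (σ w) (σ v)).Finite := by
      rw [him]
      exact h.image _
    refine (Multiset.Nodup.ext (fcM_nodup W _ _ _) ((fcM_nodup W m w v).map (lk_inj σ))).2 fun f => ?_
    rw [fcM_iff h', him, Multiset.mem_map]
    constructor
    · rintro ⟨g, hg, rfl⟩
      exact ⟨g, (fcM_iff h).2 hg, rfl⟩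
    · rintro ⟨g, hg, rfl⟩
      exact ⟨g, (fcM_iff h).1 hg, rfl⟩
  · have h' : ¬ (FacS W (m.map (σ : Om K →+* Om K)) (σ w) (σ v)).Finite := by
      rw [him, Set.finite_image_iff (lk_inj σ).injOn]
      exact h
    unfold fcM
    rw [dif_neg h, dif_neg h', Multiset.map_zero]

theorem A_sigma (σ : Om K ≃ₐ[RatFunc K] Om K) (m : Ms s (Om K)) : (m.map (σ : Om K →+* Om K)).A W = σ (m.A W) := by
  unfold Ms.A Ms.map
  rw [map_multiset_prod, Multiset.map_map, Multiset.map_map]
  congr 1
  refine Multiset.map_congr rfl fun β _ => ?_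
  exact congrArg Prod.fst (lab_sigma W σ β)

theorem ptsL_sigma {k : ℕ} (σ : Om K ≃ₐ[RatFunc K] Om K) {f : List (Lk s (Om K))} (hk : f.length = k) :
    ptsL k (f.map (Lk.map σ)) = fun i => (ptsL k f i).map σ := by
  funext i
  have hi : (i : ℕ) < f.length := hk ▸ i.2
  unfold ptsL nth
  rw [List.getD_eq_getElem _ _ (by rw [List.length_map]; exact hi), List.getD_eq_getElem _ _ hi, List.getElem_map]
  generalize f[(i : ℕ)] = g
  unfold Lk.pt Lk.map Pt.map Vtx.map
  ext1
  · rfl
  · show σ g.2.w ^ 2 + σ g.2.v ^ 2 = σ (g.2.w ^ 2 + g.2.v ^ 2)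
    rw [map_add, map_pow, map_pow]
  · rfl

end ES
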