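import Pool.Agent.H67.ES.Vlem
import Pool.Agent.H67.ES.RdPl
import Pool.Agent.H67.ES.Cof

/-! # ES.GenV : the generic vertex near a vertex with `y = 0` (about 80 lines)

`w := cs u0.w + tt K`, `v := cs (u0.w * u0.v) / w`, `y^2 = w^6 + v^6 - 2 cs b` (`Om K` is algebraically closed; `b = u0.ab.2`; `w ≠ 0`: otherwise `tt K` would be a constant, `tt_ne`).  `ab`: `(w v)^2 = cs (u0.w u0.v)^2`, `(w^6 + v^6 - y^2)/2 = cs b`; `al = cs (u0.w u0.v)^3`.
If `tt` reduces to `0`: `w` reduces to `u0.w ≠ 0` (`ND`: `a = (u0.w u0.v)^2 ≠ 0`), `v` to `u0.v` (`Rd.inv`), `y^2` to `u0.w^6 + u0.v^6 - 2 b = u0.y^2 = 0`, so `y ∈ V` (`mem_of_pow`), `y → y'` with `y'^2 = 0`. -/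

namespace ES

open Polynomial H68.BB
open H67.KH (mem_of_root rd_of_mem rd_cst)

variable {K : Type} [Field K] [IsAlgClosed K] [CharZero K]

/-- the vertex with `-y` -/
def Vtx.neg {F : Type} [Field F] (u : Vtx F) : Vtx F := ⟨u.w, u.v, -u.y⟩

theorem neg_ab {F : Type} [Field F] (u : Vtx F) : u.neg.ab = u.ab ∧ u.neg.al = u.al := by
  refine ⟨?_, rfl⟩
  unfold Vtx.ab Vtx.neg
  simp only [neg_sq]

theorem gen_vtx {u0 : Vtx K} (hy : u0.y = 0) (hnd : ND u0.ab) : ∃ U : Vtx (Om K),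
    U.w = algebraMap K (Om K) u0.w + tt K ∧ U.ab = cstL u0.ab ∧ U.al = algebraMap K (Om K) u0.al ∧
    ∀ π : Place K (Om K), Rd π.V π.φ (tt K) 0 → RdV π U u0 ∧ RdV π U.neg u0 := by
  set w : Om K := algebraMap K (Om K) u0.w + tt K with hw
  have hw0 : w ≠ 0 := by
    intro h
    have h1 : tt K = algebraMap K (Om K) (-u0.w) := by
      rw [map_neg]; linear_combination h
    exact tt_ne K _ h1
  have hu0 : u0.w ≠ 0 := by
    intro h
    apply hnd.a
    unfold Vtx.ab
    simp only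
    rw [h]; ring
  set v : Om K := algebraMap K (Om K) (u0.w * u0.v) / w with hv
  have hwv : w * v = algebraMap K (Om K) (u0.w * u0.v) := by
    rw [hv]; field_simp
  obtain ⟨y, hy2⟩ := IsAlgClosed.exists_pow_nat_eq (w ^ 6 + v ^ 6 - 2 * algebraMap K (Om K) u0.ab.2) (n := 2) (by norm_num)
  have h2 : (2 : Om K) ≠ 0 := two_ne_zero
  have h2K : (2 : K) ≠ 0 := two_ne_zero
  refine ⟨⟨w, v, y⟩, rfl, ?_, ?_, ?_⟩
  · unfold Vtx.ab cstL
    simp only
    rw [hwv, hy2]
    refine Prod.ext ?_ ?_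
    · simp only
      rw [← map_pow]
    · simp only
      rw [show w ^ 6 + v ^ 6 - (w ^ 6 + v ^ 6 - 2 * algebraMap K (Om K) u0.ab.2) =
        2 * algebraMap K (Om K) u0.ab.2 by ring, mul_div_cancel_left₀ _ h2]
      rfl
  · unfold Vtx.al
    simp only
    rw [hwv, ← map_pow]
  · intro π ht
    have := π.isLocal
    have rw0 : Rd π.V π.φ w u0.w := by
      have h := Rd.add (π.const u0.w) ht
      rwa [add_zero] at h
    have rv0 : Rd π.V π.φ v u0.v := by
      have h := Rd.div (π.const (u0.w * u0.v)) rw0 hu0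
      rwa [mul_div_cancel_left₀ _ hu0] at h
    have ry2 : Rd π.V π.φ (y ^ 2) 0 := by
      rw [hy2]
      have hb : u0.w ^ 6 + u0.v ^ 6 - 2 * u0.ab.2 = 0 := by
        unfold Vtx.ab
        simp only
        rw [hy]
        field_simp
        ring
      rw [← hb]
      exact ((rw0.pow 6).add (rv0.pow 6)).sub (Rd.two.mul (π.const _))
    obtain ⟨y', hy'⟩ := rd_of_mem (mem_of_pow (π := π) (z := y) (n := 2) (by norm_num) ry2.mem)
    have hy0 : y' = u0.y := by
      rw [hy]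
      have h := (hy'.pow 2).unique ry2
      exact pow_eq_zero_iff (by norm_num) |>.1 h
    rw [hy0] at hy'
    refine ⟨⟨rw0, rv0, hy'⟩, ⟨rw0, rv0, ?_⟩⟩
    have h := hy'.neg
    rw [hy, neg_zero, ← hy] at h
    exact h

/-- a vertex which reduces to `u1` and has the constant label `c`, the constant `al` -/
theorem rd_lab {π : Place K (Om K)} {U : Vtx (Om K)} {u1 : Vtx K} (h : RdV π U u1) {c : K × K} {al : K} (hc : U.ab = cstL c)
    (hal : U.al = algebraMap K (Om K) al) : u1.ab = c ∧ u1.al = al := by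
  have h1 := h.ab
  rw [hc] at h1
  have h3 : Rd π.V π.φ U.al u1.al := (h.w.mul h.v).pow 3
  rw [hal] at h3
  exact ⟨Prod.ext (h1.1.unique (π.const c.1)) (h1.2.unique (π.const c.2)), h3.unique (π.const al)⟩

end ES
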