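import Pool.Agent.H67.ES.Mdef
import Pool.Agent.H71.ES.CNrm

/-! # ES.MdlSt : the matrix of a model point satisfies the state conditions (about 180 lines)

`mdlM k m = (-1)^k [[t + X s, -u],[v, t - X s]]` at `X^2`.  `F` is infinite, conditions are evaluated at `x`.
`card`: `splits` over an algebraically closed field.  `deg`: `natDegree_comp`, `k ≥ 1`.  `s..`: obvious.  `r..`: for `p` with `natDegree ≤ d` and `p.coeff (d - i) = e * p.coeff i` (`i ≤ d`) one has `x^d p(1/x) = e p(x)`; apply it with `x^2` for `x`, `d = k`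
(`t`, `u`, `v`) and `d = k - 1` (`s`; multiply by `x`).
`det`: `((-1)^k)^2 = 1`, `(t + X s)(t - X s) + u v` at `X^2` is `(t^2 + u v - X s^2).comp (X^2) = (NN n k a b q).comp (X^2)`, and `NN` is the product over the roots of `q` (`H71.ES.NN_prod` in `CNrm`) of `a(r)^3 (X+1)^2 - 4 b(r)^2 X`.
`ev`: `i^2 = -1`: `(M 0 0)(i) = (-1)^k (t(-1) + i s(-1))`, `s(-1) = 0` (`ps`: `s_(k-1-j) (-1)^(k-1-j) = - s_j (-1)^j`), `t(-1) = 2^k NB = 2^k ∏ b(r)` (`nrm_prod`). -/

namespace ES

open Polynomial H68.BB H71.ES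

variable {K : Type} [Field K] {F : Type} [Field F] [Algebra K F]

/-- the matrix of a model point -/
noncomputable def mdlM (k : ℕ) (m : Mdl F) : Mat F :=
  (C ((-1 : F) ^ k)) • !![m.t.comp (X ^ 2) + X * m.s.comp (X ^ 2), -m.u.comp (X ^ 2);
    m.v.comp (X ^ 2), m.t.comp (X ^ 2) - X * m.s.comp (X ^ 2)]

private theorem m00 (k : ℕ) (m : Mdl F) : mdlM k m 0 0 =
    C ((-1 : F) ^ k) * (m.t.comp (X ^ 2) + X * m.s.comp (X ^ 2)) := by
  simp [mdlM]

private theorem m01 (k : ℕ) (m : Mdl F) : mdlM k m 0 1 =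
    C ((-1 : F) ^ k) * (-m.u.comp (X ^ 2)) := by
  simp [mdlM]

private theorem m10 (k : ℕ) (m : Mdl F) : mdlM k m 1 0 =
    C ((-1 : F) ^ k) * (m.v.comp (X ^ 2)) := by
  simp [mdlM]

private theorem m11 (k : ℕ) (m : Mdl F) : mdlM k m 1 1 =
    C ((-1 : F) ^ k) * (m.t.comp (X ^ 2) - X * m.s.comp (X ^ 2)) := by
  simp [mdlM]

private theorem sq1 (k : ℕ) : ((-1 : F) ^ k) * ((-1 : F) ^ k) = 1 := by
  rw [← mul_pow]; simp

/-- palindromic polynomials -/
private theorem pal_eval {p : F[X]} {d : ℕ} {e : F} (hd : p.natDegree ≤ d)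
    (hp : ∀ i ≤ d, p.coeff (d - i) = e * p.coeff i) {x : F} (hx : x ≠ 0) :
    x ^ d * p.eval x⁻¹ = e * p.eval x := by
  rw [eval_eq_sum_range' (Nat.lt_succ_of_le hd), eval_eq_sum_range' (Nat.lt_succ_of_le hd),
    Finset.mul_sum, Finset.mul_sum, ← Finset.sum_range_reflect]
  refine Finset.sum_congr rfl fun i hi => ?_
  have hi' : i ≤ d := Nat.lt_succ_iff.1 (Finset.mem_range.1 hi)
  have h1 : d + 1 - 1 - i = d - i := by omega
  rw [h1, hp i hi', inv_pow]
  have h2 : x ^ d = x ^ i * x ^ (d - i) := by rw [← pow_add]; congr 1; omega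
  rw [h2]
  field_simp

private theorem deg2 {p : F[X]} {d : ℕ} (hd : p.natDegree ≤ d) :
    (p.comp (X ^ 2)).natDegree ≤ 2 * d := by
  refine natDegree_comp_le.trans ?_
  rw [natDegree_X_pow, mul_comm]
  omega

private theorem degC {p : F[X]} {d : ℕ} {c : F} (hd : p.natDegree ≤ d) :
    (C c * p).natDegree ≤ d := (natDegree_C_mul_le _ _).trans hd

theorem mdl_st [CharZero F] [IsAlgClosed F] {n k : ℕ} (hk : 0 < k) {a b : K[X]} (ha : a.natDegree ≤ 4 * n)
    (hb : b.natDegree ≤ 6 * n) {m : Mdl F} (h : OnM0 n k a b m) :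
    St k (m.q.roots.map (fun t => (aeval t a, aeval t b))) (mdlM k m) := by
  have hsp : m.q.Splits := IsAlgClosed.splits m.q
  obtain ⟨hdt, hdu, hdv, hds, hpt, hpu, hpv, hps⟩ := h.pal
  have hXs : (X * m.s.comp (X ^ 2)).natDegree ≤ 2 * k := by
    refine natDegree_mul_le.trans ?_
    have h1 := deg2 hds
    rw [natDegree_X]
    omega
  -- palindromic identities
  have et : ∀ x : F, x ≠ 0 → x ^ (2 * k) * m.t.eval ((x⁻¹) ^ 2) = (-1) ^ k * m.t.eval (x ^ 2) := by
    intro x hx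
    have h1 := pal_eval hdt hpt (x := x ^ 2) (pow_ne_zero 2 hx)
    rw [← pow_mul, ← inv_pow] at h1
    exact h1
  have eu : ∀ x : F, x ≠ 0 → x ^ (2 * k) * m.u.eval ((x⁻¹) ^ 2) = -(-1) ^ k * m.u.eval (x ^ 2) := by
    intro x hx
    have h1 := pal_eval hdu hpu (x := x ^ 2) (pow_ne_zero 2 hx)
    rw [← pow_mul, ← inv_pow] at h1
    exact h1
  have ev : ∀ x : F, x ≠ 0 → x ^ (2 * k) * m.v.eval ((x⁻¹) ^ 2) = -(-1) ^ k * m.v.eval (x ^ 2) := by
    intro x hx
    have h1 := pal_eval hdv hpv (x := x ^ 2) (pow_ne_zero 2 hx)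
    rw [← pow_mul, ← inv_pow] at h1
    exact h1
  have es : ∀ x : F, x ≠ 0 → x ^ (2 * k) * (x⁻¹ * m.s.eval ((x⁻¹) ^ 2)) =
      (-1) ^ k * (x * m.s.eval (x ^ 2)) := by
    intro x hx
    have h1 := pal_eval hds hps (x := x ^ 2) (pow_ne_zero 2 hx)
    rw [← pow_mul, ← inv_pow] at h1
    have h2 : x ^ (2 * k) = x ^ (2 * (k - 1)) * x * x := by
      rw [mul_assoc, ← sq, ← pow_add]; congr 1; omega
    rw [h2]
    have h3 : x ^ (2 * (k - 1)) * x * x * (x⁻¹ * m.s.eval ((x⁻¹) ^ 2)) =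
        x * (x ^ (2 * (k - 1)) * m.s.eval ((x⁻¹) ^ 2)) := by
      field_simp
    rw [h3, h1]
    ring
  refine ⟨?_, ?_, ?_, ?_, ?_, ?_, ?_, ?_, ?_, ?_⟩
  · rw [Multiset.card_map, ← h.deg]
    exact hsp.natDegree_eq_card_roots.symm
  · intro i j
    fin_cases i <;> fin_cases j
    · show (mdlM k m 0 0).natDegree ≤ 2 * k
      rw [m00]
      exact degC (natDegree_add_le_of_degree_le (deg2 hdt) hXs)
    · show (mdlM k m 0 1).natDegree ≤ 2 * k
      rw [m01]
      exact degC (by rw [natDegree_neg]; exact deg2 hdu)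
    · show (mdlM k m 1 0).natDegree ≤ 2 * k
      rw [m10]
      exact degC (deg2 hdv)
    · show (mdlM k m 1 1).natDegree ≤ 2 * k
      rw [m11]
      exact degC (natDegree_sub_le_of_le (deg2 hdt) hXs |>.trans (by simp))
  · intro x
    rw [m00, m11]
    simp only [eval_mul, eval_C, eval_add, eval_sub, eval_comp, eval_pow, eval_X]
    rw [neg_sq]
    ring
  · intro x
    rw [m01]
    simp only [eval_mul, eval_C, eval_neg, eval_comp, eval_pow, eval_X]
    rw [neg_sq]
  · intro x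
    rw [m10]
    simp only [eval_mul, eval_C, eval_comp, eval_pow, eval_X]
    rw [neg_sq]
  · intro x hx
    rw [m00]
    simp only [eval_mul, eval_C, eval_add, eval_comp, eval_pow, eval_X]
    have h1 := et x hx
    have h2 := es x hx
    linear_combination ((-1 : F) ^ k) * h1 + ((-1 : F) ^ k) * h2
  · intro x hx
    rw [m01]
    simp only [eval_mul, eval_C, eval_neg, eval_comp, eval_pow, eval_X]
    have h1 := eu x hx
    linear_combination (-(-1 : F) ^ k) * h1
  · intro x hx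
    rw [m10]
    simp only [eval_mul, eval_C, eval_comp, eval_pow, eval_X]
    have h1 := ev x hx
    linear_combination ((-1 : F) ^ k) * h1
  · rw [Matrix.det_fin_two, m00, m01, m10, m11]
    have h1 : C ((-1 : F) ^ k) * C ((-1 : F) ^ k) = (1 : F[X]) := by
      rw [← C_mul, sq1, C_1]
    have h2 : (m.t ^ 2 + m.u * m.v - X * m.s ^ 2).comp (X ^ 2) = (NN n k a b m.q).comp (X ^ 2) := by
      rw [h.det]
    rw [NN_prod ha hb h.monic h.deg hsp, Polynomial.multiset_prod_comp] at h2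
    rw [Multiset.map_map] at h2 ⊢
    have h3 : (Multiset.map ((fun p => p.comp (X ^ 2 : F[X])) ∘ fun r =>
        C ((aeval r a) ^ 3) * (X + 1) ^ 2 - C (4 * (aeval r b) ^ 2) * X) m.q.roots) =
        (Multiset.map ((fun c : F × F => C (c.1 ^ 3) * (X ^ 2 + 1) ^ 2 - C (4 * c.2 ^ 2) * X ^ 2) ∘
          fun t => (aeval t a, aeval t b)) m.q.roots) := by
      refine Multiset.map_congr rfl fun r _ => ?_
      simp only [Function.comp_apply, sub_comp, mul_comp, pow_comp, add_comp, C_comp, X_comp, one_comp]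
    rw [← h3, ← h2]
    simp only [sub_comp, add_comp, mul_comp, pow_comp, X_comp]
    linear_combination (m.t.comp (X ^ 2) ^ 2 + m.u.comp (X ^ 2) * m.v.comp (X ^ 2)
      - X ^ 2 * m.s.comp (X ^ 2) ^ 2) * h1
  · intro i hi
    rw [m00]
    simp only [eval_mul, eval_C, eval_add, eval_comp, eval_pow, eval_X, hi]
    have hs0 : m.s.eval (-1) = 0 := by
      have h1 := pal_eval hds hps (x := (-1 : F)) (by simp)
      have h2 : ((-1 : F))⁻¹ = -1 := by norm_num
      rw [h2] at h1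
      have h3 : ((-1 : F)) ^ k = -((-1) ^ (k - 1)) := by
        obtain ⟨j, rfl⟩ : ∃ j, k = j + 1 := ⟨k - 1, by omega⟩
        rw [pow_succ]
        simp
      rw [h3] at h1
      have h4 : ((-1 : F) ^ (k - 1)) ≠ 0 := pow_ne_zero _ (by simp)
      have h5 : ((-1 : F) ^ (k - 1)) * (2 * m.s.eval (-1)) = 0 := by linear_combination h1
      rcases mul_eq_zero.1 h5 with h6 | h6
      · exact absurd h6 h4
      · rcases mul_eq_zero.1 h6 with h7 | h7
        · exact absurd h7 two_ne_zero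
        · exact h7
    rw [hs0, h.tm1, NB_prod hb h.monic h.deg hsp, Multiset.map_map]
    have h1 : (Multiset.map (Prod.snd ∘ fun t => ((aeval t) a, (aeval t) b)) m.q.roots) =
        (Multiset.map (fun r => (aeval r) b) m.q.roots) := rfl
    rw [h1]
    have h2 : ((-2 : F)) ^ k = (-1) ^ k * 2 ^ k := by rw [← mul_pow]; norm_num
    rw [h2]
    ring

/-- the leading coefficient -/
theorem mdlM_top {n k : ℕ} (hk : 0 < k) {a b : K[X]} {m : Mdl F} (h : OnM0 n k a b m) :
    (mdlM k m 0 0).coeff (2 * k) = m.t.coeff 0 := by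
  rw [m00, coeff_C_mul, coeff_add, ← expand_eq_comp_X_pow, ← expand_eq_comp_X_pow]
  have h1 : (X * (expand F 2) m.s).coeff (2 * k) = 0 := by
    obtain ⟨j, rfl⟩ : ∃ j, k = j + 1 := ⟨k - 1, by omega⟩
    have : 2 * (j + 1) = (2 * j + 1) + 1 := by ring
    rw [this, coeff_X_mul, coeff_expand (by norm_num), if_neg (by omega)]
  rw [h1, add_zero, coeff_expand (by norm_num), if_pos (dvd_mul_right 2 k),
    Nat.mul_div_cancel_left k (by norm_num)]
  have h2 := h.pal.pt 0 (Nat.zero_le k)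
  rw [Nat.sub_zero] at h2
  rw [h2, ← mul_assoc, sq1, one_mul]

end ES
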