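import Pool.Agent.H67.ES.Vlem

/-! # ES.MvLem : what a chain of moves preserves (about 150 lines)

All by induction on `Mv` (and on `pre` for `XX`, `tot`; `List.map_append`).  `XX`: `Recut` gives `LL g1 * LL g2 = LL h2 * LL h1` and `LS g2 * LS g1 = LS h1 * LS h2` (entries), `sand_rot`, `sand_flip_one`.
`tot`: `w`, `v` are multiplicative; `y`: the upper right entry of the product of the matrices `[[w^3, y],[0, v^3]]`; for `Recut` add `pp` and `mm`: `p1 p2 + ms1 m2 = 2 (w1^3 w2^3 + v1^3 v2^3 + w1^3 y2 + y1 v2^3)`.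
`rot` of neighbours: `w1^3 z^3 z^(-3) y2 + z^3 y1 z^3 v2^3` with `z^6 = 1`.  `flip`: the last factor `[[w^3, y],[0, v^3]]` becomes `[[w^3, -y],[0, -v^3]]`. -/

namespace ES

open Polynomial H68.BB

variable {s : ℕ} {F : Type} [Field F] [CharZero F]

theorem Mv.cons {f f' : List (Lk s F)} {e : ℤ} (h : Mv f f' e) (g : Lk s F) : Mv (g :: f) (g :: f') e := by
  induction h with
  | refl f => exact Mv.refl _
  | recut pre suf g1 g2 h2 h1 hr e1 e2 n1 n2 hne => exact Mv.recut (g :: pre) suf g1 g2 h2 h1 hr e1 e2 n1 n2 hne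
  | rot pre suf g1 g2 z hz => exact Mv.rot (g :: pre) suf g1 g2 z hz
  | flip pre g' => exact Mv.flip (g :: pre) g'
  | trans _ _ ih1 ih2 => exact Mv.trans ih1 ih2

omit [CharZero F] in
private theorem XX_congr (a : List (Vtx F)) {b b' : List (Vtx F)} (h : XX b' = XX b) :
    ES.XX (a ++ b') = ES.XX (a ++ b) := by
  induction a with
  | nil => exact h
  | cons u a ih =>
    rw [List.cons_append, List.cons_append, ES.XX, ES.XX, ih]

omit [CharZero F] in
private theorem sand_sand (u v : Vtx F) (Y : Mat F) :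
    u.sand (v.sand Y) = (C (4⁻¹ : F)) • (C (4⁻¹ : F)) • ((u.LL * v.LL) * Y * (v.LS * u.LS)) := by
  unfold Vtx.sand
  rw [Matrix.mul_smul, Matrix.smul_mul]
  simp only [Matrix.mul_assoc]

omit [CharZero F] in
private theorem fin2_ext {a b c d a' b' c' d' : F[X]} (h1 : a = a') (h2 : b = b') (h3 : c = c') (h4 : d = d') :
    (!![a, b; c, d] : Matrix (Fin 2) (Fin 2) F[X]) = !![a', b'; c', d'] := by rw [h1, h2, h3, h4]

omit [CharZero F] in
private theorem recut_LL {g1 g2 h2 h1 : Vtx F} (r : Recut g1 g2 h2 h1) : h2.LL * h1.LL = g1.LL * g2.LL := by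
  have c (a b c d : F) (h : a * b = c * d) : C a * C b = (C c * C d : F[X]) := by rw [← C_mul, ← C_mul, h]
  have hpp := c _ _ _ _ r.pp
  have hqq := c _ _ _ _ r.qq
  have hmm := c _ _ _ _ r.mm
  have hnn := c _ _ _ _ r.nn
  have h12 : C g1.p * C g2.ms + C g1.ms * C g2.ps = (C h2.p * C h1.ms + C h2.ms * C h1.ps : F[X]) := by
    simp only [← C_mul, ← C_add]
    rw [r.e12]
  have h21 : C g1.m * C g2.p + C g1.ps * C g2.m = (C h2.m * C h1.p + C h2.ps * C h1.m : F[X]) := by
    simp only [← C_mul, ← C_add]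
    rw [r.e21]
  unfold Vtx.LL
  rw [Matrix.mul_fin_two, Matrix.mul_fin_two]
  refine fin2_ext ?_ ?_ ?_ ?_
  · linear_combination -(X - 1) ^ 2 * hpp - (X + 1) ^ 2 * hmm
  · linear_combination -(X - 1) * (X + 1) * h12
  · linear_combination -(X - 1) * (X + 1) * h21
  · linear_combination -(X - 1) ^ 2 * hqq - (X + 1) ^ 2 * hnn

omit [CharZero F] in
private theorem recut_LS {g1 g2 h2 h1 : Vtx F} (r : Recut g1 g2 h2 h1) : h1.LS * h2.LS = g2.LS * g1.LS := by
  have c (a b c d : F) (h : a * b = c * d) : C a * C b = (C c * C d : F[X]) := by rw [← C_mul, ← C_mul, h]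
  have hpp := c _ _ _ _ r.pp
  have hqq := c _ _ _ _ r.qq
  have hmm := c _ _ _ _ r.mm
  have hnn := c _ _ _ _ r.nn
  have h12 : C g1.p * C g2.ms + C g1.ms * C g2.ps = (C h2.p * C h1.ms + C h2.ms * C h1.ps : F[X]) := by
    simp only [← C_mul, ← C_add]
    rw [r.e12]
  have h21 : C g1.m * C g2.p + C g1.ps * C g2.m = (C h2.m * C h1.p + C h2.ps * C h1.m : F[X]) := by
    simp only [← C_mul, ← C_add]
    rw [r.e21]
  unfold Vtx.LS
  rw [Matrix.mul_fin_two, Matrix.mul_fin_two]
  refine fin2_ext ?_ ?_ ?_ ?_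
  · linear_combination -(X + 1) ^ 2 * hqq - (X - 1) ^ 2 * hnn
  · linear_combination -(X - 1) * (X + 1) * h12
  · linear_combination -(X - 1) * (X + 1) * h21
  · linear_combination -(X + 1) ^ 2 * hpp - (X - 1) ^ 2 * hmm

omit [CharZero F] in
private theorem z6_inv' {z : F} (hz : z ^ 6 = 1) : z⁻¹ ^ 6 = 1 := by rw [inv_pow, hz, inv_one]

theorem Mv.XX {f f' : List (Lk s F)} {e : ℤ} (h : Mv f f' e) : XX (f'.map Prod.snd) = XX (f.map Prod.snd) := by
  induction h with
  | refl f => rfl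
  | recut pre suf g1 g2 h2 h1 hr e1 e2 n1 n2 hne =>
    rw [List.map_append, List.map_append]
    refine XX_congr _ ?_
    simp only [List.map_cons, ES.XX]
    rw [sand_sand, sand_sand, recut_LL hr, recut_LS hr]
  | rot pre suf g1 g2 z hz =>
    rw [List.map_append, List.map_append]
    refine XX_congr _ ?_
    simp only [List.map_cons, ES.XX]
    rw [sand_rot _ hz, sand_rot _ (z6_inv' hz)]
  | flip pre g =>
    rw [List.map_append, List.map_append]
    refine XX_congr _ ?_
    simp only [List.map_cons, List.map_nil, ES.XX]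
    exact sand_flip_one _
  | trans _ _ ih1 ih2 => exact ih2.trans ih1

omit [CharZero F] in
private theorem tot_congr (a : List (Vtx F)) {b b' : List (Vtx F)} {e : F} (he : e ^ 2 = 1)
    (h : (tot b').w = (tot b).w ∧ (tot b').v = e * (tot b).v ∧ (tot b').y = e * (tot b).y) :
    (ES.tot (a ++ b')).w = (ES.tot (a ++ b)).w ∧ (ES.tot (a ++ b')).v = e * (ES.tot (a ++ b)).v ∧
      (ES.tot (a ++ b')).y = e * (ES.tot (a ++ b)).y := by
  induction a with
  | nil => exact h
  | cons u a ih =>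
    obtain ⟨h1, h2, h3⟩ := ih
    rw [List.cons_append, List.cons_append]
    unfold ES.tot
    refine ⟨?_, ?_, ?_⟩
    · change u.w * (ES.tot (a ++ b')).w = u.w * (ES.tot (a ++ b)).w
      rw [h1]
    · change u.v * (ES.tot (a ++ b')).v = e * (u.v * (ES.tot (a ++ b)).v)
      rw [h2]
      ring
    · change u.w ^ 3 * (ES.tot (a ++ b')).y + u.y * (ES.tot (a ++ b')).v ^ 3
        = e * (u.w ^ 3 * (ES.tot (a ++ b)).y + u.y * (ES.tot (a ++ b)).v ^ 3)
      rw [h2, h3]
      linear_combination (u.y * e * (ES.tot (a ++ b)).v ^ 3) * he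

theorem Mv.tot {f f' : List (Lk s F)} {e : ℤ} (h : Mv f f' e) : (tot (f'.map Prod.snd)).w = (tot (f.map Prod.snd)).w ∧
    (tot (f'.map Prod.snd)).v = (e : F) * (tot (f.map Prod.snd)).v ∧
    (tot (f'.map Prod.snd)).y = (e : F) * (tot (f.map Prod.snd)).y := by
  induction h with
  | refl f => simp
  | recut pre suf g1 g2 h2 h1 hr e1 e2 n1 n2 hne =>
    rw [List.map_append, List.map_append]
    refine tot_congr _ (by norm_num) ?_
    simp only [List.map_cons, ES.tot, Int.cast_one, one_mul]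
    have hw := hr.w
    have hv := hr.v
    have hpp := hr.pp
    have hmm := hr.mm
    unfold Vtx.p at hpp
    unfold Vtx.ms Vtx.m at hmm
    have htwo : (2 : F) ≠ 0 := two_ne_zero
    have hw3 : g1.2.w ^ 3 * g2.2.w ^ 3 = h2.2.w ^ 3 * h1.2.w ^ 3 := by
      rw [← mul_pow, ← mul_pow, hw]
    have hv3 : g1.2.v ^ 3 * g2.2.v ^ 3 = h2.2.v ^ 3 * h1.2.v ^ 3 := by
      rw [← mul_pow, ← mul_pow, hv]
    have hk : h2.2.w ^ 3 * h1.2.y + h2.2.y * h1.2.v ^ 3 = g1.2.w ^ 3 * g2.2.y + g1.2.y * g2.2.v ^ 3 := by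
      apply mul_left_cancel₀ htwo
      linear_combination -hpp - hmm + 2 * hw3 + 2 * hv3
    refine ⟨?_, ?_, ?_⟩
    · rw [← mul_assoc, ← mul_assoc, hw]
    · rw [← mul_assoc, ← mul_assoc, hv]
    · linear_combination (ES.tot (suf.map Prod.snd)).v ^ 3 * hk - (ES.tot (suf.map Prod.snd)).y * hw3
  | rot pre suf g1 g2 z hz =>
    have hz0 : z ≠ 0 := by
      rintro rfl
      norm_num at hz
    rw [List.map_append, List.map_append]
    refine tot_congr _ (by norm_num) ?_
    simp only [List.map_cons, ES.tot, Int.cast_one, one_mul, Vtx.rot]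
    refine ⟨?_, ?_, ?_⟩
    · field_simp
    · field_simp
    · have hi : z⁻¹ * z = 1 := inv_mul_cancel₀ hz0
      rw [inv_inv]
      have h3 : z ^ 3 * z⁻¹ ^ 3 = 1 := by rw [← mul_pow, mul_inv_cancel₀ hz0, one_pow]
      linear_combination (g1.2.w ^ 3 * (g2.2.w ^ 3 * (ES.tot (suf.map Prod.snd)).y
        + g2.2.y * (ES.tot (suf.map Prod.snd)).v ^ 3)) * h3
        + (g1.2.y * (g2.2.v * (ES.tot (suf.map Prod.snd)).v) ^ 3) * hz
  | flip pre g =>
    rw [List.map_append, List.map_append]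
    refine tot_congr _ (by norm_num) ?_
    simp only [List.map_cons, List.map_nil, ES.tot, Vtx.flip]
    refine ⟨trivial, ?_, ?_⟩
    · push_cast
      ring
    · push_cast
      ring
  | trans _ _ ih1 ih2 =>
    obtain ⟨a1, a2, a3⟩ := ih1
    obtain ⟨b1, b2, b3⟩ := ih2
    refine ⟨b1.trans a1, ?_, ?_⟩
    · rw [b2, a2]
      push_cast
      ring
    · rw [b3, a3]
      push_cast
      ring

theorem Mv.sgn {f f' : List (Lk s F)} {e : ℤ} (h : Mv f f' e) : e = 1 ∨ e = -1 := by
  induction h with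
  | refl f => exact Or.inl rfl
  | recut pre suf g1 g2 h2 h1 hr e1 e2 n1 n2 hne => exact Or.inl rfl
  | rot pre suf g1 g2 z hz => exact Or.inl rfl
  | flip pre g => exact Or.inr rfl
  | trans _ _ ih1 ih2 =>
    rcases ih1 with h | h <;> rcases ih2 with h' | h' <;> subst h <;> subst h' <;> decide

/-- the base points with their labels are permuted -/
theorem Mv.perm {f f' : List (Lk s F)} {e : ℤ} (h : Mv f f' e) :
    (f'.map (fun g => (g.1, g.2.ab))).Perm (f.map (fun g => (g.1, g.2.ab))) := by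
  induction h with
  | refl f => exact List.Perm.refl _
  | recut pre suf g1 g2 h2 h1 hr e1 e2 n1 n2 hne =>
    rw [List.map_append, List.map_append]
    refine List.Perm.append_left _ ?_
    simp only [List.map_cons]
    rw [e1, e2, hr.ab1, hr.ab2]
    exact List.Perm.swap _ _ _
  | rot pre suf g1 g2 z hz =>
    rw [List.map_append, List.map_append]
    refine List.Perm.append_left _ ?_
    simp only [List.map_cons]
    rw [ab_rot _ hz, ab_rot _ (z6_inv' hz)]
  | flip pre g =>
    rw [List.map_append, List.map_append]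
    refine List.Perm.append_left _ ?_
    simp only [List.map_cons, List.map_nil]
    rw [ab_flip]
  | trans _ _ ih1 ih2 => exact ih2.trans ih1

end ES
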