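import Pool.Agent.H67.ES.Uniq

/-! # ES.PeelM : splitting off a vertex, divisibility (about 220 lines)

`Y := adj(LL) * M * adj(LS)`.  `l` is a root, `l ≠ 0`, `l^2 ≠ ± 1` (`root_ne`); the points `l, 1/l, -l, -1/l` are different.  `det M (l) = 0`: `M.det` contains the factor
`C (a^3) (X^2+1)^2 - C (4 b^2) X^2` and `α^2 = a^3`, so its value at `l` is `(α (l^2+1))^2 - (2 b l)^2 = 0`.  Column `j` of `M(l)` is not zero and satisfies `hp`, so by `det M(l) = 0` the
other column is a multiple of it and satisfies `hp` too.  Hence `adj(LL(l)) M(l) = 0`: second row = `hp`; first row `(l-1) ps M_0j - (l+1) ms M_1j`: multiply by `(l-1) p ≠ 0`, use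
`hp` and `det LL(l) = 0`.  So `Y(l) = 0`.  `Y(1/l) = 0`: conditions `r..` of `St` (`x^(2k) M(1/x) = ± D M(x) D`) and `x LL(1/x) = - D LL(x) D`.
`Y(-l) = Y(-1/l) = 0`: conditions `s..` (`M(-x) = M(x)^t`, `LS(-x) = - LL(x)^t`): `M adj(LS)` vanishes at `-l`.  Therefore every entry of `Y` is divisible by
`(X-l)(X-1/l)(X+l)(X+1/l)`, i.e. (up to the constant `16 α^2`) by `det LL * det LS`: `Y = det LL det LS Z` entrywise.  `LL Y LS = det LL det LS M` (`Matrix.mul_adjugate`), so
`LL Z LS = M` (cancel, `F[X]` is a domain) and `M' := 4 Z`. -/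

namespace ES

open Polynomial H68.BB

variable {F : Type} [Field F] [CharZero F]

/-- the value of the adjugate of `LL` -/
private def NL (u : Vtx F) (x : F) : Matrix (Fin 2) (Fin 2) F :=
  !![(x - 1) * u.ps, -((x + 1) * u.ms); -((x + 1) * u.m), (x - 1) * u.p]

/-- the value of the adjugate of `LS` -/
private def NS (u : Vtx F) (x : F) : Matrix (Fin 2) (Fin 2) F :=
  !![(x + 1) * u.p, -((x - 1) * u.ms); -((x - 1) * u.m), (x + 1) * u.ps]

omit [CharZero F] in
private theorem map_adj_LL (u : Vtx F) (x : F) :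
    (evalRingHom x).mapMatrix u.LL.adjugate = NL u x := by
  ext i j
  fin_cases i <;> fin_cases j <;>
    simp [Matrix.adjugate_fin_two, Vtx.LL, NL] <;> ring

omit [CharZero F] in
private theorem map_adj_LS (u : Vtx F) (x : F) :
    (evalRingHom x).mapMatrix u.LS.adjugate = NS u x := by
  ext i j
  fin_cases i <;> fin_cases j <;>
    simp [Matrix.adjugate_fin_two, Vtx.LS, NS] <;> ring

/-- the relations at a point -/
private structure RelPt (u : Vtx F) (M : Mat F) (x : F) : Prop where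
  a0 : (x - 1) * u.p * (M 1 0).eval x = (x + 1) * u.m * (M 0 0).eval x
  a1 : (x - 1) * u.p * (M 1 1).eval x = (x + 1) * u.m * (M 0 1).eval x
  b0 : (x - 1) * u.ps * (M 0 0).eval x = (x + 1) * u.ms * (M 1 0).eval x
  b1 : (x - 1) * u.ps * (M 0 1).eval x = (x + 1) * u.ms * (M 1 1).eval x

omit [CharZero F] in
private theorem map_M (M : Mat F) (x : F) :
    (evalRingHom x).mapMatrix M =
      !![(M 0 0).eval x, (M 0 1).eval x; (M 1 0).eval x, (M 1 1).eval x] := by
  ext i j
  fin_cases i <;> fin_cases j <;> simp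

omit [CharZero F] in
private theorem van1 {u : Vtx F} {M : Mat F} {x : F} (h : RelPt u M x) (i j : Fin 2) :
    ((u.LL.adjugate * M * u.LS.adjugate) i j).eval x = 0 := by
  have h0 : NL u x * (evalRingHom x).mapMatrix M = 0 := by
    rw [map_M]
    ext i j
    fin_cases i <;> fin_cases j <;>
      simp only [NL, Matrix.mul_apply, Fin.sum_univ_two, Matrix.of_apply, Matrix.cons_val',
        Matrix.cons_val_zero, Matrix.cons_val_one, Matrix.cons_val_fin_one, Fin.zero_eta,
        Fin.mk_one, Matrix.zero_apply]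
    · linear_combination h.b0
    · linear_combination h.b1
    · linear_combination h.a0
    · linear_combination h.a1
  have h1 : (evalRingHom x).mapMatrix (u.LL.adjugate * M * u.LS.adjugate) = 0 := by
    rw [map_mul, map_mul, map_adj_LL, h0, zero_mul]
  have h2 := congrFun (congrFun h1 i) j
  simpa using h2

omit [CharZero F] in
private theorem van2 {k : ℕ} {s : Multiset (F × F)} {u : Vtx F} {M : Mat F} {x : F}
    (hst : St k s M) (h : RelPt u M x) (i j : Fin 2) :
    ((u.LL.adjugate * M * u.LS.adjugate) i j).eval (-x) = 0 := by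
  have e11 : (M 1 1).eval (-x) = (M 0 0).eval x := by
    have := hst.s00 (-x)
    rw [neg_neg] at this
    exact this.symm
  have h0 : (evalRingHom (-x)).mapMatrix M * NS u (-x) = 0 := by
    rw [map_M, e11, hst.s00 x, hst.s01 x, hst.s10 x]
    ext i j
    fin_cases i <;> fin_cases j <;>
      simp only [NS, Matrix.mul_apply, Fin.sum_univ_two, Matrix.of_apply, Matrix.cons_val',
        Matrix.cons_val_zero, Matrix.cons_val_one, Matrix.cons_val_fin_one, Fin.zero_eta,
        Fin.mk_one, Matrix.zero_apply]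
    · linear_combination -h.a1
    · linear_combination -h.b1
    · linear_combination -h.a0
    · linear_combination -h.b0
  have h1 : (evalRingHom (-x)).mapMatrix (u.LL.adjugate * M * u.LS.adjugate) = 0 := by
    rw [map_mul, map_mul, map_adj_LS, mul_assoc, h0, mul_zero]
  have h2 := congrFun (congrFun h1 i) j
  simpa using h2

omit [CharZero F] in
private theorem rel_inv {k : ℕ} {s : Multiset (F × F)} {u : Vtx F} {M : Mat F} {x : F}
    (hst : St k s M) (hx : x ≠ 0) (h : RelPt u M x) : RelPt u M x⁻¹ := by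
  have hp : x ^ (2 * k) ≠ 0 := pow_ne_zero _ hx
  have r00 := hst.r00 x hx
  have r01 := hst.r01 x hx
  have r10 := hst.r10 x hx
  have r11 : x ^ (2 * k) * (M 1 1).eval x⁻¹ = (-1) ^ k * (M 1 1).eval x := by
    have h1 := hst.r00 (-x) (neg_ne_zero.mpr hx)
    rw [hst.s00 x, inv_neg, hst.s00 x⁻¹, (even_two_mul k).neg_pow] at h1
    exact h1
  have hinv : x * x⁻¹ = 1 := mul_inv_cancel₀ hx
  have key : ∀ A B : F, x * (x ^ (2 * k)) * A = x * (x ^ (2 * k)) * B → A = B := fun A B hAB =>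
    mul_left_cancel₀ (mul_ne_zero hx hp) hAB
  refine ⟨key _ _ ?_, key _ _ ?_, key _ _ ?_, key _ _ ?_⟩
  · have e1 : x * x ^ (2 * k) * ((x⁻¹ - 1) * u.p * (M 1 0).eval x⁻¹) =
        (x * x⁻¹ - x) * u.p * (x ^ (2 * k) * (M 1 0).eval x⁻¹) := by ring
    have e2 : x * x ^ (2 * k) * ((x⁻¹ + 1) * u.m * (M 0 0).eval x⁻¹) =
        (x * x⁻¹ + x) * u.m * (x ^ (2 * k) * (M 0 0).eval x⁻¹) := by ring
    rw [e1, e2, hinv, r10, r00]
    linear_combination (-1) ^ k * h.a0
  · have e1 : x * x ^ (2 * k) * ((x⁻¹ - 1) * u.p * (M 1 1).eval x⁻¹) =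
        (x * x⁻¹ - x) * u.p * (x ^ (2 * k) * (M 1 1).eval x⁻¹) := by ring
    have e2 : x * x ^ (2 * k) * ((x⁻¹ + 1) * u.m * (M 0 1).eval x⁻¹) =
        (x * x⁻¹ + x) * u.m * (x ^ (2 * k) * (M 0 1).eval x⁻¹) := by ring
    rw [e1, e2, hinv, r11, r01]
    linear_combination -(-1) ^ k * h.a1
  · have e1 : x * x ^ (2 * k) * ((x⁻¹ - 1) * u.ps * (M 0 0).eval x⁻¹) =
        (x * x⁻¹ - x) * u.ps * (x ^ (2 * k) * (M 0 0).eval x⁻¹) := by ring
    have e2 : x * x ^ (2 * k) * ((x⁻¹ + 1) * u.ms * (M 1 0).eval x⁻¹) =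
        (x * x⁻¹ + x) * u.ms * (x ^ (2 * k) * (M 1 0).eval x⁻¹) := by ring
    rw [e1, e2, hinv, r00, r10]
    linear_combination -(-1) ^ k * h.b0
  · have e1 : x * x ^ (2 * k) * ((x⁻¹ - 1) * u.ps * (M 0 1).eval x⁻¹) =
        (x * x⁻¹ - x) * u.ps * (x ^ (2 * k) * (M 0 1).eval x⁻¹) := by ring
    have e2 : x * x ^ (2 * k) * ((x⁻¹ + 1) * u.ms * (M 1 1).eval x⁻¹) =
        (x * x⁻¹ + x) * u.ms * (x ^ (2 * k) * (M 1 1).eval x⁻¹) := by ring
    rw [e1, e2, hinv, r01, r11]
    linear_combination (-1) ^ k * h.b1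

private theorem det_LL_eval (u : Vtx F) (l : F) (hl : u.al * (l ^ 2 + 1) = 2 * u.ab.2 * l) :
    (l - 1) ^ 2 * (u.p * u.ps) = (l + 1) ^ 2 * (u.m * u.ms) := by
  rw [p_mul_ps, m_mul_ms]
  linear_combination 4 * hl

private theorem rel_root {k : ℕ} {s : Multiset (F × F)} {M : Mat F} {u : Vtx F}
    (hst : St (k + 1) (u.ab ::ₘ s) M) (hnd : ND u.ab) {l : F}
    (hl : u.al * (l ^ 2 + 1) = 2 * u.ab.2 * l) {j : Fin 2} (hj : ∃ i, (M i j).eval l ≠ 0)
    (hp : (l - 1) * u.p * (M 1 j).eval l = (l + 1) * u.m * (M 0 j).eval l) : RelPt u M l := by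
  obtain ⟨hl0, hl1, -⟩ := root_ne (a := u.ab.1) (b := u.ab.2) hnd (al_sq u) hl
  have hl1' : l - 1 ≠ 0 := by
    intro h0
    apply hl1
    rw [sub_eq_zero.mp h0, one_pow]
  obtain ⟨-, -, -, hpne, -⟩ := hnd.ne
  have hdet : (M 0 0).eval l * (M 1 1).eval l - (M 0 1).eval l * (M 1 0).eval l = 0 := by
    have h1 := congrArg (Polynomial.eval l) hst.det
    rw [Matrix.det_fin_two, Multiset.map_cons, Multiset.prod_cons] at h1
    simp only [eval_sub, eval_mul, eval_C, eval_pow, eval_add, eval_X, eval_one] at h1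
    have h2 : u.ab.1 ^ 3 * (l ^ 2 + 1) ^ 2 - 4 * u.ab.2 ^ 2 * l ^ 2 = 0 := by
      rw [← al_sq u]
      linear_combination (u.al * (l ^ 2 + 1) + 2 * u.ab.2 * l) * hl
    rw [h2, zero_mul] at h1
    exact h1
  have h0j : (M 0 j).eval l ≠ 0 := by
    intro h0
    obtain ⟨i, hi⟩ := hj
    rw [h0, mul_zero] at hp
    have h1j : (M 1 j).eval l = 0 := by
      rcases mul_eq_zero.mp hp with h | h
      · exact absurd h (mul_ne_zero hl1' hpne)
      · exact h
    fin_cases i
    · exact hi h0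
    · exact hi h1j
  have hall : ∀ c : Fin 2, (l - 1) * u.p * (M 1 c).eval l = (l + 1) * u.m * (M 0 c).eval l := by
    have hdet' : ∀ c : Fin 2, (M 0 j).eval l * (M 1 c).eval l = (M 0 c).eval l * (M 1 j).eval l := by
      intro c
      fin_cases j <;> fin_cases c <;>
        simp only [Fin.zero_eta, Fin.mk_one]
      · linear_combination hdet
      · linear_combination -hdet
    intro c
    apply mul_left_cancel₀ h0j
    linear_combination (l - 1) * u.p * hdet' c + (M 0 c).eval l * hp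
  have hb : ∀ c : Fin 2, (l - 1) * u.ps * (M 0 c).eval l = (l + 1) * u.ms * (M 1 c).eval l := by
    intro c
    apply mul_left_cancel₀ (mul_ne_zero hl1' hpne)
    linear_combination (M 0 c).eval l * det_LL_eval u l hl - (l + 1) * u.ms * hall c
  exact ⟨hall 0, hall 1, hb 0, hb 1⟩

theorem peel_div {k : ℕ} {s : Multiset (F × F)} {M : Mat F} {u : Vtx F} (hst : St (k + 1) (u.ab ::ₘ s) M) (hnd : ND u.ab)
    {l : F} (hl : u.al * (l ^ 2 + 1) = 2 * u.ab.2 * l) {j : Fin 2} (hj : ∃ i, (M i j).eval l ≠ 0)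
    (hp : (l - 1) * u.p * (M 1 j).eval l = (l + 1) * u.m * (M 0 j).eval l) : ∃ M' : Mat F, M = u.sand M' := by
  obtain ⟨hl0, hl1, hlm⟩ := root_ne (a := u.ab.1) (b := u.ab.2) hnd (al_sq u) hl
  have hrel := rel_root hst hnd hl hj hp
  have hrel' := rel_inv hst hl0 hrel
  obtain ⟨hal, -, -, -, -, -, -, hdL, hdS⟩ := hnd.ne
  set v : Fin 4 → F := ![l, l⁻¹, -l, -l⁻¹] with hv
  have hinj : Function.Injective v := by
    have n1 : l ≠ l⁻¹ := by
      intro h
      apply hl1
      rw [sq]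
      nth_rewrite 2 [h]
      exact mul_inv_cancel₀ hl0
    have n2 : l ≠ -l := fun h => hl0 (self_eq_neg.mp h)
    have n3 : l ≠ -l⁻¹ := by
      intro h
      apply hlm
      rw [sq]
      nth_rewrite 2 [h]
      rw [mul_neg, mul_inv_cancel₀ hl0]
    have n4 : l⁻¹ ≠ -l := fun h => n3 (by rw [h, neg_neg])
    have n5 : l⁻¹ ≠ -l⁻¹ := fun h => inv_ne_zero hl0 (self_eq_neg.mp h)
    have n6 : -l ≠ -l⁻¹ := fun h => n1 (neg_injective h)
    intro i j hij
    fin_cases i <;> fin_cases j <;> simp only [hv, Fin.zero_eta, Fin.mk_one, Fin.reduceFinMk,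
      Matrix.cons_val_zero, Matrix.cons_val_one, Matrix.cons_val] at hij ⊢ <;>
      first
      | exact absurd hij n1 | exact absurd hij n2 | exact absurd hij n3 | exact absurd hij n4
      | exact absurd hij n5 | exact absurd hij n6 | exact absurd hij.symm n1
      | exact absurd hij.symm n2 | exact absurd hij.symm n3 | exact absurd hij.symm n4
      | exact absurd hij.symm n5 | exact absurd hij.symm n6
  have hdvd : ∀ i j, (∏ t : Fin 4, (X - C (v t))) ∣ (u.LL.adjugate * M * u.LS.adjugate) i j := by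
    intro i j
    apply Fintype.prod_dvd_of_coprime (pairwise_coprime_X_sub_C hinj)
    intro t
    rw [dvd_iff_isRoot, IsRoot.def]
    fin_cases t
    · exact van1 hrel i j
    · exact van1 hrel' i j
    · exact van2 hst hrel i j
    · exact van2 hst hrel' i j
  have hprod : u.LL.det * u.LS.det = C (16 * u.al ^ 2) * ∏ t : Fin 4, (X - C (v t)) := by
    have hb : 2 * u.ab.2 = u.al * (l + l⁻¹) := by
      field_simp
      linear_combination -hl
    rw [det_LL, det_LS, Fin.prod_univ_four, hb]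
    simp only [hv, Matrix.cons_val_zero, Matrix.cons_val_one, Matrix.cons_val, C_mul, C_add, C_neg,
      C_pow]
    have hC : (C l : F[X]) * C l⁻¹ = 1 := by rw [← C_mul, mul_inv_cancel₀ hl0, C_1]
    have h16 : (C (16 : F) : F[X]) = C 4 * C 4 := by rw [← C_mul]; norm_num
    rw [h16]
    linear_combination (C 4 * C 4 * C u.al ^ 2 *
      (-(C l * C l⁻¹ + 1) - 2 * X ^ 2)) * hC
  choose Z0 hZ0 using hdvd
  set d : F[X] := u.LL.det * u.LS.det with hd
  have hd0 : d ≠ 0 := mul_ne_zero hdL hdS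
  have h16 : (16 * u.al ^ 2 : F) ≠ 0 := mul_ne_zero (by norm_num) (pow_ne_zero _ hal)
  set Z : Mat F := Matrix.of fun i j => C (16 * u.al ^ 2)⁻¹ * Z0 i j with hZ
  have hY : u.LL.adjugate * M * u.LS.adjugate = d • Z := by
    ext1 i j
    rw [Matrix.smul_apply, smul_eq_mul, hZ, Matrix.of_apply, hprod, hZ0 i j]
    have h1 : (C (16 * u.al ^ 2) : F[X]) * C (16 * u.al ^ 2)⁻¹ = 1 := by
      rw [← C_mul, mul_inv_cancel₀ h16, C_1]
    linear_combination (-(∏ t : Fin 4, (X - C (v t))) * Z0 i j) * h1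
  have hM : M = u.LL * Z * u.LS := by
    have h1 : d • M = d • (u.LL * Z * u.LS) := by
      calc d • M = u.LL * (u.LL.adjugate * M * u.LS.adjugate) * u.LS := by
            have e : u.LL * (u.LL.adjugate * M * u.LS.adjugate) * u.LS =
                (u.LL * u.LL.adjugate) * M * (u.LS.adjugate * u.LS) := by
              simp only [Matrix.mul_assoc]
            rw [e, Matrix.mul_adjugate, Matrix.adjugate_mul, Matrix.smul_mul, Matrix.one_mul,
              Matrix.mul_smul, Matrix.mul_one, smul_smul, hd, mul_comm]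
        _ = d • (u.LL * Z * u.LS) := by
            rw [hY, Matrix.mul_smul, Matrix.smul_mul]
    ext1 i j
    have h2 := congrFun (congrFun h1 i) j
    rw [Matrix.smul_apply, Matrix.smul_apply, smul_eq_mul, smul_eq_mul] at h2
    exact mul_left_cancel₀ hd0 h2
  refine ⟨C (4 : F) • Z, ?_⟩
  rw [Vtx.sand, Matrix.mul_smul, Matrix.smul_mul, smul_smul, ← C_mul, ← hM]
  norm_num

end ES
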