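import Pool.Agent.H67.ES.Vlem

/-! # ES.PeelS : the state conditions pass to the remaining matrix (about 200 lines)

`M := u.sand M'`, `Δ := det LL * det LS = 16 (a^3 (X^2+1)^2 - 4 b^2 X^2)` (`det_LL`, `det_LS`, `al_sq`), of natDegree 4.  `adj(LL) M adj(LS) = (1/4) Δ M'`.
Degree: the left side has natDegree `≤ 2 (k+1) + 2`, so `natDegree (M' i j) + 4 ≤ 2 k + 4` (if `M' i j ≠ 0`).
Symmetries: for all `x` the evaluated identity and the symmetries of `M`, `LL`, `LS` (see the header of `StXX`; `Δ(-x) = Δ(x)`, `x^4 Δ(1/x) = Δ(x)`) give the symmetries of `M'` for all `x`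
with `Δ(x) ≠ 0`.  `s..`: the polynomials `(M' 0 0).comp (-X)` and `M' 1 1` agree at all but finitely many points, so they are equal.  `r..`: for `x ≠ 0` both sides are
values at `x` of polynomials (`x^(2k) M'(1/x)` is the value of `(M' i j).reflect (2 k)`, or multiply by hand: use `Polynomial.eval₂_reflect_mul_pow` / `reverse`), equal at all but finitely many `x`.
`det`: `det_sand` and cancel.  `ev`: as in `StXX`, `M'(i)` is scalar `θ` (from the symmetries just proved) and `(M 0 0)(i) = - 2 b θ`, `b ≠ 0`.  `card`: `Multiset.card_cons`. -/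

namespace ES

open Polynomial H68.BB

variable {F : Type} [Field F] [CharZero F]

/-- `detL * detR * E = adj L * (L * E * R) * adj R` -/
private theorem sand_zero {R : Type} [CommRing R] {l00 l01 l10 l11 r00 r01 r10 r11 e00 e01 e10 e11 : R}
    (h00 : (l00 * e00 + l01 * e10) * r00 + (l00 * e01 + l01 * e11) * r10 = 0)
    (h01 : (l00 * e00 + l01 * e10) * r01 + (l00 * e01 + l01 * e11) * r11 = 0)
    (h10 : (l10 * e00 + l11 * e10) * r00 + (l10 * e01 + l11 * e11) * r10 = 0)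
    (h11 : (l10 * e00 + l11 * e10) * r01 + (l10 * e01 + l11 * e11) * r11 = 0) :
    (l00 * l11 - l01 * l10) * (r00 * r11 - r01 * r10) * e00 = 0 ∧
    (l00 * l11 - l01 * l10) * (r00 * r11 - r01 * r10) * e01 = 0 ∧
    (l00 * l11 - l01 * l10) * (r00 * r11 - r01 * r10) * e10 = 0 ∧
    (l00 * l11 - l01 * l10) * (r00 * r11 - r01 * r10) * e11 = 0 := by
  refine ⟨?_, ?_, ?_, ?_⟩
  · linear_combination l11 * (r11 * h00 - r10 * h01) - l01 * (r11 * h10 - r10 * h11)
  · linear_combination l11 * (-r01 * h00 + r00 * h01) - l01 * (-r01 * h10 + r00 * h11)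
  · linear_combination -l10 * (r11 * h00 - r10 * h01) + l00 * (r11 * h10 - r10 * h11)
  · linear_combination -l10 * (-r01 * h00 + r00 * h01) + l00 * (-r01 * h10 + r00 * h11)

private theorem sand00 (u : Vtx F) (M : Mat F) : u.sand M 0 0 =
    C 4⁻¹ * ((C u.p * (X - 1) * M 0 0 + C u.ms * (X + 1) * M 1 0) * (C u.ps * (X + 1)) +
      (C u.p * (X - 1) * M 0 1 + C u.ms * (X + 1) * M 1 1) * (C u.m * (X - 1))) := by
  change C 4⁻¹ * ((u.LL * M * u.LS) 0 0) = _
  rw [Matrix.mul_apply, Fin.sum_univ_two, Matrix.mul_apply, Matrix.mul_apply, Fin.sum_univ_two,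
    Fin.sum_univ_two]
  rfl

private theorem sand01 (u : Vtx F) (M : Mat F) : u.sand M 0 1 =
    C 4⁻¹ * ((C u.p * (X - 1) * M 0 0 + C u.ms * (X + 1) * M 1 0) * (C u.ms * (X - 1)) +
      (C u.p * (X - 1) * M 0 1 + C u.ms * (X + 1) * M 1 1) * (C u.p * (X + 1))) := by
  change C 4⁻¹ * ((u.LL * M * u.LS) 0 1) = _
  rw [Matrix.mul_apply, Fin.sum_univ_two, Matrix.mul_apply, Matrix.mul_apply, Fin.sum_univ_two,
    Fin.sum_univ_two]
  rfl

private theorem sand10 (u : Vtx F) (M : Mat F) : u.sand M 1 0 =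
    C 4⁻¹ * ((C u.m * (X + 1) * M 0 0 + C u.ps * (X - 1) * M 1 0) * (C u.ps * (X + 1)) +
      (C u.m * (X + 1) * M 0 1 + C u.ps * (X - 1) * M 1 1) * (C u.m * (X - 1))) := by
  change C 4⁻¹ * ((u.LL * M * u.LS) 1 0) = _
  rw [Matrix.mul_apply, Fin.sum_univ_two, Matrix.mul_apply, Matrix.mul_apply, Fin.sum_univ_two,
    Fin.sum_univ_two]
  rfl

private theorem sand11 (u : Vtx F) (M : Mat F) : u.sand M 1 1 =
    C 4⁻¹ * ((C u.m * (X + 1) * M 0 0 + C u.ps * (X - 1) * M 1 0) * (C u.ms * (X - 1)) +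
      (C u.m * (X + 1) * M 0 1 + C u.ps * (X - 1) * M 1 1) * (C u.p * (X + 1))) := by
  change C 4⁻¹ * ((u.LL * M * u.LS) 1 1) = _
  rw [Matrix.mul_apply, Fin.sum_univ_two, Matrix.mul_apply, Matrix.mul_apply, Fin.sum_univ_two,
    Fin.sum_univ_two]
  rfl

/-- the determinant of `LL` times that of `LS` -/
private noncomputable def Del (u : Vtx F) : F[X] :=
  (C u.p * (X - 1) * (C u.ps * (X - 1)) - C u.ms * (X + 1) * (C u.m * (X + 1))) *
    (C u.ps * (X + 1) * (C u.p * (X + 1)) - C u.ms * (X - 1) * (C u.m * (X - 1)))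

private theorem Del_eq (u : Vtx F) : Del u =
    C 16 * (C (u.ab.1 ^ 3) * (X ^ 2 + 1) ^ 2 - C (4 * u.ab.2 ^ 2) * X ^ 2) := by
  have h1 : C u.p * (X - 1) * (C u.ps * (X - 1)) - C u.ms * (X + 1) * (C u.m * (X + 1)) =
      C 4 * (C u.al * (X ^ 2 + 1) - C (2 * u.ab.2) * X) := by
    rw [← det_LL, Vtx.LL, Matrix.det_fin_two_of]
  have h2 : C u.ps * (X + 1) * (C u.p * (X + 1)) - C u.ms * (X - 1) * (C u.m * (X - 1)) =
      C 4 * (C u.al * (X ^ 2 + 1) + C (2 * u.ab.2) * X) := by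
    rw [← det_LS, Vtx.LS, Matrix.det_fin_two_of]
  rw [Del, h1, h2, ← al_sq]
  simp only [map_mul, map_pow]
  have h4 : (C (16 : F)) = C 4 * C 4 := by
    rw [← map_mul]
    norm_num
  have h5 : (C (4 : F)) = C 2 * C 2 := by
    rw [← map_mul]
    norm_num
  rw [h4]
  linear_combination (C 4 * C 4 * C u.ab.2 ^ 2 * X ^ 2 : F[X]) * h5

private theorem Del_nd {u : Vtx F} (hnd : ND u.ab) : (Del u).natDegree = 4 ∧ Del u ≠ 0 := by
  have h1 : (Del u).coeff 4 = 16 * u.ab.1 ^ 3 := by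
    rw [Del_eq, coeff_C_mul]
    congr 1
    have : C (u.ab.1 ^ 3) * (X ^ 2 + 1) ^ 2 - C (4 * u.ab.2 ^ 2) * X ^ 2 =
        C (u.ab.1 ^ 3) * X ^ 4 + C (2 * u.ab.1 ^ 3 - 4 * u.ab.2 ^ 2) * X ^ 2 +
          C (u.ab.1 ^ 3) := by
      simp only [map_sub, map_mul, map_ofNat]
      ring
    rw [this, coeff_add, coeff_add, coeff_C_mul, coeff_C_mul, coeff_X_pow, coeff_X_pow, coeff_C]
    norm_num
  have h0 : (16 : F) * u.ab.1 ^ 3 ≠ 0 := mul_ne_zero (by norm_num) (pow_ne_zero _ hnd.a)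
  refine ⟨le_antisymm ?_ (le_natDegree_of_ne_zero (by rwa [h1])), ?_⟩
  · rw [Del_eq]
    compute_degree
  · intro h
    rw [h, coeff_zero] at h1
    exact h0 h1.symm

/-- `x ^ N f(1/x)` is a polynomial -/
private theorem refl_eval {f : F[X]} {N : ℕ} (hf : f.natDegree ≤ N) {x : F} (hx : x ≠ 0) :
    x ^ N * f.eval x⁻¹ = (f.reflect N).eval x := by
  have hi : Invertible x⁻¹ := invertibleOfNonzero (inv_ne_zero hx)
  have h1 := eval₂_reflect_mul_pow (RingHom.id F) x⁻¹ N f hf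
  rw [invOf_eq_inv, inv_inv, eval₂_id, eval₂_id] at h1
  rw [← h1, inv_pow, mul_comm, mul_assoc, inv_mul_cancel₀ (pow_ne_zero _ hx), mul_one]

private theorem eq_of_del {D p q : F[X]} (hD : D ≠ 0)
    (h : ∀ x : F, x ≠ 0 → D.eval x * (p.eval x - q.eval x) = 0) : p = q := by
  have h1 : X * (D * (p - q)) = 0 := by
    apply Polynomial.funext
    intro x
    rw [eval_mul, eval_mul, eval_sub, eval_X, eval_zero]
    by_cases hx : x = 0
    · rw [hx, zero_mul]
    · rw [h x hx, mul_zero]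
  have h2 := (mul_eq_zero.1 ((mul_eq_zero.1 h1).resolve_left X_ne_zero)).resolve_left hD
  exact sub_eq_zero.1 h2

private theorem sand_deg {k : ℕ} {M' : Mat F} {u : Vtx F}
    (h : ∀ i j, (u.sand M' i j).natDegree ≤ 2 * (k + 1)) (hnd : ND u.ab) :
    ∀ i j, (M' i j).natDegree ≤ 2 * k := by
  obtain ⟨hd, h0⟩ := Del_nd hnd
  have main : ∀ (f g1 g2 g3 g4 a1 a2 a3 a4 : F[X]), g1.natDegree ≤ 2 * (k + 1) →
      g2.natDegree ≤ 2 * (k + 1) → g3.natDegree ≤ 2 * (k + 1) → g4.natDegree ≤ 2 * (k + 1) →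
      a1.natDegree ≤ 2 → a2.natDegree ≤ 2 → a3.natDegree ≤ 2 → a4.natDegree ≤ 2 →
      Del u * f = a1 * g1 + a2 * g2 + a3 * g3 + a4 * g4 → f.natDegree ≤ 2 * k := by
    intro f g1 g2 g3 g4 a1 a2 a3 a4 h1 h2 h3 h4 b1 b2 b3 b4 he
    by_cases hf : f = 0
    · rw [hf, natDegree_zero]
      exact Nat.zero_le _
    have e1 := natDegree_mul h0 hf
    have c1 : (a1 * g1).natDegree ≤ 2 * k + 4 := natDegree_mul_le.trans (by omega)
    have c2 : (a2 * g2).natDegree ≤ 2 * k + 4 := natDegree_mul_le.trans (by omega)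
    have c3 : (a3 * g3).natDegree ≤ 2 * k + 4 := natDegree_mul_le.trans (by omega)
    have c4 : (a4 * g4).natDegree ≤ 2 * k + 4 := natDegree_mul_le.trans (by omega)
    have e2 : (a1 * g1 + a2 * g2 + a3 * g3 + a4 * g4).natDegree ≤ 2 * k + 4 :=
      natDegree_add_le_of_degree_le (natDegree_add_le_of_degree_le
        (natDegree_add_le_of_degree_le c1 c2) c3) c4
    rw [← he, e1, hd] at e2
    omega
  have h4 : (C (4 : F)) * C 4⁻¹ = 1 := by
    rw [← map_mul]
    simp
  have q : ∀ a b c d : F, ∀ e e' : F[X], e.natDegree ≤ 1 → e'.natDegree ≤ 1 →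
      (C 4 * (C a * e * (C b * e'))).natDegree ≤ 2 := by
    intro a b c d e e' he he'
    refine (natDegree_C_mul_le _ _).trans (natDegree_mul_le.trans ?_)
    have h1 := (natDegree_C_mul_le a e).trans he
    have h2 := (natDegree_C_mul_le b e').trans he'
    omega
  have hm : (X - 1 : F[X]).natDegree ≤ 1 := by compute_degree
  have hp : (X + 1 : F[X]).natDegree ≤ 1 := by compute_degree
  intro i j
  fin_cases i <;> fin_cases j
  · refine main (M' 0 0) (u.sand M' 0 0) (u.sand M' 0 1) (u.sand M' 1 0) (u.sand M' 1 1)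
      (C 4 * (C u.ps * (X - 1) * (C u.p * (X + 1)))) (C 4 * (C (-u.ps) * (X - 1) * (C u.m * (X - 1))))
      (C 4 * (C (-u.ms) * (X + 1) * (C u.p * (X + 1)))) (C 4 * (C u.ms * (X + 1) * (C u.m * (X - 1))))
      (h _ _) (h _ _) (h _ _) (h _ _) (q _ _ 0 0 _ _ hm hp) (q _ _ 0 0 _ _ hm hm)
      (q _ _ 0 0 _ _ hp hp) (q _ _ 0 0 _ _ hp hm) ?_
    rw [sand00, sand01, sand10, sand11, Del]
    simp only [map_neg]
    linear_combination (-(C u.p * (X - 1) * (C u.ps * (X - 1)) - C u.ms * (X + 1) * (C u.m * (X + 1))) *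
      (C u.ps * (X + 1) * (C u.p * (X + 1)) - C u.ms * (X - 1) * (C u.m * (X - 1))) * M' 0 0) * h4
  · refine main (M' 0 1) (u.sand M' 0 0) (u.sand M' 0 1) (u.sand M' 1 0) (u.sand M' 1 1)
      (C 4 * (C (-u.ps) * (X - 1) * (C u.ms * (X - 1)))) (C 4 * (C u.ps * (X - 1) * (C u.ps * (X + 1))))
      (C 4 * (C u.ms * (X + 1) * (C u.ms * (X - 1)))) (C 4 * (C (-u.ms) * (X + 1) * (C u.ps * (X + 1))))
      (h _ _) (h _ _) (h _ _) (h _ _) (q _ _ 0 0 _ _ hm hm) (q _ _ 0 0 _ _ hm hp)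
      (q _ _ 0 0 _ _ hp hm) (q _ _ 0 0 _ _ hp hp) ?_
    rw [sand00, sand01, sand10, sand11, Del]
    simp only [map_neg]
    linear_combination (-(C u.p * (X - 1) * (C u.ps * (X - 1)) - C u.ms * (X + 1) * (C u.m * (X + 1))) *
      (C u.ps * (X + 1) * (C u.p * (X + 1)) - C u.ms * (X - 1) * (C u.m * (X - 1))) * M' 0 1) * h4
  · refine main (M' 1 0) (u.sand M' 0 0) (u.sand M' 0 1) (u.sand M' 1 0) (u.sand M' 1 1)
      (C 4 * (C (-u.m) * (X + 1) * (C u.p * (X + 1)))) (C 4 * (C u.m * (X + 1) * (C u.m * (X - 1))))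
      (C 4 * (C u.p * (X - 1) * (C u.p * (X + 1)))) (C 4 * (C (-u.p) * (X - 1) * (C u.m * (X - 1))))
      (h _ _) (h _ _) (h _ _) (h _ _) (q _ _ 0 0 _ _ hp hp) (q _ _ 0 0 _ _ hp hm)
      (q _ _ 0 0 _ _ hm hp) (q _ _ 0 0 _ _ hm hm) ?_
    rw [sand00, sand01, sand10, sand11, Del]
    simp only [map_neg]
    linear_combination (-(C u.p * (X - 1) * (C u.ps * (X - 1)) - C u.ms * (X + 1) * (C u.m * (X + 1))) *
      (C u.ps * (X + 1) * (C u.p * (X + 1)) - C u.ms * (X - 1) * (C u.m * (X - 1))) * M' 1 0) * h4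
  · refine main (M' 1 1) (u.sand M' 0 0) (u.sand M' 0 1) (u.sand M' 1 0) (u.sand M' 1 1)
      (C 4 * (C u.m * (X + 1) * (C u.ms * (X - 1)))) (C 4 * (C (-u.m) * (X + 1) * (C u.ps * (X + 1))))
      (C 4 * (C (-u.p) * (X - 1) * (C u.ms * (X - 1)))) (C 4 * (C u.p * (X - 1) * (C u.ps * (X + 1))))
      (h _ _) (h _ _) (h _ _) (h _ _) (q _ _ 0 0 _ _ hp hm) (q _ _ 0 0 _ _ hp hp)
      (q _ _ 0 0 _ _ hm hm) (q _ _ 0 0 _ _ hm hp) ?_
    rw [sand00, sand01, sand10, sand11, Del]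
    simp only [map_neg]
    linear_combination (-(C u.p * (X - 1) * (C u.ps * (X - 1)) - C u.ms * (X + 1) * (C u.m * (X + 1))) *
      (C u.ps * (X + 1) * (C u.p * (X + 1)) - C u.ms * (X - 1) * (C u.m * (X - 1))) * M' 1 1) * h4

private theorem Del_eval (u : Vtx F) (x : F) : (Del u).eval x =
    (u.p * (x - 1) * (u.ps * (x - 1)) - u.ms * (x + 1) * (u.m * (x + 1))) *
    (u.ps * (x + 1) * (u.p * (x + 1)) - u.ms * (x - 1) * (u.m * (x - 1))) := by
  simp only [Del, eval_mul, eval_sub, eval_add, eval_C, eval_X, eval_one]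

/-- the values of the entries of `u.sand M` -/
private theorem sand_ev (u : Vtx F) (M : Mat F) (x : F) :
    (4 * (u.sand M 0 0).eval x =
      (u.p * (x - 1) * (M 0 0).eval x + u.ms * (x + 1) * (M 1 0).eval x) * (u.ps * (x + 1)) +
      (u.p * (x - 1) * (M 0 1).eval x + u.ms * (x + 1) * (M 1 1).eval x) * (u.m * (x - 1))) ∧
    (4 * (u.sand M 0 1).eval x =
      (u.p * (x - 1) * (M 0 0).eval x + u.ms * (x + 1) * (M 1 0).eval x) * (u.ms * (x - 1)) +
      (u.p * (x - 1) * (M 0 1).eval x + u.ms * (x + 1) * (M 1 1).eval x) * (u.p * (x + 1))) ∧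
    (4 * (u.sand M 1 0).eval x =
      (u.m * (x + 1) * (M 0 0).eval x + u.ps * (x - 1) * (M 1 0).eval x) * (u.ps * (x + 1)) +
      (u.m * (x + 1) * (M 0 1).eval x + u.ps * (x - 1) * (M 1 1).eval x) * (u.m * (x - 1))) ∧
    (4 * (u.sand M 1 1).eval x =
      (u.m * (x + 1) * (M 0 0).eval x + u.ps * (x - 1) * (M 1 0).eval x) * (u.ms * (x - 1)) +
      (u.m * (x + 1) * (M 0 1).eval x + u.ps * (x - 1) * (M 1 1).eval x) * (u.p * (x + 1))) := by
  have h4 : (4 : F) * 4⁻¹ = 1 := mul_inv_cancel₀ (by norm_num)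
  refine ⟨?_, ?_, ?_, ?_⟩
  · rw [sand00]
    simp only [eval_mul, eval_sub, eval_add, eval_C, eval_X, eval_one]
    linear_combination (((u.p * (x - 1) * (M 0 0).eval x + u.ms * (x + 1) * (M 1 0).eval x) *
      (u.ps * (x + 1)) + (u.p * (x - 1) * (M 0 1).eval x + u.ms * (x + 1) * (M 1 1).eval x) *
      (u.m * (x - 1)))) * h4
  · rw [sand01]
    simp only [eval_mul, eval_sub, eval_add, eval_C, eval_X, eval_one]
    linear_combination (((u.p * (x - 1) * (M 0 0).eval x + u.ms * (x + 1) * (M 1 0).eval x) *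
      (u.ms * (x - 1)) + (u.p * (x - 1) * (M 0 1).eval x + u.ms * (x + 1) * (M 1 1).eval x) *
      (u.p * (x + 1)))) * h4
  · rw [sand10]
    simp only [eval_mul, eval_sub, eval_add, eval_C, eval_X, eval_one]
    linear_combination (((u.m * (x + 1) * (M 0 0).eval x + u.ps * (x - 1) * (M 1 0).eval x) *
      (u.ps * (x + 1)) + (u.m * (x + 1) * (M 0 1).eval x + u.ps * (x - 1) * (M 1 1).eval x) *
      (u.m * (x - 1)))) * h4
  · rw [sand11]
    simp only [eval_mul, eval_sub, eval_add, eval_C, eval_X, eval_one]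
    linear_combination (((u.m * (x + 1) * (M 0 0).eval x + u.ps * (x - 1) * (M 1 0).eval x) *
      (u.ms * (x - 1)) + (u.m * (x + 1) * (M 0 1).eval x + u.ps * (x - 1) * (M 1 1).eval x) *
      (u.p * (x + 1)))) * h4

private theorem sand_s {k : ℕ} {s : Multiset (F × F)} {M' : Mat F} {u : Vtx F}
    (h : St (k + 1) (u.ab ::ₘ s) (u.sand M')) (hnd : ND u.ab) :
    (M' 0 0).comp (-X) = M' 1 1 ∧ (M' 0 1).comp (-X) = M' 0 1 ∧ (M' 1 0).comp (-X) = M' 1 0 := by
  obtain ⟨-, h0⟩ := Del_nd hnd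
  have key : ∀ x : F,
      (Del u).eval x * (((M' 0 0).comp (-X)).eval x - (M' 1 1).eval x) = 0 ∧
      (Del u).eval x * (((M' 0 1).comp (-X)).eval x - (M' 0 1).eval x) = 0 ∧
      (Del u).eval x * (((M' 1 0).comp (-X)).eval x - (M' 1 0).eval x) = 0 := by
    intro x
    simp only [eval_comp, eval_neg, eval_X]
    obtain ⟨a1, a2, a3, a4⟩ := sand_ev u M' x
    obtain ⟨b1, b2, b3, b4⟩ := sand_ev u M' (-x)
    have s1 := h.s00 x
    have s2 := h.s01 x
    have s3 := h.s10 x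
    have s4 := h.s00 (-x)
    rw [neg_neg] at s4
    rw [Del_eval]
    have := sand_zero (l00 := u.p * (x - 1)) (l01 := u.ms * (x + 1)) (l10 := u.m * (x + 1))
      (l11 := u.ps * (x - 1)) (r00 := u.ps * (x + 1)) (r01 := u.ms * (x - 1))
      (r10 := u.m * (x - 1)) (r11 := u.p * (x + 1))
      (e00 := (M' 1 1).eval (-x) - (M' 0 0).eval x) (e01 := (M' 0 1).eval (-x) - (M' 0 1).eval x)
      (e10 := (M' 1 0).eval (-x) - (M' 1 0).eval x) (e11 := (M' 0 0).eval (-x) - (M' 1 1).eval x)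
      (by linear_combination -4 * s4 + a1 - b4)
      (by linear_combination 4 * s2 + a2 - b2)
      (by linear_combination 4 * s3 + a3 - b3)
      (by linear_combination 4 * s1 + a4 - b1)
    exact ⟨this.2.2.2, this.2.1, this.2.2.1⟩
  exact ⟨eq_of_del h0 fun x _ => (key x).1, eq_of_del h0 fun x _ => (key x).2.1,
    eq_of_del h0 fun x _ => (key x).2.2⟩

private theorem sand_r {k : ℕ} {s : Multiset (F × F)} {M' : Mat F} {u : Vtx F}
    (h : St (k + 1) (u.ab ::ₘ s) (u.sand M')) (hnd : ND u.ab) :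
    (∀ x : F, x ≠ 0 → x ^ (2 * k) * (M' 0 0).eval x⁻¹ = (-1) ^ k * (M' 0 0).eval x) ∧
    (∀ x : F, x ≠ 0 → x ^ (2 * k) * (M' 0 1).eval x⁻¹ = -(-1) ^ k * (M' 0 1).eval x) ∧
    ∀ x : F, x ≠ 0 → x ^ (2 * k) * (M' 1 0).eval x⁻¹ = -(-1) ^ k * (M' 1 0).eval x := by
  obtain ⟨-, h0⟩ := Del_nd hnd
  have hdeg := sand_deg h.deg hnd
  have key : ∀ x : F, x ≠ 0 →
      (Del u).eval x * (x ^ (2 * k) * (M' 0 0).eval x⁻¹ - (-1) ^ k * (M' 0 0).eval x) = 0 ∧
      (Del u).eval x * (-(x ^ (2 * k) * (M' 0 1).eval x⁻¹) - (-1) ^ k * (M' 0 1).eval x) = 0 ∧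
      (Del u).eval x * (-(x ^ (2 * k) * (M' 1 0).eval x⁻¹) - (-1) ^ k * (M' 1 0).eval x) = 0 := by
    intro x hx
    obtain ⟨a1, a2, a3, a4⟩ := sand_ev u M' x
    obtain ⟨b1, b2, b3, b4⟩ := sand_ev u M' x⁻¹
    have s1 := h.r00 x hx
    have s2 := h.r01 x hx
    have s3 := h.r10 x hx
    have s4 : x ^ (2 * (k + 1)) * (u.sand M' 1 1).eval x⁻¹ =
        (-1) ^ (k + 1) * (u.sand M' 1 1).eval x := by
      rw [← h.s00 x⁻¹, ← h.s00 x, ← inv_neg, ← h.r00 (-x) (neg_ne_zero.2 hx),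
        Even.neg_pow (even_two_mul _)]
    have hxx : x * x⁻¹ = 1 := mul_inv_cancel₀ hx
    generalize x⁻¹ = y at *
    have e1 : x ^ (2 * (k + 1)) = x ^ (2 * k) * x ^ 2 := by ring
    have e2 : (-1 : F) ^ (k + 1) = -(-1) ^ k := by ring
    rw [e1, e2] at s1 s2 s3 s4
    generalize x ^ (2 * k) = z at *
    generalize (-1 : F) ^ k = w at *
    rw [Del_eval]
    generalize (M' 0 0).eval x = A00 at *
    generalize (M' 0 1).eval x = A01 at *
    generalize (M' 1 0).eval x = A10 at *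
    generalize (M' 1 1).eval x = A11 at *
    generalize (M' 0 0).eval y = B00 at *
    generalize (M' 0 1).eval y = B01 at *
    generalize (M' 1 0).eval y = B10 at *
    generalize (M' 1 1).eval y = B11 at *
    generalize (u.sand M' 0 0).eval x = P00 at *
    generalize (u.sand M' 0 1).eval x = P01 at *
    generalize (u.sand M' 1 0).eval x = P10 at *
    generalize (u.sand M' 1 1).eval x = P11 at *
    generalize (u.sand M' 0 0).eval y = Q00 at *
    generalize (u.sand M' 0 1).eval y = Q01 at *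
    generalize (u.sand M' 1 0).eval y = Q10 at *
    generalize (u.sand M' 1 1).eval y = Q11 at *
    generalize u.p = p at *
    generalize u.ps = ps at *
    generalize u.m = m at *
    generalize u.ms = ms at *
    have c1 : 4 * (x ^ 2 * Q00) = (p * (1 - x) * B00 + ms * (1 + x) * B10) * (ps * (1 + x)) +
        (p * (1 - x) * B01 + ms * (1 + x) * B11) * (m * (1 - x)) := by
      have e3 : (p * (1 - x) * B00 + ms * (1 + x) * B10) * (ps * (1 + x)) +
        (p * (1 - x) * B01 + ms * (1 + x) * B11) * (m * (1 - x)) =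
        (p * (x * y - x) * B00 + ms * (x * y + x) * B10) * (ps * (x * y + x)) +
        (p * (x * y - x) * B01 + ms * (x * y + x) * B11) * (m * (x * y - x)) := by rw [hxx]
      rw [e3]
      linear_combination x ^ 2 * b1
    have c2 : 4 * (x ^ 2 * Q01) = (p * (1 - x) * B00 + ms * (1 + x) * B10) * (ms * (1 - x)) +
        (p * (1 - x) * B01 + ms * (1 + x) * B11) * (p * (1 + x)) := by
      have e3 : (p * (1 - x) * B00 + ms * (1 + x) * B10) * (ms * (1 - x)) +
        (p * (1 - x) * B01 + ms * (1 + x) * B11) * (p * (1 + x)) =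
        (p * (x * y - x) * B00 + ms * (x * y + x) * B10) * (ms * (x * y - x)) +
        (p * (x * y - x) * B01 + ms * (x * y + x) * B11) * (p * (x * y + x)) := by rw [hxx]
      rw [e3]
      linear_combination x ^ 2 * b2
    have c3 : 4 * (x ^ 2 * Q10) = (m * (1 + x) * B00 + ps * (1 - x) * B10) * (ps * (1 + x)) +
        (m * (1 + x) * B01 + ps * (1 - x) * B11) * (m * (1 - x)) := by
      have e3 : (m * (1 + x) * B00 + ps * (1 - x) * B10) * (ps * (1 + x)) +
        (m * (1 + x) * B01 + ps * (1 - x) * B11) * (m * (1 - x)) =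
        (m * (x * y + x) * B00 + ps * (x * y - x) * B10) * (ps * (x * y + x)) +
        (m * (x * y + x) * B01 + ps * (x * y - x) * B11) * (m * (x * y - x)) := by rw [hxx]
      rw [e3]
      linear_combination x ^ 2 * b3
    have c4 : 4 * (x ^ 2 * Q11) = (m * (1 + x) * B00 + ps * (1 - x) * B10) * (ms * (1 - x)) +
        (m * (1 + x) * B01 + ps * (1 - x) * B11) * (p * (1 + x)) := by
      have e3 : (m * (1 + x) * B00 + ps * (1 - x) * B10) * (ms * (1 - x)) +
        (m * (1 + x) * B01 + ps * (1 - x) * B11) * (p * (1 + x)) =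
        (m * (x * y + x) * B00 + ps * (x * y - x) * B10) * (ms * (x * y - x)) +
        (m * (x * y + x) * B01 + ps * (x * y - x) * B11) * (p * (x * y + x)) := by rw [hxx]
      rw [e3]
      linear_combination x ^ 2 * b4
    have := sand_zero (l00 := p * (x - 1)) (l01 := ms * (x + 1)) (l10 := m * (x + 1))
      (l11 := ps * (x - 1)) (r00 := ps * (x + 1)) (r01 := ms * (x - 1))
      (r10 := m * (x - 1)) (r11 := p * (x + 1))
      (e00 := z * B00 - w * A00) (e01 := -(z * B01) - w * A01)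
      (e10 := -(z * B10) - w * A10) (e11 := z * B11 - w * A11)
      (by linear_combination -4 * s1 + z * c1 + w * a1)
      (by linear_combination 4 * s2 - z * c2 + w * a2)
      (by linear_combination 4 * s3 - z * c3 + w * a3)
      (by linear_combination -4 * s4 + z * c4 + w * a4)
    exact ⟨this.1, this.2.1, this.2.2.1⟩
  have e00 : (M' 0 0).reflect (2 * k) = C ((-1) ^ k) * M' 0 0 := by
    refine eq_of_del h0 fun x hx => ?_
    rw [← refl_eval (hdeg 0 0) hx, eval_mul, eval_C]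
    exact (key x hx).1
  have e01 : -(M' 0 1).reflect (2 * k) = C ((-1) ^ k) * M' 0 1 := by
    refine eq_of_del h0 fun x hx => ?_
    rw [eval_neg, ← refl_eval (hdeg 0 1) hx, eval_mul, eval_C]
    exact (key x hx).2.1
  have e10 : -(M' 1 0).reflect (2 * k) = C ((-1) ^ k) * M' 1 0 := by
    refine eq_of_del h0 fun x hx => ?_
    rw [eval_neg, ← refl_eval (hdeg 1 0) hx, eval_mul, eval_C]
    exact (key x hx).2.2
  refine ⟨fun x hx => ?_, fun x hx => ?_, fun x hx => ?_⟩
  · rw [refl_eval (hdeg 0 0) hx, e00, eval_mul, eval_C]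
  · have := congrArg (eval x) e01
    rw [eval_neg, eval_mul, eval_C] at this
    rw [refl_eval (hdeg 0 1) hx]
    linear_combination -this
  · have := congrArg (eval x) e10
    rw [eval_neg, eval_mul, eval_C] at this
    rw [refl_eval (hdeg 1 0) hx]
    linear_combination -this

theorem st_of_sand {k : ℕ} {s : Multiset (F × F)} {M' : Mat F} {u : Vtx F} (h : St (k + 1) (u.ab ::ₘ s) (u.sand M'))
    (hnd : ND u.ab) : St k s M' := by
  obtain ⟨hd, h0⟩ := Del_nd hnd
  obtain ⟨s1, s2, s3⟩ := sand_s h hnd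
  obtain ⟨r1, r2, r3⟩ := sand_r h hnd
  have t1 : ∀ x : F, (M' 0 0).eval (-x) = (M' 1 1).eval x := fun x => by
    rw [← s1, eval_comp, eval_neg, eval_X]
  have t2 : ∀ x : F, (M' 0 1).eval (-x) = (M' 0 1).eval x := fun x => by
    conv_rhs => rw [← s2, eval_comp, eval_neg, eval_X]
  have t3 : ∀ x : F, (M' 1 0).eval (-x) = (M' 1 0).eval x := fun x => by
    conv_rhs => rw [← s3, eval_comp, eval_neg, eval_X]
  refine ⟨?_, sand_deg h.deg hnd, t1, t2, t3, r1, r2, r3, ?_, ?_⟩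
  · have := h.card
    rw [Multiset.card_cons] at this
    omega
  · have h1 := h.det
    rw [det_sand, Multiset.map_cons, Multiset.prod_cons] at h1
    refine mul_left_cancel₀ ?_ h1
    intro h2
    apply h0
    rw [Del_eq, h2, mul_zero]
  · intro i hi
    have hi0 : i ≠ 0 := by
      intro h1
      rw [h1] at hi
      norm_num at hi
    have hinv : i⁻¹ = -i := by
      have h1 : i * -i = 1 := by linear_combination -hi
      exact inv_eq_of_mul_eq_one_right h1
    have hpow : i ^ (2 * k) = (-1) ^ k := by rw [pow_mul, hi]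
    have hw : ((-1 : F)) ^ k ≠ 0 := pow_ne_zero _ (by norm_num)
    have z1 : (M' 0 1).eval i = 0 := by
      have := r2 i hi0
      rw [hinv, t2, hpow] at this
      have h2 : (2 : F) * ((-1) ^ k * (M' 0 1).eval i) = 0 := by linear_combination this
      exact (mul_eq_zero.1 ((mul_eq_zero.1 h2).resolve_left (by norm_num))).resolve_left hw
    have z2 : (M' 1 0).eval i = 0 := by
      have := r3 i hi0
      rw [hinv, t3, hpow] at this
      have h2 : (2 : F) * ((-1) ^ k * (M' 1 0).eval i) = 0 := by linear_combination this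
      exact (mul_eq_zero.1 ((mul_eq_zero.1 h2).resolve_left (by norm_num))).resolve_left hw
    have z3 : (M' 1 1).eval i = (M' 0 0).eval i := by
      have := r1 i hi0
      rw [hinv, t1, hpow] at this
      exact mul_left_cancel₀ hw this
    have h1 := h.ev i hi
    rw [Multiset.map_cons, Multiset.prod_cons] at h1
    obtain ⟨a1, -, -, -⟩ := sand_ev u M' i
    rw [z1, z2, z3, h1] at a1
    have hp := p_mul_ps u
    have hm := m_mul_ms u
    have hb : (8 : F) * u.ab.2 ≠ 0 := mul_ne_zero (by norm_num) hnd.b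
    refine mul_left_cancel₀ hb ?_
    linear_combination a1 + (M' 0 0).eval i * (u.p * u.ps + u.m * u.ms) * hi -
      2 * (M' 0 0).eval i * (hp + hm)

/-- a state with no labels is trivial -/
theorem st_zero {s : Multiset (F × F)} {M : Mat F} (h : St 0 s M) (hi : ∃ i : F, i ^ 2 = -1) : s = 0 ∧ M = 1 := by
  have hs : s = 0 := Multiset.card_eq_zero.1 h.card
  refine ⟨hs, ?_⟩
  have hc : ∀ i j, ∃ c : F, M i j = C c := fun i j =>
    ⟨_, eq_C_of_natDegree_le_zero (by simpa using h.deg i j)⟩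
  obtain ⟨a, ha⟩ := hc 0 0
  obtain ⟨b, hb⟩ := hc 0 1
  obtain ⟨c, hc'⟩ := hc 1 0
  obtain ⟨d, hd⟩ := hc 1 1
  obtain ⟨i, hi⟩ := hi
  have h1 := h.s00 1
  have h2 := h.r01 1 one_ne_zero
  have h3 := h.r10 1 one_ne_zero
  have h4 := h.ev i hi
  rw [ha, hd, eval_C, eval_C] at h1
  rw [hb, eval_C, eval_C, mul_zero, pow_zero, pow_zero, one_mul] at h2
  rw [hc', eval_C, eval_C, mul_zero, pow_zero, pow_zero, one_mul] at h3
  rw [ha, eval_C, hs, Multiset.map_zero, Multiset.prod_zero, pow_zero, one_mul] at h4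
  have h5 : b = 0 := by
    have : (2 : F) * b = 0 := by linear_combination h2
    exact (mul_eq_zero.1 this).resolve_left (by norm_num)
  have h6 : c = 0 := by
    have : (2 : F) * c = 0 := by linear_combination h3
    exact (mul_eq_zero.1 this).resolve_left (by norm_num)
  ext1 k l
  fin_cases k <;> fin_cases l
  · change M 0 0 = 1
    rw [ha, h4, map_one]
  · change M 0 1 = 0
    rw [hb, h5, map_zero]
  · change M 1 0 = 0
    rw [hc', h6, map_zero]
  · change M 1 1 = 1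
    rw [hd, ← h1, h4, map_one]

end ES
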