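import Pool.Agent.H67.ES.PeelV
import Pool.Agent.H67.ES.PeelM
import Pool.Agent.H67.ES.PeelS

/-! # ES.PeelEx : existence of the first vertex (about 30 lines)

`vtx_of` with `P = (l+1) M_0j(l)`, `M = (l-1) M_1j(l)`; `eob ≠ 0` implies that both are nonzero, so the column is nonzero; `peel_div`, `st_of_sand`. -/

namespace ES

open Polynomial H68.BB

variable {F : Type} [Field F] [CharZero F] [IsAlgClosed F]

theorem peel_exists {k : ℕ} {s : Multiset (F × F)} {M : Mat F} {c : F × F} {al : F} (hst : St (k + 1) (c ::ₘ s) M) (hnd : ND c)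
    (hal : al ^ 2 = c.1 ^ 3) {l : F} (hl : al * (l ^ 2 + 1) = 2 * c.2 * l) {j : Fin 2}
    (he : eob ((l + 1) * (M 0 j).eval l) ((l - 1) * (M 1 j).eval l) al c.2 ≠ 0) :
    ∃ (u : Vtx F) (M' : Mat F), u.ab = c ∧ u.al = al ∧ M = u.sand M' ∧ St k s M' := by
  obtain ⟨u, hu, hual, hum⟩ := vtx_of (a := c.1) (b := c.2) (al := al) (show ND (c.1, c.2) from hnd) hal he
  have huc : u.ab = c := hu
  have hj : ∃ i, (M i j).eval l ≠ 0 := by
    refine ⟨0, fun h0 => he ?_⟩
    unfold eob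
    rw [h0]
    ring
  subst huc
  subst hual
  obtain ⟨M', hM'⟩ := peel_div (k := k) (s := s) hst hnd hl hj (by linear_combination hum)
  refine ⟨u, M', rfl, rfl, hM', ?_⟩
  rw [hM'] at hst
  exact st_of_sand hst hnd

end ES
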