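import Pool.Agent.H67.ES.Vlem

/-! # ES.PeelV : a vertex with given `(p : m)` -/

namespace ES

open Polynomial H68.BB

variable {F : Type} [Field F] [CharZero F] [IsAlgClosed F]

theorem vtx_of {a b al P M : F} (hnd : ND (a, b)) (hal : al ^ 2 = a ^ 3) (h : eob P M al b ≠ 0) :
    ∃ u : Vtx F, u.ab = (a, b) ∧ u.al = al ∧ u.p * M = u.m * P := by
  unfold eob at h
  have hX : al * (P + M) - b * (P - M) ≠ 0 := right_ne_zero_of_mul h
  have h1 : P * M * (P - M) ≠ 0 := left_ne_zero_of_mul h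
  have hPM : P - M ≠ 0 := right_ne_zero_of_mul h1
  have hP : P ≠ 0 := left_ne_zero_of_mul (left_ne_zero_of_mul h1)
  have hM : M ≠ 0 := right_ne_zero_of_mul (left_ne_zero_of_mul h1)
  have ha : a ≠ 0 := hnd.a
  have h2 : (2 : F) ≠ 0 := two_ne_zero
  obtain ⟨κ, hκ⟩ : ∃ κ, κ = (P + M) / (P - M) := ⟨_, rfl⟩
  have hκ' : κ * (P - M) = P + M := by rw [hκ]; exact div_mul_cancel₀ _ hPM
  have hk1 : κ ^ 2 - 1 ≠ 0 := by
    intro h0
    have : (κ * (P - M)) ^ 2 = (P - M) ^ 2 := by linear_combination (P - M) ^ 2 * h0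
    rw [hκ'] at this
    have h3 : 2 * 2 * (P * M) = 0 := by linear_combination this
    exact mul_ne_zero (mul_ne_zero h2 h2) (mul_ne_zero hP hM) h3
  have hk2 : κ * al - b ≠ 0 := by
    intro h0
    apply hX
    rw [← hκ']
    linear_combination (P - M) * h0
  obtain ⟨v, hv⟩ := IsAlgClosed.exists_pow_nat_eq (2 * (κ * al - b) / (κ ^ 2 - 1)) (n := 6) (by norm_num)
  have hv0 : v ≠ 0 := by
    rintro rfl
    rw [zero_pow (by norm_num)] at hv
    exact div_ne_zero (mul_ne_zero h2 hk2) hk1 hv.symm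
  have hv' : v ^ 6 * (κ ^ 2 - 1) = 2 * (κ * al - b) := by rw [hv]; exact div_mul_cancel₀ _ hk1
  obtain ⟨w, hw⟩ : ∃ w, w = al / (a * v) := ⟨_, rfl⟩
  have hwv : w * v * a = al := by rw [hw]; field_simp
  have hwv2 : (w * v) ^ 2 = a := by
    apply mul_right_cancel₀ (pow_ne_zero 2 ha)
    have : (w * v * a) ^ 2 = al ^ 2 := by rw [hwv]
    rw [hal] at this
    linear_combination this
  have hwv3 : (w * v) ^ 3 = al := by
    rw [← hwv]
    linear_combination (w * v) * hwv2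
  refine ⟨⟨w, v, κ * v ^ 3 - w ^ 3⟩, ?_, hwv3, ?_⟩
  · apply Prod.ext
    · exact hwv2
    · show (w ^ 6 + v ^ 6 - (κ * v ^ 3 - w ^ 3) ^ 2) / 2 = b
      rw [div_eq_iff h2]
      linear_combination -hv' + 2 * κ * hwv3
  · show (w ^ 3 + v ^ 3 + (κ * v ^ 3 - w ^ 3)) * M = (w ^ 3 - v ^ 3 + (κ * v ^ 3 - w ^ 3)) * P
    linear_combination -v ^ 3 * hκ'

omit [IsAlgClosed F] in
/-- conversely, `eob` does not vanish on a vertex -/
theorem eob_vtx {u : Vtx F} (hnd : ND u.ab) {t : F} (ht : t ≠ 0) {P M : F} (hP : P = t * u.p) (hM : M = t * u.m) :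
    eob P M u.al u.ab.2 ≠ 0 := by
  obtain ⟨hal, hw, hv, hp, hps, hm, hms, -, -⟩ := hnd.ne
  have h2 : (2 : F) ≠ 0 := two_ne_zero
  have key : eob P M u.al u.ab.2 = 2 * t ^ 4 * u.v ^ 6 * u.p ^ 2 * u.m ^ 2 := by
    have hb : 2 * u.ab.2 = u.w ^ 6 + u.v ^ 6 - u.y ^ 2 := by
      show 2 * ((u.w ^ 6 + u.v ^ 6 - u.y ^ 2) / 2) = _
      field_simp
    have e1 : u.p - u.m = 2 * u.v ^ 3 := by unfold Vtx.p Vtx.m; ring
    have e2 : 2 * (u.al * (u.p + u.m) - u.ab.2 * (u.p - u.m)) = 2 * (u.v ^ 3 * u.p * u.m) := by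
      have : 2 * (u.al * (u.p + u.m) - u.ab.2 * (u.p - u.m)) = 2 * u.al * (u.p + u.m) - (2 * u.ab.2) * (u.p - u.m) := by
        ring
      rw [this, hb]
      unfold Vtx.al Vtx.p Vtx.m
      ring
    have e3 := mul_left_cancel₀ h2 e2
    unfold eob
    rw [hP, hM]
    have e4 : t * u.p * (t * u.m) * (t * u.p - t * u.m) * (u.al * (t * u.p + t * u.m) - u.ab.2 * (t * u.p - t * u.m)) =
        t ^ 4 * u.p * u.m * (u.p - u.m) * (u.al * (u.p + u.m) - u.ab.2 * (u.p - u.m)) := by ring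
    rw [e4, e3, e1]
    ring
  rw [key]
  exact mul_ne_zero (mul_ne_zero (mul_ne_zero (mul_ne_zero h2 (pow_ne_zero _ ht)) (pow_ne_zero _ hv)) (pow_ne_zero _ hp))
    (pow_ne_zero _ hm)

end ES
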