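import Pool.Agent.H67.ES.FacSig
import Pool.Agent.H67.ES.Cus

/-! # ES.Stab : the weighted multiset of all factorisations of a Galois stable family is Galois stable (about 100 lines)

Put `G m := (cuM ..).bind (fun q => (L / card (fcM W m q.1 q.2)) • ((Z6 k K).card • (fcM W m q.1 q.2).map (ptsL k)))`, so `SS = M.bind G`.  Claim `(G m).map (fun P i => (P i).map σ) = G (m.map σ)`: `Multiset.map_bind`, `Multiset.map_nsmul`, `Multiset.map_map`;
`cu_sigma` (with `A_sigma`) rewrites the cusps of `m.map σ` as the image of those of `m`, then `Multiset.bind_map` and `Multiset.bind_congr`; `fcM_sigma`, the cardinalities agree (`Multiset.card_map`); for `f ∈ fcM`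
`ptsL_sigma` (all members of `fcM W m _ _` have length `k` by `hlen`; use `Multiset.map_congr`).  Then `(M.bind G).map _ = M.bind (fun m => G (m.map σ)) = (M.map (Ms.map σ)).bind G = M.bind G` (`Multiset.bind_map`). -/

namespace ES

open Polynomial H68.BB

variable {K : Type} [Field K] [IsAlgClosed K] {s : ℕ} {W : Wm K s}

/-- the weighted multiset of all factorisations of the members of a family -/
noncomputable def SS (W : Wm K s) (k : ℕ) (z : K) (L : ℕ) (M : Multiset (Ms s (Om K))) : Multiset (Fin k → Pt s (Om K)) :=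
  M.bind fun m => (cuM (algebraMap K (Om K) z) m.x (m.A W)).bind fun q =>
    (L / Multiset.card (fcM W m q.1 q.2)) • ((Z6 k K).card • (fcM W m q.1 q.2).map (ptsL k))

/-- the weighted factorisations of one state -/
private noncomputable def sb_G (W : Wm K s) (k : ℕ) (z : K) (L : ℕ) (m : Ms s (Om K)) :
    Multiset (Fin k → Pt s (Om K)) :=
  (cuM (algebraMap K (Om K) z) m.x (m.A W)).bind fun q =>
    (L / Multiset.card (fcM W m q.1 q.2)) • ((Z6 k K).card • (fcM W m q.1 q.2).map (ptsL k))

private theorem sb_one {k : ℕ} {z : K} {L : ℕ} {m : Ms s (Om K)} (hm : Multiset.card m.B = k)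
    (σ : Om K ≃ₐ[RatFunc K] Om K) :
    (sb_G W k z L m).map (fun P i => (P i).map σ) = sb_G W k z L (m.map (σ : Om K →+* Om K)) := by
  unfold sb_G
  have hx : (m.map (σ : Om K →+* Om K)).x = σ m.x := rfl
  rw [hx, A_sigma, ← cu_sigma σ z m.x (m.A W), Multiset.bind_map, Multiset.map_bind]
  refine Multiset.bind_congr fun q _ => ?_
  rw [Multiset.map_nsmul, Multiset.map_nsmul, Multiset.map_map]
  simp only [fcM_sigma, Multiset.card_map, Multiset.map_map]
  congr 2
  refine Multiset.map_congr rfl fun f hf => ?_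
  have hk : f.length = k := (FacS_len (fcM_mem hf)).trans hm
  simp only [Function.comp_apply]
  exact (ptsL_sigma σ hk).symm

theorem SS_stab {k : ℕ} {z : K} {L : ℕ} {M : Multiset (Ms s (Om K))} (hlen : ∀ m ∈ M, Multiset.card m.B = k)
    (hM : ∀ σ : Om K ≃ₐ[RatFunc K] Om K, M.map (Ms.map (σ : Om K →+* Om K)) = M) : GalStable (SS W k z L M) := by
  intro σ
  have h1 : SS W k z L M = M.bind (sb_G W k z L) := rfl
  rw [h1, Multiset.map_bind]
  have h2 : (M.bind fun m => (sb_G W k z L m).map (fun P i => (P i).map σ)) =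
      M.bind fun m => sb_G W k z L (m.map (σ : Om K →+* Om K)) :=
    Multiset.bind_congr fun m hm => sb_one (hlen m hm) σ
  rw [h2]
  conv_rhs => rw [← hM σ]
  rw [Multiset.bind_map]

end ES
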