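import Pool.Agent.H67.ES.FacLim
import Pool.Agent.H67.ES.Stab

/-! # ES.RelS : THE RELATION: the sum of the classes over the eight cusps of a state which moves in a family (about 200 lines)

`hF`: `M`, `π0`, `π1`.  `N m q := card (fcM W m q.1 q.2)`, `L := ∏` of all `N m q` over `m ∈ M`, `q ∈ cuM z' m.x (m.A W)` (the product of the multiset `M.bind (fun m => (cuM ..).map (N m))`), `S := SS W k z L M`.
Let `m ∈ M`.  `m.A W` reduces to `m0.A W` (`RdS.B`, `rd_ev`, product over related multisets: induction on `Multiset.Rel`).  `cu_rd` and `hR` compose (`Multiset.Rel` composition: induction with `Multiset.rel_cons_left`):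
`Multiset.Rel (fun q e => ∃ q0 f0, Rd q.1 q0.1 ∧ Rd q.2 q0.2 ∧ GFac W k m0 q0.1 q0.2 f0 ∧ Psi W k f0 = e) (cuM z' m.x (m.A W)) E`.  For such `q`, `e`: `cu_mem` (`z'^3 = 1`), `fac_lim`: `0 < N m q` and the multiset of `q` has limit
`(L / N m q) • (N m q • e) = L • e` (`Lim.nsmul`, proved below by induction from `Lim.add`, `Lim.zero`; `N m q ∣ L`: `Multiset.dvd_prod`, `Nat.div_mul_cancel`, `smul_smul`).  `Lim.bind`: the part of `m` has limit `(E.map (fun e => L • e)).sum = L • E.sum`;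
`Lim.bind_const`: `Lim W π0 S (card M • (L • E.sum))`.  `L > 0`, `card M > 0`.
At `π1` every tuple `P = ptsL k f` of `S` (`f ∈ FacS W m q.1 q.2`, `cu_mem`) has limit class `0`: let `g ∈ f` be as in `Fam`, `g = nth f i`, `p` the point of `Nul`; choose specialisations `Q j` of the other points (`Sp_exists`, `NZ` from `OnW`), `Q i := p`; all are on `W` (`Sp_onW`), so
`cls W Q = 0`.  So `Lim W π1 S 0` (`Lim.bind_const` with class `0`, `Lim.nsmul`, `Lim.map_zero`; or show directly `Lim.map_zero` for `S` written as `S.map id`).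
`AllOn W S`: the base points of `f` are those of `m` (`OnS.I`, `OnS.ne`), the labels give the equation (`y^2 = x^3 - 3 (w v)^2 x - (w^6 + v^6 - y^2)` for `x = w^2 + v^2`).  `GalStable S`: `SS_stab`.  `Lim.eq`: `card M • (L • E.sum) = 0`. -/

namespace ES

open Polynomial H68.BB

variable {K : Type} [Field K] [IsAlgClosed K] [CharZero K] {s : ℕ} {W : Wm K s}

theorem Lim.nsmul {k : ℕ} {π : Place K (Om K)} {S : Multiset (Fin k → Pt s (Om K))} {c : AA k W} (h : Lim W π S c) (n : ℕ) :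
    Lim W π (n • S) (n • c) := by
  induction n with
  | zero =>
    rw [zero_nsmul, zero_nsmul]
    exact Lim.zero
  | succ n ih =>
    rw [succ_nsmul, succ_nsmul]
    exact Lim.add ih h

private theorem rel_comp {α β γ : Type} {r : α → β → Prop} {p : β → γ → Prop} {A : Multiset α} {B : Multiset β}
    (h : Multiset.Rel r A B) : ∀ {D : Multiset γ}, Multiset.Rel p B D →
      Multiset.Rel (fun a c => ∃ b, r a b ∧ p b c) A D := by
  induction h with
  | zero =>
    intro D h'
    rw [Multiset.rel_zero_left] at h'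
    rw [h']
    exact Multiset.Rel.zero
  | @cons a b as bs hab hs ih =>
    intro D h'
    rw [Multiset.rel_cons_left] at h'
    obtain ⟨c, cs, hbc, hcs, rfl⟩ := h'
    exact Multiset.Rel.cons ⟨b, hab, hbc⟩ (ih hcs)

omit [IsAlgClosed K] [CharZero K] in
private theorem A_rd {π : Place K (Om K)} {B : Multiset (Fin s → Om K)} {B0 : Multiset (Fin s → K)}
    (h : Multiset.Rel (fun (β : Fin s → Om K) (β0 : Fin s → K) => ∀ i, Rd π.V π.φ (β i) (β0 i)) B B0)
    (q : MvPolynomial (Fin s) K) :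
    Rd π.V π.φ (B.map (fun β => ev q β)).prod (B0.map (fun β => ev q β)).prod := by
  induction h with
  | zero =>
    rw [Multiset.map_zero, Multiset.map_zero, Multiset.prod_zero, Multiset.prod_zero]
    exact Rd.one
  | cons hab hs ih =>
    rw [Multiset.map_cons, Multiset.prod_cons, Multiset.map_cons, Multiset.prod_cons]
    exact (rd_ev q hab).mul ih

omit [IsAlgClosed K] in
private theorem link_onW {k : ℕ} {m : Ms s (Om K)} (hm : OnS W k m) {w v : Om K} {f : List (Lk s (Om K))}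
    (hf : f ∈ FacS W m w v) {g : Lk s (Om K)} (hg : g ∈ f) : OnW W g.pt := by
  have hB : g.1 ∈ m.B := by
    rw [← hf.1]
    exact Multiset.mem_coe.2 (List.mem_map_of_mem hg)
  have hl := hf.2.1 g hg
  have h1 : (g.2.w * g.2.v) ^ 2 = ev W.a g.1 := congrArg Prod.fst hl
  have h2 : (g.2.w ^ 6 + g.2.v ^ 6 - g.2.y ^ 2) / 2 = ev W.b g.1 := congrArg Prod.snd hl
  have h3 : g.2.w ^ 6 + g.2.v ^ 6 - g.2.y ^ 2 = 2 * ev W.b g.1 := by
    rw [← h2]
    field_simp
  refine ⟨Or.inl (hm.ne _ hB), hm.I _ hB, ?_⟩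
  show g.2.y ^ 2 = (g.2.w ^ 2 + g.2.v ^ 2) ^ 3 - 3 * ev W.a g.1 * (g.2.w ^ 2 + g.2.v ^ 2) - 2 * ev W.b g.1
  rw [← h1, ← h3]
  ring

omit [IsAlgClosed K] [CharZero K] in
private theorem nth_mem {F : Type} [Field F] {f : List (Lk s F)} {i : ℕ} (h : i < f.length) : nth f i ∈ f := by
  unfold nth
  rw [List.getD_eq_getElem _ _ h]
  exact List.getElem_mem h

private theorem null_pts (hW : W.Ok) {k : ℕ} {π : Place K (Om K)} {m : Ms s (Om K)} (hm : OnS W k m) {w v : Om K}
    {f : List (Lk s (Om K))} (hf : f ∈ FacS W m w v) (hlen : f.length = k) {g : Lk s (Om K)} (hg : g ∈ f)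
    (hn : Nul W k π g.pt) : ∃ p, SpT W π (ptsL k f) p ∧ cls W p = 0 := by
  classical
  have hon : ∀ j : Fin k, OnW W (ptsL k f j) := by
    intro j
    exact link_onW hm hf (nth_mem (by rw [hlen]; exact j.2))
  obtain ⟨p, hp, hcl⟩ := hn
  choose Q hQ using fun j : Fin k => Sp_exists hW π (hon j).1
  obtain ⟨i, hi, hgi⟩ := List.getElem_of_mem hg
  have hik : i < k := by rw [← hlen]; exact hi
  have hnth : nth f i = g := by
    unfold nth
    rw [List.getD_eq_getElem _ _ hi, hgi]
  have hsp : SpT W π (ptsL k f) (Function.update Q ⟨i, hik⟩ p) := by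
    intro j
    by_cases h : j = ⟨i, hik⟩
    · subst h
      rw [Function.update_self]
      show Sp W π (nth f i).pt p
      rw [hnth]
      exact hp
    · rw [Function.update_of_ne h]
      exact hQ j
  refine ⟨Function.update Q ⟨i, hik⟩ p, hsp, ?_⟩
  exact hcl _ ⟨i, hik⟩ (fun j => Sp_onW hW (hon j) (hsp j)) (Function.update_self _ _ _)

theorem rel (hW : W.Ok) {k : ℕ} (hk : 0 < k) (h1 : CS1 W k) {m0 : Ms s K} (hm0 : OnS W k m0) (hsep : SepB W m0.B) {z : K}
    (hz : z ^ 3 = 1) (hF : Fam W k z m0) {E : Multiset (AA k W)}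
    (hR : Multiset.Rel (fun (q : K × K) (e : AA k W) => ∃ f : List (Lk s K), GFac W k m0 q.1 q.2 f ∧ Psi W k f = e)
      (cuM z m0.x (m0.A W)) E) : IsOfFinAddOrder E.sum := by
  obtain ⟨M, π0, π1, hM0, hOn, hGal, hRd, hNul⟩ := hF
  have hz' : (algebraMap K (Om K) z) ^ 3 = 1 := by rw [← map_pow, hz, map_one]
  have hlen : ∀ m ∈ M, Multiset.card m.B = k := by
    intro m hm
    have h2 := (hOn m hm).st.card
    rwa [Multiset.card_map] at h2
  have hflen : ∀ m ∈ M, ∀ w v : Om K, ∀ f ∈ FacS W m w v, f.length = k := by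
    intro m hm w v f hf
    rw [FacS_len hf]
    exact hlen m hm
  -- the cusps of the members
  have hrel : ∀ m ∈ M, Multiset.Rel (fun (q : Om K × Om K) (e : AA k W) => ∃ q0 : K × K,
      (Rd π0.V π0.φ q.1 q0.1 ∧ Rd π0.V π0.φ q.2 q0.2) ∧ ∃ f : List (Lk s K), GFac W k m0 q0.1 q0.2 f ∧ Psi W k f = e)
      (cuM (algebraMap K (Om K) z) m.x (m.A W)) E := by
    intro m hm
    exact rel_comp (cu_rd z (hRd m hm).x (A_rd (hRd m hm).B W.a)) hR
  set N : Ms s (Om K) → Om K × Om K → ℕ := fun m q => Multiset.card (fcM W m q.1 q.2) with hN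
  set L : ℕ := (M.bind (fun m => (cuM (algebraMap K (Om K) z) m.x (m.A W)).map (fun q => N m q))).prod with hL
  have hlim : ∀ m ∈ M, ∀ q ∈ cuM (algebraMap K (Om K) z) m.x (m.A W), ∀ (e : AA k W),
      (∃ q0 : K × K, (Rd π0.V π0.φ q.1 q0.1 ∧ Rd π0.V π0.φ q.2 q0.2) ∧
        ∃ f : List (Lk s K), GFac W k m0 q0.1 q0.2 f ∧ Psi W k f = e) →
      0 < N m q ∧ Lim W π0 ((Z6 k K).card • (fcM W m q.1 q.2).map (ptsL k)) (N m q • e) := by
    rintro m hm q hq e ⟨q0, ⟨hw, hv⟩, f, hf, rfl⟩
    obtain ⟨h2, h3⟩ := cu_mem hz' hq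
    exact fac_lim hk h1 (hOn m hm) hm0 hsep (hRd m hm) hz hw hv h2 h3 hf
  have hNpos : ∀ m ∈ M, ∀ q ∈ cuM (algebraMap K (Om K) z) m.x (m.A W), 0 < N m q := by
    intro m hm q hq
    obtain ⟨e, -, he⟩ := Multiset.exists_mem_of_rel_of_mem (hrel m hm) hq
    exact (hlim m hm q hq e he).1
  have hdvd : ∀ m ∈ M, ∀ q ∈ cuM (algebraMap K (Om K) z) m.x (m.A W), N m q ∣ L := by
    intro m hm q hq
    apply Multiset.dvd_prod
    rw [Multiset.mem_bind]
    exact ⟨m, hm, Multiset.mem_map_of_mem _ hq⟩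
  have hL0 : 0 < L := by
    rw [Nat.pos_iff_ne_zero]
    intro h0
    have h2 : (0 : ℕ) ∈ M.bind (fun m => (cuM (algebraMap K (Om K) z) m.x (m.A W)).map (fun q => N m q)) :=
      Multiset.prod_eq_zero_iff.1 h0
    rw [Multiset.mem_bind] at h2
    obtain ⟨m, hm, h3⟩ := h2
    obtain ⟨q, hq, h4⟩ := Multiset.mem_map.1 h3
    have := hNpos m hm q hq
    omega
  have hcM : 0 < Multiset.card M := Multiset.card_pos.2 hM0
  -- the limit at `π0`
  have hA : Lim W π0 (SS W k z L M) (Multiset.card M • (L • E.sum)) := by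
    unfold SS
    refine Lim.bind_const M _ _ fun m hm => ?_
    have h2 := Lim.bind (W := W) (π := π0) (hrel m hm) (fun q => (L / Multiset.card (fcM W m q.1 q.2)) •
      ((Z6 k K).card • (fcM W m q.1 q.2).map (ptsL k))) (fun e => L • e) (fun q hq e _ he => by
        obtain ⟨h3, h4⟩ := hlim m hm q hq e he
        have h5 := Lim.nsmul h4 (L / N m q)
        have h6 : (L / N m q) • (N m q • e) = L • e := by
          rw [← mul_nsmul', Nat.div_mul_cancel (hdvd m hm q hq)]
        rw [h6] at h5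
        exact h5)
    rw [Multiset.sum_map_nsmul, Multiset.map_id'] at h2
    exact h2
  -- the limit at `π1`
  have hB : Lim W π1 (SS W k z L M) 0 := by
    unfold SS
    have h2 := Lim.bind_const (W := W) (π := π1) M (fun m => (cuM (algebraMap K (Om K) z) m.x (m.A W)).bind fun q =>
      (L / Multiset.card (fcM W m q.1 q.2)) • ((Z6 k K).card • (fcM W m q.1 q.2).map (ptsL k))) 0 (fun m hm => by
        have h3 := Lim.bind_const (W := W) (π := π1) (cuM (algebraMap K (Om K) z) m.x (m.A W)) (fun q =>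
          (L / Multiset.card (fcM W m q.1 q.2)) • ((Z6 k K).card • (fcM W m q.1 q.2).map (ptsL k))) 0 (fun q hq => by
            have h4 : Lim W π1 ((fcM W m q.1 q.2).map (ptsL k)) 0 := by
              refine Lim.map_zero _ _ fun f hf => ?_
              have hf' := fcM_mem hf
              obtain ⟨h5, h6⟩ := cu_mem hz' hq
              obtain ⟨g, hg, hn⟩ := hNul m hm q.1 q.2 h6 f hf'
              exact null_pts hW (hOn m hm) hf' (hflen m hm _ _ f hf') hg hn
            have h7 := Lim.nsmul (Lim.nsmul h4 (Z6 k K).card) (L / Multiset.card (fcM W m q.1 q.2))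
            rw [smul_zero, smul_zero] at h7
            exact h7)
        rw [smul_zero] at h3
        exact h3)
    rw [smul_zero] at h2
    exact h2
  have hon : AllOn W (SS W k z L M) := by
    intro P hP i
    unfold SS at hP
    rw [Multiset.mem_bind] at hP
    obtain ⟨m, hm, hP⟩ := hP
    rw [Multiset.mem_bind] at hP
    obtain ⟨q, hq, hP⟩ := hP
    obtain ⟨f, hf, rfl⟩ := Multiset.mem_map.1 (Multiset.mem_of_mem_nsmul (Multiset.mem_of_mem_nsmul hP))
    have hf' := fcM_mem hf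
    exact link_onW (hOn m hm) hf' (nth_mem (by rw [hflen m hm _ _ f hf']; exact i.2))
  have h0 : Multiset.card M • (L • E.sum) = 0 := Lim.eq hon (SS_stab hlen hGal) hA hB
  rw [smul_smul] at h0
  exact isOfFinAddOrder_iff_nsmul_eq_zero.2 ⟨Multiset.card M * L, Nat.mul_pos hcM hL0, h0⟩

end ES
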