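import Pool.Agent.H71.ES.Mod
import Pool.Agent.H34.ES.Lim

/-! # ES.Vtx : vertices `(w, v, y)` over a point of the base, the matrices `LL`, `LS`, and the product `XX f`
(common definitions, no sorry)

A vertex over `(a, b)` is `u = (w, v, y)` with `(w v)^2 = a`, `y^2 = w^6 + v^6 - 2 b`; it gives the point
`(x, y) = (w^2 + v^2, y)` of `y^2 = x^3 - 3 a x - 2 b`, and every point with `a ≠ 0` arises.  With `r = w^3`, `r' = v^3`,
`p = r + r' + y`, `p* = r + r' - y`, `m = r - r' + y`, `m* = r - r' - y`, `α = r r'`: `p p* = 2 (b + α)`, `m m* = 2 (b - α)`, and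
`LL u = [[(l-1) p, (l+1) m*], [(l+1) m, (l-1) p*]]`, `LS u = [[(l+1) p*, (l-1) m*], [(l-1) m, (l+1) p]]`,
`XX [u_1, .., u_k] = LL u_1 ... LL u_k LS u_k ... LS u_1 / 4^k`.

Dictionary with `H71.ES.Mdl`: `XX f = (-1)^k [[t + l s, -u], [v, t - l s]]` (`s`, `t`, `u`, `v` evaluated at `L = l^2`). -/

namespace ES

open Polynomial H68.BB

/-- a vertex -/
@[ext] structure Vtx (F : Type) where
  w : F
  v : F
  y : F

namespace Vtx

/-- apply a map to the coordinates -/
def map {F G : Type} (f : F → G) (u : Vtx F) : Vtx G := ⟨f u.w, f u.v, f u.y⟩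

variable {F : Type} [Field F] (u : Vtx F)

def p : F := u.w ^ 3 + u.v ^ 3 + u.y
def ps : F := u.w ^ 3 + u.v ^ 3 - u.y
def m : F := u.w ^ 3 - u.v ^ 3 + u.y
def ms : F := u.w ^ 3 - u.v ^ 3 - u.y
def al : F := (u.w * u.v) ^ 3

/-- the coefficients `(a, b)` of the curve on which the point `(w^2 + v^2, y)` lies -/
def ab : F × F := ((u.w * u.v) ^ 2, (u.w ^ 6 + u.v ^ 6 - u.y ^ 2) / 2)

/-- the other vertices with the same matrices up to sign and the same `w v`, for `z^6 = 1` -/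
def rot (z : F) : Vtx F := ⟨z * u.w, z⁻¹ * u.v, z ^ 3 * u.y⟩

/-- the move `F`: the point `(x, y)` becomes `(x, -y)`, `al` becomes `-al` -/
def flip : Vtx F := ⟨u.w, -u.v, -u.y⟩

/-- `LL u` -/
noncomputable def LL : Matrix (Fin 2) (Fin 2) F[X] :=
  !![C u.p * (X - 1), C u.ms * (X + 1); C u.m * (X + 1), C u.ps * (X - 1)]

/-- `LS u` -/
noncomputable def LS : Matrix (Fin 2) (Fin 2) F[X] :=
  !![C u.ps * (X + 1), C u.ms * (X - 1); C u.m * (X - 1), C u.p * (X + 1)]

/-- `LL u * M * LS u / 4` -/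
noncomputable def sand (M : Matrix (Fin 2) (Fin 2) F[X]) : Matrix (Fin 2) (Fin 2) F[X] :=
  (C (4⁻¹ : F)) • (u.LL * M * u.LS)

end Vtx

section
variable {F : Type} [Field F]

/-- the product of a list of vertices -/
noncomputable def XX : List (Vtx F) → Matrix (Fin 2) (Fin 2) F[X]
  | [] => 1
  | u :: f => u.sand (XX f)

/-- the total vertex: product of the matrices `[[w^3, y], [0, v^3]]`, with `w` and `v` multiplied -/
def tot : List (Vtx F) → Vtx F
  | [] => ⟨1, 1, 0⟩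
  | u :: f => ⟨u.w * (tot f).w, u.v * (tot f).v, u.w ^ 3 * (tot f).y + u.y * (tot f).v ^ 3⟩

/-- change of the cusp: `diag(1, c) M diag(1, 1/c)` -/
noncomputable def scale (c : F) (M : Matrix (Fin 2) (Fin 2) F[X]) : Matrix (Fin 2) (Fin 2) F[X] :=
  !![M 0 0, C c⁻¹ * M 0 1; C c * M 1 0, M 1 1]

/-- recutting: `N(g1) N(g2) = N(h2) N(h1)` where `N(u) = [[p, z ms], [z m, ps]]`; `h2` has the label of `g2`, `h1` that of `g1` -/
structure Recut (g1 g2 h2 h1 : Vtx F) : Prop where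
  ab1 : h1.ab = g1.ab
  ab2 : h2.ab = g2.ab
  al1 : h1.al = g1.al
  al2 : h2.al = g2.al
  w : g1.w * g2.w = h2.w * h1.w
  v : g1.v * g2.v = h2.v * h1.v
  pp : g1.p * g2.p = h2.p * h1.p
  qq : g1.ps * g2.ps = h2.ps * h1.ps
  mm : g1.ms * g2.m = h2.ms * h1.m
  nn : g1.m * g2.ms = h2.m * h1.ms
  e12 : g1.p * g2.ms + g1.ms * g2.ps = h2.p * h1.ms + h2.ms * h1.ps
  e21 : g1.m * g2.p + g1.ps * g2.m = h2.m * h1.p + h2.ps * h1.m

end

/-- a link: a point of the base (homogeneous coordinates) with a vertex -/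
abbrev Lk (s : ℕ) (F : Type) : Type := (Fin s → F) × Vtx F

namespace Lk

variable {s : ℕ} {F : Type} [Field F]

/-- the point of the surface -/
def pt (g : Lk s F) : Pt s F := ⟨g.1, g.2.w ^ 2 + g.2.v ^ 2, g.2.y⟩

/-- apply a map to all coordinates -/
def map {G : Type} (f : F → G) (g : Lk s F) : Lk s G := (fun i => f (g.1 i), g.2.map f)

/-- the base point is on the base, and the vertex is over it -/
structure Ok {K : Type} [Field K] [Algebra K F] (W : Wm K s) (g : Lk s F) : Prop where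
  I : ∀ f ∈ W.I, ev f g.1 = 0
  ab : g.2.ab = (ev W.a g.1, ev W.b g.1)

end Lk

end ES
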